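import Mathlib
import Pool.Agent.Lib.MP_544bd1_al.GenBX
import Pool.Agent.Lib.MP_544bd1_al.EvM2
import Pool.Agent.Lib.MP_544bd1_al.Detect
import Pool.Agent.Lib.MP_544bd1_al.Defs

section

/-!
# A checker for vector enumerations

The data of a vector enumeration consist of a table of levels `(k, m)` (`k` factors `X` and `m`
other letters). This file only contains the definitions of the checker.
-/

namespace Pool.Agent.Lib.MP_544bd1_al.E5

/-- Lie expressions in `X` and letters -/
inductive LE
  | X : LE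
  | y : ℕ → LE
  | b : LE → LE → LE

/-- sum of vectors modulo five -/
def addV : List ℕ → List ℕ → List ℕ
  | [], w => w
  | a :: v, [] => a :: v
  | a :: v, b :: w => ((a + b) % 5) :: addV v w

/-- multiple of a vector modulo five -/
def smulV (c : ℕ) : List ℕ → List ℕ
  | [] => []
  | a :: v => ((c * a) % 5) :: smulV c v

/-- linear combination of the rows of a matrix -/
def mulRows : List ℕ → List (List ℕ) → List ℕ
  | [], _ => []
  | _ :: _, [] => []
  | a :: v, r :: M => bif a == 0 then mulRows v M else addV (smulV a r) (mulRows v M)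

/-- sum of block vectors -/
def addB : List (List ℕ) → List (List ℕ) → List (List ℕ)
  | [], w => w
  | a :: v, [] => a :: v
  | a :: v, b :: w => addV a b :: addB v w

/-- multiple of a block vector -/
def smulB (c : ℕ) : List (List ℕ) → List (List ℕ)
  | [] => []
  | a :: v => smulV c a :: smulB c v

/-- insert the label `l` in a list of labels; the result is the position and the new list -/
def ins (l : ℕ) : List ℕ → ℕ × List ℕ
  | [] => (0, [l])
  | a :: U => bif Nat.ble l a then (0, l :: a :: U) else ((ins l U).1 + 1, a :: (ins l U).2)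

/-- a relation used for a level -/
inductive RelD
  | outer : RelD
  | comm : ℕ → ℕ → ℕ → RelD
  | s4 : ℕ → ℕ → List ℕ → LE → LE → LE → LE → RelD
  | t4 : ℕ → ℕ → List ℕ → LE → LE → LE → LE → LE → RelD
  | s3 : ℕ → ℕ → List ℕ → LE → LE → LE → RelD
  | t3 : ℕ → ℕ → List ℕ → LE → LE → LE → LE → RelD

/-- a level: the words of the basis, their positions among the unknowns, the rows for the
multiplication with `X` and with a letter inserted at place `j`, the relations, and the
certificates. -/
structure Level where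
  words : List (List ℕ)
  pos : List (ℕ × ℕ)
  rowsX : List (List ℕ)
  rowsY : List (List (List ℕ))
  rels : List RelD
  certX : List (List ℕ)
  certY : List (List (List ℕ))

/-- a state: number of factors `X`, list of labels, vector -/
structure St where
  k : ℕ
  U : List ℕ
  v : List ℕ

section
variable (T : ℕ → ℕ → Option Level)

/-- multiplication of a state with a Lie expression -/
def app : LE → Option St → Option St
  | LE.X, o => o.bind fun s => (T (s.k + 1) s.U.length).bind fun lv =>
      some ⟨s.k + 1, s.U, mulRows s.v lv.rowsX⟩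
  | LE.y l, o => o.bind fun s => (T s.k (ins l s.U).2.length).bind fun lv =>
      (lv.rowsY[(ins l s.U).1]?).bind fun M => some ⟨s.k, (ins l s.U).2, mulRows s.v M⟩
  | LE.b a c, o => (app c (app a o)).bind fun s => (app a (app c o)).bind fun s' =>
      bif s.k == s'.k && s.U == s'.U then some ⟨s.k, s.U, addV s.v (smulV 4 s'.v)⟩ else none

/-- sum of two states -/
def addS (o o' : Option St) : Option St :=
  o.bind fun s => o'.bind fun s' =>
    bif s.k == s'.k && s.U == s'.U then some ⟨s.k, s.U, addV s.v s'.v⟩ else none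

/-- sum of two block vectors -/
def addO (o o' : Option (List (List ℕ))) : Option (List (List ℕ)) :=
  o.bind fun s => o'.bind fun s' => some (addB s s')

/-- multiplication with a Lie expression, the last letter is symbolic; the target is the level
`(k₀, U₀)` -/
def last (k₀ : ℕ) (U₀ : List ℕ) : LE → Option St → Option (List (List ℕ))
  | LE.X, o => o.bind fun s => bif s.k + 1 == k₀ && s.U == U₀ then some [s.v] else none
  | LE.y l, o => o.bind fun s => bif s.k == k₀ && (ins l s.U).2 == U₀ then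
      some (List.replicate ((ins l s.U).1 + 1) [] ++ [s.v]) else none
  | LE.b a c, o => (last k₀ U₀ c (app T a o)).bind fun s =>
      (last k₀ U₀ a (app T c o)).bind fun s' => some (addB s (smulB 4 s'))

/-- symmetrised products -/
def sy2 (a b : LE) (o : Option St) : Option St := addS (app T b (app T a o)) (app T a (app T b o))
def sy3 (a b c : LE) (o : Option St) : Option St :=
  addS (addS (app T c (sy2 T a b o)) (app T b (sy2 T a c o))) (app T a (sy2 T b c o))
def ls2 (k₀ : ℕ) (U₀ : List ℕ) (a b : LE) (o : Option St) : Option (List (List ℕ)) :=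
  addO (last T k₀ U₀ b (app T a o)) (last T k₀ U₀ a (app T b o))
def ls3 (k₀ : ℕ) (U₀ : List ℕ) (a b c : LE) (o : Option St) : Option (List (List ℕ)) :=
  addO (addO (last T k₀ U₀ c (sy2 T a b o)) (last T k₀ U₀ b (sy2 T a c o)))
    (last T k₀ U₀ a (sy2 T b c o))
def ls4 (k₀ : ℕ) (U₀ : List ℕ) (a b c d : LE) (o : Option St) : Option (List (List ℕ)) :=
  addO (addO (addO (last T k₀ U₀ d (sy3 T a b c o)) (last T k₀ U₀ c (sy3 T a b d o)))
    (last T k₀ U₀ b (sy3 T a c d o))) (last T k₀ U₀ a (sy3 T b c d o))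
def lt3 (k₀ : ℕ) (U₀ : List ℕ) (a b c q : LE) (o : Option St) : Option (List (List ℕ)) :=
  addO (addO (ls2 T k₀ U₀ b c (app T q (app T a o))) (ls2 T k₀ U₀ a c (app T q (app T b o))))
    (ls2 T k₀ U₀ a b (app T q (app T c o)))
def lt4 (k₀ : ℕ) (U₀ : List ℕ) (a b c d q : LE) (o : Option St) : Option (List (List ℕ)) :=
  addO (addO (addO (ls3 T k₀ U₀ b c d (app T q (app T a o)))
    (ls3 T k₀ U₀ a c d (app T q (app T b o)))) (ls3 T k₀ U₀ a b d (app T q (app T c o))))
    (ls3 T k₀ U₀ a b c (app T q (app T d o)))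

/-- unit vector -/
def unitV (i : ℕ) : List ℕ := List.replicate i 0 ++ [1]

/-- unit block vector -/
def unitB (blk i : ℕ) : List (List ℕ) := List.replicate blk [] ++ [unitV i]

/-- a basis state of the level `(k, U)` -/
def baseSt (k : ℕ) (U : List ℕ) (i : ℕ) : Option St :=
  (T k U.length).bind fun lv => bif Nat.blt i lv.words.length then some ⟨k, U, unitV i⟩ else none

/-- the block vector of a relation -/
def relvec (k₀ m₀ : ℕ) : RelD → Option (List (List ℕ))
  | RelD.outer => bif k₀ == 0 && m₀ == 1 then some [[], [1]] else none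
  | RelD.comm i a c =>
      (last T k₀ (List.range m₀) (LE.y c) (app T (LE.y a) (baseSt T k₀
        (((List.range m₀).erase a).erase c) i))).bind fun s =>
      (last T k₀ (List.range m₀) (LE.y a) (app T (LE.y c) (baseSt T k₀
        (((List.range m₀).erase a).erase c) i))).bind fun s' =>
      bif (((List.range m₀).erase a).erase c).length + 2 == m₀ then
        some (addB s (smulB 4 s')) else none
  | RelD.s4 i k U a b c d => ls4 T k₀ (List.range m₀) a b c d (baseSt T k U i)
  | RelD.t4 i k U a b c d q => lt4 T k₀ (List.range m₀) a b c d q (baseSt T k U i)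
  | RelD.s3 i k U a b c => ls3 T k₀ (List.range m₀) a b c (baseSt T k U i)
  | RelD.t3 i k U a b c q => lt3 T k₀ (List.range m₀) a b c q (baseSt T k U i)

end

/-- all entries are divisible by five -/
def zeroV : List ℕ → Bool
  | [] => true
  | a :: v => (a % 5 == 0) && zeroV v

def zeroB : List (List ℕ) → Bool
  | [] => true
  | a :: v => zeroV a && zeroB v

/-- linear combination of block vectors -/
def combRel : List ℕ → List (List (List ℕ)) → List (List ℕ)
  | [], _ => []
  | _ :: _, [] => []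
  | a :: v, B :: Bs => bif a == 0 then combRel v Bs else addB (smulB a B) (combRel v Bs)

/-- check one row -/
def checkRow (pos : List (ℕ × ℕ)) (Bs : List (List (List ℕ))) (blk i : ℕ) (row cert : List ℕ) :
    Bool :=
  zeroB (addB (unitB blk i) (smulB 4 (addB (combRel row (pos.map fun p => unitB p.1 p.2))
    (combRel cert Bs))))

/-- check the rows of one block -/
def checkRows (pos : List (ℕ × ℕ)) (Bs : List (List (List ℕ))) (blk : ℕ) :
    ℕ → List (List ℕ) → List (List ℕ) → Bool
  | _, [], _ => true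
  | _, _ :: _, [] => false
  | i, r :: rs, c :: cs => checkRow pos Bs blk i r c && checkRows pos Bs blk (i + 1) rs cs

/-- check the rows of all letter blocks -/
def checkRowsY (pos : List (ℕ × ℕ)) (Bs : List (List (List ℕ))) (n : ℕ) :
    ℕ → List (List (List ℕ)) → List (List (List ℕ)) → Bool
  | _, [], _ => true
  | _, _ :: _, [] => false
  | blk, r :: rs, c :: cs => (r.length == n) && checkRows pos Bs blk 0 r c &&
      checkRowsY pos Bs n (blk + 1) rs cs

/-- relabelling of an encoded letter (`0` is `X`, `l + 1` is the letter `l`) when a new letter is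
inserted at place `j` -/
def skip (j a : ℕ) : ℕ := bif Nat.ble a j then a else a + 1

/-- the word of an unknown -/
def wordOf (wX wY : List (List ℕ)) (p : ℕ × ℕ) : Option (List ℕ) :=
  match p with
  | (0, i) => (wX[i]?).map (· ++ [0])
  | (j + 1, i) => (wY[i]?).map fun w => w.map (skip j) ++ [j + 1]

/-- all relation vectors -/
def relvecs (T : ℕ → ℕ → Option Level) (k₀ m₀ : ℕ) : List RelD → Option (List (List (List ℕ)))
  | [] => some []
  | r :: rs => (relvec T k₀ m₀ r).bind fun B => (relvecs T k₀ m₀ rs).bind fun Bs => some (B :: Bs)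

/-- check the words of the basis -/
def checkWords (wX wY : List (List ℕ)) (k₀ m₀ : ℕ) : List (ℕ × ℕ) → List (List ℕ) → Bool
  | [], [] => true
  | p :: ps, w :: ws => (wordOf wX wY p == some w) && Nat.ble p.1 m₀ &&
      (w.count 0 == k₀) && (w.length == k₀ + m₀) && checkWords wX wY k₀ m₀ ps ws
  | _, _ => false

/-- the words of a level in the table -/
def wordsAt (T : ℕ → ℕ → Option Level) (k m : ℕ) : List (List ℕ) :=
  match T k m with
  | some lv => lv.words
  | none => []

/-- the kind of a relation -/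
def RelD.kind : RelD → ℕ
  | RelD.outer => 0
  | RelD.comm _ _ _ => 0
  | RelD.s4 _ _ _ _ _ _ _ => 1
  | RelD.t4 _ _ _ _ _ _ _ _ => 2
  | RelD.s3 _ _ _ _ _ _ => 3
  | RelD.t3 _ _ _ _ _ _ _ => 4

/-- check a level, given the words of the neighbours and the table of the lower levels -/
def checkLevel' (ks : List ℕ) (T : ℕ → ℕ → Option Level) (wX wY : List (List ℕ)) (k₀ m₀ : ℕ)
    (lv : Level) : Bool :=
  match relvecs T k₀ m₀ lv.rels with
  | none => false
  | some Bs => (lv.rels.all fun r => ks.contains r.kind) &&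
      checkWords wX wY k₀ m₀ lv.pos lv.words && (lv.rowsX.length == wX.length) &&
      checkRows lv.pos Bs 0 0 lv.rowsX lv.certX && (lv.rowsY.length == m₀) &&
      checkRowsY lv.pos Bs wY.length 1 lv.rowsY lv.certY

/-- check a level, given the table of the lower levels -/
def checkLevel (ks : List ℕ) (T : ℕ → ℕ → Option Level) (k₀ m₀ : ℕ) (lv : Level) : Bool :=
  checkLevel' ks T (if k₀ = 0 then [] else wordsAt T (k₀ - 1) m₀)
    (if m₀ = 0 then [] else wordsAt T k₀ (m₀ - 1)) k₀ m₀ lv

/-- the table of levels -/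
def tab (D : List (List Level)) (k m : ℕ) : Option Level := (D[k]?).bind fun row => row[m]?

/-- the table of the levels below `(k₀, m₀)` -/
def below (D : List (List Level)) (k₀ m₀ : ℕ) (k m : ℕ) : Option Level :=
  bif Nat.ble k k₀ && Nat.ble m m₀ && !(k == k₀ && m == m₀) then tab D k m else none

/-- check the level `(k, m)` of a table -/
def checkAt (ks : List ℕ) (D : List (List Level)) (k m : ℕ) : Bool :=
  match tab D k m with
  | none => false
  | some l => checkLevel ks (below D k m) k m l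

end Pool.Agent.Lib.MP_544bd1_al.E5
end

section

/-!
# Words with marked letters
-/

namespace Pool.Agent.Lib.MP_544bd1_al.E5

/-- `Wd L X k m r`: `r` is a product of `k` factors `X` and `m` elements of `L` in some order -/
inductive Wd {R : Type*} [Ring R] (L : AddSubgroup R) (X : R) : ℕ → ℕ → R → Prop
  | one : Wd L X 0 0 1
  | mulX {k m : ℕ} {r : R} : Wd L X k m r → Wd L X (k + 1) m (r * X)
  | mulL {k m : ℕ} {r y : R} : y ∈ L → Wd L X k m r → Wd L X k (m + 1) (r * y)

theorem Wd.mul {R : Type*} [Ring R] {L : AddSubgroup R} {X : R} {k m k' m' : ℕ} {r s : R}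
    (hr : Wd L X k m r) (hs : Wd L X k' m' s) : Wd L X (k + k') (m + m') (r * s) := by
  induction hs with
  | one => rw [mul_one]; exact hr
  | mulX _ ih => rw [← mul_assoc]; exact Wd.mulX ih
  | mulL hy _ ih => rw [← mul_assoc]; exact Wd.mulL hy ih

end Pool.Agent.Lib.MP_544bd1_al.E5
end

section

/-!
Two generators, part 2: first properties of the linear data.
-/

namespace Pool.Agent.Lib.MP_544bd1_al

open Finset

variable {K V R : Type} [Field K] [AddCommGroup V] [Module K V] [Group R]

/-- an `r`-element acting unipotently (two steps) in characteristic `p ≠ r` is trivial.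
Proof. `g = ρ y`, `(g - 1) ^ 2 = 0` (by `h1`, `h2`), so `(g - 1) ^ p = 0` (`2 ≤ p`), and
`g ^ p = 1` as `(g - 1) ^ p = g ^ p - 1` (`sub_pow_char_of_commute` or `sub_pow_expChar...`;
`Module.End K V` has characteristic `p` if `V` is nontrivial, else everything is trivial; or work
in `Algebra.adjoin K {g}`/with `add_pow` binomial: `(1 + N) ^ p = 1 + p N`). Also
`g ^ (r ^ k) = 1`, so `g = 1`. -/
theorem tw_unip {p r : ℕ} [Fact p.Prime] [CharP K p] (hr : r.Prime) (hrp : r ≠ p)
    (hR : IsPGroup r R) (ρ : R →* Module.End K V) (W : Submodule K V) (y : R)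
    (h1 : ∀ w ∈ W, ρ y w = w) (h2 : ∀ v, ρ y v - v ∈ W) : ρ y = 1 := by
  set N : Module.End K V := ρ y - 1 with hN
  have hNN : N * N = 0 := by
    refine LinearMap.ext fun v => ?_
    show N (N v) = 0
    have e1 : N v = ρ y v - v := rfl
    rw [e1]
    show ρ y (ρ y v - v) - (ρ y v - v) = 0
    rw [h1 _ (h2 v), sub_self]
  have hg : ρ y = 1 + N := by rw [hN]; abel
  have hpow : ∀ n : ℕ, (1 + N) ^ n = 1 + (n : K) • N := by
    intro n
    induction n with
    | zero => simp
    | succ n ih =>
      rw [pow_succ, ih, mul_add, mul_one, add_mul, one_mul, smul_mul_assoc, hNN, smul_zero,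
        add_zero, add_assoc]
      congr 1
      push_cast
      rw [add_smul, one_smul]
  obtain ⟨k, hk⟩ := hR y
  have h3 : (1 + N) ^ (r ^ k) = 1 := by
    rw [← hg, ← map_pow, hk, map_one]
  rw [hpow] at h3
  have h4 : ((r ^ k : ℕ) : K) • N = 0 := by
    have := congrArg (fun z => z - 1) h3
    simpa using this
  have h5 : ((r ^ k : ℕ) : K) ≠ 0 := by
    intro h0
    rw [CharP.cast_eq_zero_iff K p] at h0
    have h6 := (Fact.out : p.Prime).dvd_of_dvd_pow h0
    exact hrp ((Nat.prime_dvd_prime_iff_eq Fact.out hr).1 h6).symm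
  have h7 : N = 0 := (smul_eq_zero.1 h4).resolve_left h5
  rw [hg, h7, add_zero]

/-- powers of `U` and iterates of `α` -/
theorem LDat.iter {q : ℕ} {α : R →* R} {ρ : R →* Module.End K V} {U : Module.End K V}
    (D : LDat q α ρ U) (k : ℕ) (x : R) : U ^ k * ρ x = ρ (α^[k] x) * U ^ k := by
  induction k generalizing x with
  | zero => simp
  | succ k ih =>
    rw [pow_succ, mul_assoc, D.hU, ← mul_assoc, ih, mul_assoc, Function.iterate_succ_apply]

/-- `α ^ q` acts trivially on the image -/
theorem LDat.iter_q {q : ℕ} {α : R →* R} {ρ : R →* Module.End K V} {U : Module.End K V}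
    (D : LDat q α ρ U) (x : R) : ρ (α^[q] x) = ρ x := by
  have h := D.iter q x
  rw [D.hq, one_mul, mul_one] at h
  exact h.symm

end Pool.Agent.Lib.MP_544bd1_al
end

section

/-!
Two generators, part 2: common eigenvectors, weights.
-/

namespace Pool.Agent.Lib.MP_544bd1_al

open Finset

variable {K V : Type} [Field K] [AddCommGroup V] [Module K V]

private lemma tw_common_eigen_aux [IsAlgClosed K] {ι : Type} (n : ℕ) :
    ∀ (V : Type) [AddCommGroup V] [Module K V] [FiniteDimensional K V] [Nontrivial V]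
      (A : ι → Module.End K V), Module.finrank K V = n → (∀ i j, A i * A j = A j * A i) →
      ∃ (χ : ι → K) (v : V), v ≠ 0 ∧ ∀ i, A i v = χ i • v := by
  induction n using Nat.strong_induction_on with
  | _ n ih =>
    intro V _ _ _ _ A hn hA
    by_cases hs : ∀ i, ∃ c : K, ∀ v, A i v = c • v
    · choose χ hχ using hs
      obtain ⟨v, hv⟩ := exists_ne (0 : V)
      exact ⟨χ, v, hv, fun i => hχ i v⟩
    · push Not at hs
      obtain ⟨i, hi⟩ := hs
      obtain ⟨μ, hμ⟩ := Module.End.exists_eigenvalue (A i)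
      set W : Submodule K V := Module.End.eigenspace (A i) μ with hW
      have hWbot : W ≠ ⊥ := hμ
      have hWtop : W ≠ ⊤ := by
        intro h
        obtain ⟨v, hv⟩ := hi μ
        apply hv
        have : v ∈ W := by rw [h]; trivial
        exact Module.End.mem_eigenspace_iff.1 this
      have hinv : ∀ j, ∀ v ∈ W, A j v ∈ W := by
        intro j v hv
        rw [Module.End.mem_eigenspace_iff] at hv ⊢
        have h1 := congrArg (fun f : Module.End K V => f v) (hA i j)
        simp only [Module.End.mul_apply] at h1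
        rw [h1, hv, map_smul]
      have hlt : Module.finrank K W < n := by
        rw [← hn]
        exact Submodule.finrank_lt hWtop
      have hnt : Nontrivial W := (Submodule.nontrivial_iff_ne_bot).2 hWbot
      obtain ⟨χ, w, hw, hχ⟩ := ih _ hlt W (fun j => (A j).restrict (hinv j)) rfl (by
        intro j k
        ext x
        have h1 := congrArg (fun f : Module.End K V => f x) (hA j k)
        simpa [Module.End.mul_apply, LinearMap.restrict_apply] using h1)
      refine ⟨χ, w, by simpa using hw, fun j => ?_⟩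
      have h1 := congrArg Subtype.val (hχ j)
      simpa using h1

/-- a commuting family of operators on a nonzero finite dimensional space over an algebraically
closed field has a common eigenvector. (Induction on the dimension: if all are scalar, clear;
otherwise an eigenspace of a nonscalar `A i` is a smaller invariant subspace. Or Mathlib:
`Module.End.exists_...`, weights of commuting operators.) -/
theorem tw_common_eigen [IsAlgClosed K] [FiniteDimensional K V] [Nontrivial V] {ι : Type}
    (A : ι → Module.End K V) (hA : ∀ i j, A i * A j = A j * A i) :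
    ∃ (χ : ι → K) (v : V), v ≠ 0 ∧ ∀ i, A i v = χ i • v :=
  tw_common_eigen_aux (Module.finrank K V) V A rfl hA

/-- vectors of different weights are independent (weak form).
Proof. For `1 ≤ i ≤ m` choose `j i` with `χ i (j i) ≠ χ 0 (j i)` and apply the operators
`A (j i) - χ i (j i)`, `i = 1..m` (one after another) to the sum: they map weight vectors of
weight `χ l` to multiples, kill `w i`, and multiply `w 0` by a nonzero scalar. (Induction on `m`.) -/
theorem tw_weights {ι : Type} (A : ι → Module.End K V) (m : ℕ) (χ : ℕ → ι → K) (w : ℕ → V)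
    (hw : ∀ i ≤ m, ∀ j, A j (w i) = χ i j • w i) (hχ : ∀ i, 1 ≤ i → i ≤ m → χ i ≠ χ 0)
    (h0 : ∑ i ∈ range (m + 1), w i = 0) : w 0 = 0 := by
  induction m generalizing w with
  | zero => simpa using h0
  | succ m ih =>
    have hne : ∃ j, χ (m + 1) j ≠ χ 0 j := by
      by_contra hcon
      push Not at hcon
      exact hχ (m + 1) (by omega) le_rfl (funext hcon)
    obtain ⟨j, hj⟩ := hne
    have hB : ∀ i ≤ m + 1, A j (w i) - χ (m + 1) j • w i = (χ i j - χ (m + 1) j) • w i := by
      intro i hi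
      rw [hw i hi j, sub_smul]
    have h1 := ih (fun i => (χ i j - χ (m + 1) j) • w i) (by
      intro i hi j'
      rw [map_smul, hw i (by omega) j', smul_comm]) (fun i h1 h2 => hχ i h1 (by omega)) (by
      have h2 : ∑ i ∈ range (m + 1 + 1), (χ i j - χ (m + 1) j) • w i = 0 := by
        have h3 : ∀ i ∈ range (m + 1 + 1), (χ i j - χ (m + 1) j) • w i =
            A j (w i) - χ (m + 1) j • w i := fun i hi => (hB i (by
              rw [mem_range] at hi; omega)).symm
        rw [sum_congr rfl h3, sum_sub_distrib, ← map_sum, ← smul_sum, h0, map_zero, smul_zero,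
          sub_zero]
      rw [sum_range_succ, sub_self, zero_smul, add_zero] at h2
      exact h2)
    have h2 : χ 0 j - χ (m + 1) j ≠ 0 := sub_ne_zero.2 (Ne.symm hj)
    exact (smul_eq_zero.1 h1).resolve_left h2

end Pool.Agent.Lib.MP_544bd1_al
end

section

/-!
The wreath product trick: `B(G)` is nontrivial.
-/

namespace Pool.Agent.Lib.MP_544bd1_al

open Subgroup

theorem cj_pow_ne {Q : Type} [Group Q] {p e : ℕ} (hp : p.Prime) {w : Q} (hw : w ^ p ^ (e + 1) = 1)
    {T : Subgroup Q} (hmove : w ^ p ^ e ∉ normalizer (T : Set Q)) {i j : ℕ} (hij : i < j)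
    (hj : j < p ^ (e + 1)) : cj (w ^ i) T ≠ cj (w ^ j) T := by
  intro h
  apply hmove
  set d := j - i with hd
  have hd0 : 0 < d := by omega
  have hdlt : d < p ^ (e + 1) := by omega
  have h1 : w ^ d ∈ normalizer (T : Set Q) := by
    rw [Subgroup.mem_normalizer_iff_map_conj_eq]
    show cj (w ^ d) T = T
    have h2 : cj (w ^ i) (cj (w ^ d) T) = cj (w ^ i) T := by
      rw [← cj_mul, ← pow_add, hd, Nat.add_sub_cancel' hij.le, h]
    have h3 := congrArg (cj (w ^ i)⁻¹) h2
    rw [← cj_mul, ← cj_mul, inv_mul_cancel, one_mul, ← cj_mul, inv_mul_cancel, cj_one] at h3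
    exact h3
  obtain ⟨a, ha, hga⟩ := (Nat.dvd_prime_pow hp).1 (Nat.gcd_dvd_right d (p ^ (e + 1)))
  have hlt : a < e + 1 := by
    by_contra hcon
    have : a = e + 1 := by omega
    rw [this] at hga
    have h4 : p ^ (e + 1) ∣ d := by rw [← hga]; exact Nat.gcd_dvd_left _ _
    exact absurd (Nat.le_of_dvd hd0 h4) (by omega)
  have h5 : w ^ p ^ a ∈ normalizer (T : Set Q) := by
    have h6 : ((d.gcd (p ^ (e + 1)) : ℕ) : ℤ) = d * d.gcdA (p ^ (e + 1)) +
        (p ^ (e + 1) : ℕ) * d.gcdB (p ^ (e + 1)) := Nat.gcd_eq_gcd_ab _ _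
    rw [← zpow_natCast, ← hga, h6, zpow_add, zpow_mul, zpow_mul, zpow_natCast, zpow_natCast, hw,
      one_zpow, mul_one]
    exact zpow_mem h1 _
  have h7 : w ^ p ^ e = (w ^ p ^ a) ^ p ^ (e - a) := by
    rw [← pow_mul, ← pow_add]
    congr 2
    omega
  rw [h7]
  exact pow_mem h5 _

theorem wreath_order {Q : Type} [Group Q] [Finite Q] {p e : ℕ} (hp : p.Prime) {w : Q}
    (hw : w ^ p ^ (e + 1) = 1) {T : Subgroup Q} (hT : IsComp T) (hpT : p ∣ Nat.card T)
    (hmove : w ^ p ^ e ∉ normalizer (T : Set Q)) : ∃ u : Q, orderOf u = p ^ (e + 2) := by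
  have := Fact.mk hp
  obtain ⟨x', hx'⟩ := exists_prime_orderOf_dvd_card' (G := T) p hpT
  set x : Q := (x' : Q) with hx
  have hxT : x ∈ T := x'.2
  have hxo : orderOf x = p := by rw [hx, Subgroup.orderOf_coe, hx']
  have hxp : x ^ p = 1 := by rw [← hxo]; exact pow_orderOf_eq_one x
  have hx1 : x ≠ 1 := by
    intro h
    rw [h, orderOf_one] at hxo
    exact hp.one_lt.ne hxo
  set N := p ^ (e + 1) with hN
  have hN0 : 0 < N := pow_pos hp.pos _
  let c : ℕ → Q := fun k => (x * w) ^ k * (w ^ k)⁻¹
  let a : ℕ → Q := fun k => w ^ k * x * (w ^ k)⁻¹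
  have hcs : ∀ k, c (k + 1) = c k * a k := by
    intro k
    show (x * w) ^ (k + 1) * (w ^ (k + 1))⁻¹ = (x * w) ^ k * (w ^ k)⁻¹ * (w ^ k * x * (w ^ k)⁻¹)
    rw [pow_succ, pow_succ]
    group
  have haT : ∀ k, a k ∈ cj (w ^ k) T := fun k => ⟨x, hxT, rfl⟩
  have hap : ∀ k, a k ^ p = 1 := by
    intro k
    show (w ^ k * x * (w ^ k)⁻¹) ^ p = 1
    rw [conj_pow, hxp]
    group
  have hne : ∀ i j, i < j → j < N → cj (w ^ i) T ≠ cj (w ^ j) T := fun i j hij hj =>
    cj_pow_ne hp hw hmove hij hj
  have key : ∀ k, k ≤ N → (∀ j, k ≤ j → j < N → ∀ y ∈ cj (w ^ j) T, c k * y = y * c k) ∧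
      c k ^ p = 1 := by
    intro k
    induction k with
    | zero =>
      intro _
      have h0 : c 0 = 1 := by show (x * w) ^ 0 * (w ^ 0)⁻¹ = 1; simp
      rw [h0]
      exact ⟨fun j _ _ y _ => by simp, by simp⟩
    | succ k ih =>
      intro hk
      obtain ⟨ih1, ih2⟩ := ih (by omega)
      have hcomm : c k * a k = a k * c k := ih1 k le_rfl (by omega) _ (haT k)
      refine ⟨?_, ?_⟩
      · intro j hj1 hj2 y hy
        have h1 := ih1 j (by omega) hj2 y hy
        have h2 := (hT.cj (w ^ k)).comm (hT.cj (w ^ j)) (hne k j (by omega) hj2) (a k) (haT k) y hy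
        rw [hcs, mul_assoc, h2, ← mul_assoc, h1, mul_assoc]
      · rw [hcs]
        have : Commute (c k) (a k) := hcomm
        rw [this.mul_pow, ih2, hap, one_mul]
  have hcN : c N ≠ 1 := by
    obtain ⟨N', hN'⟩ : ∃ N', N = N' + 1 := ⟨N - 1, by omega⟩
    intro h1
    rw [hN', hcs] at h1
    have h2 : a N' = (c N')⁻¹ := eq_inv_of_mul_eq_one_right h1
    have h3 := (key N' (by omega)).1 N' le_rfl (by omega)
    have h4 : (⟨a N', haT N'⟩ : cj (w ^ N') T) = 1 := by
      apply (hT.cj (w ^ N')).ns.center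
      intro y
      apply Subtype.ext
      show a N' * y = y * a N'
      rw [h2]
      have h5 := h3 y y.2
      calc (c N')⁻¹ * (y : Q) = (c N')⁻¹ * (y * c N') * (c N')⁻¹ := by group
        _ = (c N')⁻¹ * (c N' * y) * (c N')⁻¹ := by rw [h5]
        _ = y * (c N')⁻¹ := by group
    have h6 : w ^ N' * x * (w ^ N')⁻¹ = 1 := congrArg Subtype.val h4
    apply hx1
    have h7 := congrArg (fun z => (w ^ N')⁻¹ * z * w ^ N') h6
    simpa [mul_assoc] using h7
  have hpowN : (x * w) ^ N = c N := by
    show (x * w) ^ N = (x * w) ^ N * (w ^ N)⁻¹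
    rw [hw]
    simp
  refine ⟨x * w, ?_⟩
  apply orderOf_eq_prime_pow
  · rw [← hN, hpowN]
    exact hcN
  · rw [pow_succ, pow_mul, ← hN, hpowN]
    exact (key N le_rfl).2

theorem BG_ne_bot {s n : ℕ} {G : Type} [Group G] (hn : 0 < n) (hexp : ∀ x : G, x ^ n = 1)
    (h : Four (s + 1) G) (h4 : ∃ a b c d : G, ¬ SC s (closure {a, b, c, d})) :
    BG h ≠ ⊥ := by
  obtain ⟨a, b, c, d, habcd⟩ := h4
  obtain ⟨hfin, hSC⟩ := h a b c d
  obtain ⟨T, hTg, H, f, hf, hT, hcard⟩ := exists_section hSC habcd
  have hs : s + 1 ≠ 1 := by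
    intro h1
    rw [h1] at hcard
    obtain ⟨x, y, hxy⟩ := hT.2
    have : Subsingleton T := (Nat.card_eq_one_iff_unique.1 hcard).1
    exact hxy (Subsingleton.elim _ _)
  set p := (s + 1).minFac with hpdef
  have hp : p.Prime := Nat.minFac_prime hs
  have hps : p ∣ s + 1 := Nat.minFac_dvd _
  have hdvd : p ∣ Nat.card (closure {a, b, c, d}) := by
    refine (hps.trans ?_).trans (Subgroup.card_subgroup_dvd_card H)
    rw [← hcard]
    exact Subgroup.card_dvd_of_surjective f hf
  have := Fact.mk hp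
  obtain ⟨x, hx⟩ := exists_prime_orderOf_dvd_card' (G := closure {a, b, c, d}) p hdvd
  classical
  let P : ℕ → Prop := fun e => ∃ w : G, orderOf w = p ^ e
  have hP1 : P 1 := ⟨x, by rw [Subgroup.orderOf_coe, hx, pow_one]⟩
  have hbound : ∀ e, P e → e ≤ n := by
    rintro e ⟨w, hw⟩
    have h1 : orderOf w ∣ n := orderOf_dvd_of_pow_eq_one (hexp w)
    have h2 := Nat.le_of_dvd hn h1
    rw [hw] at h2
    exact (Nat.lt_pow_self hp.one_lt).le.trans h2
  set e0 := Nat.findGreatest P n with he0
  have h1n : 1 ≤ n := hn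
  have he1 : 1 ≤ e0 := Nat.le_findGreatest h1n hP1
  have hPe : P e0 := Nat.findGreatest_spec h1n hP1
  have hmax : ∀ e, P e → e ≤ e0 := fun e he => Nat.le_findGreatest (hbound e he) he
  obtain ⟨w, hw⟩ := hPe
  obtain ⟨e, he⟩ : ∃ e, e0 = e + 1 := ⟨e0 - 1, by omega⟩
  rw [he] at hw
  set v := w ^ p ^ e with hv
  have hv1 : v ≠ 1 := by
    intro h1
    have h2 := orderOf_dvd_of_pow_eq_one h1
    rw [hw] at h2
    have := (Nat.pow_dvd_pow_iff_le_right hp.one_lt).1 h2
    omega
  intro hbot
  have hvB : v ∉ BG h := by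
    rw [hbot, Subgroup.mem_bot]
    exact hv1
  rw [mem_BG] at hvB
  push Not at hvB
  obtain ⟨a', b', hvab⟩ := hvB
  obtain ⟨hfinK, hSCK⟩ := h w v a' b'
  set K := closure {w, v, a', b'} with hK
  have hle : closure {v, a', b'} ≤ K := by
    apply Subgroup.closure_mono
    intro z hz
    exact Set.mem_insert_of_mem _ hz
  have hvF : v ∉ FixIn s K := by
    intro h1
    exact hvab (FixIn_restrict hle hSCK h1 (Subgroup.subset_closure (by simp)))
  have hwK : w ∈ K := Subgroup.subset_closure (by simp)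
  have hvK : v ∈ K := Subgroup.subset_closure (by simp)
  have hvF' : (⟨v, hvK⟩ : K) ∉ fixSub (rq s K) := by
    intro h1
    exact hvF (mem_FixIn.2 ⟨hvK, h1⟩)
  rw [mem_fixSub] at hvF'
  push Not at hvF'
  obtain ⟨C, hC, hCv⟩ := hvF'
  have hCcard : Nat.card C = s + 1 := hC.card (Red_quotient s K) (SC_rq hSCK)
  have hveq : (⟨v, hvK⟩ : K) = (⟨w, hwK⟩ : K) ^ p ^ e := by
    apply Subtype.ext
    rw [SubgroupClass.coe_pow]
  rw [hveq, map_pow] at hCv
  obtain ⟨u, hu⟩ := wreath_order hp (w := rq s K ⟨w, hwK⟩) (by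
    rw [← map_pow]
    have : (⟨w, hwK⟩ : K) ^ p ^ (e + 1) = 1 := by
      apply Subtype.ext
      rw [SubgroupClass.coe_pow, ← hw]
      exact pow_orderOf_eq_one w
    rw [this, map_one]) hC (by rw [hCcard]; exact hps) hCv
  obtain ⟨y, rfl⟩ := QuotientGroup.mk'_surjective (Xrad s K) u
  have hdvd2 : p ^ (e + 2) ∣ orderOf y := by
    rw [← hu]
    exact orderOf_map_dvd _ y
  have hy0 : orderOf y ≠ 0 := (orderOf_pos y).ne'
  have hP2 : P (e + 2) := by
    refine ⟨((y ^ (orderOf y / p ^ (e + 2)) : K) : G), ?_⟩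
    rw [Subgroup.orderOf_coe]
    exact orderOf_pow_orderOf_div hy0 hdvd2
  have := hmax _ hP2
  omega

end Pool.Agent.Lib.MP_544bd1_al
end

section

/-!
Conjugacy of complements of an abelian normal Hall subgroup, and its consequences for normalizers.
-/

namespace Pool.Agent.Lib.MP_544bd1_al

open Subgroup MulAction

universe u

/-- the class of a complement among transversals -/
noncomputable def solCls {G : Type u} [Group G] [Finite G] (T : Subgroup G) [T.Normal]
    [IsMulCommutative T] (D : Subgroup G) (h : IsComplement' T D) : T.QuotientDiff :=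
  Quotient.mk'' (⟨(D : Set G), h.symm⟩ : T.LeftTransversal)

theorem solCls_stabilizer {G : Type u} [Group G] [Finite G] (T : Subgroup G) [T.Normal]
    [IsMulCommutative T] (hcop : Nat.Coprime (Nat.card T) T.index) (D : Subgroup G)
    (h : IsComplement' T D) : D = stabilizer G (solCls T D h) := by
  apply Subgroup.eq_of_le_of_card_ge
  · intro d hd
    rw [mem_stabilizer_iff]
    have e : (MulOpposite.op d⁻¹ • (⟨(D : Set G), h.symm⟩ : T.LeftTransversal)) =
        ⟨(D : Set G), h.symm⟩ := by
      apply Subtype.ext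
      ext x
      constructor
      · rintro ⟨y, hy, rfl⟩
        exact D.mul_mem hy (D.inv_mem hd)
      · intro hx
        exact ⟨x * d, D.mul_mem hx hd, by simp [mul_assoc]⟩
    have e2 : d • solCls T D h =
      (Quotient.mk'' (MulOpposite.op d⁻¹ • (⟨(D : Set G), h.symm⟩ : T.LeftTransversal)) :
        T.QuotientDiff) := rfl
    rw [e2, e]
    rfl
  · have h1 := h.card_mul_card
    have h2 := (isComplement'_stabilizer_of_coprime (α := solCls T D h) hcop).card_mul_card
    have h3 : 0 < Nat.card T := Nat.card_pos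
    have h4 := h1.trans h2.symm
    exact (Nat.eq_of_mul_eq_mul_left h3 h4).ge

/-- Complements of an abelian normal Hall subgroup are conjugate. -/
theorem sol_conj_abelian {G : Type u} [Group G] [Finite G] (T : Subgroup G) [T.Normal]
    [IsMulCommutative T] (hcop : Nat.Coprime (Nat.card T) T.index) {D₁ D₂ : Subgroup G}
    (h₁ : IsComplement' T D₁) (h₂ : IsComplement' T D₂) :
    ∃ t ∈ T, D₂ = D₁.map (MulAut.conj t).toMonoidHom := by
  obtain ⟨t, ht⟩ := exists_smul_eq hcop (solCls T D₁ h₁) (solCls T D₂ h₂)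
  refine ⟨t, t.2, ?_⟩
  conv_lhs => rw [solCls_stabilizer T hcop D₂ h₂, ← ht]
  conv_rhs => rw [solCls_stabilizer T hcop D₁ h₁]
  exact MulAction.stabilizer_smul_eq_stabilizer_map_conj (t : G) _

/-- Being a complement, from disjointness and supremum, for subgroups `T ≤ A` of a bigger group. -/
theorem sol_isComplement {M : Type u} [Group M] {T A D : Subgroup M} (hTn : T.Normal) (hTA : T ≤ A)
    (hDA : D ≤ A) (hinf : ∀ x ∈ T, x ∈ D → x = 1) (hsup : ∀ x ∈ A, ∃ t ∈ T, ∃ d ∈ D, x = t * d) :
    IsComplement' (T.subgroupOf A) (D.subgroupOf A) := by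
  refine isComplement'_of_disjoint_and_mul_eq_univ ?_ ?_
  · rw [disjoint_iff, eq_bot_iff]
    rintro ⟨x, hxA⟩ ⟨h1, h2⟩
    have := hinf x h1 h2
    rw [Subgroup.mem_bot]
    exact Subtype.ext this
  · rw [Set.eq_univ_iff_forall]
    rintro ⟨x, hxA⟩
    obtain ⟨t, ht, d, hd, rfl⟩ := hsup x hxA
    exact ⟨⟨t, hTA ht⟩, ht, ⟨d, hDA hd⟩, hd, rfl⟩

/-- two complements of `T` in `A` are conjugate by an element of `T` (subgroups of `M`) -/
theorem sol_conj_in {M : Type u} [Group M] [Finite M] {T A : Subgroup M} (hTn : T.Normal)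
    (hTA : T ≤ A) (hcomm : ∀ x ∈ T, ∀ y ∈ T, x * y = y * x)
    (hcop : Nat.Coprime (Nat.card (T.subgroupOf A)) (T.subgroupOf A).index)
    {U V : Subgroup M} (hUA : U ≤ A) (hVA : V ≤ A) (hUinf : ∀ x ∈ T, x ∈ U → x = 1)
    (hUsup : ∀ x ∈ A, ∃ t ∈ T, ∃ d ∈ U, x = t * d) (hVinf : ∀ x ∈ T, x ∈ V → x = 1)
    (hVsup : ∀ x ∈ A, ∃ t ∈ T, ∃ d ∈ V, x = t * d) :
    ∃ t ∈ T, ∀ x : M, x ∈ V ↔ t⁻¹ * x * t ∈ U := by
  have hc : IsMulCommutative (T.subgroupOf A) := by
    refine ⟨⟨?_⟩⟩
    rintro ⟨⟨x, hxA⟩, hx⟩ ⟨⟨y, hyA⟩, hy⟩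
    apply Subtype.ext
    apply Subtype.ext
    exact hcomm x hx y hy
  have h1 := sol_isComplement hTn hTA hUA hUinf hUsup
  have h2 := sol_isComplement hTn hTA hVA hVinf hVsup
  obtain ⟨⟨t, htA⟩, ht, hconj⟩ := sol_conj_abelian (T.subgroupOf A) hcop h1 h2
  refine ⟨t, ht, ?_⟩
  intro x
  constructor
  · intro hx
    have hxA : x ∈ A := hVA hx
    have h3 : (⟨x, hxA⟩ : A) ∈ V.subgroupOf A := hx
    rw [hconj] at h3
    obtain ⟨⟨y, hyA⟩, hy, hyx⟩ := h3
    have h4 : t * y * t⁻¹ = x := congrArg Subtype.val hyx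
    rw [← h4]
    have h5 : t⁻¹ * (t * y * t⁻¹) * t = y := by group
    rw [h5]
    exact hy
  · intro hx
    have hyA : t⁻¹ * x * t ∈ A := hUA hx
    have h3 : (⟨t, htA⟩ * ⟨t⁻¹ * x * t, hyA⟩ * (⟨t, htA⟩)⁻¹ : A) ∈
        (U.subgroupOf A).map (MulAut.conj (⟨t, htA⟩ : A)).toMonoidHom :=
      ⟨⟨t⁻¹ * x * t, hyA⟩, hx, rfl⟩
    rw [← hconj, Subgroup.mem_subgroupOf] at h3
    have h4 : ((⟨t, htA⟩ * ⟨t⁻¹ * x * t, hyA⟩ * (⟨t, htA⟩)⁻¹ : A) : M) = x := by
      show t * (t⁻¹ * x * t) * t⁻¹ = x
      group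
    rwa [h4] at h3

/-- complements of `T` in the whole group are conjugate to the normalizer of a complement `U` of
`T` in `A`. -/
theorem sol_compl_conj {M : Type u} [Group M] [Finite M] {T A : Subgroup M} (hTn : T.Normal)
    (hAn : A.Normal) (hTA : T ≤ A) (hcomm : ∀ x ∈ T, ∀ y ∈ T, x * y = y * x)
    (hcop : Nat.Coprime (Nat.card (T.subgroupOf A)) (T.subgroupOf A).index)
    {U : Subgroup M} (hUA : U ≤ A) (hUinf : ∀ x ∈ T, x ∈ U → x = 1)
    (hUsup : ∀ x ∈ A, ∃ t ∈ T, ∃ d ∈ U, x = t * d)
    (hCT : T ⊓ normalizer (U : Set M) = ⊥)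
    (D : Subgroup M) (hsup : T ⊔ D = ⊤) (hinf : T ⊓ D = ⊥) :
    ∃ t ∈ T, ∀ x : M, x ∈ D ↔ t * x * t⁻¹ ∈ normalizer (U : Set M) := by
  -- `D ⊓ A` is a complement of `T` in `A`
  have hVinf : ∀ x ∈ T, x ∈ D ⊓ A → x = 1 := by
    intro x hx hx'
    have : x ∈ T ⊓ D := ⟨hx, hx'.1⟩
    rw [hinf, Subgroup.mem_bot] at this
    exact this
  have hVsup : ∀ x ∈ A, ∃ t ∈ T, ∃ d ∈ D ⊓ A, x = t * d := by
    intro x hx
    have hm : x ∈ T ⊔ D := by rw [hsup]; trivial
    obtain ⟨t, ht, d, hd, rfl⟩ := Subgroup.mem_sup_of_normal_left.1 hm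
    refine ⟨t, ht, d, ⟨hd, ?_⟩, rfl⟩
    have : d = t⁻¹ * (t * d) := by group
    rw [this]
    exact A.mul_mem (A.inv_mem (hTA ht)) hx
  obtain ⟨t, ht, hconj⟩ := sol_conj_in hTn hTA hcomm hcop inf_le_right hUA hVinf hVsup hUinf hUsup
  -- `U = t (D ⊓ A) t⁻¹`
  have hfwd : ∀ x : M, x ∈ D → t * x * t⁻¹ ∈ normalizer (U : Set M) := by
    intro x hx
    rw [Subgroup.mem_normalizer_iff]
    intro y
    rw [hconj, hconj]
    have h3 : t⁻¹ * (t * x * t⁻¹ * y * (t * x * t⁻¹)⁻¹) * t = x * (t⁻¹ * y * t) * x⁻¹ := by group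
    rw [h3]
    constructor
    · rintro ⟨h1, h2⟩
      exact ⟨D.mul_mem (D.mul_mem hx h1) (D.inv_mem hx), hAn.conj_mem _ h2 x⟩
    · rintro ⟨h1, h2⟩
      have h4 : t⁻¹ * y * t = x⁻¹ * (x * (t⁻¹ * y * t) * x⁻¹) * x := by group
      rw [h4]
      refine ⟨D.mul_mem (D.mul_mem (D.inv_mem hx) h1) hx, ?_⟩
      have := hAn.conj_mem _ h2 x⁻¹
      simpa using this
  refine ⟨t, ht, fun x => ⟨hfwd x, ?_⟩⟩
  intro hx
  have hm : x ∈ T ⊔ D := by rw [hsup]; trivial
  obtain ⟨t', ht', d, hd, rfl⟩ := Subgroup.mem_sup_of_normal_left.1 hm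
  have h5 : t' = (t * (t' * d) * t⁻¹) * (t * d * t⁻¹)⁻¹ := by
    have h6 : t * t' = t' * t := hcomm t ht t' ht'
    calc t' = t' * t * t⁻¹ := by group
      _ = t * t' * t⁻¹ := by rw [h6]
      _ = (t * (t' * d) * t⁻¹) * (t * d * t⁻¹)⁻¹ := by group
  have h7 : t' ∈ normalizer (U : Set M) := by
    rw [h5]
    exact mul_mem hx (inv_mem (hfwd d hd))
  have h8 : t' ∈ T ⊓ normalizer (U : Set M) := ⟨ht', h7⟩
  rw [hCT, Subgroup.mem_bot] at h8
  rw [h8, one_mul]
  exact hd

/-- the Frattini argument for complements -/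
theorem sol_frattini {M : Type u} [Group M] [Finite M] {T A : Subgroup M} (hTn : T.Normal)
    (hAn : A.Normal) (hTA : T ≤ A) (hcomm : ∀ x ∈ T, ∀ y ∈ T, x * y = y * x)
    (hcop : Nat.Coprime (Nat.card (T.subgroupOf A)) (T.subgroupOf A).index)
    {U : Subgroup M} (hUA : U ≤ A) (hUinf : ∀ x ∈ T, x ∈ U → x = 1)
    (hUsup : ∀ x ∈ A, ∃ t ∈ T, ∃ d ∈ U, x = t * d) :
    T ⊔ normalizer (U : Set M) = ⊤ := by
  rw [eq_top_iff]
  rintro g -
  -- `V = g U g⁻¹`
  set V : Subgroup M := U.map (MulAut.conj g).toMonoidHom with hV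
  have hVmem : ∀ x, x ∈ V ↔ g⁻¹ * x * g ∈ U := by
    intro x
    rw [hV, Subgroup.mem_map]
    constructor
    · rintro ⟨y, hy, rfl⟩
      show g⁻¹ * (g * y * g⁻¹) * g ∈ U
      have : g⁻¹ * (g * y * g⁻¹) * g = y := by group
      rw [this]
      exact hy
    · intro hx
      refine ⟨_, hx, ?_⟩
      show g * (g⁻¹ * x * g) * g⁻¹ = x
      group
  have hconjA : ∀ x ∈ A, g⁻¹ * x * g ∈ A := by
    intro x hx
    have := hAn.conj_mem x hx g⁻¹
    simpa using this
  have hconjT : ∀ x ∈ T, g⁻¹ * x * g ∈ T := by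
    intro x hx
    have := hTn.conj_mem x hx g⁻¹
    simpa using this
  have hVA : V ≤ A := by
    intro x hx
    have h1 := hAn.conj_mem _ (hUA ((hVmem x).1 hx)) g
    have h2 : g * (g⁻¹ * x * g) * g⁻¹ = x := by group
    rwa [h2] at h1
  have hVinf : ∀ x ∈ T, x ∈ V → x = 1 := by
    intro x hx hxV
    have h1 := hUinf _ (hconjT x hx) ((hVmem x).1 hxV)
    have h2 : x = g * (g⁻¹ * x * g) * g⁻¹ := by group
    rw [h2, h1]
    group
  have hVsup : ∀ x ∈ A, ∃ t ∈ T, ∃ d ∈ V, x = t * d := by
    intro x hx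
    obtain ⟨t, ht, d, hd, htd⟩ := hUsup _ (hconjA x hx)
    refine ⟨g * t * g⁻¹, hTn.conj_mem t ht g, g * d * g⁻¹, (hVmem _).2 ?_, ?_⟩
    · have : g⁻¹ * (g * d * g⁻¹) * g = d := by group
      rw [this]
      exact hd
    · have : x = g * (g⁻¹ * x * g) * g⁻¹ := by group
      rw [this, htd]
      group
  obtain ⟨t, ht, hconj⟩ := sol_conj_in hTn hTA hcomm hcop hUA hVA hUinf hUsup hVinf hVsup
  -- `V = t U t⁻¹`
  have h1 : t⁻¹ * g ∈ normalizer (U : Set M) := by
    rw [Subgroup.mem_normalizer_iff]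
    intro y
    have h2 : y ∈ U ↔ g * y * g⁻¹ ∈ V := by
      rw [hVmem]
      have : g⁻¹ * (g * y * g⁻¹) * g = y := by group
      rw [this]
    rw [h2, hconj]
    have h3 : t⁻¹ * g * y * (t⁻¹ * g)⁻¹ = t⁻¹ * (g * y * g⁻¹) * t := by group
    rw [h3]
  have h2 : g = t * (t⁻¹ * g) := by group
  rw [h2]
  exact mul_mem (Subgroup.mem_sup_left ht) (Subgroup.mem_sup_right h1)

end Pool.Agent.Lib.MP_544bd1_al
end

section

/-!
# Coinduction: free Burnside groups of large rank in two-generator groups of a larger exponent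

Let `Q` be a finite group of exponent dividing `m` which is generated by `k` elements.  If the free
Burnside group of rank `k` and exponent `m * n` is finite, then the free Burnside group of rank
`(k - 1) * |Q| + 1` and exponent `n` is finite: every group `D` of exponent `n` with so many generators
is a section of the `k`-generator subgroup of `D ≀ Q` generated by the labelled edges of a Cayley graph
of `Q`; the labels are trivial on a spanning tree and the other edges carry the generators of `D`.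
-/

namespace Pool.Agent.Lib.MP_544bd1_al.E5

open Pool.Agent.Lib.MP_544bd1_al Subgroup

section coinduction

variable {D Q : Type} [Group D] [Group Q]

/-- the labelled generators -/
def coGen {k : ℕ} (a : Fin k → Q) (f : Fin k → Q → D) (i : Fin k) : RegularWreathProduct D Q :=
  ⟨f i, a i⟩

/-- the vertex `v` can be reached from `1` by a path in the edges of `P` -/
def CoReach {k : ℕ} (D : Type) [Group D] (a : Fin k → Q) (P : Finset (Q × Fin k)) (v : Q) : Prop :=
  ∀ f : Fin k → Q → D, (∀ e ∈ P, f e.2 e.1 = 1) →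
    ∃ w ∈ closure (Set.range (coGen a f)), w.left 1 = 1 ∧ w.right⁻¹ = v

theorem CoReach.mono {k : ℕ} {a : Fin k → Q} {P P' : Finset (Q × Fin k)} {v : Q}
    (h : CoReach D a P v) (hP : P ⊆ P') : CoReach D a P' v :=
  fun f hf => h f fun e he => hf e (hP he)

theorem CoReach.one {k : ℕ} (a : Fin k → Q) (P : Finset (Q × Fin k)) : CoReach D a P 1 :=
  fun _ _ => ⟨1, one_mem _, rfl, by simp⟩

theorem CoReach.fwd {k : ℕ} {a : Fin k → Q} {P : Finset (Q × Fin k)} {v : Q} [DecidableEq Q]
    (h : CoReach D a P v) (i : Fin k) : CoReach D a (insert (v, i) P) ((a i)⁻¹ * v) := by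
  intro f hf
  obtain ⟨w, hw, h1, h2⟩ := h f fun e he => hf e (Finset.mem_insert_of_mem he)
  refine ⟨w * coGen a f i, mul_mem hw (subset_closure ⟨i, rfl⟩), ?_, ?_⟩
  · have h3 : (w * coGen a f i).left 1 = w.left 1 * f i (w.right⁻¹ * 1) := rfl
    rw [h3, h1, h2, mul_one, one_mul]
    exact hf _ (Finset.mem_insert_self _ _)
  · rw [RegularWreathProduct.mul_right, mul_inv_rev, h2]
    rfl

theorem CoReach.bwd {k : ℕ} {a : Fin k → Q} {P : Finset (Q × Fin k)} {v : Q} [DecidableEq Q]
    (h : CoReach D a P v) (i : Fin k) : CoReach D a (insert (a i * v, i) P) (a i * v) := by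
  intro f hf
  obtain ⟨w, hw, h1, h2⟩ := h f fun e he => hf e (Finset.mem_insert_of_mem he)
  refine ⟨w * (coGen a f i)⁻¹, mul_mem hw (inv_mem (subset_closure ⟨i, rfl⟩)), ?_, ?_⟩
  · have h3 : (w * (coGen a f i)⁻¹).left 1 =
        w.left 1 * (f i (a i * (w.right⁻¹ * 1)))⁻¹ := rfl
    rw [h3, h1, h2, mul_one, one_mul, inv_eq_one]
    exact hf _ (Finset.mem_insert_self _ _)
  · rw [RegularWreathProduct.mul_right, RegularWreathProduct.inv_right, mul_inv_rev, inv_inv, h2]
    rfl

/-- a spanning tree of the Cayley graph -/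
theorem exists_coTree [Fintype Q] [DecidableEq Q] {k : ℕ} {a : Fin k → Q}
    (ha : closure (Set.range a) = ⊤) (n : ℕ) (hn : n < Fintype.card Q) :
    ∃ (V : Finset Q) (P : Finset (Q × Fin k)), V.card = n + 1 ∧ P.card ≤ n ∧
      ∀ v ∈ V, CoReach D a P v := by
  induction n with
  | zero =>
    refine ⟨{1}, ∅, by simp, by simp, ?_⟩
    intro v hv
    rw [Finset.mem_singleton] at hv
    rw [hv]
    exact CoReach.one a _
  | succ n ih =>
    obtain ⟨V, P, hV, hP, hr⟩ := ih (by omega)
    have hne : V.Nonempty := Finset.card_pos.1 (by omega)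
    by_cases hcl : ∀ v ∈ V, ∀ i, (a i)⁻¹ * v ∈ V ∧ a i * v ∈ V
    · exfalso
      have hall : ∀ q : Q, ∀ v ∈ V, q * v ∈ V := by
        intro q
        have hq : q ∈ closure (Set.range a) := by rw [ha]; trivial
        induction hq using closure_induction with
        | mem x hx =>
          obtain ⟨i, rfl⟩ := hx
          intro v hv
          exact (hcl v hv i).2
        | one => intro v hv; rwa [one_mul]
        | mul x y _ _ hx hy =>
          intro v hv
          rw [mul_assoc]
          exact hx _ (hy v hv)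
        | inv x _ hx =>
          intro v hv
          -- left multiplication by `x` is a bijection of `V`
          have hinj : Set.InjOn (fun u => x * u) V := fun u _ u' _ h => mul_left_cancel h
          have hmaps : ∀ u ∈ V, (fun u => x * u) u ∈ V := hx
          obtain ⟨u, hu, huv⟩ := Finset.surj_on_of_inj_on_of_card_le
            (s := V) (t := V) (fun u _ => x * u) (fun u hu => hx u hu)
            (fun u u' _ _ h => mul_left_cancel h) le_rfl v hv
          rw [huv, inv_mul_cancel_left]
          exact hu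
      obtain ⟨v, hv⟩ := hne
      have huniv : V = Finset.univ := by
        rw [Finset.eq_univ_iff_forall]
        intro q
        have := hall (q * v⁻¹) v hv
        rwa [inv_mul_cancel_right] at this
      rw [huniv, Finset.card_univ] at hV
      omega
    · push Not at hcl
      obtain ⟨v, hv, i, hi⟩ := hcl
      by_cases h1 : (a i)⁻¹ * v ∈ V
      · have h2 := hi h1
        refine ⟨insert (a i * v) V, insert (a i * v, i) P, ?_, ?_, ?_⟩
        · rw [Finset.card_insert_of_notMem h2, hV]
        · exact (Finset.card_insert_le _ _).trans (by omega)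
        · intro u hu
          rcases Finset.mem_insert.1 hu with rfl | hu
          · exact (hr v hv).bwd i
          · exact (hr u hu).mono (Finset.subset_insert _ _)
      · refine ⟨insert ((a i)⁻¹ * v) V, insert (v, i) P, ?_, ?_, ?_⟩
        · rw [Finset.card_insert_of_notMem h1, hV]
        · exact (Finset.card_insert_le _ _).trans (by omega)
        · intro u hu
          rcases Finset.mem_insert.1 hu with rfl | hu
          · exact (hr v hv).fwd i
          · exact (hr u hu).mono (Finset.subset_insert _ _)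

/-- the labelled generators generate a subgroup which contains elements of the base group with
prescribed values at `1` -/
theorem exists_coLabel [Fintype Q] [DecidableEq Q] {k : ℕ} (hk : 1 ≤ k) {a : Fin k → Q}
    (ha : closure (Set.range a) = ⊤) (x : Fin ((k - 1) * Fintype.card Q + 1) → D) :
    ∃ f : Fin k → Q → D, ∀ j, ∃ w ∈ closure (Set.range (coGen a f)),
      w.right = 1 ∧ w.left 1 = x j := by
  have hQ : 0 < Fintype.card Q := Fintype.card_pos
  obtain ⟨V, P, hV, hP, hr⟩ := exists_coTree (D := D) ha (Fintype.card Q - 1) (by omega)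
  have huniv : ∀ v, v ∈ V := by
    have : V = Finset.univ := Finset.eq_univ_of_card _ (by omega)
    intro v
    rw [this]
    exact Finset.mem_univ v
  obtain ⟨ι, hι⟩ : ∃ ι : Fin ((k - 1) * Fintype.card Q + 1) ↪ (Q × Fin k), ∀ j, ι j ∉ P := by
    have hcard : (k - 1) * Fintype.card Q + 1 ≤ (Pᶜ).card := by
      rw [Finset.card_compl, Fintype.card_prod, Fintype.card_fin]
      obtain ⟨k', rfl⟩ : ∃ k', k = k' + 1 := ⟨k - 1, by omega⟩
      rw [Nat.add_sub_cancel]
      have : Fintype.card Q * (k' + 1) = k' * Fintype.card Q + Fintype.card Q := by ring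
      rw [this]
      omega
    have h1 : Fintype.card (Fin ((k - 1) * Fintype.card Q + 1)) ≤ Fintype.card (Pᶜ : Finset _) := by
      rw [Fintype.card_fin, Fintype.card_coe]
      exact hcard
    obtain ⟨e⟩ := Function.Embedding.nonempty_of_card_le h1
    refine ⟨e.trans (Function.Embedding.subtype _), fun j => ?_⟩
    exact Finset.mem_compl.1 (e j).2
  classical
  let f : Fin k → Q → D := fun i v => if h : ∃ j, ι j = (v, i) then x h.choose else 1
  have hf1 : ∀ e ∈ P, f e.2 e.1 = 1 := by
    intro e he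
    have : ¬ ∃ j, ι j = (e.1, e.2) := by
      rintro ⟨j, hj⟩
      exact hι j (by rw [hj]; exact he)
    exact dif_neg this
  have hf2 : ∀ j, f (ι j).2 (ι j).1 = x j := by
    intro j
    have h : ∃ j', ι j' = ((ι j).1, (ι j).2) := ⟨j, rfl⟩
    have h1 : f (ι j).2 (ι j).1 = x h.choose := dif_pos h
    have h2 : h.choose = j := ι.injective h.choose_spec
    rw [h1, h2]
  refine ⟨f, fun j => ?_⟩
  obtain ⟨w, hw, hw1, hw2⟩ := hr (ι j).1 (huniv _) f hf1
  obtain ⟨w', hw', hw1', hw2'⟩ := hr ((a (ι j).2)⁻¹ * (ι j).1) (huniv _) f hf1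
  refine ⟨w * coGen a f (ι j).2 * w'⁻¹,
    mul_mem (mul_mem hw (subset_closure ⟨_, rfl⟩)) (inv_mem hw'), ?_, ?_⟩
  · rw [RegularWreathProduct.mul_right, RegularWreathProduct.mul_right,
      RegularWreathProduct.inv_right, hw2']
    have h3 : w.right = (ι j).1⁻¹ := by rw [← hw2, inv_inv]
    rw [h3]
    show (ι j).1⁻¹ * a (ι j).2 * ((a (ι j).2)⁻¹ * (ι j).1) = 1
    group
  · have h3 : (w * coGen a f (ι j).2 * w'⁻¹).left 1 =
        w.left 1 * f (ι j).2 (w.right⁻¹ * 1) *
          (w'.left (w'.right * ((w.right * a (ι j).2)⁻¹ * 1)))⁻¹ := rfl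
    have h4 : w'.right * ((w.right * a (ι j).2)⁻¹ * 1) = 1 := by
      rw [mul_one, mul_inv_rev, hw2, ← hw2']
      group
    rw [h3, h4, hw1, hw1', hw2, mul_one, one_mul, inv_one, mul_one]
    exact hf2 j

end coinduction

section exponent

variable {D Q : Type} [Group D] [Group Q]

theorem co_left_pow {a : RegularWreathProduct D Q} (h : a.right = 1) (n : ℕ) :
    (a ^ n).left = a.left ^ n ∧ (a ^ n).right = 1 := by
  induction n with
  | zero => simp
  | succ n ih =>
    rw [pow_succ, RegularWreathProduct.mul_left, RegularWreathProduct.mul_right, ih.1, ih.2, h]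
    constructor
    · funext x
      simp [pow_succ]
    · simp

theorem co_right_pow (a : RegularWreathProduct D Q) (n : ℕ) : (a ^ n).right = a.right ^ n := by
  induction n with
  | zero => simp
  | succ n ih => rw [pow_succ, RegularWreathProduct.mul_right, ih, pow_succ]

theorem co_exponent {m n : ℕ} (hD : ∀ d : D, d ^ n = 1) (hQ : ∀ q : Q, q ^ m = 1)
    (a : RegularWreathProduct D Q) : a ^ (m * n) = 1 := by
  rw [pow_mul]
  have h1 : (a ^ m).right = 1 := by rw [co_right_pow, hQ]
  obtain ⟨h2, h3⟩ := co_left_pow h1 n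
  apply RegularWreathProduct.ext
  · rw [h2]
    funext x
    simp [hD]
  · rw [h3]
    rfl

/-- evaluation at `1` of the elements of the base group -/
def coEval : (RegularWreathProduct.rightHom : RegularWreathProduct D Q →* Q).ker →* D where
  toFun a := a.1.left 1
  map_one' := rfl
  map_mul' a b := by
    have ha : a.1.right = 1 := a.2
    show (a.1 * b.1).left 1 = _
    rw [RegularWreathProduct.mul_left]
    simp [ha]

/-- **Coinduction.** -/
theorem co_finite {k m n : ℕ} (hk : 1 ≤ k) (h : Finite (FreeBurnside k (m * n))) [Fintype Q]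
    {a : Fin k → Q} (ha : closure (Set.range a) = ⊤) (hQ : ∀ q : Q, q ^ m = 1)
    (hD : ∀ d : D, d ^ n = 1) (x : Fin ((k - 1) * Fintype.card Q + 1) → D) :
    Finite (closure (Set.range x)) := by
  classical
  obtain ⟨f, hf⟩ := exists_coLabel hk ha x
  have hexp : ∀ w : RegularWreathProduct D Q, w ^ (m * n) = 1 := co_exponent hD hQ
  obtain ⟨ψ, hψ⟩ : ∃ ψ : FreeBurnside k (m * n) →* RegularWreathProduct D Q,
      ψ = burnsideLift k (m * n) hexp (coGen a f) := ⟨_, rfl⟩
  have hfin : Finite ψ.range := Set.finite_range ψ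
  have hgen : closure (Set.range (coGen a f)) ≤ ψ.range := by
    rw [closure_le]
    rintro _ ⟨i, rfl⟩
    exact ⟨_, by rw [hψ]; exact burnsideLift_of k (m * n) hexp (coGen a f) i⟩
  obtain ⟨B, hB⟩ : ∃ B : Subgroup (RegularWreathProduct.rightHom :
      RegularWreathProduct D Q →* Q).ker, B = ψ.range.comap
        (RegularWreathProduct.rightHom : RegularWreathProduct D Q →* Q).ker.subtype := ⟨_, rfl⟩
  have hBfin : (B : Set (RegularWreathProduct.rightHom :
      RegularWreathProduct D Q →* Q).ker).Finite := by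
    rw [hB, Subgroup.coe_comap]
    exact Set.Finite.preimage (Subtype.val_injective.injOn) (Set.toFinite _)
  have hMfin : Finite (B.map coEval) := by
    have : (B.map coEval : Set D).Finite := by
      rw [Subgroup.coe_map]
      exact hBfin.image _
    exact this.to_subtype
  have hle : closure (Set.range x) ≤ B.map coEval := by
    rw [closure_le]
    rintro _ ⟨j, rfl⟩
    obtain ⟨w, hw, hw1, hw2⟩ := hf j
    exact ⟨⟨w, hw1⟩, by rw [hB]; exact hgen hw, hw2⟩
  exact Finite.of_injective _ (inclusion_injective hle)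

end exponent

theorem burnside_closure (r n : ℕ) :
    closure (Set.range fun i : Fin r => (QuotientGroup.mk (FreeGroup.of i) : FreeBurnside r n)) =
      ⊤ := by
  have h1 : (⊤ : Subgroup (FreeBurnside r n)) =
      (⊤ : Subgroup (FreeGroup (Fin r))).map (QuotientGroup.mk' _) := by
    rw [Subgroup.map_top_of_surjective _ (QuotientGroup.mk'_surjective _)]
  rw [eq_comm, h1, ← FreeGroup.closure_range_of, MonoidHom.map_closure, ← Set.range_comp]
  rfl

/-- a finite free Burnside group of rank `k` and exponent `m * n` makes the free Burnside groups of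
exponent `n` and rank up to `(k - 1) * |Q| + 1` finite, for every finite `k`-generator group `Q` of
exponent dividing `m` -/
theorem co_burnside {k m n r : ℕ} (hk : 1 ≤ k) (h : Finite (FreeBurnside k (m * n)))
    (Q : Type) [Group Q] [Finite Q] {a : Fin k → Q} (ha : closure (Set.range a) = ⊤)
    (hQ : ∀ q : Q, q ^ m = 1) (hr : r ≤ (k - 1) * Nat.card Q + 1) :
    Finite (FreeBurnside r n) := by
  classical
  have := Fintype.ofFinite Q
  rw [Nat.card_eq_fintype_card] at hr
  let g : Fin r → FreeBurnside r n := fun i => QuotientGroup.mk (FreeGroup.of i)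
  let x : Fin ((k - 1) * Fintype.card Q + 1) → FreeBurnside r n :=
    fun j => if hj : (j : ℕ) < r then g ⟨j, hj⟩ else 1
  have h1 := co_finite hk h ha hQ (fun d => burnside_pow r n d) x
  have h2 : closure (Set.range x) = ⊤ := by
    rw [eq_top_iff, ← burnside_closure r n]
    refine closure_mono ?_
    rintro _ ⟨i, rfl⟩
    refine ⟨⟨i, lt_of_lt_of_le i.2 hr⟩, ?_⟩
    exact dif_pos i.2
  rw [h2] at h1
  exact Finite.of_equiv _ Subgroup.topEquiv.toEquiv

/-- **The free Burnside group of rank `k` and exponent `m * n` knows the free Burnside group of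
exponent `n` and rank `(k - 1) * |B_{k,m}| + 1`.** -/
theorem co_burnside_burnside {k m n r : ℕ} (hk : 1 ≤ k)
    (h : Finite (FreeBurnside k (m * n)))
    (hr : r ≤ (k - 1) * Nat.card (FreeBurnside k m) + 1) :
    Finite (FreeBurnside r n) := by
  have hexp : ∀ g : FreeBurnside k m, g ^ (m * n) = 1 := by
    intro g
    rw [pow_mul, burnside_pow, one_pow]
  have hfin : Finite (FreeBurnside k m) := by
    have hsurj : Function.Surjective (burnsideLift k (m * n) hexp
        fun i => (QuotientGroup.mk (FreeGroup.of i) : FreeBurnside k m)) := by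
      rw [← MonoidHom.range_eq_top, eq_top_iff, ← burnside_closure k m, closure_le]
      rintro _ ⟨i, rfl⟩
      exact ⟨_, burnsideLift_of k (m * n) hexp _ i⟩
    exact Finite.of_surjective _ hsurj
  exact co_burnside hk h (FreeBurnside k m) (burnside_closure k m) (fun q => burnside_pow k m q) hr

/-- rank two, and a divisor `q` of the exponent `n`: the condition `q ∈ 𝓛` only has to be checked
under the assumption that the groups of rank at most `|B_{2,n/q}| + 1` and exponent `q` are finite -/
theorem co_weaken {n q : ℕ} (hq : q ∣ n) (h : Finite (FreeBurnside 2 n)) :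
    ∀ r ≤ Nat.card (FreeBurnside 2 (n / q)) + 1, Finite (FreeBurnside r q) := by
  intro r hr
  have h1 : n / q * q = n := Nat.div_mul_cancel hq
  rw [← h1] at h
  exact co_burnside_burnside (k := 2) (by norm_num) h (by simpa using hr)

/-- two-generator criteria with the weaker hypothesis -/
theorem co_criterion {n : ℕ} (S : Set ℕ) (hS : ∀ q ∈ S, q ∣ n)
    (hcrit : n ∈ LocFinExponents ↔ Finite (FreeBurnside 2 n) ∧ ∀ q ∈ S, q ∈ LocFinExponents) :
    n ∈ LocFinExponents ↔ Finite (FreeBurnside 2 n) ∧ ∀ q ∈ S,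
      ((∀ r ≤ Nat.card (FreeBurnside 2 (n / q)) + 1, Finite (FreeBurnside r q)) →
        q ∈ LocFinExponents) := by
  rw [hcrit]
  constructor
  · rintro ⟨h1, h2⟩
    exact ⟨h1, fun q hq _ => h2 q hq⟩
  · rintro ⟨h1, h2⟩
    exact ⟨h1, fun q hq => h2 q hq (co_weaken (hS q hq) h1)⟩

end Pool.Agent.Lib.MP_544bd1_al.E5
end
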