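import Mathlib
import Pool.Agent.Lib.MP_544bd1_al.E5.Coind

section

/-!
# Linear combinations for the checker
-/

namespace Pool.Agent.Lib.MP_544bd1_al.E5

section lin

variable {M : Type*} [AddCommGroup M]

/-- linear combination -/
def lc : List ℕ → List M → M
  | [], _ => 0
  | _ :: _, [] => 0
  | a :: v, x :: xs => a • x + lc v xs

theorem lc_nil_right (v : List ℕ) : lc v ([] : List M) = 0 := by cases v <;> rfl

theorem mod_smul (h5 : ∀ x : M, 5 • x = 0) (a : ℕ) (x : M) : (a % 5) • x = a • x := by
  conv_rhs => rw [← Nat.div_add_mod a 5, add_smul, mul_smul, h5, zero_add]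

theorem lc_addV (h5 : ∀ x : M, 5 • x = 0) (v w : List ℕ) (xs : List M) :
    lc (addV v w) xs = lc v xs + lc w xs := by
  induction v generalizing w xs with
  | nil => simp [addV, lc]
  | cons a v ih =>
    cases w with
    | nil => simp [addV, lc]
    | cons b w =>
      cases xs with
      | nil => simp [addV, lc]
      | cons x xs => simp only [addV, lc, mod_smul h5, add_smul, ih]; abel

theorem lc_smulV (h5 : ∀ x : M, 5 • x = 0) (c : ℕ) (v : List ℕ) (xs : List M) :
    lc (smulV c v) xs = c • lc v xs := by
  induction v generalizing xs with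
  | nil => simp [smulV, lc]
  | cons a v ih =>
    cases xs with
    | nil => simp [smulV, lc]
    | cons x xs => simp only [smulV, lc, mod_smul h5, mul_smul, ih, smul_add]

theorem lc_zeroV (h5 : ∀ x : M, 5 • x = 0) (v : List ℕ) (xs : List M) (h : zeroV v = true) :
    lc v xs = 0 := by
  induction v generalizing xs with
  | nil => simp [lc]
  | cons a v ih =>
    simp only [zeroV, Bool.and_eq_true, beq_iff_eq] at h
    cases xs with
    | nil => simp [lc]
    | cons x xs =>
      rw [lc, ih _ h.2, ← mod_smul h5, h.1]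
      simp

theorem lc_mulRows (h5 : ∀ x : M, 5 • x = 0) (v : List ℕ) (A : List (List ℕ)) (xs : List M) :
    lc (mulRows v A) xs = lc v (A.map fun r => lc r xs) := by
  induction v generalizing A with
  | nil => simp [mulRows, lc]
  | cons a v ih =>
    cases A with
    | nil => simp [mulRows, lc]
    | cons r A =>
      rw [mulRows, List.map_cons, lc]
      cases ha : (a == 0) with
      | true =>
        rw [beq_iff_eq] at ha
        rw [cond_true, ih, ha, zero_smul, zero_add]
      | false =>
        rw [cond_false, lc_addV h5, lc_smulV h5, ih]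

theorem lc_map {N : Type*} [AddCommGroup N] (f : M →+ N) (v : List ℕ) (xs : List M) :
    f (lc v xs) = lc v (xs.map f) := by
  induction v generalizing xs with
  | nil => simp [lc]
  | cons a v ih =>
    cases xs with
    | nil => simp [lc]
    | cons x xs => simp only [lc, List.map_cons, map_add, map_nsmul, ih]

theorem lc_congr (I : AddSubgroup M) (v : List ℕ) {xs ys : List M}
    (h : List.Forall₂ (fun x y => x - y ∈ I) xs ys) : lc v xs - lc v ys ∈ I := by
  induction v generalizing xs ys with
  | nil => simp [lc]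
  | cons a v ih =>
    cases h with
    | nil => simp [lc]
    | cons h1 h2 =>
      simp only [lc]
      have : ∀ (x y s t : M), a • x + s - (a • y + t) = a • (x - y) + (s - t) := by
        intro x y s t
        rw [smul_sub]; abel
      rw [this]
      exact I.add_mem (I.nsmul_mem h1 a) (ih h2)

theorem lc_mem (I : AddSubgroup M) (v : List ℕ) {xs : List M} (h : ∀ x ∈ xs, x ∈ I) :
    lc v xs ∈ I := by
  induction v generalizing xs with
  | nil => simp [lc]
  | cons a v ih =>
    cases xs with
    | nil => simp [lc]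
    | cons x xs =>
      simp only [lc]
      exact I.add_mem (I.nsmul_mem (h x (by simp)) a) (ih fun y hy => h y (by simp [hy]))

theorem lc_unitV (i : ℕ) (xs : List M) (x : M) (h : xs[i]? = some x) : lc (unitV i) xs = x := by
  induction i generalizing xs with
  | zero =>
    cases xs with
    | nil => simp at h
    | cons y ys =>
      simp at h
      simp [unitV, lc, h]
  | succ i ih =>
    cases xs with
    | nil => simp at h
    | cons y ys =>
      simp at h
      have := ih ys h
      rw [unitV] at this ⊢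
      rw [List.replicate_succ, List.cons_append, lc, this]
      simp

theorem lc_unitV_none (i : ℕ) (xs : List M) (h : xs[i]? = none) : lc (unitV i) xs = 0 := by
  induction i generalizing xs with
  | zero =>
    cases xs with
    | nil => simp [unitV, lc]
    | cons y ys => simp at h
  | succ i ih =>
    cases xs with
    | nil => exact lc_nil_right _
    | cons y ys =>
      simp at h
      have := ih ys (by simpa using h)
      rw [unitV] at this ⊢
      rw [List.replicate_succ, List.cons_append, lc, this]
      simp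

/-- value of a block vector -/
def lcB : List (List ℕ) → (ℕ → List M) → M
  | [], _ => 0
  | v :: B, u => lc v (u 0) + lcB B (fun i => u (i + 1))

theorem lcB_addB (h5 : ∀ x : M, 5 • x = 0) (v w : List (List ℕ)) (u : ℕ → List M) :
    lcB (addB v w) u = lcB v u + lcB w u := by
  induction v generalizing w u with
  | nil => simp [addB, lcB]
  | cons a v ih =>
    cases w with
    | nil => simp [addB, lcB]
    | cons b w => simp only [addB, lcB, lc_addV h5, ih]; abel

theorem lcB_smulB (h5 : ∀ x : M, 5 • x = 0) (c : ℕ) (v : List (List ℕ)) (u : ℕ → List M) :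
    lcB (smulB c v) u = c • lcB v u := by
  induction v generalizing u with
  | nil => simp [smulB, lcB]
  | cons a v ih => simp only [smulB, lcB, lc_smulV h5, ih, smul_add]

theorem lcB_zeroB (h5 : ∀ x : M, 5 • x = 0) (v : List (List ℕ)) (u : ℕ → List M)
    (h : zeroB v = true) : lcB v u = 0 := by
  induction v generalizing u with
  | nil => simp [lcB]
  | cons a v ih =>
    simp only [zeroB, Bool.and_eq_true] at h
    rw [lcB, lc_zeroV h5 _ _ h.1, ih _ h.2, add_zero]

theorem lcB_single (j : ℕ) (v : List ℕ) (u : ℕ → List M) :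
    lcB (List.replicate j [] ++ [v]) u = lc v (u j) := by
  induction j generalizing u with
  | zero => simp [lcB]
  | succ j ih =>
    rw [List.replicate_succ, List.cons_append, lcB, ih]
    simp [lc]

theorem lcB_combRel (h5 : ∀ x : M, 5 • x = 0) (v : List ℕ) (Bs : List (List (List ℕ)))
    (u : ℕ → List M) : lcB (combRel v Bs) u = lc v (Bs.map fun B => lcB B u) := by
  induction v generalizing Bs with
  | nil => simp [combRel, lc, lcB]
  | cons a v ih =>
    cases Bs with
    | nil => simp [combRel, lc, lcB]
    | cons B Bs =>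
      rw [combRel, List.map_cons, lc]
      cases ha : (a == 0) with
      | true =>
        rw [beq_iff_eq] at ha
        rw [cond_true, ih, ha, zero_smul, zero_add]
      | false =>
        rw [cond_false, lcB_addB h5, lcB_smulB h5, ih]

theorem checkRow_sound (h5 : ∀ x : M, 5 • x = 0) (pos : List (ℕ × ℕ))
    (Bs : List (List (List ℕ))) (blk i : ℕ) (row cert : List ℕ) (u : ℕ → List M)
    (I : AddSubgroup M) (hI : ∀ B ∈ Bs, lcB B u ∈ I)
    (h : checkRow pos Bs blk i row cert = true) :
    lcB (unitB blk i) u - lc row (pos.map fun p => lcB (unitB p.1 p.2) u) ∈ I := by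
  have h1 := lcB_zeroB h5 _ u h
  rw [lcB_addB h5, lcB_smulB h5, lcB_addB h5, lcB_combRel h5, lcB_combRel h5,
    List.map_map] at h1
  have h2 : lc cert (Bs.map fun B => lcB B u) ∈ I := by
    apply lc_mem
    intro x hx
    obtain ⟨B, hB, rfl⟩ := List.mem_map.1 hx
    exact hI B hB
  have h3 : (pos.map ((fun B => lcB B u) ∘ fun p => unitB p.1 p.2)) =
      pos.map fun p => lcB (unitB p.1 p.2) u := rfl
  rw [h3] at h1
  set x := lcB (unitB blk i) u
  set a := lc row (pos.map fun p => lcB (unitB p.1 p.2) u)
  set c := lc cert (Bs.map fun B => lcB B u)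
  have h4 : x - a = c := by
    have h6 : (5 : ℕ) • (a + c) = 0 := h5 _
    have h7 : x + (4 : ℕ) • (a + c) = x - (a + c) + (5 : ℕ) • (a + c) := by
      rw [show (5 : ℕ) = 4 + 1 from rfl, add_smul, one_smul]; abel
    rw [h7, h6, add_zero] at h1
    rw [sub_eq_zero] at h1
    rw [h1]; abel
  rw [h4]
  exact h2

theorem checkRows_sound (h5 : ∀ x : M, 5 • x = 0) (pos : List (ℕ × ℕ))
    (Bs : List (List (List ℕ))) (blk i : ℕ) (rows certs : List (List ℕ)) (u : ℕ → List M)
    (I : AddSubgroup M) (hI : ∀ B ∈ Bs, lcB B u ∈ I)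
    (h : checkRows pos Bs blk i rows certs = true) (n : ℕ) (row : List ℕ)
    (hn : rows[n]? = some row) :
    lcB (unitB blk (i + n)) u - lc row (pos.map fun p => lcB (unitB p.1 p.2) u) ∈ I := by
  induction rows generalizing i certs n with
  | nil => simp at hn
  | cons r rs ih =>
    cases certs with
    | nil => simp [checkRows] at h
    | cons c cs =>
      simp only [checkRows, Bool.and_eq_true] at h
      cases n with
      | zero =>
        simp at hn
        subst hn
        exact checkRow_sound h5 pos Bs blk i r c u I hI h.1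
      | succ n =>
        simp at hn
        have := ih (i + 1) cs h.2 n hn
        rw [show i + (n + 1) = i + 1 + n by ring]
        exact this

theorem checkRows_forall (h5 : ∀ x : M, 5 • x = 0) (pos : List (ℕ × ℕ))
    (Bs : List (List (List ℕ))) (blk : ℕ) (rows certs : List (List ℕ)) (u : ℕ → List M)
    (I : AddSubgroup M) (hI : ∀ B ∈ Bs, lcB B u ∈ I)
    (h : checkRows pos Bs blk 0 rows certs = true) (hl : rows.length = (u blk).length) :
    List.Forall₂ (fun x row => x - lc row (pos.map fun p => lcB (unitB p.1 p.2) u) ∈ I)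
      (u blk) rows := by
  rw [List.forall₂_iff_get]
  refine ⟨hl.symm, fun n h1 h2 => ?_⟩
  have := checkRows_sound h5 pos Bs blk 0 rows certs u I hI h n (rows.get ⟨n, h2⟩)
    (by simp)
  rw [unitB, lcB_single, lc_unitV (0 + n) (u blk) ((u blk).get ⟨n, h1⟩) (by simp)] at this
  exact this

theorem checkRowsY_forall (h5 : ∀ x : M, 5 • x = 0) (pos : List (ℕ × ℕ))
    (Bs : List (List (List ℕ))) (n : ℕ) (blk : ℕ) (rows certs : List (List (List ℕ)))
    (u : ℕ → List M)
    (I : AddSubgroup M) (hI : ∀ B ∈ Bs, lcB B u ∈ I)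
    (h : checkRowsY pos Bs n blk rows certs = true) (j : ℕ) (A : List (List ℕ))
    (hj : rows[j]? = some A) (hn : (u (blk + j)).length = n) :
    List.Forall₂ (fun x row => x - lc row (pos.map fun p => lcB (unitB p.1 p.2) u) ∈ I)
      (u (blk + j)) A := by
  induction rows generalizing blk certs j with
  | nil => simp at hj
  | cons r rs ih =>
    cases certs with
    | nil => simp [checkRowsY] at h
    | cons c cs =>
      simp only [checkRowsY, Bool.and_eq_true, beq_iff_eq] at h
      cases j with
      | zero =>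
        simp at hj
        subst hj
        exact checkRows_forall h5 pos Bs blk r c u I hI h.1.2 (by rw [h.1.1]; exact hn.symm)
      | succ j =>
        simp at hj
        have := ih (blk + 1) cs h.2 j hj (by rw [← hn]; congr 2; ring)
        rw [show blk + (j + 1) = blk + 1 + j by ring]
        exact this

end lin

end Pool.Agent.Lib.MP_544bd1_al.E5
end

section

/-!
# Semantics for the checker
-/

namespace Pool.Agent.Lib.MP_544bd1_al.E5

variable {R : Type*} [Ring R]

/-- value of an encoded letter -/
def lval (X : R) (e : List R) : ℕ → R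
  | 0 => X
  | i + 1 => e.getD i 0

/-- value of a word -/
def wv (X : R) (e : List R) (w : List ℕ) : R := (w.map (lval X e)).prod

theorem wv_append (X : R) (e : List R) (w w' : List ℕ) :
    wv X e (w ++ w') = wv X e w * wv X e w' := by
  simp [wv]

theorem wv_single (X : R) (e : List R) (a : ℕ) : wv X e [a] = lval X e a := by
  simp [wv]

theorem getD_mem {L : AddSubgroup R} {e : List R} (he : ∀ y ∈ e, y ∈ L) (i : ℕ) :
    e.getD i 0 ∈ L := by
  rw [List.getD_eq_getElem?_getD]
  cases h : e[i]? with
  | none => simp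
  | some y => simp only [Option.getD_some]; exact he y (List.mem_of_getElem? h)

theorem wd_wv {L : AddSubgroup R} (X : R) {e : List R} (he : ∀ y ∈ e, y ∈ L) (w : List ℕ) :
    Wd L X (w.count 0) (w.length - w.count 0) (wv X e w) := by
  induction w using List.reverseRecOn with
  | nil => simpa [wv] using Wd.one
  | append_singleton w a ih =>
    rw [wv_append, wv_single]
    have hc : w.count 0 ≤ w.length := List.count_le_length
    cases a with
    | zero =>
      have h1 : (w ++ [0]).count 0 = w.count 0 + 1 := by simp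
      have h2 : (w ++ [0]).length - (w ++ [0]).count 0 = w.length - w.count 0 := by
        rw [h1]; simp
      rw [h2, h1]
      exact Wd.mulX ih
    | succ i =>
      have h1 : (w ++ [i + 1]).count 0 = w.count 0 := by simp
      have h2 : (w ++ [i + 1]).length - (w ++ [i + 1]).count 0 =
          w.length - w.count 0 + 1 := by
        rw [h1]; simp; omega
      rw [h2, h1]
      exact Wd.mulL (getD_mem he i) ih

theorem lval_skip (X : R) (e : List R) (j a : ℕ) :
    lval X e (skip j a) = lval X (e.eraseIdx j) a := by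
  cases a with
  | zero => simp [skip, lval, show Nat.ble 0 j = true by simp]
  | succ i =>
    rw [skip]
    cases h : Nat.ble (i + 1) j with
    | true =>
      have h1 : i + 1 ≤ j := Nat.le_of_ble_eq_true h
      rw [cond_true, lval, lval, List.getD_eq_getElem?_getD, List.getD_eq_getElem?_getD,
        List.getElem?_eraseIdx_of_lt (by omega)]
    | false =>
      have h1 : ¬ i + 1 ≤ j := Nat.not_le_of_not_ble_eq_true (by simp [h])
      rw [cond_false, lval, lval, List.getD_eq_getElem?_getD, List.getD_eq_getElem?_getD,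
        List.getElem?_eraseIdx_of_ge (by omega)]

theorem wv_skip (X : R) (e : List R) (j : ℕ) (w : List ℕ) :
    wv X e (w.map (skip j)) = wv X (e.eraseIdx j) w := by
  rw [wv, wv, List.map_map]
  congr 2
  funext a
  exact lval_skip X e j a

/-- the span of the words starting with a letter of `L`, and of words with fewer letters -/
def Id (L : AddSubgroup R) (X : R) (k m : ℕ) : AddSubgroup R :=
  AddSubgroup.closure {r | (∃ y ∈ L, ∃ s, ∃ m', m' + 1 = m ∧ Wd L X k m' s ∧ r = y * s) ∨
    (∃ m', m' < m ∧ Wd L X k m' r)}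

variable {L : AddSubgroup R} {X : R}

theorem Id_mulX {k m : ℕ} {r : R} (h : r ∈ Id L X k m) : r * X ∈ Id L X (k + 1) m := by
  refine AddSubgroup.closure_induction ?_ ?_ ?_ ?_ h
  · rintro r (⟨y, hy, s, m', hm, hs, rfl⟩ | ⟨m', hm, hr⟩)
    · apply AddSubgroup.subset_closure
      left
      exact ⟨y, hy, s * X, m', hm, Wd.mulX hs, by rw [mul_assoc]⟩
    · apply AddSubgroup.subset_closure
      right
      exact ⟨m', hm, Wd.mulX hr⟩
  · simp
  · intro x y _ _ hx hy
    rw [add_mul]
    exact add_mem hx hy
  · intro x _ hx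
    rw [neg_mul]
    exact neg_mem hx

theorem Id_mulL {k m : ℕ} {r z : R} (hz : z ∈ L) (h : r ∈ Id L X k m) :
    r * z ∈ Id L X k (m + 1) := by
  refine AddSubgroup.closure_induction ?_ ?_ ?_ ?_ h
  · rintro r (⟨y, hy, s, m', hm, hs, rfl⟩ | ⟨m', hm, hr⟩)
    · apply AddSubgroup.subset_closure
      left
      exact ⟨y, hy, s * z, m' + 1, by omega, Wd.mulL hz hs, by rw [mul_assoc]⟩
    · apply AddSubgroup.subset_closure
      right
      exact ⟨m' + 1, by omega, Wd.mulL hz hr⟩
  · simp
  · intro x y _ _ hx hy
    rw [add_mul]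
    exact add_mem hx hy
  · intro x _ hx
    rw [neg_mul]
    exact neg_mem hx

theorem Id_low {k m m' : ℕ} {r : R} (hm : m' < m) (h : Wd L X k m' r) : r ∈ Id L X k m :=
  AddSubgroup.subset_closure (Or.inr ⟨m', hm, h⟩)

theorem Wd_zero_zero {r : R} (h : Wd L X 0 0 r) : r = 1 := by
  cases h
  rfl

/-- semantic correctness of a level -/
structure Sd (L : AddSubgroup R) (X : R) (wd : ℕ → ℕ → List (List ℕ)) (k m : ℕ)
    (l : Level) : Prop where
  hwd : ∀ w ∈ wd k m, w.count 0 = k ∧ w.length = k + m
  rX : ∀ k', k = k' + 1 → ∀ e : List R, e.length = m → (∀ y ∈ e, y ∈ L) →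
    List.Forall₂ (fun w row => wv X e w * X - lc row ((wd k m).map (wv X e)) ∈ Id L X k m)
      (wd k' m) l.rowsX
  rYlen : k + m ≠ 0 → l.rowsY.length = m
  rY : ∀ m', m = m' + 1 → ∀ j A, l.rowsY[j]? = some A → ∀ e : List R, e.length = m →
    (∀ y ∈ e, y ∈ L) →
    List.Forall₂ (fun w row => wv X (e.eraseIdx j) w * e.getD j 0 -
      lc row ((wd k m).map (wv X e)) ∈ Id L X k m) (wd k m') A

/-- a state represents an element -/
def Rep (L : AddSubgroup R) (X : R) (wd : ℕ → ℕ → List (List ℕ)) (E : ℕ → R) (s : St)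
    (r : R) : Prop :=
  r - lc s.v ((wd s.k s.U.length).map (wv X (s.U.map E))) ∈ Id L X s.k s.U.length

/-- an optional state represents an element -/
def RepO (L : AddSubgroup R) (X : R) (wd : ℕ → ℕ → List (List ℕ)) (E : ℕ → R) (o : Option St)
    (r : R) : Prop :=
  ∀ s, o = some s → Rep L X wd E s r

/-- value of a Lie expression -/
def ev (X : R) (E : ℕ → R) : LE → R
  | LE.X => X
  | LE.y l => E l
  | LE.b a c => ev X E a * ev X E c - ev X E c * ev X E a

theorem ev_mem (hL : ∀ a ∈ L, ∀ b ∈ L, a * b - b * a ∈ L) (hX : X ∈ L) {E : ℕ → R}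
    (hE : ∀ l, E l ∈ L) (a : LE) : ev X E a ∈ L := by
  induction a with
  | X => exact hX
  | y l => exact hE l
  | b a c iha ihc => exact hL _ iha _ ihc

theorem ins_len (l : ℕ) (U : List ℕ) : (ins l U).2.length = U.length + 1 := by
  induction U with
  | nil => simp [ins]
  | cons a U ih =>
    rw [ins]
    cases Nat.ble l a <;> simp [ih]

theorem ins_erase (l : ℕ) (U : List ℕ) : (ins l U).2.eraseIdx (ins l U).1 = U := by
  induction U with
  | nil => simp [ins]
  | cons a U ih =>
    rw [ins]
    cases Nat.ble l a <;> simp [ih]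

theorem ins_get (l : ℕ) (U : List ℕ) : (ins l U).2[(ins l U).1]? = some l := by
  induction U with
  | nil => simp [ins]
  | cons a U ih =>
    rw [ins]
    cases Nat.ble l a <;> simp [ih]

theorem map_eraseIdx' {α β : Type*} (f : α → β) (l : List α) (i : ℕ) :
    (l.map f).eraseIdx i = (l.eraseIdx i).map f := by
  induction l generalizing i with
  | nil => simp
  | cons a l ih =>
    cases i with
    | zero => simp
    | succ i => simp [ih]

omit [Ring R] in
theorem ins_map_erase (E : ℕ → R) (l : ℕ) (U : List ℕ) :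
    ((ins l U).2.map E).eraseIdx (ins l U).1 = U.map E := by
  rw [map_eraseIdx', ins_erase]

theorem ins_map_get (E : ℕ → R) (l : ℕ) (U : List ℕ) :
    ((ins l U).2.map E).getD (ins l U).1 0 = E l := by
  rw [List.getD_eq_getElem?_getD, List.getElem?_map, ins_get]
  simp

/-- right multiplication as an additive map -/
def rmul (z : R) : R →+ R where
  toFun x := x * z
  map_zero' := zero_mul z
  map_add' a b := add_mul a b z

section app

variable (h5 : ∀ x : R, 5 • x = 0) {wd : ℕ → ℕ → List (List ℕ)} {E : ℕ → R}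
  (hE : ∀ l, E l ∈ L) {T : ℕ → ℕ → Option Level}
  (hT : ∀ k m l, T k m = some l → Sd L X wd k m l)

include h5 hE hT

theorem app_sound (a : LE) (o : Option St) (r : R) (h : RepO L X wd E o r) :
    RepO L X wd E (app T a o) (r * ev X E a) := by
  induction a generalizing o r with
  | X =>
    intro s hs
    rw [app, Option.bind_eq_some_iff] at hs
    obtain ⟨s₀, h0, hs⟩ := hs
    rw [Option.bind_eq_some_iff] at hs
    obtain ⟨l, hl, hs⟩ := hs
    have h1 := h s₀ h0
    have h2 := Id_mulX h1
    have h3 := (hT _ _ _ hl).rX s₀.k rfl (s₀.U.map E) (by simp)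
      (by intro y hy; obtain ⟨n, _, rfl⟩ := List.mem_map.1 hy; exact hE n)
    simp only [Option.some.injEq] at hs
    subst hs
    simp only [Rep, ev]
    rw [lc_mulRows h5]
    rw [sub_mul] at h2
    have h4 : lc s₀.v ((wd s₀.k s₀.U.length).map (wv X (s₀.U.map E))) * X =
        lc s₀.v ((wd s₀.k s₀.U.length).map fun w => wv X (s₀.U.map E) w * X) := by
      have := lc_map (rmul X) s₀.v ((wd s₀.k s₀.U.length).map (wv X (s₀.U.map E)))
      rw [List.map_map] at this
      exact this
    have h6 := lc_congr (Id L X (s₀.k + 1) s₀.U.length) s₀.v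
      (xs := (wd s₀.k s₀.U.length).map fun w => wv X (s₀.U.map E) w * X)
      (ys := l.rowsX.map fun row => lc row ((wd (s₀.k + 1) s₀.U.length).map
        (wv X (s₀.U.map E))))
      (by
        rw [List.forall₂_map_left_iff, List.forall₂_map_right_iff]
        exact h3)
    rw [h4] at h2
    have h7 := add_mem h2 h6
    rw [sub_add_sub_cancel] at h7
    exact h7
  | y n =>
    intro s hs
    rw [app, Option.bind_eq_some_iff] at hs
    obtain ⟨s₀, h0, hs⟩ := hs
    rw [Option.bind_eq_some_iff] at hs
    obtain ⟨l, hl, hs⟩ := hs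
    rw [Option.bind_eq_some_iff] at hs
    obtain ⟨A, hA, hs⟩ := hs
    have h1 := h s₀ h0
    have h2 := Id_mulL (hE n) h1
    have hlen := ins_len n s₀.U
    have h3 := (hT _ _ _ hl).rY s₀.U.length hlen _ A hA ((ins n s₀.U).2.map E) (by simp)
      (by intro y hy; obtain ⟨n, _, rfl⟩ := List.mem_map.1 hy; exact hE n)
    rw [ins_map_erase, ins_map_get] at h3
    simp only [Option.some.injEq] at hs
    subst hs
    simp only [Rep, ev]
    rw [lc_mulRows h5]
    rw [sub_mul] at h2
    have h4 : lc s₀.v ((wd s₀.k s₀.U.length).map (wv X (s₀.U.map E))) * E n =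
        lc s₀.v ((wd s₀.k s₀.U.length).map fun w => wv X (s₀.U.map E) w * E n) := by
      have := lc_map (rmul (E n)) s₀.v ((wd s₀.k s₀.U.length).map (wv X (s₀.U.map E)))
      rw [List.map_map] at this
      exact this
    have h6 := lc_congr (Id L X s₀.k (ins n s₀.U).2.length) s₀.v
      (xs := (wd s₀.k s₀.U.length).map fun w => wv X (s₀.U.map E) w * E n)
      (ys := A.map fun row => lc row ((wd s₀.k (ins n s₀.U).2.length).map
        (wv X ((ins n s₀.U).2.map E))))
      (by
        rw [List.forall₂_map_left_iff, List.forall₂_map_right_iff]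
        exact h3)
    rw [h4, ← hlen] at h2
    have h7 := add_mem h2 h6
    rw [sub_add_sub_cancel] at h7
    exact h7
  | b a c iha ihc =>
    intro s hs
    rw [app, Option.bind_eq_some_iff] at hs
    obtain ⟨s₁, h01, hs⟩ := hs
    rw [Option.bind_eq_some_iff] at hs
    obtain ⟨s₂, h02, hs⟩ := hs
    have h1 := ihc _ _ (iha _ _ h) s₁ h01
    have h2 := iha _ _ (ihc _ _ h) s₂ h02
    cases hc : (s₁.k == s₂.k && s₁.U == s₂.U) with
    | false => rw [hc] at hs; simp at hs
    | true =>
      rw [hc, cond_true, Option.some.injEq] at hs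
      simp only [Bool.and_eq_true, beq_iff_eq] at hc
      subst hs
      simp only [Rep] at h1 h2 ⊢
      rw [← hc.1, ← hc.2] at h2
      rw [lc_addV h5, lc_smulV h5]
      have h3 := sub_mem h1 h2
      set u := lc s₁.v ((wd s₁.k s₁.U.length).map (wv X (s₁.U.map E)))
      set v := lc s₂.v ((wd s₁.k s₁.U.length).map (wv X (s₁.U.map E)))
      have h4 : (4 : ℕ) • v = - v := by
        have := h5 v
        rw [show (5 : ℕ) = 4 + 1 from rfl, add_smul, one_smul] at this
        exact eq_neg_of_add_eq_zero_left this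
      rw [h4, ev]
      have h6 : r * (ev X E a * ev X E c - ev X E c * ev X E a) - (u + -v) =
          r * ev X E a * ev X E c - u - (r * ev X E c * ev X E a - v) := by
        rw [mul_sub, mul_assoc, mul_assoc]; abel
      rw [h6]
      exact h3

omit hE hT in
theorem addS_sound (o o' : Option St) (r r' : R) (h : RepO L X wd E o r)
    (h' : RepO L X wd E o' r') : RepO L X wd E (addS o o') (r + r') := by
  intro s hs
  rw [addS, Option.bind_eq_some_iff] at hs
  obtain ⟨s₁, h01, hs⟩ := hs
  rw [Option.bind_eq_some_iff] at hs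
  obtain ⟨s₂, h02, hs⟩ := hs
  have h1 := h s₁ h01
  have h2 := h' s₂ h02
  cases hc : (s₁.k == s₂.k && s₁.U == s₂.U) with
  | false => rw [hc] at hs; simp at hs
  | true =>
    rw [hc, cond_true, Option.some.injEq] at hs
    simp only [Bool.and_eq_true, beq_iff_eq] at hc
    subst hs
    simp only [Rep] at h1 h2 ⊢
    rw [← hc.1, ← hc.2] at h2
    rw [lc_addV h5]
    have h3 := add_mem h1 h2
    rw [add_sub_add_comm]
    exact h3

theorem sy2_sound (a b : LE) (o : Option St) (r : R) (h : RepO L X wd E o r) :
    RepO L X wd E (sy2 T a b o) (r * s2 (ev X E a) (ev X E b)) := by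
  have h1 := addS_sound h5 _ _ _ _ (app_sound h5 hE hT b _ _ (app_sound h5 hE hT a o r h))
    (app_sound h5 hE hT a _ _ (app_sound h5 hE hT b o r h))
  rw [s2, mul_add, ← mul_assoc, ← mul_assoc]
  exact h1

theorem sy3_sound (a b c : LE) (o : Option St) (r : R) (h : RepO L X wd E o r) :
    RepO L X wd E (sy3 T a b c o) (r * s3 (ev X E a) (ev X E b) (ev X E c)) := by
  have h1 := addS_sound h5 _ _ _ _ (addS_sound h5 _ _ _ _
    (app_sound h5 hE hT c _ _ (sy2_sound h5 hE hT a b o r h))
    (app_sound h5 hE hT b _ _ (sy2_sound h5 hE hT a c o r h)))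
    (app_sound h5 hE hT a _ _ (sy2_sound h5 hE hT b c o r h))
  rw [s3, mul_add, mul_add, ← mul_assoc, ← mul_assoc, ← mul_assoc]
  exact h1

end app

/-- the unknowns of the level `(k₀, m₀)` -/
def unk (X : R) (wd : ℕ → ℕ → List (List ℕ)) (k₀ m₀ : ℕ) (e : List R) : ℕ → List R
  | 0 => (if k₀ = 0 then [] else wd (k₀ - 1) m₀).map fun w => wv X e w * X
  | j + 1 => (if m₀ = 0 then [] else wd k₀ (m₀ - 1)).map fun w =>
      wv X (e.eraseIdx j) w * e.getD j 0

/-- an optional block vector represents an element -/
def RepB (L : AddSubgroup R) (X : R) (wd : ℕ → ℕ → List (List ℕ)) (k₀ m₀ : ℕ) (e : List R)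
    (o : Option (List (List ℕ))) (r : R) : Prop :=
  ∀ B, o = some B → lcB B (unk X wd k₀ m₀ e) - r ∈ Id L X k₀ m₀

theorem map_range_getD (e : List R) :
    (List.range e.length).map (fun l => e.getD l 0) = e := by
  apply List.ext_getElem
  · simp
  · intro i h1 h2
    simp [List.getD_eq_getElem?_getD, List.getElem?_eq_getElem h2]

section last

variable (h5 : ∀ x : R, 5 • x = 0) {wd : ℕ → ℕ → List (List ℕ)} {e : List R} {k₀ m₀ : ℕ}
  (he : ∀ y ∈ e, y ∈ L) (hlen : e.length = m₀) {T : ℕ → ℕ → Option Level}
  (hT : ∀ k m l, T k m = some l → Sd L X wd k m l)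

include h5 he hlen hT

theorem last_sound (a : LE) (o : Option St) (r : R)
    (h : RepO L X wd (fun l => e.getD l 0) o r) :
    RepB L X wd k₀ m₀ e (last T k₀ (List.range m₀) a o) (r * ev X (fun l => e.getD l 0) a) := by
  have hE : ∀ l, (fun l => e.getD l 0) l ∈ L := fun l => getD_mem he l
  induction a generalizing o r with
  | X =>
    intro B hB
    rw [last, Option.bind_eq_some_iff] at hB
    obtain ⟨s, hs, hB⟩ := hB
    cases hc : (s.k + 1 == k₀ && s.U == List.range m₀) with
    | false => rw [hc] at hB; simp at hB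
    | true =>
      rw [hc, cond_true, Option.some.injEq] at hB
      simp only [Bool.and_eq_true, beq_iff_eq] at hc
      subst hB
      have h1 := h s hs
      rw [Rep] at h1
      have h2 := Id_mulX h1
      rw [hc.1, hc.2, ← hlen, map_range_getD, sub_mul] at h2
      have h3 : lcB [s.v] (unk X wd k₀ m₀ e) = lc s.v ((wd s.k e.length).map (wv X e)) * X := by
        rw [lcB, lcB, add_zero, unk, if_neg (by omega), show k₀ - 1 = s.k by omega, hlen]
        have := lc_map (rmul X) s.v ((wd s.k m₀).map (wv X e))
        rw [List.map_map] at this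
        exact this.symm
      rw [h3, ← neg_sub]
      simp only [List.length_range] at h2
      rw [hlen] at h2 ⊢
      exact neg_mem h2
  | y n =>
    intro B hB
    rw [last, Option.bind_eq_some_iff] at hB
    obtain ⟨s, hs, hB⟩ := hB
    cases hc : (s.k == k₀ && (ins n s.U).2 == List.range m₀) with
    | false => rw [hc] at hB; simp at hB
    | true =>
      rw [hc, cond_true, Option.some.injEq] at hB
      simp only [Bool.and_eq_true, beq_iff_eq] at hc
      subst hB
      have h1 := h s hs
      rw [Rep] at h1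
      have hl := ins_len n s.U
      rw [hc.2, List.length_range] at hl
      have h2 := Id_mulL (hE n) h1
      have h6 := ins_map_erase (fun l => e.getD l 0) n s.U
      have h7 := ins_map_get (fun l => e.getD l 0) n s.U
      rw [hc.2, ← hlen, map_range_getD] at h6 h7
      rw [← h6, sub_mul, hc.1, ← hl] at h2
      rw [lcB_single, unk, if_neg (by omega), show m₀ - 1 = s.U.length by omega, h7]
      have := lc_map (rmul (e.getD n 0)) s.v ((wd k₀ s.U.length).map
        (wv X (e.eraseIdx (ins n s.U).1)))
      rw [List.map_map] at this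
      have h8 := neg_mem h2
      rw [neg_sub] at h8
      rw [show lc s.v (List.map (fun w => wv X (e.eraseIdx (ins n s.U).1) w * e.getD n 0)
          (wd k₀ s.U.length)) = lc s.v (List.map (wv X (e.eraseIdx (ins n s.U).1))
          (wd k₀ s.U.length)) * e.getD n 0 from this.symm]
      exact h8
  | b a c iha ihc =>
    intro B hB
    rw [last, Option.bind_eq_some_iff] at hB
    obtain ⟨B₁, hB₁, hB⟩ := hB
    rw [Option.bind_eq_some_iff] at hB
    obtain ⟨B₂, hB₂, hB⟩ := hB
    rw [Option.some.injEq] at hB
    subst hB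
    have h1 := ihc _ _ (app_sound h5 hE hT a _ _ h) _ hB₁
    have h2 := iha _ _ (app_sound h5 hE hT c _ _ h) _ hB₂
    rw [lcB_addB h5, lcB_smulB h5]
    have h3 := sub_mem h1 h2
    set u := lcB B₁ (unk X wd k₀ m₀ e)
    set v := lcB B₂ (unk X wd k₀ m₀ e)
    have h4 : (4 : ℕ) • v = - v := by
      have := h5 v
      rw [show (5 : ℕ) = 4 + 1 from rfl, add_smul, one_smul] at this
      exact eq_neg_of_add_eq_zero_left this
    rw [h4, ev, mul_sub, ← mul_assoc, ← mul_assoc]
    convert h3 using 1
    abel

omit he hlen hT in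
theorem addO_sound (o o' : Option (List (List ℕ))) (r r' : R) (h : RepB L X wd k₀ m₀ e o r)
    (h' : RepB L X wd k₀ m₀ e o' r') : RepB L X wd k₀ m₀ e (addO o o') (r + r') := by
  intro B hB
  rw [addO, Option.bind_eq_some_iff] at hB
  obtain ⟨B₁, hB₁, hB⟩ := hB
  rw [Option.bind_eq_some_iff] at hB
  obtain ⟨B₂, hB₂, hB⟩ := hB
  rw [Option.some.injEq] at hB
  subst hB
  rw [lcB_addB h5, add_sub_add_comm]
  exact add_mem (h _ hB₁) (h' _ hB₂)

theorem ls2_sound (a b : LE) (o : Option St) (r : R)
    (h : RepO L X wd (fun l => e.getD l 0) o r) :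
    RepB L X wd k₀ m₀ e (ls2 T k₀ (List.range m₀) a b o)
      (r * s2 (ev X (fun l => e.getD l 0) a) (ev X (fun l => e.getD l 0) b)) := by
  have hE : ∀ l, (fun l => e.getD l 0) l ∈ L := fun l => getD_mem he l
  have h1 := addO_sound h5 _ _ _ _
    (last_sound (k₀ := k₀) h5 he hlen hT b _ _ (app_sound h5 hE hT a _ _ h))
    (last_sound (k₀ := k₀) h5 he hlen hT a _ _ (app_sound h5 hE hT b _ _ h))
  rw [s2, mul_add, ← mul_assoc, ← mul_assoc]
  exact h1

theorem ls3_sound (a b c : LE) (o : Option St) (r : R)
    (h : RepO L X wd (fun l => e.getD l 0) o r) :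
    RepB L X wd k₀ m₀ e (ls3 T k₀ (List.range m₀) a b c o)
      (r * s3 (ev X (fun l => e.getD l 0) a) (ev X (fun l => e.getD l 0) b)
        (ev X (fun l => e.getD l 0) c)) := by
  have hE : ∀ l, (fun l => e.getD l 0) l ∈ L := fun l => getD_mem he l
  have h1 := addO_sound h5 _ _ _ _ (addO_sound h5 _ _ _ _
    (last_sound (k₀ := k₀) h5 he hlen hT c _ _ (sy2_sound h5 hE hT a b _ _ h))
    (last_sound (k₀ := k₀) h5 he hlen hT b _ _ (sy2_sound h5 hE hT a c _ _ h)))
    (last_sound (k₀ := k₀) h5 he hlen hT a _ _ (sy2_sound h5 hE hT b c _ _ h))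
  rw [s3, mul_add, mul_add, ← mul_assoc, ← mul_assoc, ← mul_assoc]
  exact h1

theorem ls4_sound (a b c d : LE) (o : Option St) (r : R)
    (h : RepO L X wd (fun l => e.getD l 0) o r) :
    RepB L X wd k₀ m₀ e (ls4 T k₀ (List.range m₀) a b c d o)
      (r * s4 (ev X (fun l => e.getD l 0) a) (ev X (fun l => e.getD l 0) b)
        (ev X (fun l => e.getD l 0) c) (ev X (fun l => e.getD l 0) d)) := by
  have hE : ∀ l, (fun l => e.getD l 0) l ∈ L := fun l => getD_mem he l
  have h1 := addO_sound h5 _ _ _ _ (addO_sound h5 _ _ _ _ (addO_sound h5 _ _ _ _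
    (last_sound (k₀ := k₀) h5 he hlen hT d _ _ (sy3_sound h5 hE hT a b c _ _ h))
    (last_sound (k₀ := k₀) h5 he hlen hT c _ _ (sy3_sound h5 hE hT a b d _ _ h)))
    (last_sound (k₀ := k₀) h5 he hlen hT b _ _ (sy3_sound h5 hE hT a c d _ _ h)))
    (last_sound (k₀ := k₀) h5 he hlen hT a _ _ (sy3_sound h5 hE hT b c d _ _ h))
  rw [s4, mul_add, mul_add, mul_add, ← mul_assoc, ← mul_assoc, ← mul_assoc, ← mul_assoc]
  exact h1

theorem lt3_sound (a b c q : LE) (o : Option St) (r : R)
    (h : RepO L X wd (fun l => e.getD l 0) o r) :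
    RepB L X wd k₀ m₀ e (lt3 T k₀ (List.range m₀) a b c q o)
      (r * t3 (ev X (fun l => e.getD l 0) a) (ev X (fun l => e.getD l 0) b)
        (ev X (fun l => e.getD l 0) c) (ev X (fun l => e.getD l 0) q)) := by
  have hE : ∀ l, (fun l => e.getD l 0) l ∈ L := fun l => getD_mem he l
  have ha : ∀ x : LE, RepO L X wd (fun l => e.getD l 0) (app T q (app T x o))
      (r * ev X (fun l => e.getD l 0) x * ev X (fun l => e.getD l 0) q) := fun x =>
    app_sound h5 hE hT q _ _ (app_sound h5 hE hT x _ _ h)
  have h1 := addO_sound h5 _ _ _ _ (addO_sound h5 _ _ _ _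
    (ls2_sound (k₀ := k₀) h5 he hlen hT b c _ _ (ha a))
    (ls2_sound (k₀ := k₀) h5 he hlen hT a c _ _ (ha b)))
    (ls2_sound (k₀ := k₀) h5 he hlen hT a b _ _ (ha c))
  have h2 : ∀ x y z : R, r * x * y * z = r * (x * y * z) := by
    intro x y z; simp only [mul_assoc]
  rw [h2, h2, h2, ← mul_add, ← mul_add] at h1
  exact h1

theorem lt4_sound (a b c d q : LE) (o : Option St) (r : R)
    (h : RepO L X wd (fun l => e.getD l 0) o r) :
    RepB L X wd k₀ m₀ e (lt4 T k₀ (List.range m₀) a b c d q o)
      (r * t4 (ev X (fun l => e.getD l 0) a) (ev X (fun l => e.getD l 0) b)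
        (ev X (fun l => e.getD l 0) c) (ev X (fun l => e.getD l 0) d)
        (ev X (fun l => e.getD l 0) q)) := by
  have hE : ∀ l, (fun l => e.getD l 0) l ∈ L := fun l => getD_mem he l
  have ha : ∀ x : LE, RepO L X wd (fun l => e.getD l 0) (app T q (app T x o))
      (r * ev X (fun l => e.getD l 0) x * ev X (fun l => e.getD l 0) q) := fun x =>
    app_sound h5 hE hT q _ _ (app_sound h5 hE hT x _ _ h)
  have h1 := addO_sound h5 _ _ _ _ (addO_sound h5 _ _ _ _ (addO_sound h5 _ _ _ _
    (ls3_sound (k₀ := k₀) h5 he hlen hT b c d _ _ (ha a))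
    (ls3_sound (k₀ := k₀) h5 he hlen hT a c d _ _ (ha b)))
    (ls3_sound (k₀ := k₀) h5 he hlen hT a b d _ _ (ha c)))
    (ls3_sound (k₀ := k₀) h5 he hlen hT a b c _ _ (ha d))
  have h2 : ∀ x y z : R, r * x * y * z = r * (x * y * z) := by
    intro x y z; simp only [mul_assoc]
  rw [h2, h2, h2, h2, ← mul_add, ← mul_add, ← mul_add] at h1
  exact h1

end last

end Pool.Agent.Lib.MP_544bd1_al.E5
end

section

/-!
# Soundness of the checker
-/

namespace Pool.Agent.Lib.MP_544bd1_al.E5

variable {R : Type*} [Ring R] {L : AddSubgroup R} {X : R}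

/-- the identities used by the relations of a kind -/
def HypK (L : AddSubgroup R) : ℕ → Prop
  | 0 => True
  | 1 => ∀ p ∈ L, ∀ q ∈ L, ∀ r ∈ L, ∀ t ∈ L, s4 p q r t = 0
  | 2 => ∀ a ∈ L, ∀ b ∈ L, ∀ c ∈ L, ∀ d ∈ L, ∀ q ∈ L, t4 a b c d q = 0
  | 3 => ∀ p ∈ L, ∀ q ∈ L, ∀ r ∈ L, s3 p q r = 0
  | 4 => ∀ a ∈ L, ∀ b ∈ L, ∀ c ∈ L, ∀ q ∈ L, t3 a b c q = 0
  | _ => True

section

variable (h5 : ∀ x : R, 5 • x = 0) {wd : ℕ → ℕ → List (List ℕ)} {e : List R} {k₀ m₀ : ℕ}
  (he : ∀ y ∈ e, y ∈ L) (hlen : e.length = m₀) {T : ℕ → ℕ → Option Level}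
  (hT : ∀ k m l, T k m = some l → Sd L X wd k m l)
  (hL : ∀ a ∈ L, ∀ b ∈ L, a * b - b * a ∈ L) (hX : X ∈ L)

theorem baseSt_sound (E : ℕ → R) (k : ℕ) (U : List ℕ) (i : ℕ) :
    RepO L X wd E (baseSt T k U i)
      (lc (unitV i) ((wd k U.length).map (wv X (U.map E)))) := by
  intro s hs
  rw [baseSt, Option.bind_eq_some_iff] at hs
  obtain ⟨l, hl, hs⟩ := hs
  cases hc : Nat.blt i l.words.length with
  | false => rw [hc] at hs; simp at hs
  | true =>
    rw [hc, cond_true, Option.some.injEq] at hs
    subst hs
    simp [Rep]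

theorem repB_zero {o : Option (List (List ℕ))} {r : R} (h : RepB L X wd k₀ m₀ e o r)
    (hr : r ∈ Id L X k₀ m₀) {B : List (List ℕ)} (hB : o = some B) :
    lcB B (unk X wd k₀ m₀ e) ∈ Id L X k₀ m₀ := by
  have h1 := add_mem (h B hB) hr
  rw [sub_add_cancel] at h1
  exact h1

include h5 he hlen hT hL hX

theorem relvec_sound (h00 : wd 0 0 = [[]]) (rel : RelD) (hrel : HypK L rel.kind)
    (B : List (List ℕ)) (hB : relvec T k₀ m₀ rel = some B) :
    lcB B (unk X wd k₀ m₀ e) ∈ Id L X k₀ m₀ := by
  have hE : ∀ l, (fun l => e.getD l 0) l ∈ L := fun l => getD_mem he l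
  have hev : ∀ a, ev X (fun l => e.getD l 0) a ∈ L := ev_mem hL hX hE
  cases rel with
  | outer =>
    rw [relvec] at hB
    cases hc : (k₀ == 0 && m₀ == 1) with
    | false => rw [hc] at hB; simp at hB
    | true =>
      rw [hc, cond_true, Option.some.injEq] at hB
      simp only [Bool.and_eq_true, beq_iff_eq] at hc
      subst hB
      obtain ⟨rfl, rfl⟩ := hc
      simp only [lcB, unk, lc, zero_add, add_zero, one_ne_zero, if_false, Nat.sub_self, h00,
        List.map_cons, List.map_nil, one_smul]
      rw [← mul_one (wv X (e.eraseIdx 0) [] * e.getD 0 0)]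
      apply AddSubgroup.subset_closure
      left
      refine ⟨e.getD 0 0, getD_mem he 0, 1, 0, rfl, Wd.one, ?_⟩
      simp [wv]
  | comm i a c =>
    rw [relvec, Option.bind_eq_some_iff] at hB
    obtain ⟨s, hs, hB⟩ := hB
    rw [Option.bind_eq_some_iff] at hB
    obtain ⟨s', hs', hB⟩ := hB
    set U := ((List.range m₀).erase a).erase c with hU
    cases hc : (U.length + 2 == m₀) with
    | false => rw [hc] at hB; simp at hB
    | true =>
      rw [hc, cond_true, Option.some.injEq] at hB
      rw [beq_iff_eq] at hc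
      subst hB
      have h1 := last_sound (k₀ := k₀) h5 he hlen hT (LE.y c) _ _
        (app_sound h5 hE hT (LE.y a) _ _
          (baseSt_sound (T := T) (L := L) (X := X) (wd := wd) (fun l => e.getD l 0) k₀ U i)) _ hs
      have h2 := last_sound (k₀ := k₀) h5 he hlen hT (LE.y a) _ _
        (app_sound h5 hE hT (LE.y c) _ _
          (baseSt_sound (T := T) (L := L) (X := X) (wd := wd) (fun l => e.getD l 0) k₀ U i)) _ hs'
      rw [lcB_addB h5, lcB_smulB h5]
      have h3 := sub_mem h1 h2
      set u := lcB s (unk X wd k₀ m₀ e)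
      set v := lcB s' (unk X wd k₀ m₀ e)
      have h4 : (4 : ℕ) • v = - v := by
        have := h5 v
        rw [show (5 : ℕ) = 4 + 1 from rfl, add_smul, one_smul] at this
        exact eq_neg_of_add_eq_zero_left this
      rw [h4]
      set w := lc (unitV i) ((wd k₀ U.length).map (wv X (U.map fun l => e.getD l 0))) with hw
      simp only [ev] at h3
      set p := e.getD a 0
      set q := e.getD c 0
      have h6 : w * (p * q - q * p) ∈ Id L X k₀ m₀ := by
        have hpq : p * q - q * p ∈ L := hL _ (getD_mem he a) _ (getD_mem he c)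
        cases hi : ((wd k₀ U.length).map (wv X (U.map fun l => e.getD l 0)))[i]? with
        | none =>
          rw [hw, lc_unitV_none _ _ hi, zero_mul]
          exact zero_mem _
        | some x =>
          rw [hw, lc_unitV _ _ x hi]
          rw [List.getElem?_map, Option.map_eq_some_iff] at hi
          obtain ⟨w', hw', hx⟩ := hi
          have hmem : w' ∈ wd k₀ U.length := List.mem_of_getElem? hw'
          -- the base level exists
          have hex : ∃ l, T k₀ U.length = some l := by
            by_contra hne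
            have hnone : T k₀ U.length = none := by
              cases h : T k₀ U.length with
              | none => rfl
              | some l => exact absurd ⟨l, h⟩ hne
            have : baseSt T k₀ U i = none := by simp [baseSt, hnone]
            rw [this] at hs
            simp [app, last] at hs
          obtain ⟨l, hl⟩ := hex
          have h7 := (hT _ _ _ hl).hwd w' hmem
          have h8 := wd_wv (L := L) X (e := U.map fun l => e.getD l 0)
            (by intro y hy; obtain ⟨n, _, rfl⟩ := List.mem_map.1 hy; exact hE n) w'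
          rw [h7.1, h7.2, show k₀ + U.length - k₀ = U.length by omega, hx] at h8
          exact Id_low (by omega : U.length + 1 < m₀) (Wd.mulL hpq h8)
      have h9 := add_mem h3 h6
      convert h9 using 1
      rw [mul_sub, mul_assoc, mul_assoc]
      abel
  | s4 i k U a b c d =>
    refine repB_zero (ls4_sound (k₀ := k₀) h5 he hlen hT a b c d _ _
      (baseSt_sound (T := T) (L := L) (X := X) (wd := wd) (fun l => e.getD l 0) k U i)) ?_ hB
    rw [hrel _ (hev a) _ (hev b) _ (hev c) _ (hev d), mul_zero]
    exact zero_mem _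
  | t4 i k U a b c d q =>
    refine repB_zero (lt4_sound (k₀ := k₀) h5 he hlen hT a b c d q _ _
      (baseSt_sound (T := T) (L := L) (X := X) (wd := wd) (fun l => e.getD l 0) k U i)) ?_ hB
    rw [hrel _ (hev a) _ (hev b) _ (hev c) _ (hev d) _ (hev q), mul_zero]
    exact zero_mem _
  | s3 i k U a b c =>
    refine repB_zero (ls3_sound (k₀ := k₀) h5 he hlen hT a b c _ _
      (baseSt_sound (T := T) (L := L) (X := X) (wd := wd) (fun l => e.getD l 0) k U i)) ?_ hB
    rw [hrel _ (hev a) _ (hev b) _ (hev c), mul_zero]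
    exact zero_mem _
  | t3 i k U a b c q =>
    refine repB_zero (lt3_sound (k₀ := k₀) h5 he hlen hT a b c q _ _
      (baseSt_sound (T := T) (L := L) (X := X) (wd := wd) (fun l => e.getD l 0) k U i)) ?_ hB
    rw [hrel _ (hev a) _ (hev b) _ (hev c) _ (hev q), mul_zero]
    exact zero_mem _

theorem relvecs_sound (h00 : wd 0 0 = [[]]) (rels : List RelD)
    (hrel : ∀ rel ∈ rels, HypK L rel.kind)
    (Bs : List (List (List ℕ))) (hB : relvecs T k₀ m₀ rels = some Bs) :
    ∀ B ∈ Bs, lcB B (unk X wd k₀ m₀ e) ∈ Id L X k₀ m₀ := by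
  induction rels generalizing Bs with
  | nil =>
    simp only [relvecs, Option.some.injEq] at hB
    subst hB
    simp
  | cons r rs ih =>
    rw [relvecs, Option.bind_eq_some_iff] at hB
    obtain ⟨B, h1, hB⟩ := hB
    rw [Option.bind_eq_some_iff] at hB
    obtain ⟨Bs', h2, hB⟩ := hB
    rw [Option.some.injEq] at hB
    subst hB
    intro A hA
    rcases List.mem_cons.1 hA with rfl | hA
    · exact relvec_sound h5 he hlen hT hL hX h00 r (hrel r (by simp)) _ h1
    · exact ih (fun rel h => hrel rel (by simp [h])) Bs' h2 A hA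

end

theorem wordOf_sound {wd : ℕ → ℕ → List (List ℕ)} {e : List R} {k₀ m₀ : ℕ} (p : ℕ × ℕ)
    (w : List ℕ)
    (h : wordOf (if k₀ = 0 then [] else wd (k₀ - 1) m₀) (if m₀ = 0 then [] else wd k₀ (m₀ - 1))
      p = some w) :
    lcB (unitB p.1 p.2) (unk X wd k₀ m₀ e) = wv X e w := by
  obtain ⟨j, i⟩ := p
  cases j with
  | zero =>
    simp only [wordOf, Option.map_eq_some_iff] at h
    obtain ⟨w', hw', rfl⟩ := h
    rw [unitB, lcB_single, unk, lc_unitV i _ (wv X e w' * X)
      (by rw [List.getElem?_map, hw']; rfl), wv_append, wv_single]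
    rfl
  | succ j =>
    simp only [wordOf, Option.map_eq_some_iff] at h
    obtain ⟨w', hw', rfl⟩ := h
    rw [unitB, lcB_single, unk, lc_unitV i _ (wv X (e.eraseIdx j) w' * e.getD j 0)
      (by rw [List.getElem?_map, hw']; rfl), wv_append, wv_single, wv_skip]
    rfl

theorem checkWords_sound {wd : ℕ → ℕ → List (List ℕ)} {k₀ m₀ : ℕ}
    (pos : List (ℕ × ℕ)) (words : List (List ℕ))
    (h : checkWords (if k₀ = 0 then [] else wd (k₀ - 1) m₀)
      (if m₀ = 0 then [] else wd k₀ (m₀ - 1)) k₀ m₀ pos words = true) :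
    (∀ w ∈ words, w.count 0 = k₀ ∧ w.length = k₀ + m₀) ∧
    ∀ e : List R, (pos.map fun p => lcB (unitB p.1 p.2) (unk X wd k₀ m₀ e)) =
      words.map (wv X e) := by
  induction pos generalizing words with
  | nil =>
    cases words with
    | nil => simp
    | cons w ws => simp [checkWords] at h
  | cons p ps ih =>
    cases words with
    | nil => simp [checkWords] at h
    | cons w ws =>
      rw [checkWords] at h
      simp only [Bool.and_eq_true, beq_iff_eq] at h
      obtain ⟨⟨⟨⟨h1, _⟩, h3⟩, h4⟩, h5⟩ := h
      obtain ⟨h6, h7⟩ := ih ws h5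
      constructor
      · intro w' hw'
        rcases List.mem_cons.1 hw' with rfl | hw'
        · exact ⟨h3, h4⟩
        · exact h6 w' hw'
      · intro e
        rw [List.map_cons, List.map_cons, h7 e, wordOf_sound p w h1]

theorem checkLevel_sound (h5 : ∀ x : R, 5 • x = 0) {wd : ℕ → ℕ → List (List ℕ)} {k₀ m₀ : ℕ}
    {T : ℕ → ℕ → Option Level}
    (hT : ∀ k m l, T k m = some l → Sd L X wd k m l)
    (hL : ∀ a ∈ L, ∀ b ∈ L, a * b - b * a ∈ L) (hX : X ∈ L) (h00 : wd 0 0 = [[]])
    (ks : List ℕ) (hks : ∀ n ∈ ks, HypK L n) (l : Level) (hlw : l.words = wd k₀ m₀)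
    (hwX : k₀ ≠ 0 → wordsAt T (k₀ - 1) m₀ = wd (k₀ - 1) m₀)
    (hwY : m₀ ≠ 0 → wordsAt T k₀ (m₀ - 1) = wd k₀ (m₀ - 1))
    (h : checkLevel ks T k₀ m₀ l = true) : Sd L X wd k₀ m₀ l := by
  rw [checkLevel] at h
  have e1 : (if k₀ = 0 then [] else wordsAt T (k₀ - 1) m₀) =
      if k₀ = 0 then [] else wd (k₀ - 1) m₀ := by
    split
    · rfl
    · exact hwX ‹_›
  have e2 : (if m₀ = 0 then [] else wordsAt T k₀ (m₀ - 1)) =
      if m₀ = 0 then [] else wd k₀ (m₀ - 1) := by
    split
    · rfl
    · exact hwY ‹_›
  rw [e1, e2, checkLevel'] at h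
  cases hr : relvecs T k₀ m₀ l.rels with
  | none => rw [hr] at h; simp at h
  | some Bs =>
    rw [hr] at h
    simp only [Bool.and_eq_true, beq_iff_eq] at h
    obtain ⟨⟨⟨⟨⟨h1, h2⟩, h3⟩, h4⟩, h6⟩, h7⟩ := h
    have hrel : ∀ rel ∈ l.rels, HypK L rel.kind := by
      intro rel hrel
      rw [List.all_eq_true] at h1
      have := h1 rel hrel
      exact hks _ (by simpa using this)
    obtain ⟨hw1, hw2⟩ := checkWords_sound (X := X) l.pos l.words h2
    refine ⟨by rw [← hlw]; exact hw1, ?_, fun _ => h6, ?_⟩
    · intro k' hk' e he1 he2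
      have hI := relvecs_sound h5 he2 he1 hT hL hX h00 l.rels hrel Bs hr
      have hlen : l.rowsX.length = (unk X wd k₀ m₀ e 0).length := by
        rw [h3, unk, List.length_map]
      have h8 := checkRows_forall h5 l.pos Bs 0 l.rowsX l.certX (unk X wd k₀ m₀ e)
        (Id L X k₀ m₀) hI h4 hlen
      rw [hw2 e, hlw, unk, List.forall₂_map_left_iff, if_neg (by omega),
        show k₀ - 1 = k' by omega] at h8
      exact h8
    · intro m' hm' j A hj e he1 he2
      have hI := relvecs_sound h5 he2 he1 hT hL hX h00 l.rels hrel Bs hr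
      have hlen : (unk X wd k₀ m₀ e (1 + j)).length =
          (if m₀ = 0 then [] else wd k₀ (m₀ - 1)).length := by
        rw [add_comm, unk, List.length_map]
      have h8 := checkRowsY_forall h5 l.pos Bs _ 1 l.rowsY l.certY (unk X wd k₀ m₀ e)
        (Id L X k₀ m₀) hI h7 j A hj hlen
      rw [hw2 e, hlw, add_comm 1 j, unk, List.forall₂_map_left_iff, if_neg (by omega),
        show m₀ - 1 = m' by omega] at h8
      exact h8

/-- **Soundness of a table.** -/
theorem table_sound (h5 : ∀ x : R, 5 • x = 0) (D : List (List Level)) (ks : List ℕ) (b M : ℕ)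
    (hL : ∀ a ∈ L, ∀ b ∈ L, a * b - b * a ∈ L) (hX : X ∈ L)
    (h00 : wordsAt (tab D) 0 0 = [[]]) (hks : ∀ n ∈ ks, HypK L n)
    (hD : D.length = b + 1) (hD' : ∀ row ∈ D, row.length = M + 1)
    (h : ∀ k m, k ≤ b → m ≤ M → (k, m) ≠ (0, 0) → checkAt ks D k m = true) (k m : ℕ) (l : Level)
    (hl : tab D k m = some l) : Sd L X (wordsAt (tab D)) k m l := by
  have hbd : ∀ k m l, tab D k m = some l → k ≤ b ∧ m ≤ M := by
    intro k m l hl
    rw [tab, Option.bind_eq_some_iff] at hl
    obtain ⟨row, h1, h2⟩ := hl
    have h3 := (List.getElem?_eq_some_iff.1 h1).1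
    have h4 := (List.getElem?_eq_some_iff.1 h2).1
    rw [hD' row (List.mem_of_getElem? h1)] at h4
    omega
  have hmain : ∀ n k m l, k + m = n → tab D k m = some l →
      Sd L X (wordsAt (tab D)) k m l := by
    intro n
    induction n using Nat.strong_induction_on with
    | _ n ih =>
      intro k m l hn hl
      by_cases h0 : (k, m) = (0, 0)
      · simp only [Prod.mk.injEq] at h0
        obtain ⟨rfl, rfl⟩ := h0
        refine ⟨?_, by intro k' hk'; omega, by intro h; omega, by intro m' hm'; omega⟩
        rw [h00]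
        simp
      · have hc := h k m (hbd _ _ _ hl).1 (hbd _ _ _ hl).2 h0
        rw [checkAt, hl] at hc
        refine checkLevel_sound (T := below D k m) h5 ?_ hL hX h00 ks hks l ?_ ?_ ?_ hc
        · intro k' m' l' hl'
          rw [below] at hl'
          cases hc : (Nat.ble k' k && Nat.ble m' m && !(k' == k && m' == m)) with
          | false => rw [hc] at hl'; simp at hl'
          | true =>
            rw [hc, cond_true] at hl'
            simp only [Bool.and_eq_true, Nat.ble_eq, Bool.not_eq_true', Bool.and_eq_false_iff,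
              beq_eq_false_iff_ne] at hc
            refine ih (k' + m') ?_ k' m' l' rfl hl'
            rcases hc.2 with h | h <;> omega
        · rw [wordsAt, hl]
        · intro hk
          rw [wordsAt, wordsAt, below]
          have : (Nat.ble (k - 1) k && Nat.ble m m && !(k - 1 == k && m == m)) = true := by
            simp only [Bool.and_eq_true, Nat.ble_eq, Bool.not_eq_true', Bool.and_eq_false_iff,
              beq_eq_false_iff_ne]
            refine ⟨⟨by omega, le_refl _⟩, Or.inl (by omega)⟩
          rw [this, cond_true]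
        · intro hm
          rw [wordsAt, wordsAt, below]
          have : (Nat.ble k k && Nat.ble (m - 1) m && !(k == k && m - 1 == m)) = true := by
            simp only [Bool.and_eq_true, Nat.ble_eq, Bool.not_eq_true', Bool.and_eq_false_iff,
              beq_eq_false_iff_ne]
            refine ⟨⟨le_refl _, by omega⟩, Or.inr (by omega)⟩
          rw [this, cond_true]
  exact hmain _ k m l rfl hl

/-- **Nilpotency from a table.** -/
theorem table_nil (h5 : ∀ x : R, 5 • x = 0) (D : List (List Level)) (ks : List ℕ) (b M : ℕ)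
    (hM : M ≠ 0)
    (hL : ∀ a ∈ L, ∀ b ∈ L, a * b - b * a ∈ L) (hX : X ∈ L)
    (h00 : wordsAt (tab D) 0 0 = [[]]) (hks : ∀ n ∈ ks, HypK L n)
    (hD : D.length = b + 1) (hD' : ∀ row ∈ D, row.length = M + 1)
    (h : ∀ k m, k ≤ b → m ≤ M → (k, m) ≠ (0, 0) → checkAt ks D k m = true)
    (hb : ∀ m ≤ M, wordsAt (tab D) b m = []) (hM' : ∀ k ≤ b, wordsAt (tab D) k M = [])
    {k m : ℕ} {r : R} (hk : b ≤ k) (hr : Wd L X k m r) : r = 0 := by
  have hS := table_sound h5 D ks b M hL hX h00 hks hD hD' h
  have hex : ∀ k m, k ≤ b → m ≤ M → ∃ l, tab D k m = some l := by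
    intro k m hk hm
    have h1 : k < D.length := by omega
    have h2 := hD' (D[k]) (List.getElem_mem h1)
    have h3 : m < (D[k]).length := by omega
    exact ⟨D[k][m], by rw [tab, List.getElem?_eq_getElem h1, Option.bind_some,
      List.getElem?_eq_getElem h3]⟩
  -- every word is represented
  have step1 : ∀ k m r, Wd L X k m r → k ≤ b → m ≤ M → ∃ (e : List R) (v : List ℕ),
      e.length = m ∧ (∀ y ∈ e, y ∈ L) ∧
      r - lc v ((wordsAt (tab D) k m).map (wv X e)) ∈ Id L X k m := by
    intro k m r hr
    induction hr with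
    | one =>
      intro _ _
      refine ⟨[], [1], rfl, by simp, ?_⟩
      rw [h00]
      simp [lc, wv]
    | @mulX k m r hr ih =>
      intro hk hm
      obtain ⟨e, v, he1, he2, he3⟩ := ih (by omega) hm
      obtain ⟨l, hl⟩ := hex (k + 1) m hk hm
      have h3 := (hS _ _ _ hl).rX k rfl e he1 he2
      refine ⟨e, mulRows v l.rowsX, he1, he2, ?_⟩
      rw [lc_mulRows h5]
      have h2 := Id_mulX he3
      rw [sub_mul] at h2
      have h4 : lc v ((wordsAt (tab D) k m).map (wv X e)) * X =
          lc v ((wordsAt (tab D) k m).map fun w => wv X e w * X) := by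
        have := lc_map (rmul X) v ((wordsAt (tab D) k m).map (wv X e))
        rw [List.map_map] at this
        exact this
      have h6 := lc_congr (Id L X (k + 1) m) v
        (xs := (wordsAt (tab D) k m).map fun w => wv X e w * X)
        (ys := l.rowsX.map fun row => lc row ((wordsAt (tab D) (k + 1) m).map (wv X e)))
        (by
          rw [List.forall₂_map_left_iff, List.forall₂_map_right_iff]
          exact h3)
      rw [h4] at h2
      have h7 := add_mem h2 h6
      rw [sub_add_sub_cancel] at h7
      exact h7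
    | @mulL k m r y hy hr ih =>
      intro hk hm
      obtain ⟨e, v, he1, he2, he3⟩ := ih hk (by omega)
      obtain ⟨l, hl⟩ := hex k (m + 1) hk hm
      have hlen := (hS _ _ _ hl).rYlen (by omega)
      have hm' : m < l.rowsY.length := by omega
      have h3 := (hS _ _ _ hl).rY m rfl m l.rowsY[m] (List.getElem?_eq_getElem hm') (e ++ [y])
        (by simp [he1])
        (by
          intro z hz
          rcases List.mem_append.1 hz with hz | hz
          · exact he2 z hz
          · rw [List.mem_singleton.1 hz]; exact hy)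
      have e1 : (e ++ [y]).eraseIdx m = e := by
        rw [← he1]
        simp [List.eraseIdx_append_of_length_le]
      have e2 : (e ++ [y]).getD m 0 = y := by
        rw [← he1, List.getD_eq_getElem?_getD]
        simp
      rw [e1, e2] at h3
      refine ⟨e ++ [y], mulRows v l.rowsY[m], by simp [he1], ?_, ?_⟩
      · intro z hz
        rcases List.mem_append.1 hz with hz | hz
        · exact he2 z hz
        · rw [List.mem_singleton.1 hz]; exact hy
      rw [lc_mulRows h5]
      have h2 := Id_mulL hy he3
      rw [sub_mul] at h2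
      have h4 : lc v ((wordsAt (tab D) k m).map (wv X e)) * y =
          lc v ((wordsAt (tab D) k m).map fun w => wv X e w * y) := by
        have := lc_map (rmul y) v ((wordsAt (tab D) k m).map (wv X e))
        rw [List.map_map] at this
        exact this
      have h6 := lc_congr (Id L X k (m + 1)) v
        (xs := (wordsAt (tab D) k m).map fun w => wv X e w * y)
        (ys := l.rowsY[m].map fun row => lc row ((wordsAt (tab D) k (m + 1)).map
          (wv X (e ++ [y]))))
        (by
          rw [List.forall₂_map_left_iff, List.forall₂_map_right_iff]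
          exact h3)
      rw [h4] at h2
      have h7 := add_mem h2 h6
      rw [sub_add_sub_cancel] at h7
      exact h7
  have step2 : ∀ k m r, Wd L X k m r → k ≤ b → M ≤ m → r ∈ Id L X k m := by
    intro k m r hr
    induction hr with
    | one => intro _ h; exact absurd (Nat.le_zero.1 h) hM
    | @mulX k m r hr ih =>
      intro hk hm
      exact Id_mulX (ih (by omega) hm)
    | @mulL k m r y hy hr ih =>
      intro hk hm
      by_cases hm' : M ≤ m
      · exact Id_mulL hy (ih hk hm')
      · have hm1 : m + 1 = M := by omega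
        obtain ⟨e, v, _, _, he3⟩ := step1 _ _ _ (Wd.mulL hy hr) hk hm1.le
        rw [hm1, hM' k hk, List.map_nil, lc_nil_right, sub_zero, ← hm1] at he3
        exact he3
  have step3 : ∀ m r, Wd L X b m r → r ∈ Id L X b m := by
    intro m r hr
    by_cases hm : M ≤ m
    · exact step2 _ _ _ hr le_rfl hm
    · obtain ⟨e, v, _, _, he3⟩ := step1 _ _ _ hr le_rfl (by omega)
      rw [hb m (by omega), List.map_nil, lc_nil_right, sub_zero] at he3
      exact he3
  have step4 : ∀ m r, Wd L X b m r → r = 0 := by
    intro m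
    induction m using Nat.strong_induction_on with
    | _ m ih =>
      intro r hr
      have h1 := step3 m r hr
      refine AddSubgroup.closure_induction (p := fun r _ => r = 0) ?_ rfl ?_ ?_ h1
      · rintro r (⟨y, _, s, m', hm', hs, rfl⟩ | ⟨m', hm', hs⟩)
        · rw [ih m' (by omega) s hs, mul_zero]
        · exact ih m' hm' r hs
      · rintro x y _ _ rfl rfl
        simp
      · rintro x _ rfl
        simp
  have step5 : ∀ k m r, Wd L X k m r → b ≤ k → r = 0 := by
    intro k m r hr
    induction hr with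
    | one =>
      intro hk
      have : b = 0 := Nat.le_zero.1 hk
      subst this
      exact step4 0 1 Wd.one
    | @mulX k m r hr ih =>
      intro hk
      rcases Nat.lt_or_ge k b with hk' | hk'
      · have : k + 1 = b := by omega
        have h1 := Wd.mulX hr
        rw [this] at h1
        exact step4 _ _ h1
      · rw [ih hk', zero_mul]
    | @mulL k m r y hy hr ih =>
      intro hk
      rw [ih hk, zero_mul]
  exact step5 k m r hr hk

end Pool.Agent.Lib.MP_544bd1_al.E5
end
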