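import Mathlib
import Pool.Agent.Lib.MP_544bd1_al.TwK1

section

/-!
# The linearised Engel identity in groups of exponent five
-/

namespace Pool.Agent.Lib.MP_544bd1_al.E5

open Subgroup
open scoped commutatorElement

/-- in a group of exponent `5` the commutator `[v, y, y, y, y]` with `v ∈ A` lies in `[A, A]` if `y`
normalises `A` -/
theorem engel_mem {K : Type*} [Group K] (hexp : ∀ g : K, g ^ 5 = 1) (A : Subgroup K) {v y : K}
    (hv : v ∈ A) (hy : ∀ a ∈ A, y * a * y⁻¹ ∈ A) : ⁅⁅⁅⁅v, y⁆, y⁆, y⁆, y⁆ ∈ ⁅A, A⁆ := by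
  let τ : A →* A :=
    { toFun := fun a => ⟨y * a * y⁻¹, hy a a.2⟩
      map_one' := by ext; simp
      map_mul' := fun a b => by ext; simp [mul_assoc] }
  have hτ : ∀ a : A, ((τ a : A) : K) = y * a * y⁻¹ := fun a => rfl
  let τ' : Abelianization A →* Abelianization A := Abelianization.map τ
  have hτ' : ∀ a : A, τ' (Abelianization.of a) = Abelianization.of (τ a) := fun a => rfl
  -- one commutator
  let γ : A → A := fun a => a * (τ a)⁻¹
  have hγ : ∀ a : A, ((γ a : A) : K) = ⁅(a : K), y⁆ := by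
    intro a
    show (a : K) * ((τ a : A) : K)⁻¹ = _
    rw [hτ, commutatorElement_def]; group
  set v' : A := ⟨v, hv⟩ with hv'
  have h1 : ((γ (γ (γ (γ v'))) : A) : K) = ⁅⁅⁅⁅v, y⁆, y⁆, y⁆, y⁆ := by
    rw [hγ, hγ, hγ, hγ]
  set x := Abelianization.of v' with hx
  have hγ' : ∀ a : A, Abelianization.of (γ a) =
      Abelianization.of a * (τ' (Abelianization.of a))⁻¹ := by
    intro a
    rw [hτ', ← map_inv, ← map_mul]
  have h2 : Abelianization.of (γ (γ (γ (γ v')))) =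
      (x * τ' x * τ' (τ' x) * τ' (τ' (τ' x)) * τ' (τ' (τ' (τ' x)))) *
        ((τ' x) ^ 5)⁻¹ * (τ' (τ' x)) ^ 5 * ((τ' (τ' (τ' x))) ^ 5)⁻¹ := by
    rw [hγ', hγ', hγ', hγ', ← hx]
    simp only [map_mul, map_inv, mul_inv, inv_inv]
    generalize x = a0
    generalize τ' a0 = a1
    generalize τ' a1 = a2
    generalize τ' a2 = a3
    generalize τ' a3 = a4
    apply Additive.ofMul.injective
    simp only [ofMul_mul, ofMul_inv, ofMul_pow]
    abel
  have h5 : ∀ t : Abelianization A, t ^ 5 = 1 := by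
    intro t
    obtain ⟨a, rfl⟩ := QuotientGroup.mk_surjective t
    show (Abelianization.of a) ^ 5 = 1
    rw [← map_pow]
    have : a ^ 5 = 1 := by ext; simp [hexp]
    rw [this, map_one]
  have hnorm : v' * τ v' * τ (τ v') * τ (τ (τ v')) * τ (τ (τ (τ v'))) = 1 := by
    ext
    simp only [Subgroup.coe_mul, hτ, Subgroup.coe_one, hv']
    have h3 : (v * y) ^ 5 = 1 := hexp _
    have h4 : y ^ 5 = 1 := hexp _
    calc v * (y * v * y⁻¹) * (y * (y * v * y⁻¹) * y⁻¹) * (y * (y * (y * v * y⁻¹) * y⁻¹) * y⁻¹) *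
          (y * (y * (y * (y * v * y⁻¹) * y⁻¹) * y⁻¹) * y⁻¹)
        = (v * y) ^ 5 * (y ^ 5)⁻¹ := by simp only [pow_succ, pow_zero]; group
      _ = 1 := by rw [h3, h4]; simp
  have h6 : x * τ' x * τ' (τ' x) * τ' (τ' (τ' x)) * τ' (τ' (τ' (τ' x))) = 1 := by
    rw [hx]
    simp only [hτ', ← map_mul]
    rw [hnorm, map_one]
  rw [h6, h5, h5, h5] at h2
  simp only [inv_one, mul_one] at h2
  have h7 : γ (γ (γ (γ v'))) ∈ commutator A := by
    rw [← Abelianization.ker_of]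
    exact h2
  have h8 : ((γ (γ (γ (γ v'))) : A) : K) ∈ (commutator A).map A.subtype := ⟨_, h7, rfl⟩
  rw [Subgroup.map_subtype_commutator, h1] at h8
  exact h8

section engel

variable {P : Type*} [Group P] (S : Ser P) (w : Fin 5 → ℕ)

/-- the family for the normal closure of the first letter -/
def engA (A : Finset (Fin 5)) : Subgroup P :=
  if (0 : Fin 5) ∈ A then S.F (wtA w A - 1) else ⊥

/-- the family with an improved weight at the full set -/
def engS (A : Finset (Fin 5)) : Subgroup P :=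
  if (0 : Fin 5) ∈ A then S.F (wtA w A) else cubeΔ S w 6 A

theorem card_of_notMem {A : Finset (Fin 5)} (h : (0 : Fin 5) ∉ A) : A.card ≤ 4 := by
  have h1 : A ⊆ Finset.univ.erase 0 := fun t ht =>
    Finset.mem_erase.2 ⟨fun h' => h (h' ▸ ht), Finset.mem_univ t⟩
  have h2 := Finset.card_le_card h1
  simpa using h2

theorem card_le5 (A : Finset (Fin 5)) : A.card ≤ 5 := by
  simpa using Finset.card_le_univ A

theorem one_le_inter {A B : Finset (Fin 5)} (hA : (0 : Fin 5) ∈ A) (hB : (0 : Fin 5) ∈ B) :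
    1 ≤ wtA w (A ∩ B) :=
  le_trans (Finset.card_pos.2 ⟨0, Finset.mem_inter.2 ⟨hA, hB⟩⟩) (card_le_wtA w _)

theorem engS_le {A : Finset (Fin 5)} : ∃ i, wtA w A ≤ i ∧ engS S w A = S.F i := by
  rw [engS]
  by_cases h : (0 : Fin 5) ∈ A
  · rw [if_pos h]; exact ⟨_, le_rfl, rfl⟩
  · rw [if_neg h, cubeΔ]
    refine ⟨_, ?_, rfl⟩
    have := card_of_notMem h
    omega

theorem engS_comm (A B : Finset (Fin 5)) :
    ⁅engS S w A, engS S w B⁆ ≤ engS S w (A ∪ B) := by
  by_cases h : (0 : Fin 5) ∈ A ∪ B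
  · obtain ⟨i, hi, ei⟩ := engS_le S w (A := A)
    obtain ⟨j, hj, ej⟩ := engS_le S w (A := B)
    have e : engS S w (A ∪ B) = S.F (wtA w (A ∪ B)) := by rw [engS, if_pos h]
    rw [ei, ej, e]
    refine (S.comm _ _).trans (S.mono ?_)
    have := wtA_union_inter w A B
    omega
  · have hA : (0 : Fin 5) ∉ A := fun h' => h (Finset.mem_union_left _ h')
    have hB : (0 : Fin 5) ∉ B := fun h' => h (Finset.mem_union_right _ h')
    rw [engS, engS, engS, if_neg h, if_neg hA, if_neg hB]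
    exact cubeΔ_comm S w (by norm_num) (by norm_num) (by norm_num) A B

theorem engA_comm (A B : Finset (Fin 5)) :
    ⁅engA S w A, engA S w B⁆ ≤ engS S w (A ∪ B) := by
  rw [engA, engA]
  by_cases hA : (0 : Fin 5) ∈ A
  · by_cases hB : (0 : Fin 5) ∈ B
    · rw [if_pos hA, if_pos hB, engS, if_pos (Finset.mem_union_left _ hA)]
      refine (S.comm _ _).trans (S.mono ?_)
      have h1 := wtA_union_inter w A B
      have h2 := one_le_inter w hA hB
      have h3 := card_le_wtA w A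
      have h4 := card_le_wtA w B
      have h5 := Finset.card_pos.2 ⟨0, hA⟩
      have h6 := Finset.card_pos.2 ⟨0, hB⟩
      omega
    · rw [if_neg hB, Subgroup.commutator_bot_right]; exact bot_le
  · rw [if_neg hA, Subgroup.commutator_bot_left]; exact bot_le

theorem engAS_comm (A B : Finset (Fin 5)) :
    ⁅engA S w A, engS S w B⁆ ≤ engS S w (A ∪ B) := by
  rw [engA]
  by_cases hA : (0 : Fin 5) ∈ A
  · obtain ⟨j, hj, ej⟩ := engS_le S w (A := B)
    rw [if_pos hA, ej, engS, if_pos (Finset.mem_union_left _ hA)]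
    refine (S.comm _ _).trans (S.mono ?_)
    have h1 := wtA_union_inter w A B
    have h3 := card_le_wtA w A
    have h5 := Finset.card_pos.2 ⟨0, hA⟩
    omega
  · rw [if_neg hA, Subgroup.commutator_bot_left]; exact bot_le

theorem engA_le : Cube (engA S w) ≤ Cube (engA S w) := le_rfl

theorem cube1_engA (A B : Finset (Fin 5)) :
    ⁅cubeΔ S w 1 A, engA S w B⁆ ≤ engA S w (A ∪ B) := by
  rw [engA, engA]
  by_cases hB : (0 : Fin 5) ∈ B
  · rw [if_pos hB, if_pos (Finset.mem_union_right _ hB), cubeΔ]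
    refine (S.comm _ _).trans (S.mono ?_)
    have h1 := wtA_union_inter w A B
    have h3 := card_le_wtA w A
    have h4 := card_le_wtA w B
    have h5 := Finset.card_pos.2 ⟨0, hB⟩
    omega
  · rw [if_neg hB, Subgroup.commutator_bot_right]; exact bot_le

theorem cube6_le (A : Finset (Fin 5)) : cubeΔ S w 6 A ≤ engS S w A := by
  rw [engS]
  by_cases hA : (0 : Fin 5) ∈ A
  · rw [if_pos hA, cubeΔ]
    apply S.mono
    have := card_le5 A
    omega
  · rw [if_neg hA]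

/-- the linearised Engel identity in groups of exponent five -/
theorem engel4 (hexp : ∀ g : P, g ^ 5 = 1) (z : Fin 5 → P) (hz : ∀ t, z t ∈ S.F (w t)) :
    S.act (S.cls (w 0) (z 0)) (s4 (lS S w z 1) (lS S w z 2) (lS S w z 3) (lS S w z 4)) = 0 := by
  have hexpK : ∀ g : CK P 5, g ^ 5 = 1 := by
    intro g
    ext A
    exact hexp (g A)
  have hx : ∀ t, pt {t} (z t) ∈ (cubeSer S w).F 0 := fun t => letter_mem S w (hz t)
  let Z : AddSubgroup (cubeSer S w).M :=
    { carrier := {m | ∃ f ∈ (cubeSer S w).F 4, f ∈ Cube (engS S w) ∧ m = (cubeSer S w).cls 4 f}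
      zero_mem' := ⟨1, one_mem _, one_mem _, (Ser.cls_one _ _).symm⟩
      add_mem' := by
        rintro _ _ ⟨f, hf, hf', rfl⟩ ⟨g, hg, hg', rfl⟩
        exact ⟨f * g, mul_mem hf hg, mul_mem hf' hg', (Ser.cls_mul _ hf hg).symm⟩
      neg_mem' := by
        rintro _ ⟨f, hf, hf', rfl⟩
        exact ⟨f⁻¹, inv_mem hf, inv_mem hf', (Ser.cls_inv _ hf).symm⟩ }
  have h0 : (cubeSer S w).act ((cubeSer S w).cls 0 (pt {0} (z 0)))
      (s4 (lT S w z 1) (lT S w z 2) (lT S w z 3) (lT S w z 4)) ∈ Z := by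
    apply pol4 (cubeSer S w) _ (hx 1) (hx 2) (hx 3) (hx 4)
    intro y hy
    have h1 := (cubeSer S w).comm_mem (hx 0) hy
    have h2 := (cubeSer S w).comm_mem h1 hy
    have h3 := (cubeSer S w).comm_mem h2 hy
    have h4 := (cubeSer S w).comm_mem h3 hy
    refine ⟨⁅⁅⁅⁅pt {(0 : Fin 5)} (z 0), y⁆, y⁆, y⁆, y⁆, h4, ?_, ?_⟩
    · have h5 : ⁅⁅⁅⁅pt {(0 : Fin 5)} (z 0), y⁆, y⁆, y⁆, y⁆ ∈
          ⁅Cube (engA S w), Cube (engA S w)⁆ := by
        apply engel_mem hexpK
        · apply pt_mem_Cube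
          rw [engA, if_pos (by simp), wtA_singleton]
          exact hz 0
        · intro a ha
          exact Cube_conj (cube1_engA S w) hy ha
      exact Cube_comm (engA_comm S w) (engAS_comm S w) (engAS_comm S w) h5
    · rw [pow_succ, pow_succ, pow_succ, pow_one, Ser.act_mul, Ser.act_mul, Ser.act_mul,
        Ser.act_cls _ (hx 0) hy, Ser.act_cls _ h1 hy, Ser.act_cls _ h2 hy, Ser.act_cls _ h3 hy]
  have hR : Rel S w Finset.univ ((cubeSer S w).act ((cubeSer S w).cls 0 (pt {0} (z 0)))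
      (s4 (lT S w z 1) (lT S w z 2) (lT S w z 3) (lT S w z 4)))
      (S.act (S.cls (w 0) (z 0)) (s4 (lS S w z 1) (lS S w z 2) (lS S w z 3) (lS S w z 4))) := by
    refine Rel_s4 hz (A := {0}) (by simp) (Rel_base S w (hz 0))
      ?_ ?_ ?_ ?_ ?_ ?_ ?_ ?_ ?_ ?_ ?_ <;> decide
  obtain ⟨f, hf, hf', ef⟩ := h0
  obtain ⟨g, hg, eg, eg'⟩ := hR
  have hcard : (Finset.univ : Finset (Fin 5)).card = 5 := by simp
  have hg4 : pt (Finset.univ : Finset (Fin 5)) g ∈ (cubeSer S w).F 4 := by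
    have := pt_mem_F S w hg (by simp)
    rwa [hcard] at this
  rw [ef, hcard] at eg
  have h1 : (cubeSer S w).cls 4 (pt Finset.univ g * f⁻¹) = 0 := by
    rw [Ser.cls_mul _ hg4 (inv_mem hf), Ser.cls_inv _ hf, eg]
    exact add_neg_cancel _
  have h2 : pt Finset.univ g * f⁻¹ ∈ (cubeSer S w).F 5 :=
    (Ser.cls_eq_zero _ (mul_mem hg4 (inv_mem hf))).1 h1
  have h3 : pt Finset.univ g * f⁻¹ ∈ Cube (engS S w) := Cube_mono (cube6_le S w) h2
  have h4 : pt (Finset.univ : Finset (Fin 5)) g ∈ Cube (engS S w) := by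
    have := mul_mem h3 hf'
    rwa [inv_mul_cancel_right] at this
  have h5 := pt_univ_mem (engS_comm S w) h4
  rw [engS, if_pos (Finset.mem_univ _)] at h5
  rw [eg', S.cls_eq_zero hg]
  have h6 := card_le_wtA w (Finset.univ : Finset (Fin 5))
  rwa [show wtA w Finset.univ - 1 + 1 = wtA w Finset.univ by omega]

end engel

end Pool.Agent.Lib.MP_544bd1_al.E5
end

section

/-!
# The linearised laws `[v, u, u, v, u] = 1` and `[v, u, u, u, v, u] = 1`
-/

namespace Pool.Agent.Lib.MP_544bd1_al.E5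

open Subgroup
open scoped commutatorElement

variable {P : Type*} [Group P] {n : ℕ}

section rel

variable {S : Ser P} {w : Fin n → ℕ} {z : Fin n → P} (hz : ∀ t, z t ∈ S.F (w t))

include hz in
theorem Rel_e5 {A : Finset (Fin n)} (hA : 1 ≤ A.card) {m : (cubeSer S w).M} {m' : S.M}
    (h : Rel S w A m m') {a b c q : Fin n} (ha : a ∉ A) (hb : b ∉ A) (hc : c ∉ A) (hq : q ∉ A)
    (hab : a ≠ b) (hac : a ≠ c) (hbc : b ≠ c) (haq : a ≠ q) (hbq : b ≠ q) (hcq : c ≠ q)
    {B : Finset (Fin n)} (hB : B = insert c (insert q (insert b (insert a A)))) :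
    Rel S w B ((cubeSer S w).act m
        (e5 (lT S w z q) (lT S w z a) (lT S w z b) (lT S w z c)))
      (S.act m' (e5 (lS S w z q) (lS S w z a) (lS S w z b) (lS S w z c))) := by
  have hB1 : 1 ≤ B.card := by
    rw [hB]; exact Finset.card_pos.2 (Finset.insert_nonempty _ _)
  have hne2 : ∀ x y : Fin n, 1 ≤ (insert x (insert y A)).card := fun x y =>
    Finset.card_pos.2 (Finset.insert_nonempty _ _)
  have hne : ∀ x y u : Fin n, 1 ≤ (insert x (insert y (insert u A))).card := fun x y u =>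
    Finset.card_pos.2 (Finset.insert_nonempty _ _)
  have step : ∀ x y u : Fin n, x ∉ A → y ∉ A → u ∉ A → x ≠ y → x ≠ u → y ≠ u → x ≠ q → y ≠ q →
      u ≠ q → B = insert u (insert q (insert y (insert x A))) →
      Rel S w B ((cubeSer S w).act m (s2 (lT S w z x) (lT S w z y) * lT S w z q * lT S w z u))
        (S.act m' (s2 (lS S w z x) (lS S w z y) * lS S w z q * lS S w z u)) := by
    intro x y u hx hy hu hxy hxu hyu hxq hyq huq hBB
    refine Rel_mul hz hB1 (hne q y x) (Rel_mul hz (hne q y x) (hne2 y x)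
      (Rel_s2 hz hA h hx hy hxy rfl) ?_ rfl) ?_ hBB
    · simp [hq, Ne.symm hxq, Ne.symm hyq]
    · simp [hu, Ne.symm hxu, Ne.symm hyu, huq]
  rw [e5, e5]
  refine Rel_addr hB1 (Rel_addr hB1 ?_ ?_) ?_
  · exact step a b c ha hb hc hab hac hbc haq hbq hcq hB
  · refine step a c b ha hc hb hac hab (Ne.symm hbc) haq hcq hbq ?_
    rw [hB]; ext t; simp only [Finset.mem_insert]; tauto
  · refine step b c a hb hc ha hbc (Ne.symm hab) (Ne.symm hac) hbq hcq haq ?_
    rw [hB]; ext t; simp only [Finset.mem_insert]; tauto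

include hz in
theorem Rel_e6 {A : Finset (Fin n)} (hA : 1 ≤ A.card) {m : (cubeSer S w).M} {m' : S.M}
    (h : Rel S w A m m') {a b c d q : Fin n} (ha : a ∉ A) (hb : b ∉ A) (hc : c ∉ A)
    (hd : d ∉ A) (hq : q ∉ A) (hab : a ≠ b) (hac : a ≠ c) (hbc : b ≠ c) (had : a ≠ d)
    (hbd : b ≠ d) (hcd : c ≠ d) (haq : a ≠ q) (hbq : b ≠ q) (hcq : c ≠ q) (hdq : d ≠ q)
    {B : Finset (Fin n)} (hB : B = insert d (insert q (insert c (insert b (insert a A))))) :
    Rel S w B ((cubeSer S w).act m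
        (e6 (lT S w z q) (lT S w z a) (lT S w z b) (lT S w z c) (lT S w z d)))
      (S.act m' (e6 (lS S w z q) (lS S w z a) (lS S w z b) (lS S w z c) (lS S w z d))) := by
  have hB1 : 1 ≤ B.card := by
    rw [hB]; exact Finset.card_pos.2 (Finset.insert_nonempty _ _)
  have hne2 : ∀ x y u : Fin n, 1 ≤ (insert x (insert y (insert u A))).card := fun x y u =>
    Finset.card_pos.2 (Finset.insert_nonempty _ _)
  have hne : ∀ x y u v : Fin n, 1 ≤ (insert x (insert y (insert u (insert v A)))).card :=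
    fun x y u v => Finset.card_pos.2 (Finset.insert_nonempty _ _)
  have step : ∀ x y u v : Fin n, x ∉ A → y ∉ A → u ∉ A → v ∉ A → x ≠ y → x ≠ u → y ≠ u → x ≠ v →
      y ≠ v → u ≠ v → x ≠ q → y ≠ q → u ≠ q → v ≠ q →
      B = insert v (insert q (insert u (insert y (insert x A)))) →
      Rel S w B ((cubeSer S w).act m
          (s3 (lT S w z x) (lT S w z y) (lT S w z u) * lT S w z q * lT S w z v))
        (S.act m' (s3 (lS S w z x) (lS S w z y) (lS S w z u) * lS S w z q * lS S w z v)) := by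
    intro x y u v hx hy hu hv hxy hxu hyu hxv hyv huv hxq hyq huq hvq hBB
    refine Rel_mul hz hB1 (hne q u y x) (Rel_mul hz (hne q u y x) (hne2 u y x)
      (Rel_s3 hz hA h hx hy hu hxy hxu hyu rfl) ?_ rfl) ?_ hBB
    · simp [hq, Ne.symm hxq, Ne.symm hyq, Ne.symm huq]
    · simp [hv, Ne.symm hxv, Ne.symm hyv, Ne.symm huv, hvq]
  rw [e6, e6]
  refine Rel_addr hB1 (Rel_addr hB1 (Rel_addr hB1 ?_ ?_) ?_) ?_
  · exact step a b c d ha hb hc hd hab hac hbc had hbd hcd haq hbq hcq hdq hB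
  · refine step a b d c ha hb hd hc hab had hbd hac hbc (Ne.symm hcd) haq hbq hdq hcq ?_
    rw [hB]; ext t; simp only [Finset.mem_insert]; tauto
  · refine step a c d b ha hc hd hb hac had hcd hab (Ne.symm hbc) (Ne.symm hbd) haq hcq hdq hbq ?_
    rw [hB]; ext t; simp only [Finset.mem_insert]; tauto
  · refine step b c d a hb hc hd ha hbc hbd hcd (Ne.symm hab) (Ne.symm hac) (Ne.symm had)
      hbq hcq hdq haq ?_
    rw [hB]; ext t; simp only [Finset.mem_insert]; tauto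

end rel

/-- the linearised law `[v, u, u, v, u] = 1` -/
theorem law5 (S : Ser P) (hlaw : ∀ u v : P, ⁅⁅⁅⁅v, u⁆, u⁆, v⁆, u⁆ = 1) (w : Fin 5 → ℕ)
    (z : Fin 5 → P) (hz : ∀ t, z t ∈ S.F (w t)) :
    S.act (S.cls (w 0) (z 0)) (e5 (lS S w z 1) (lS S w z 2) (lS S w z 3) (lS S w z 4)) +
    S.act (S.cls (w 1) (z 1)) (e5 (lS S w z 0) (lS S w z 2) (lS S w z 3) (lS S w z 4)) = 0 := by
  have hlawK : ∀ u v : CK P 5, ⁅⁅⁅⁅v, u⁆, u⁆, v⁆, u⁆ = 1 := by
    intro u v
    ext A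
    exact hlaw (u A) (v A)
  have hx : ∀ t, pt {t} (z t) ∈ (cubeSer S w).F 0 := fun t => letter_mem S w (hz t)
  have hk : ∀ f ∈ (cubeSer S w).F 0, ∀ y ∈ (cubeSer S w).F 0,
      (cubeSer S w).act ((cubeSer S w).cls 0 f)
        ((cubeSer S w).ado 0 y ^ 2 * (cubeSer S w).ado 0 f * (cubeSer S w).ado 0 y) = 0 := by
    intro f hf y hy
    have h1 := (cubeSer S w).comm_mem hf hy
    have h2 := (cubeSer S w).comm_mem h1 hy
    have h3 := (cubeSer S w).comm_mem h2 hf
    rw [pow_succ, pow_one, Ser.act_mul, Ser.act_mul, Ser.act_mul, Ser.act_cls _ hf hy,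
      Ser.act_cls _ h1 hy, Ser.act_cls _ h2 hf, Ser.act_cls _ h3 hy, hlawK, Ser.cls_one]
  have h0 : (cubeSer S w).act ((cubeSer S w).cls 0 (pt {0} (z 0)))
      (e5 (lT S w z 1) (lT S w z 2) (lT S w z 3) (lT S w z 4)) +
      (cubeSer S w).act ((cubeSer S w).cls 0 (pt {1} (z 1)))
      (e5 (lT S w z 0) (lT S w z 2) (lT S w z 3) (lT S w z 4)) = 0 := by
    apply pol_e5 (cubeSer S w) _ (hx 2) (hx 3) (hx 4)
    intro y hy
    have k1 := hk _ (mul_mem (hx 0) (hx 1)) y hy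
    have k2 := hk _ (hx 0) y hy
    have k3 := hk _ (hx 1) y hy
    rw [Ser.cls_mul _ (hx 0) (hx 1), Ser.ado_mul _ (hx 0) (hx 1), Ser.add_act, mul_add, add_mul,
      Ser.act_add, Ser.act_add, k2, k3, zero_add, add_zero] at k1
    exact k1
  have hR : Rel S w Finset.univ ((cubeSer S w).act ((cubeSer S w).cls 0 (pt {0} (z 0)))
      (e5 (lT S w z 1) (lT S w z 2) (lT S w z 3) (lT S w z 4)))
      (S.act (S.cls (w 0) (z 0)) (e5 (lS S w z 1) (lS S w z 2) (lS S w z 3) (lS S w z 4))) := by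
    refine Rel_e5 hz (A := {0}) (by simp) (Rel_base S w (hz 0)) ?_ ?_ ?_ ?_ ?_ ?_ ?_ ?_ ?_ ?_ ?_
      <;> decide
  have hR' : Rel S w Finset.univ ((cubeSer S w).act ((cubeSer S w).cls 0 (pt {1} (z 1)))
      (e5 (lT S w z 0) (lT S w z 2) (lT S w z 3) (lT S w z 4)))
      (S.act (S.cls (w 1) (z 1)) (e5 (lS S w z 0) (lS S w z 2) (lS S w z 3) (lS S w z 4))) := by
    refine Rel_e5 hz (A := {1}) (by simp) (Rel_base S w (hz 1)) ?_ ?_ ?_ ?_ ?_ ?_ ?_ ?_ ?_ ?_ ?_
      <;> decide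
  have h := Rel.add (by simp) hR hR'
  rw [h0] at h
  exact Rel_zero (by norm_num) h

/-- the linearised law `[v, u, u, u, v, u] = 1` -/
theorem law6 (S : Ser P) (hlaw : ∀ u v : P, ⁅⁅⁅⁅⁅v, u⁆, u⁆, u⁆, v⁆, u⁆ = 1) (w : Fin 6 → ℕ)
    (z : Fin 6 → P) (hz : ∀ t, z t ∈ S.F (w t)) :
    S.act (S.cls (w 0) (z 0))
      (e6 (lS S w z 1) (lS S w z 2) (lS S w z 3) (lS S w z 4) (lS S w z 5)) +
    S.act (S.cls (w 1) (z 1))
      (e6 (lS S w z 0) (lS S w z 2) (lS S w z 3) (lS S w z 4) (lS S w z 5)) = 0 := by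
  have hlawK : ∀ u v : CK P 6, ⁅⁅⁅⁅⁅v, u⁆, u⁆, u⁆, v⁆, u⁆ = 1 := by
    intro u v
    ext A
    exact hlaw (u A) (v A)
  have hx : ∀ t, pt {t} (z t) ∈ (cubeSer S w).F 0 := fun t => letter_mem S w (hz t)
  have hk : ∀ f ∈ (cubeSer S w).F 0, ∀ y ∈ (cubeSer S w).F 0,
      (cubeSer S w).act ((cubeSer S w).cls 0 f)
        ((cubeSer S w).ado 0 y ^ 3 * (cubeSer S w).ado 0 f * (cubeSer S w).ado 0 y) = 0 := by
    intro f hf y hy
    have h1 := (cubeSer S w).comm_mem hf hy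
    have h2 := (cubeSer S w).comm_mem h1 hy
    have h3 := (cubeSer S w).comm_mem h2 hy
    have h4 := (cubeSer S w).comm_mem h3 hf
    rw [pow_succ, pow_succ, pow_one, Ser.act_mul, Ser.act_mul, Ser.act_mul, Ser.act_mul,
      Ser.act_cls _ hf hy, Ser.act_cls _ h1 hy, Ser.act_cls _ h2 hy, Ser.act_cls _ h3 hf,
      Ser.act_cls _ h4 hy, hlawK, Ser.cls_one]
  have h0 : (cubeSer S w).act ((cubeSer S w).cls 0 (pt {0} (z 0)))
      (e6 (lT S w z 1) (lT S w z 2) (lT S w z 3) (lT S w z 4) (lT S w z 5)) +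
      (cubeSer S w).act ((cubeSer S w).cls 0 (pt {1} (z 1)))
      (e6 (lT S w z 0) (lT S w z 2) (lT S w z 3) (lT S w z 4) (lT S w z 5)) = 0 := by
    apply pol_e6 (cubeSer S w) _ (hx 2) (hx 3) (hx 4) (hx 5)
    intro y hy
    have k1 := hk _ (mul_mem (hx 0) (hx 1)) y hy
    have k2 := hk _ (hx 0) y hy
    have k3 := hk _ (hx 1) y hy
    rw [Ser.cls_mul _ (hx 0) (hx 1), Ser.ado_mul _ (hx 0) (hx 1), Ser.add_act, mul_add, add_mul,
      Ser.act_add, Ser.act_add, k2, k3, zero_add, add_zero] at k1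
    exact k1
  have hR : Rel S w Finset.univ ((cubeSer S w).act ((cubeSer S w).cls 0 (pt {0} (z 0)))
      (e6 (lT S w z 1) (lT S w z 2) (lT S w z 3) (lT S w z 4) (lT S w z 5)))
      (S.act (S.cls (w 0) (z 0))
        (e6 (lS S w z 1) (lS S w z 2) (lS S w z 3) (lS S w z 4) (lS S w z 5))) := by
    refine Rel_e6 hz (A := {0}) (by simp) (Rel_base S w (hz 0))
      ?_ ?_ ?_ ?_ ?_ ?_ ?_ ?_ ?_ ?_ ?_ ?_ ?_ ?_ ?_ ?_ <;> decide
  have hR' : Rel S w Finset.univ ((cubeSer S w).act ((cubeSer S w).cls 0 (pt {1} (z 1)))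
      (e6 (lT S w z 0) (lT S w z 2) (lT S w z 3) (lT S w z 4) (lT S w z 5)))
      (S.act (S.cls (w 1) (z 1))
        (e6 (lS S w z 0) (lS S w z 2) (lS S w z 3) (lS S w z 4) (lS S w z 5))) := by
    refine Rel_e6 hz (A := {1}) (by simp) (Rel_base S w (hz 1))
      ?_ ?_ ?_ ?_ ?_ ?_ ?_ ?_ ?_ ?_ ?_ ?_ ?_ ?_ ?_ ?_ <;> decide
  have h := Rel.add (by simp) hR hR'
  rw [h0] at h
  exact Rel_zero (by norm_num) h

end Pool.Agent.Lib.MP_544bd1_al.E5
end

section

/-!
# Identities of the ring of operators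
-/

namespace Pool.Agent.Lib.MP_544bd1_al.E5

open Subgroup
open scoped commutatorElement

variable {P : Type*} [Group P] (S : Ser P)

theorem LL_ext {f : S.Rg → S.Rg} (hadd : ∀ x y, f (x + y) = f x + f y)
    (h : ∀ j, ∀ g ∈ S.F j, f (S.ado j g) = 0) : ∀ r ∈ S.LL, f r = 0 := by
  have h0 : f 0 = 0 := by
    have := hadd 0 0
    rw [add_zero] at this
    simpa using this
  intro r hr
  induction hr using AddSubgroup.closure_induction with
  | mem r hr => obtain ⟨j, g, hg, rfl⟩ := hr; exact h j g hg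
  | zero => exact h0
  | add a b _ _ ha hb => rw [hadd, ha, hb, add_zero]
  | neg a _ ha =>
    have := hadd a (-a)
    rw [add_neg_cancel, h0, ha, zero_add] at this
    exact this.symm

theorem s4_LL (hexp : ∀ g : P, g ^ 5 = 1) : ∀ p ∈ S.LL, ∀ q ∈ S.LL, ∀ r ∈ S.LL, ∀ t ∈ S.LL,
    s4 p q r t = 0 := by
  have key : ∀ i a j b k c l d, a ∈ S.F i → b ∈ S.F j → c ∈ S.F k → d ∈ S.F l →
      s4 (S.ado i a) (S.ado j b) (S.ado k c) (S.ado l d) = 0 := by
    intro i a j b k c l d ha hb hc hd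
    apply S.Rg_ext
    intro n m hm
    have := engel4 S ![n, i, j, k, l] hexp ![m, a, b, c, d] (by
      intro t
      fin_cases t
      · exact hm
      · exact ha
      · exact hb
      · exact hc
      · exact hd)
    rw [S.act_zero]
    exact this
  intro p hp q hq r hr t ht
  refine LL_ext S (f := fun p => s4 p q r t) ?_ ?_ p hp
  · intro x y; simp only [s4, s3, s2]; noncomm_ring
  intro i a ha
  refine LL_ext S (f := fun q => s4 (S.ado i a) q r t) ?_ ?_ q hq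
  · intro x y; simp only [s4, s3, s2]; noncomm_ring
  intro j b hb
  refine LL_ext S (f := fun r => s4 (S.ado i a) (S.ado j b) r t) ?_ ?_ r hr
  · intro x y; simp only [s4, s3, s2]; noncomm_ring
  intro k c hc
  refine LL_ext S (f := fun t => s4 (S.ado i a) (S.ado j b) (S.ado k c) t) ?_ ?_ t ht
  · intro x y; simp only [s4, s3, s2]; noncomm_ring
  intro l d hd
  exact key i a j b k c l d ha hb hc hd

theorem s3_LL (hlaw : ∀ u v : P, ⁅⁅⁅v, u⁆, u⁆, u⁆ = 1) : ∀ p ∈ S.LL, ∀ q ∈ S.LL, ∀ r ∈ S.LL,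
    s3 p q r = 0 := by
  have key : ∀ i a j b k c, a ∈ S.F i → b ∈ S.F j → c ∈ S.F k →
      s3 (S.ado i a) (S.ado j b) (S.ado k c) = 0 := by
    intro i a j b k c ha hb hc
    apply S.Rg_ext
    intro n m hm
    have := law4 S hlaw ![n, i, j, k] ![m, a, b, c] (by
      intro t
      fin_cases t
      · exact hm
      · exact ha
      · exact hb
      · exact hc)
    rw [S.act_zero]
    exact this
  intro p hp q hq r hr
  refine LL_ext S (f := fun p => s3 p q r) ?_ ?_ p hp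
  · intro x y; simp only [s3, s2]; noncomm_ring
  intro i a ha
  refine LL_ext S (f := fun q => s3 (S.ado i a) q r) ?_ ?_ q hq
  · intro x y; simp only [s3, s2]; noncomm_ring
  intro j b hb
  refine LL_ext S (f := fun r => s3 (S.ado i a) (S.ado j b) r) ?_ ?_ r hr
  · intro x y; simp only [s3, s2]; noncomm_ring
  intro k c hc
  exact key i a j b k c ha hb hc

/-- the action of an iterated commutator -/
theorem act_swap {i j k l : ℕ} {a b x y : P} (ha : a ∈ S.F i) (hb : b ∈ S.F j) (hx : x ∈ S.F k)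
    (hy : y ∈ S.F l) :
    S.act (S.cls j b) (S.ado k x * S.ado l y * S.ado i a) =
      - S.act (S.cls i a) (br (br (S.ado j b) (S.ado k x)) (S.ado l y)) := by
  have h1 := S.comm_mem hb hx
  have h2 := S.comm_mem h1 hy
  have h3 := S.comm_mem ha h2
  rw [S.act_mul, S.act_mul, S.act_cls hb hx, S.act_cls h1 hy, S.act_cls h2 ha, br, br,
    ← S.ado_comm hb hx, ← S.ado_comm h1 hy, S.act_cls ha h2]
  have h4 := S.cls_comm_swap h2 ha
  rw [h4, show i + (j + k + 1 + l + 1) + 1 = j + k + 1 + l + 1 + i + 1 by omega]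

theorem act_swap3 {i j k l n : ℕ} {a b x y u : P} (ha : a ∈ S.F i) (hb : b ∈ S.F j)
    (hx : x ∈ S.F k) (hy : y ∈ S.F l) (hu : u ∈ S.F n) :
    S.act (S.cls j b) (S.ado k x * S.ado l y * S.ado n u * S.ado i a) =
      - S.act (S.cls i a) (br (br (br (S.ado j b) (S.ado k x)) (S.ado l y)) (S.ado n u)) := by
  have h1 := S.comm_mem hb hx
  have h2 := S.comm_mem h1 hy
  have h3 := S.comm_mem h2 hu
  rw [S.act_mul, S.act_mul, S.act_mul, S.act_cls hb hx, S.act_cls h1 hy, S.act_cls h2 hu,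
    S.act_cls h3 ha, br, br, br, ← S.ado_comm hb hx, ← S.ado_comm h1 hy, ← S.ado_comm h2 hu,
    S.act_cls ha h3]
  have h4 := S.cls_comm_swap h3 ha
  rw [h4, show i + (j + k + 1 + l + 1 + n + 1) + 1 = j + k + 1 + l + 1 + n + 1 + i + 1 by omega]

theorem e5_rel (hlaw : ∀ u v : P, ⁅⁅⁅⁅v, u⁆, u⁆, v⁆, u⁆ = 1) {j k l n : ℕ} {b x y u : P}
    (hb : b ∈ S.F j) (hx : x ∈ S.F k) (hy : y ∈ S.F l) (hu : u ∈ S.F n) :
    e5 (S.ado j b) (S.ado k x) (S.ado l y) (S.ado n u) =
      D2 (S.ado j b) (S.ado k x) (S.ado l y) * S.ado n u +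
      D2 (S.ado j b) (S.ado k x) (S.ado n u) * S.ado l y +
      D2 (S.ado j b) (S.ado l y) (S.ado n u) * S.ado k x := by
  apply S.Rg_ext
  intro i a ha
  have h := law5 S hlaw ![i, j, k, l, n] ![a, b, x, y, u] (by
    intro t
    fin_cases t
    · exact ha
    · exact hb
    · exact hx
    · exact hy
    · exact hu)
  have h' : S.act (S.cls i a) (e5 (S.ado j b) (S.ado k x) (S.ado l y) (S.ado n u)) +
    S.act (S.cls j b) (e5 (S.ado i a) (S.ado k x) (S.ado l y) (S.ado n u)) = 0 := h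
  have aux : ∀ {k' l' n' : ℕ} {x' y' u' : P}, x' ∈ S.F k' → y' ∈ S.F l' → u' ∈ S.F n' →
      S.act (S.cls j b) (s2 (S.ado k' x') (S.ado l' y') * S.ado i a * S.ado n' u') =
      - S.act (S.cls i a) (D2 (S.ado j b) (S.ado k' x') (S.ado l' y') * S.ado n' u') := by
    intro k' l' n' x' y' u' hx' hy' hu'
    rw [s2, add_mul, add_mul, S.act_add, S.act_mul, S.act_mul (r := S.ado l' y' * _ * _),
      act_swap S ha hb hx' hy', act_swap S ha hb hy' hx', D2, add_mul, S.act_add, S.act_mul,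
      S.act_mul (r := br (br (S.ado j b) (S.ado l' y')) (S.ado k' x')), S.neg_act, S.neg_act]
    abel
  have h2 : S.act (S.cls j b) (e5 (S.ado i a) (S.ado k x) (S.ado l y) (S.ado n u)) =
      - S.act (S.cls i a) (D2 (S.ado j b) (S.ado k x) (S.ado l y) * S.ado n u +
      D2 (S.ado j b) (S.ado k x) (S.ado n u) * S.ado l y +
      D2 (S.ado j b) (S.ado l y) (S.ado n u) * S.ado k x) := by
    rw [e5, S.act_add, S.act_add, aux hx hy hu, aux hx hu hy, aux hy hu hx, S.act_add, S.act_add]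
    abel
  rw [h2] at h'
  exact eq_of_sub_eq_zero (by rw [sub_eq_add_neg]; exact h')

theorem e6_rel (hlaw : ∀ u v : P, ⁅⁅⁅⁅⁅v, u⁆, u⁆, u⁆, v⁆, u⁆ = 1) {j k l n r : ℕ}
    {b x y u v : P} (hb : b ∈ S.F j) (hx : x ∈ S.F k) (hy : y ∈ S.F l) (hu : u ∈ S.F n)
    (hv : v ∈ S.F r) :
    e6 (S.ado j b) (S.ado k x) (S.ado l y) (S.ado n u) (S.ado r v) =
      D3 (S.ado j b) (S.ado k x) (S.ado l y) (S.ado n u) * S.ado r v +
      D3 (S.ado j b) (S.ado k x) (S.ado l y) (S.ado r v) * S.ado n u +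
      D3 (S.ado j b) (S.ado k x) (S.ado n u) (S.ado r v) * S.ado l y +
      D3 (S.ado j b) (S.ado l y) (S.ado n u) (S.ado r v) * S.ado k x := by
  apply S.Rg_ext
  intro i a ha
  have h := law6 S hlaw ![i, j, k, l, n, r] ![a, b, x, y, u, v] (by
    intro t
    fin_cases t
    · exact ha
    · exact hb
    · exact hx
    · exact hy
    · exact hu
    · exact hv)
  have h' : S.act (S.cls i a) (e6 (S.ado j b) (S.ado k x) (S.ado l y) (S.ado n u) (S.ado r v)) +
    S.act (S.cls j b) (e6 (S.ado i a) (S.ado k x) (S.ado l y) (S.ado n u) (S.ado r v)) = 0 := h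
  have aux3 : ∀ {k' l' n' : ℕ} {x' y' u' : P}, x' ∈ S.F k' → y' ∈ S.F l' → u' ∈ S.F n' →
      S.act (S.cls j b) (s3 (S.ado k' x') (S.ado l' y') (S.ado n' u') * S.ado i a) =
      - S.act (S.cls i a) (D3 (S.ado j b) (S.ado k' x') (S.ado l' y') (S.ado n' u')) := by
    intro k' l' n' x' y' u' hx' hy' hu'
    have e1 : s3 (S.ado k' x') (S.ado l' y') (S.ado n' u') * S.ado i a =
        S.ado k' x' * S.ado l' y' * S.ado n' u' * S.ado i a +
        S.ado l' y' * S.ado k' x' * S.ado n' u' * S.ado i a +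
        S.ado k' x' * S.ado n' u' * S.ado l' y' * S.ado i a +
        S.ado n' u' * S.ado k' x' * S.ado l' y' * S.ado i a +
        S.ado l' y' * S.ado n' u' * S.ado k' x' * S.ado i a +
        S.ado n' u' * S.ado l' y' * S.ado k' x' * S.ado i a := by
      simp only [s3, s2]; noncomm_ring
    have e2 : D3 (S.ado j b) (S.ado k' x') (S.ado l' y') (S.ado n' u') =
        br (br (br (S.ado j b) (S.ado k' x')) (S.ado l' y')) (S.ado n' u') +
        br (br (br (S.ado j b) (S.ado l' y')) (S.ado k' x')) (S.ado n' u') +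
        br (br (br (S.ado j b) (S.ado k' x')) (S.ado n' u')) (S.ado l' y') +
        br (br (br (S.ado j b) (S.ado n' u')) (S.ado k' x')) (S.ado l' y') +
        br (br (br (S.ado j b) (S.ado l' y')) (S.ado n' u')) (S.ado k' x') +
        br (br (br (S.ado j b) (S.ado n' u')) (S.ado l' y')) (S.ado k' x') := by
      simp only [D3, D2, br]; noncomm_ring
    rw [e1, e2]
    simp only [S.act_add]
    rw [act_swap3 S ha hb hx' hy' hu', act_swap3 S ha hb hy' hx' hu',
      act_swap3 S ha hb hx' hu' hy', act_swap3 S ha hb hu' hx' hy',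
      act_swap3 S ha hb hy' hu' hx', act_swap3 S ha hb hu' hy' hx']
    abel
  have aux : ∀ {k' l' n' r' : ℕ} {x' y' u' v' : P}, x' ∈ S.F k' → y' ∈ S.F l' → u' ∈ S.F n' →
      v' ∈ S.F r' →
      S.act (S.cls j b) (s3 (S.ado k' x') (S.ado l' y') (S.ado n' u') * S.ado i a * S.ado r' v') =
      - S.act (S.cls i a)
        (D3 (S.ado j b) (S.ado k' x') (S.ado l' y') (S.ado n' u') * S.ado r' v') := by
    intro k' l' n' r' x' y' u' v' hx' hy' hu' hv'
    rw [S.act_mul, aux3 hx' hy' hu', S.neg_act, S.act_mul]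
  have h2 : S.act (S.cls j b)
      (e6 (S.ado i a) (S.ado k x) (S.ado l y) (S.ado n u) (S.ado r v)) =
      - S.act (S.cls i a) (D3 (S.ado j b) (S.ado k x) (S.ado l y) (S.ado n u) * S.ado r v +
      D3 (S.ado j b) (S.ado k x) (S.ado l y) (S.ado r v) * S.ado n u +
      D3 (S.ado j b) (S.ado k x) (S.ado n u) (S.ado r v) * S.ado l y +
      D3 (S.ado j b) (S.ado l y) (S.ado n u) (S.ado r v) * S.ado k x) := by
    rw [e6]
    simp only [S.act_add]
    rw [aux hx hy hu hv, aux hx hy hv hu, aux hx hu hv hy, aux hy hu hv hx]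
    abel
  rw [h2] at h'
  exact eq_of_sub_eq_zero (by rw [sub_eq_add_neg]; exact h')

theorem t4_LL (hexp : ∀ g : P, g ^ 5 = 1)
    (hlaw : ∀ u v : P, ⁅⁅⁅⁅⁅v, u⁆, u⁆, u⁆, v⁆, u⁆ = 1) :
    ∀ a ∈ S.LL, ∀ b ∈ S.LL, ∀ c ∈ S.LL, ∀ d ∈ S.LL, ∀ q ∈ S.LL, t4 a b c d q = 0 := by
  have hs := s4_LL S hexp
  have key : ∀ i a j b k c l d n q, a ∈ S.F i → b ∈ S.F j → c ∈ S.F k → d ∈ S.F l → q ∈ S.F n →
      t4 (S.ado i a) (S.ado j b) (S.ado k c) (S.ado l d) (S.ado n q) = 0 := by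
    intro i a j b k c l d n q ha hb hc hd hq
    have ma := S.ado_mem_LL ha
    have mb := S.ado_mem_LL hb
    have mc := S.ado_mem_LL hc
    have md := S.ado_mem_LL hd
    have mq := S.ado_mem_LL hq
    exact t4_of_e6 (S.five_eq_zero hexp) _ _ _ _ _ (hs _ ma _ mb _ mc _ md)
      (hs _ mq _ ma _ mb _ mc) (hs _ mq _ ma _ mb _ md) (hs _ mq _ ma _ mc _ md)
      (hs _ mq _ mb _ mc _ md) (e6_rel S hlaw hq ha hb hc hd)
  intro a ha b hb c hc d hd q hq
  refine LL_ext S (f := fun a => t4 a b c d q) ?_ ?_ a ha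
  · intro x y; simp only [t4, s3, s2]; noncomm_ring
  intro i a ha
  refine LL_ext S (f := fun b => t4 (S.ado i a) b c d q) ?_ ?_ b hb
  · intro x y; simp only [t4, s3, s2]; noncomm_ring
  intro j b hb
  refine LL_ext S (f := fun c => t4 (S.ado i a) (S.ado j b) c d q) ?_ ?_ c hc
  · intro x y; simp only [t4, s3, s2]; noncomm_ring
  intro k c hc
  refine LL_ext S (f := fun d => t4 (S.ado i a) (S.ado j b) (S.ado k c) d q) ?_ ?_ d hd
  · intro x y; simp only [t4, s3, s2]; noncomm_ring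
  intro l d hd
  refine LL_ext S (f := fun q => t4 (S.ado i a) (S.ado j b) (S.ado k c) (S.ado l d) q) ?_ ?_ q hq
  · intro x y; simp only [t4, s3, s2]; noncomm_ring
  intro n q hq
  exact key i a j b k c l d n q ha hb hc hd hq

theorem t3_LL (hexp : ∀ g : P, g ^ 5 = 1) (hlaw' : ∀ u v : P, ⁅⁅⁅v, u⁆, u⁆, u⁆ = 1)
    (hlaw : ∀ u v : P, ⁅⁅⁅⁅v, u⁆, u⁆, v⁆, u⁆ = 1) :
    ∀ a ∈ S.LL, ∀ b ∈ S.LL, ∀ c ∈ S.LL, ∀ q ∈ S.LL, t3 a b c q = 0 := by
  have hs := s3_LL S hlaw'
  have key : ∀ i a j b k c n q, a ∈ S.F i → b ∈ S.F j → c ∈ S.F k → q ∈ S.F n →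
      t3 (S.ado i a) (S.ado j b) (S.ado k c) (S.ado n q) = 0 := by
    intro i a j b k c n q ha hb hc hq
    have ma := S.ado_mem_LL ha
    have mb := S.ado_mem_LL hb
    have mc := S.ado_mem_LL hc
    exact t3_of_e5 (S.five_eq_zero hexp) _ _ _ _ (hs _ ma _ mb _ mc) (e5_rel S hlaw hq ha hb hc)
  intro a ha b hb c hc q hq
  refine LL_ext S (f := fun a => t3 a b c q) ?_ ?_ a ha
  · intro x y; simp only [t3, s2]; noncomm_ring
  intro i a ha
  refine LL_ext S (f := fun b => t3 (S.ado i a) b c q) ?_ ?_ b hb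
  · intro x y; simp only [t3, s2]; noncomm_ring
  intro j b hb
  refine LL_ext S (f := fun c => t3 (S.ado i a) (S.ado j b) c q) ?_ ?_ c hc
  · intro x y; simp only [t3, s2]; noncomm_ring
  intro k c hc
  refine LL_ext S (f := fun q => t3 (S.ado i a) (S.ado j b) (S.ado k c) q) ?_ ?_ q hq
  · intro x y; simp only [t3, s2]; noncomm_ring
  intro n q hq
  exact key i a j b k c n q ha hb hc hq

end Pool.Agent.Lib.MP_544bd1_al.E5
end
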