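import Mathlib
import Pool.Agent.Lib.MP_544bd1_al.EvD
import Pool.Agent.Lib.MP_544bd1_al.E5.Coind

section

/-!
Exponents `2 * m` with `m` odd: two generators suffice.
-/

namespace Pool.Agent.Lib.MP_544bd1_al

open Subgroup

universe u

section finite

variable {F : Type u} [Group F]

theorem pow_eq_one_of_sq {m : ℕ} (hm : Odd m) {x : F} (h1 : x ^ m = 1) (h2 : x ^ 2 = 1) :
    x = 1 :=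
  eq_one_of_coprime_pow (Nat.Coprime.symm (Nat.coprime_two_left.2 hm)) h1 h2

theorem pow_odd_of_pow_pow {m : ℕ} (hm : Odd m) (hexp : ∀ x : F, x ^ (2 * m) = 1) {x : F}
    (h1 : (x ^ m) ^ m = 1) : x ^ m = 1 := by
  apply pow_eq_one_of_sq hm h1
  rw [← pow_mul, mul_comm]; exact hexp x

theorem sq_of_pow_four {m : ℕ} (hm : Odd m) (hexp : ∀ x : F, x ^ (2 * m) = 1) {x : F}
    (h1 : x ^ 4 = 1) : x ^ 2 = 1 := by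
  have h2 : (x ^ 2) ^ m = 1 := by rw [← pow_mul]; exact hexp x
  have h3 : (x ^ 2) ^ 2 = 1 := by rw [← pow_mul]; exact h1
  exact pow_eq_one_of_sq hm h2 h3

theorem mul_comm_of_sq {a b : F} (ha : a ^ 2 = 1) (hb : b ^ 2 = 1) (hab : (a * b) ^ 2 = 1) :
    a * b = b * a := by
  have ha' : a⁻¹ = a := by rw [inv_eq_iff_mul_eq_one, ← pow_two, ha]
  have hb' : b⁻¹ = b := by rw [inv_eq_iff_mul_eq_one, ← pow_two, hb]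
  have hab' : (a * b)⁻¹ = a * b := by rw [inv_eq_iff_mul_eq_one, ← pow_two, hab]
  rw [← hab', mul_inv_rev, ha', hb']

/-- in a finite group of exponent `2 * m` without nontrivial normal subgroups of exponent `m`, a
normal elementary abelian subgroup `M` is self-centralizing in every normal subgroup which is of
exponent `m` modulo `M`. -/
theorem self_centralizing [Finite F] {m : ℕ} (hm : Odd m) (hexp : ∀ x : F, x ^ (2 * m) = 1)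
    (hred : ∀ N : Subgroup F, N.Normal → (∀ x ∈ N, x ^ m = 1) → N = ⊥)
    (M N : Subgroup F) [hMn : M.Normal] [hNn : N.Normal] (hM : ∀ x ∈ M, x ^ 2 = 1) (hMN : M ≤ N)
    (hN : ∀ x ∈ N, x ^ m ∈ M) (c : F) (hc : c ∈ N) (hcM : ∀ x ∈ M, c * x = x * c) : c ∈ M := by
  classical
  -- the centralizer
  let C : Subgroup F := N ⊓ centralizer (M : Set F)
  have hCn : C.Normal := by
    have h1 : (centralizer (M : Set F)).Normal := inferInstance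
    exact inferInstanceAs (N ⊓ centralizer (M : Set F)).Normal
  have hcC : c ∈ C := by
    refine ⟨hc, ?_⟩
    show c ∈ centralizer (M : Set F)
    rw [mem_centralizer_iff]
    intro x hx
    exact (hcM x hx).symm
  have hMC : M ≤ C := by
    intro x hx
    refine ⟨hMN hx, ?_⟩
    show x ∈ centralizer (M : Set F)
    rw [mem_centralizer_iff]
    intro y hy
    exact mul_comm_of_sq (hM y hy) (hM x hx) (hM _ (M.mul_mem hy hx))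
  -- the index of the centre of `C` is odd
  set k := (center C).index with hk
  have hkodd : Odd k := by
    rw [← Nat.not_even_iff_odd, even_iff_two_dvd]
    intro h2
    have hle : M.subgroupOf C ≤ center C := by
      intro x hx
      rw [Subgroup.mem_subgroupOf] at hx
      rw [mem_center_iff]
      intro y
      apply Subtype.ext
      have := (mem_centralizer_iff.1 y.2.2) _ hx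
      exact this.symm
    have h3 : 2 ∣ (M.subgroupOf C).index := h2.trans (Subgroup.index_dvd_of_le hle)
    have hMCn : (M.subgroupOf C).Normal := inferInstance
    have h3' : 2 ∣ Nat.card (C ⧸ M.subgroupOf C) := by
      rwa [← Subgroup.index_eq_card]
    obtain ⟨x, hx⟩ := exists_prime_orderOf_dvd_card' (G := C ⧸ M.subgroupOf C) 2 h3'
    have hx1 : x ^ 2 = 1 := by rw [← hx]; exact pow_orderOf_eq_one x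
    have hx2 : x ^ m = 1 := by
      induction x using QuotientGroup.induction_on with
      | H x =>
        rw [← QuotientGroup.mk_pow, QuotientGroup.eq_one_iff, Subgroup.mem_subgroupOf]
        exact hN x x.2.1
    have hx3 : x = 1 := pow_eq_one_of_sq hm hx2 hx1
    rw [hx3, orderOf_one] at hx
    omega
  have hpow : ∀ x y : C, (x * y) ^ k = x ^ k * y ^ k := by
    intro x y
    have h1 := congrArg (fun z : center C => (z : C)) (map_mul (MonoidHom.transferCenterPow C) x y)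
    simp only [Subgroup.coe_mul, MonoidHom.transferCenterPow_apply] at h1
    exact h1
  -- elements of odd order of `C` with `x ^ k = 1`
  let K : Subgroup F :=
    { carrier := {x | ∃ h : x ∈ C, (⟨x, h⟩ : C) ^ k = 1}
      one_mem' := ⟨C.one_mem, one_pow _⟩
      mul_mem' := by
        rintro x y ⟨hx, hx'⟩ ⟨hy, hy'⟩
        refine ⟨C.mul_mem hx hy, ?_⟩
        have := hpow ⟨x, hx⟩ ⟨y, hy⟩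
        rw [hx', hy', one_mul] at this
        exact this
      inv_mem' := by
        rintro x ⟨hx, hx'⟩
        refine ⟨C.inv_mem hx, ?_⟩
        have h2 : (⟨x⁻¹, C.inv_mem hx⟩ : C) = (⟨x, hx⟩ : C)⁻¹ := rfl
        rw [h2, inv_pow, hx', inv_one] }
  have hKn : K.Normal := by
    constructor
    rintro x ⟨hx, hx'⟩ g
    refine ⟨hCn.conj_mem x hx g, ?_⟩
    apply Subtype.ext
    have h1 : x ^ k = 1 := congrArg Subtype.val hx'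
    show (g * x * g⁻¹) ^ k = 1
    rw [conj_pow, h1]; simp
  have hKm : ∀ x ∈ K, x ^ m = 1 := by
    rintro x ⟨hx, hx'⟩
    have h1 : x ^ k = 1 := congrArg Subtype.val hx'
    have h2 : (x ^ m) ^ k = 1 := by rw [← pow_mul, mul_comm, pow_mul, h1, one_pow]
    have h3 : (x ^ m) ^ 2 = 1 := by rw [← pow_mul, mul_comm]; exact hexp x
    exact pow_eq_one_of_sq hkodd h2 h3
  have hKbot := hred K hKn hKm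
  have hK1 : ∀ x : C, x ^ k = 1 → x = 1 := by
    intro x hx
    have : (x : F) ∈ K := ⟨x.2, hx⟩
    rw [hKbot, mem_bot] at this
    exact Subtype.ext this
  have hcomm : ∀ x ∈ C, ∀ y ∈ C, x * y = y * x := by
    intro x hx y hy
    let x' : C := ⟨x, hx⟩
    let y' : C := ⟨y, hy⟩
    have h1 : (x' * y' * x'⁻¹ * y'⁻¹) ^ k = 1 := by
      have hc1 : (x' * y' * x'⁻¹ * y'⁻¹) ^ k = (x' ^ k * y' ^ k * (x'⁻¹) ^ k) * (y'⁻¹) ^ k := by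
        rw [hpow, hpow, hpow]
      rw [hc1, inv_pow, inv_pow]
      have hcen : ∀ z : C, z ^ k ∈ center C := by
        intro z
        have := (MonoidHom.transferCenterPow C z).2
        rwa [MonoidHom.transferCenterPow_apply] at this
      have h5 := (mem_center_iff.1 (hcen y')) (x' ^ k)
      rw [h5]
      group
    have h2 := hK1 _ h1
    have h3 : x' * y' = y' * x' := by
      calc x' * y' = (x' * y' * x'⁻¹ * y'⁻¹) * (y' * x') := by group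
        _ = y' * x' := by rw [h2, one_mul]
    exact congrArg Subtype.val h3
  -- the elements of `C` of exponent `m`
  let O : Subgroup F :=
    { carrier := {x | x ∈ C ∧ x ^ m = 1}
      one_mem' := ⟨C.one_mem, one_pow _⟩
      mul_mem' := by
        rintro x y ⟨hx, hx'⟩ ⟨hy, hy'⟩
        refine ⟨C.mul_mem hx hy, ?_⟩
        rw [(show Commute x y from hcomm x hx y hy).mul_pow, hx', hy', one_mul]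
      inv_mem' := by
        rintro x ⟨hx, hx'⟩
        exact ⟨C.inv_mem hx, by rw [inv_pow, hx', inv_one]⟩ }
  have hOn : O.Normal := by
    constructor
    rintro x ⟨hx, hx'⟩ g
    refine ⟨hCn.conj_mem x hx g, ?_⟩
    rw [conj_pow, hx']; simp
  have hObot := hred O hOn (fun x hx => hx.2)
  have h1 : c ^ 2 ∈ O := ⟨C.pow_mem hcC 2, by rw [← pow_mul]; exact hexp c⟩
  rw [hObot, mem_bot] at h1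
  obtain ⟨j, hj⟩ := hm
  have h2 : c ^ m = c := by rw [hj, pow_succ, pow_mul, h1, one_pow, one_mul]
  rw [← h2]
  exact hN c hc

/-- a maximal normal subgroup of exponent `m` -/
theorem exists_odd_radical [Finite F] {m : ℕ} (hm : Odd m) (hexp : ∀ x : F, x ^ (2 * m) = 1) :
    ∃ N : Subgroup F, ∃ _ : N.Normal, (∀ x ∈ N, x ^ m = 1) ∧
      ∀ K : Subgroup (F ⧸ N), K.Normal → (∀ x ∈ K, x ^ m = 1) → K = ⊥ := by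
  classical
  let s : Set (Subgroup F) := {N | N.Normal ∧ ∀ x ∈ N, x ^ m = 1}
  have hs : s.Nonempty := ⟨⊥, inferInstance, fun x hx => by rw [mem_bot.1 hx, one_pow]⟩
  obtain ⟨N, hN⟩ := (Set.toFinite s).exists_maximal hs
  have hNn : N.Normal := hN.prop.1
  refine ⟨N, hNn, hN.prop.2, ?_⟩
  intro K hK hKm
  have h1 : K.comap (QuotientGroup.mk' N) ∈ s := by
    refine ⟨hK.comap _, ?_⟩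
    intro x hx
    have h2 := hKm _ hx
    rw [← map_pow, QuotientGroup.mk'_apply, QuotientGroup.eq_one_iff] at h2
    exact pow_odd_of_pow_pow hm hexp (hN.prop.2 _ h2)
  have h2 : N ≤ K.comap (QuotientGroup.mk' N) := by
    intro x hx
    rw [Subgroup.mem_comap, QuotientGroup.mk'_apply, (QuotientGroup.eq_one_iff x).2 hx]
    exact K.one_mem
  have h3 : K.comap (QuotientGroup.mk' N) = N := le_antisymm (hN.le_of_ge h1 h2) h2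
  rw [← Subgroup.map_comap_eq_self_of_surjective (QuotientGroup.mk'_surjective N) K, h3,
    QuotientGroup.map_mk'_self]

/-- in reduced solvable groups of exponent `2 * m` the involutions commute -/
theorem invol_aux {m : ℕ} (hm : Odd m) (n : ℕ) : ∀ (F : Type u) [Group F] [Finite F],
    Nat.card F ≤ n → Group.IsSolvable F → (∀ x : F, x ^ (2 * m) = 1) →
    ∃ N : Subgroup F, N.Normal ∧ (∀ x ∈ N, x ^ m = 1) ∧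
      ∀ r s : F, r ^ 2 = 1 → s ^ 2 = 1 → (r * s) ^ 2 ∈ N := by
  induction n with
  | zero =>
    intro F _ _ hF
    have : 0 < Nat.card F := Nat.card_pos
    omega
  | succ n ih =>
    intro F _ _ hF hsol hexp
    have hquot : ∀ M : Subgroup F, M.Normal → M ≠ ⊥ →
        ∃ N : Subgroup F, N.Normal ∧ M ≤ N ∧ (∀ x ∈ N, x ^ m ∈ M) ∧
          ∀ r s : F, r ^ 2 = 1 → s ^ 2 = 1 → (r * s) ^ 2 ∈ N := by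
      intro M hMn hM
      have hcard : Nat.card (F ⧸ M) ≤ n := by
        have h1 := Subgroup.card_eq_card_quotient_mul_card_subgroup M
        have h2 : 1 < Nat.card M := by
          rw [Subgroup.one_lt_card_iff_ne_bot]; exact hM
        have h3 : 0 < Nat.card (F ⧸ M) := Nat.card_pos
        nlinarith
      have hs := QuotientGroup.mk'_surjective M
      obtain ⟨N, hN1, hN2, hN3⟩ := ih (F ⧸ M) hcard (Group.isSolvable_of_surjective hs) (by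
        intro x
        obtain ⟨z, rfl⟩ := hs x
        rw [← map_pow, hexp, map_one])
      refine ⟨N.comap (QuotientGroup.mk' M), hN1.comap _, ?_, ?_, ?_⟩
      · intro x hx
        rw [Subgroup.mem_comap, QuotientGroup.mk'_apply, (QuotientGroup.eq_one_iff x).2 hx]
        exact N.one_mem
      · intro x hx
        have h2 := hN2 _ hx
        rwa [← map_pow, QuotientGroup.mk'_apply, QuotientGroup.eq_one_iff] at h2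
      · intro r s hr hs
        rw [Subgroup.mem_comap, map_pow, map_mul]
        exact hN3 _ _ (by rw [← map_pow, hr, map_one]) (by rw [← map_pow, hs, map_one])
    by_cases hred : ∀ N : Subgroup F, N.Normal → (∀ x ∈ N, x ^ m = 1) → N = ⊥
    · -- reduced case
      rcases subsingleton_or_nontrivial F with hsub | hnt
      · exact ⟨⊥, inferInstance, fun x hx => by rw [mem_bot.1 hx, one_pow],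
          fun r s _ _ => mem_bot.2 (Subsingleton.elim _ _)⟩
      -- a nontrivial abelian normal subgroup
      obtain ⟨M, hMn, hMbot, hMcomm⟩ : ∃ M : Subgroup F, M.Normal ∧ M ≠ ⊥ ∧
          ∀ x ∈ M, ∀ y ∈ M, x * y = y * x := by
        obtain ⟨k, hk⟩ := hsol
        have hex : ∃ k, derivedSeries F k = ⊥ := ⟨k, hk⟩
        classical
        have hmin := Nat.find_spec hex
        rcases hj : Nat.find hex with _ | j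
        · rw [hj, derivedSeries_zero] at hmin
          exact absurd hmin top_ne_bot
        · rw [hj] at hmin
          have hlt : j < Nat.find hex := by omega
          refine ⟨derivedSeries F j, derivedSeries_normal F j, Nat.find_min hex hlt, ?_⟩
          intro x hx y hy
          have h1 := Subgroup.commutator_mem_commutator hx hy
          rw [← derivedSeries_succ, hmin, mem_bot, commutatorElement_eq_one_iff_mul_comm] at h1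
          exact h1
      have hM2 : ∀ x ∈ M, x ^ 2 = 1 := by
        let O : Subgroup F :=
          { carrier := {x | x ∈ M ∧ x ^ m = 1}
            one_mem' := ⟨M.one_mem, one_pow _⟩
            mul_mem' := by
              rintro x y ⟨hx, hx'⟩ ⟨hy, hy'⟩
              refine ⟨M.mul_mem hx hy, ?_⟩
              rw [(show Commute x y from hMcomm x hx y hy).mul_pow, hx', hy', one_mul]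
            inv_mem' := by
              rintro x ⟨hx, hx'⟩
              exact ⟨M.inv_mem hx, by rw [inv_pow, hx', inv_one]⟩ }
        have hOn : O.Normal := by
          constructor
          rintro x ⟨hx, hx'⟩ g
          refine ⟨hMn.conj_mem x hx g, ?_⟩
          rw [conj_pow, hx']; simp
        have hObot := hred O hOn (fun x hx => hx.2)
        intro x hx
        have h1 : x ^ 2 ∈ O := ⟨M.pow_mem hx 2, by rw [← pow_mul]; exact hexp x⟩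
        rwa [hObot, mem_bot] at h1
      obtain ⟨N, hNn, hMN, hNm, hN⟩ := hquot M hMn hMbot
      -- involutions centralize `M`
      have hinv : ∀ r : F, r ^ 2 = 1 → ∀ t ∈ M, r * t = t * r := by
        intro r hr t ht
        have hr' : r⁻¹ = r := by rw [inv_eq_iff_mul_eq_one, ← pow_two, hr]
        have h1 : (r * t) ^ 2 ∈ M := by
          have : (r * t) ^ 2 = (r * t * r⁻¹) * t := by rw [hr', pow_two]; group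
          rw [this]
          exact M.mul_mem (hMn.conj_mem t ht r) ht
        have h2 : (r * t) ^ 4 = 1 := by
          have := hM2 _ h1
          rwa [← pow_mul] at this
        exact mul_comm_of_sq hr (hM2 t ht) (sq_of_pow_four hm hexp h2)
      refine ⟨⊥, inferInstance, fun x hx => by rw [mem_bot.1 hx, one_pow], ?_⟩
      intro r s hr hs
      rw [mem_bot]
      set y := (r * s) ^ 2 with hy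
      have hyN : y ∈ N := hN r s hr hs
      have hr' : r⁻¹ = r := by rw [inv_eq_iff_mul_eq_one, ← pow_two, hr]
      have hs' : s⁻¹ = s := by rw [inv_eq_iff_mul_eq_one, ← pow_two, hs]
      have hryr : r * y * r⁻¹ = y⁻¹ := by
        rw [hy, ← conj_pow]
        have h1 : r * (r * s) * r⁻¹ = (r * s)⁻¹ := by
          rw [mul_inv_rev, hs', ← mul_assoc, ← pow_two, hr, one_mul]
        rw [h1, inv_pow]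
      have hc : r * y * r⁻¹ * y⁻¹ ∈ M := by
        apply self_centralizing hm hexp hred M N hM2 hMN hNm
        · exact N.mul_mem (hNn.conj_mem y hyN r) (N.inv_mem hyN)
        · intro t ht
          have hrc : r * y * r⁻¹ * y⁻¹ = r * (y * r * y⁻¹)⁻¹ := by group
          have hu2 : (y * r * y⁻¹) ^ 2 = 1 := by rw [conj_pow, hr]; simp
          have hu : ∀ t ∈ M, (y * r * y⁻¹)⁻¹ * t = t * (y * r * y⁻¹)⁻¹ := by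
            intro t ht
            have hinv' : (y * r * y⁻¹)⁻¹ = y * r * y⁻¹ := by
              rw [inv_eq_iff_mul_eq_one, ← pow_two, hu2]
            rw [hinv']
            exact hinv _ hu2 t ht
          rw [hrc, mul_assoc, hu t ht, ← mul_assoc, hinv r hr t ht, mul_assoc]
      rw [hryr] at hc
      have h4 : y ^ 4 = 1 := by
        have h5 := hM2 _ hc
        have h6 : (y⁻¹ * y⁻¹) ^ 2 = (y ^ 4)⁻¹ := by group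
        rw [h6, inv_eq_one] at h5
        exact h5
      have h7 : y ^ m = 1 := by rw [hy, ← pow_mul]; exact hexp _
      exact pow_eq_one_of_sq hm h7 (sq_of_pow_four hm hexp h4)
    · push Not at hred
      obtain ⟨M, hMn, hMm, hMbot⟩ := hred
      obtain ⟨N, hN1, hN2, hN3, hN4⟩ := hquot M hMn hMbot
      refine ⟨N, hN1, ?_, hN4⟩
      intro x hx
      exact pow_odd_of_pow_pow hm hexp (hMm _ (hN3 x hx))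

theorem invol_commute [Finite F] {m : ℕ} (hm : Odd m) (hsol : Group.IsSolvable F)
    (hexp : ∀ x : F, x ^ (2 * m) = 1)
    (hred : ∀ N : Subgroup F, N.Normal → (∀ x ∈ N, x ^ m = 1) → N = ⊥)
    {r s : F} (hr : r ^ 2 = 1) (hs : s ^ 2 = 1) : (r * s) ^ 2 = 1 := by
  obtain ⟨N, hN1, hN2, hN3⟩ := invol_aux hm (Nat.card F) F le_rfl hsol hexp
  have h1 := hN3 r s hr hs
  rwa [hred N hN1 hN2, mem_bot] at h1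

/-- transitivity in finite groups -/
theorem trans_finite [Finite F] {m : ℕ} (hm : Odd m) (hsol : Group.IsSolvable F)
    (hexp : ∀ x : F, x ^ (2 * m) = 1) {r s t : F} (hr : r ^ 2 = 1) (hs : s ^ 2 = 1)
    (ht : t ^ 2 = 1) (hrt : (r * t) ^ m = 1) (hts : (t * s) ^ m = 1) : (r * s) ^ m = 1 := by
  obtain ⟨N, hN1, hN2, hN3⟩ := invol_aux hm (Nat.card F) F le_rfl hsol hexp
  have key : ∀ a b : F, a ^ 2 = 1 → b ^ 2 = 1 → (a * b) ^ m = 1 → a * b ∈ N := by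
    intro a b ha hb hab
    have h1 := hN3 a b ha hb
    rw [← QuotientGroup.eq_one_iff]
    apply pow_eq_one_of_sq hm
    · rw [← QuotientGroup.mk_pow, hab]; rfl
    · rw [← QuotientGroup.mk_pow, QuotientGroup.eq_one_iff]; exact h1
  have h1 := N.mul_mem (key r t hr ht hrt) (key t s ht hs hts)
  have h2 : r * t * (t * s) = r * s := by
    have : r * t * (t * s) = r * t ^ 2 * s := by rw [pow_two]; group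
    rw [this, ht, mul_one]
  rw [h2] at h1
  exact hN2 _ h1

/-- an element of odd order which centralizes all involutions modulo elements of odd order is
absorbing -/
theorem absorb_finite [Finite F] {m : ℕ} (hm : Odd m) (hsol : Group.IsSolvable F)
    (hexp : ∀ x : F, x ^ (2 * m) = 1) {y h : F} (hy : y ^ m = 1)
    (hye : ∀ e : F, e ^ 2 = 1 → (e * (y⁻¹ * e * y)) ^ m = 1) (hh : h ^ m = 1) :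
    (y * h) ^ m = 1 := by
  obtain ⟨N, hN1, hN2, hred⟩ := exists_odd_radical hm hexp
  have hs := QuotientGroup.mk'_surjective N
  have hexp' : ∀ x : F ⧸ N, x ^ (2 * m) = 1 := by
    intro x
    obtain ⟨z, rfl⟩ := hs x
    rw [← map_pow, hexp, map_one]
  have hcomm : ∀ r s : F ⧸ N, r ^ 2 = 1 → s ^ 2 = 1 → (r * s) ^ 2 = 1 :=
    fun r s hr hs' => invol_commute hm (Group.isSolvable_of_surjective hs) hexp' hred hr hs'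
  -- the subgroup of involutions
  let E : Subgroup (F ⧸ N) :=
    { carrier := {x | x ^ 2 = 1}
      one_mem' := one_pow _
      mul_mem' := fun {a b} ha hb => hcomm a b ha hb
      inv_mem' := by
        intro a ha
        show a⁻¹ ^ 2 = 1
        have : a ^ 2 = 1 := ha
        rw [inv_pow, this, inv_one] }
  have hEn : E.Normal := by
    constructor
    intro x hx g
    show (g * x * g⁻¹) ^ 2 = 1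
    have : x ^ 2 = 1 := hx
    rw [conj_pow, this]; simp
  have hyE : (QuotientGroup.mk y : F ⧸ N) ∈ E := by
    have htn : (⊤ : Subgroup (F ⧸ N)).Normal := inferInstance
    apply self_centralizing hm hexp' hred E ⊤ (fun x hx => hx) le_top
    · intro x _
      show (x ^ m) ^ 2 = 1
      rw [← pow_mul, mul_comm]; exact hexp' x
    · trivial
    · intro x hx
      obtain ⟨z, rfl⟩ := hs x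
      have hx2 : (QuotientGroup.mk' N z) ^ 2 = 1 := hx
      have hzm : (QuotientGroup.mk' N z) = QuotientGroup.mk' N (z ^ m) := by
        obtain ⟨j, hj⟩ := hm
        rw [map_pow, hj, pow_succ, pow_mul, hx2, one_pow, one_mul]
      have he2 : (z ^ m) ^ 2 = 1 := by rw [← pow_mul, mul_comm]; exact hexp z
      have h1 := congrArg (QuotientGroup.mk' N) (hye _ he2)
      rw [map_pow, map_mul, map_mul, map_mul, map_inv, ← hzm, map_one] at h1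
      have h2 : (QuotientGroup.mk' N z * ((QuotientGroup.mk' N y)⁻¹ * QuotientGroup.mk' N z *
          QuotientGroup.mk' N y)) ^ 2 = 1 := by
        apply hcomm _ _ hx2
        have : (QuotientGroup.mk' N y)⁻¹ * QuotientGroup.mk' N z * QuotientGroup.mk' N y =
          (QuotientGroup.mk' N y)⁻¹ * QuotientGroup.mk' N z * ((QuotientGroup.mk' N y)⁻¹)⁻¹ := by
          rw [inv_inv]
        rw [this, conj_pow, hx2]; simp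
      have h3 := pow_eq_one_of_sq hm h1 h2
      have hz' : (QuotientGroup.mk' N z)⁻¹ = QuotientGroup.mk' N z := by
        rw [inv_eq_iff_mul_eq_one, ← pow_two, hx2]
      have h4 : (QuotientGroup.mk' N y)⁻¹ * QuotientGroup.mk' N z * QuotientGroup.mk' N y =
          QuotientGroup.mk' N z := by
        have := inv_eq_of_mul_eq_one_right h3
        rw [← this, hz']
      show QuotientGroup.mk' N y * QuotientGroup.mk' N z = QuotientGroup.mk' N z * QuotientGroup.mk' N y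
      calc QuotientGroup.mk' N y * QuotientGroup.mk' N z
          = QuotientGroup.mk' N y * ((QuotientGroup.mk' N y)⁻¹ * QuotientGroup.mk' N z *
              QuotientGroup.mk' N y) := by rw [h4]
        _ = QuotientGroup.mk' N z * QuotientGroup.mk' N y := by group
  have hy1 : (QuotientGroup.mk y : F ⧸ N) = 1 := by
    apply pow_eq_one_of_sq hm _ hyE
    rw [← QuotientGroup.mk_pow, hy]; rfl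
  apply pow_odd_of_pow_pow hm hexp
  apply hN2
  rw [← QuotientGroup.eq_one_iff, QuotientGroup.mk_pow, QuotientGroup.mk_mul, hy1, one_mul,
    ← QuotientGroup.mk_pow, hh]
  rfl

end finite

section main

variable {G : Type u} [Group G]

/-- three involutions `r, s, t` with `(r * t) ^ m = (t * s) ^ m = 1` generate a finite group -/
theorem finite_three {r s t : G} (hr : r ^ 2 = 1) (hs : s ^ 2 = 1) (ht : t ^ 2 = 1)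
    (hfin : Finite (closure {t * r, t * s})) :
    ∃ F : Subgroup G, Finite F ∧ r ∈ F ∧ s ∈ F ∧ t ∈ F := by
  set H := closure {t * r, t * s} with hH
  have ht1 : t * t = 1 := by rw [← pow_two, ht]
  have hr1 : r * r = 1 := by rw [← pow_two, hr]
  have hs1 : s * s = 1 := by rw [← pow_two, hs]
  have ht' : t⁻¹ = t := inv_eq_of_mul_eq_one_right ht1
  have hr' : r⁻¹ = r := inv_eq_of_mul_eq_one_right hr1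
  have hs' : s⁻¹ = s := inv_eq_of_mul_eq_one_right hs1
  have ha : t * r ∈ H := subset_closure (by simp)
  have hb : t * s ∈ H := subset_closure (by simp)
  have htH : ∀ x ∈ H, t * x * t ∈ H := by
    intro x hx
    rw [hH] at hx
    induction hx using closure_induction with
    | mem x h =>
      rcases h with rfl | rfl
      · have : t * (t * r) * t = (t * r)⁻¹ := by
          rw [mul_inv_rev, ht', hr', ← mul_assoc, ht1, one_mul]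
        rw [this]; exact H.inv_mem ha
      · have : t * (t * s) * t = (t * s)⁻¹ := by
          rw [mul_inv_rev, ht', hs', ← mul_assoc, ht1, one_mul]
        rw [this]; exact H.inv_mem hb
    | one => rw [mul_one, ht1]; exact H.one_mem
    | mul x y _ _ ihx ihy =>
      have : t * (x * y) * t = (t * x * t) * (t * y * t) := by
        calc t * (x * y) * t = t * x * (1 : G) * y * t := by group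
          _ = t * x * (t * t) * y * t := by rw [ht1]
          _ = (t * x * t) * (t * y * t) := by group
      rw [this]; exact H.mul_mem ihx ihy
    | inv x _ ih =>
      have : t * x⁻¹ * t = (t * x * t)⁻¹ := by
        rw [mul_inv_rev, mul_inv_rev, ht', mul_assoc]
      rw [this]; exact H.inv_mem ih
  let F : Subgroup G :=
    { carrier := {x | x ∈ H ∨ t * x ∈ H}
      one_mem' := Or.inl H.one_mem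
      mul_mem' := by
        rintro x y (hx | hx) (hy | hy)
        · left; exact H.mul_mem hx hy
        · right
          have : t * (x * y) = (t * x * t) * (t * y) := by
            calc t * (x * y) = t * x * (1 : G) * y := by group
              _ = t * x * (t * t) * y := by rw [ht1]
              _ = (t * x * t) * (t * y) := by group
          rw [this]; exact H.mul_mem (htH x hx) hy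
        · right
          rw [← mul_assoc]; exact H.mul_mem hx hy
        · left
          have h1 : x * t ∈ H := by
            have h2 := htH _ hx
            have h3 : t * (t * x) * t = x * t := by rw [← mul_assoc, ht1, one_mul]
            rwa [h3] at h2
          have : x * y = (x * t) * (t * y) := by
            calc x * y = x * (1 : G) * y := by group
              _ = x * (t * t) * y := by rw [ht1]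
              _ = (x * t) * (t * y) := by group
          rw [this]; exact H.mul_mem h1 hy
      inv_mem' := by
        rintro x (hx | hx)
        · left; exact H.inv_mem hx
        · right
          have h1 : x⁻¹ * t ∈ H := by
            have := H.inv_mem hx
            rwa [mul_inv_rev, ht'] at this
          have h2 := htH _ h1
          have h3 : t * (x⁻¹ * t) * t = t * x⁻¹ := by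
            rw [mul_assoc, mul_assoc, ht1, mul_one]
          rwa [h3] at h2 }
  refine ⟨F, ?_, Or.inr ha, Or.inr hb, ?_⟩
  · have h1 : (F : Set G) ⊆ (H : Set G) ∪ (fun x => t * x) '' (H : Set G) := by
      rintro x (hx | hx)
      · left; exact hx
      · right
        refine ⟨t * x, hx, ?_⟩
        show t * (t * x) = x
        rw [← mul_assoc, ht1, one_mul]
    have h2 : ((H : Set G) ∪ (fun x => t * x) '' (H : Set G)).Finite :=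
      (Set.toFinite (H : Set G)).union ((Set.toFinite (H : Set G)).image _)
    exact (h2.subset h1).to_subtype
  · right
    show t * t ∈ H
    rw [ht1]; exact H.one_mem

theorem trans_rel {m : ℕ} (hm : Odd m) (hexp : ∀ x : G, x ^ (2 * m) = 1)
    (hsol : ∀ F : Subgroup G, Finite F → Group.IsSolvable F)
    (hfin : ∀ t x y : G, t ^ 2 = 1 → t * x * t = x⁻¹ → x ^ m = 1 → y ^ m = 1 →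
      Finite (closure {x, y}))
    {r s t : G} (hr : r ^ 2 = 1) (hs : s ^ 2 = 1)
    (ht : t ^ 2 = 1) (hrt : (r * t) ^ m = 1) (hts : (t * s) ^ m = 1) : (r * s) ^ m = 1 := by
  have ht1 : t * t = 1 := by rw [← pow_two, ht]
  have hr1 : r * r = 1 := by rw [← pow_two, hr]
  have ht' : t⁻¹ = t := inv_eq_of_mul_eq_one_right ht1
  have hr' : r⁻¹ = r := inv_eq_of_mul_eq_one_right hr1
  have htr : (t * r) ^ m = 1 := by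
    have : t * r = (r * t)⁻¹ := by rw [mul_inv_rev, ht', hr']
    rw [this, inv_pow, hrt, inv_one]
  have htrt : t * (t * r) * t = (t * r)⁻¹ := by
    rw [mul_inv_rev, ht', hr', ← mul_assoc, ht1, one_mul]
  obtain ⟨F, hF, hrF, hsF, htF⟩ := finite_three hr hs ht (hfin _ _ _ ht htrt htr hts)
  have h1 := trans_finite (F := F) hm (hsol F hF) (fun x => Subtype.ext (by simpa using hexp x))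
    (r := ⟨r, hrF⟩) (s := ⟨s, hsF⟩) (t := ⟨t, htF⟩) (Subtype.ext (by simpa using hr))
    (Subtype.ext (by simpa using hs)) (Subtype.ext (by simpa using ht))
    (Subtype.ext (by simpa using hrt)) (Subtype.ext (by simpa using hts))
  simpa using congrArg Subtype.val h1

theorem LF_of_sq (K : Subgroup G) (hK : ∀ x ∈ K, x ^ 2 = 1) : LF K := by
  intro H hHK hfg
  have hfgH : Group.FG H := (Group.fg_iff_subgroup_fg H).2 hfg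
  have hc : ∀ a b : H, a * b = b * a := by
    intro a b
    apply Subtype.ext
    exact mul_comm_of_sq (hK _ (hHK a.2)) (hK _ (hHK b.2)) (hK _ (hHK (H.mul_mem a.2 b.2)))
  let _ : CommGroup H := { (inferInstance : Group H) with mul_comm := hc }
  apply CommGroup.finite_of_fg_isMulTorsion
  intro x
  rw [isOfFinOrder_iff_pow_eq_one]
  exact ⟨2, by norm_num, Subtype.ext (by simpa using hK _ (hHK x.2))⟩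

/-- nontrivial groups of exponent `2 * m` have nontrivial normal locally finite subgroups -/
theorem exists_normal_twice {m : ℕ} (hm : Odd m) (hexp : ∀ x : G, x ^ (2 * m) = 1)
    (hsol : ∀ F : Subgroup G, Finite F → Group.IsSolvable F)
    (hfin : ∀ t x y : G, t ^ 2 = 1 → t * x * t = x⁻¹ → x ^ m = 1 → y ^ m = 1 →
      Finite (closure {x, y}))
    (hL : ∀ K : Subgroup G, (∀ x ∈ K, x ^ m = 1) → LF K) [Nontrivial G] :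
    ∃ K : Subgroup G, K.Normal ∧ K ≠ ⊥ ∧ LF K := by
  by_cases hcomm : ∀ r s : G, r ^ 2 = 1 → s ^ 2 = 1 → (r * s) ^ 2 = 1
  · -- the involutions commute
    let E : Subgroup G :=
      { carrier := {x | x ^ 2 = 1}
        one_mem' := one_pow _
        mul_mem' := fun {a b} ha hb => hcomm a b ha hb
        inv_mem' := by
          intro a ha
          show a⁻¹ ^ 2 = 1
          have : a ^ 2 = 1 := ha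
          rw [inv_pow, this, inv_one] }
    have hEn : E.Normal := by
      constructor
      intro x hx g
      show (g * x * g⁻¹) ^ 2 = 1
      have : x ^ 2 = 1 := hx
      rw [conj_pow, this]; simp
    by_cases hE : E = ⊥
    · refine ⟨⊤, inferInstance, ?_, ?_⟩
      · exact top_ne_bot
      · apply hL
        intro x _
        have h1 : x ^ m ∈ E := by
          show (x ^ m) ^ 2 = 1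
          rw [← pow_mul, mul_comm]; exact hexp x
        rwa [hE, mem_bot] at h1
    · exact ⟨E, hEn, hE, LF_of_sq E (fun x hx => hx)⟩
  · push Not at hcomm
    obtain ⟨r, s, hr, hs, hrs⟩ := hcomm
    have hr1 : r * r = 1 := by rw [← pow_two, hr]
    have hs1 : s * s = 1 := by rw [← pow_two, hs]
    have hr' : r⁻¹ = r := inv_eq_of_mul_eq_one_right hr1
    have hs' : s⁻¹ = s := inv_eq_of_mul_eq_one_right hs1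
    -- conjugation of involutions by involutions
    have hconj : ∀ e w : G, e ^ 2 = 1 → w ^ 2 = 1 → (e * (w * e * w)) ^ m = 1 := by
      intro e w he hw
      have : e * (w * e * w) = (e * w) ^ 2 := by rw [pow_two]; group
      rw [this, ← pow_mul]; exact hexp _
    have hconj2 : ∀ e w : G, e ^ 2 = 1 → w ^ 2 = 1 → (w * e * w) ^ 2 = 1 := by
      intro e w he hw
      have hw' : w⁻¹ = w := inv_eq_of_mul_eq_one_right (by rw [← pow_two, hw])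
      have : w * e * w = w * e * w⁻¹ := by rw [hw']
      rw [this, conj_pow, he]; simp
    set y := (r * s) ^ 2 with hy
    have hym : y ^ m = 1 := by rw [hy, ← pow_mul]; exact hexp _
    have hryr : r * y * r = y⁻¹ := by
      have h1 : y⁻¹ = s * r * s * r := by
        rw [hy, pow_two, mul_inv_rev, mul_inv_rev, hr', hs']; group
      have h2 : r * y * r = (r * r) * s * r * s * r := by rw [hy, pow_two]; group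
      rw [h1, h2, hr1, one_mul]
    set r' := s * r * s with hr'def
    have hr'2 : r' ^ 2 = 1 := hconj2 r s hr hs
    have hyr : y = r * r' := by rw [hy, hr'def, pow_two]; group
    have hye : ∀ e : G, e ^ 2 = 1 → (e * (y⁻¹ * e * y)) ^ m = 1 := by
      intro e he
      have hr'' : r'⁻¹ = r' := inv_eq_of_mul_eq_one_right (by rw [← pow_two, hr'2])
      have h1 : y⁻¹ * e * y = r' * (r * e * r) * r' := by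
        rw [hyr, mul_inv_rev, hr', hr'']; group
      rw [h1]
      have he1 := hconj2 e r he hr
      exact trans_rel hm hexp hsol hfin he (hconj2 _ _ he1 hr'2) he1 (hconj e r he hr)
        (hconj _ _ he1 hr'2)
    obtain ⟨K, hK1, hK2, hK3⟩ := normal_of_absorbing (G := G) (n := 2 * m) (P := m) (by
        obtain ⟨j, hj⟩ := hm; omega) hexp hrs (by
      intro h hh
      have hF := hfin r y h hr hryr hym hh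
      have hyF : y ∈ closure {y, h} := subset_closure (by simp)
      have hhF : h ∈ closure {y, h} := subset_closure (by simp)
      have h1 := absorb_finite (F := closure {y, h}) hm (hsol _ hF)
        (fun x => Subtype.ext (by simpa using hexp x)) (y := ⟨y, hyF⟩) (h := ⟨h, hhF⟩)
        (Subtype.ext (by simpa using hym)) (by
          intro e he
          apply Subtype.ext
          have := hye e (by simpa using congrArg Subtype.val he)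
          simpa using this) (Subtype.ext (by simpa using hh))
      simpa using congrArg Subtype.val h1)
    exact ⟨K, hK1, hK2, hL K hK3⟩

/-- **Two generators suffice for exponents `2 * m`.** -/
theorem twice_LF {m : ℕ} (hm : Odd m) (hexp : ∀ x : G, x ^ (2 * m) = 1)
    (hsol : ∀ (F : Type u) [Group F] [Finite F], (∀ x : F, x ^ (2 * m) = 1) → Group.IsSolvable F)
    (hfin : ∀ t x y : G, t ^ 2 = 1 → t * x * t = x⁻¹ → x ^ m = 1 → y ^ m = 1 →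
      Finite (closure {x, y}))
    (hL : ∀ (G : Type u) [Group G], (∀ g : G, g ^ m = 1) → ∀ S : Finset G,
      Finite (closure (S : Set G))) : LF (⊤ : Subgroup G) := by
  apply LF_of_quotients
  intro N hN hNtop
  have hnt : Nontrivial (G ⧸ N) := by
    by_contra h
    rw [not_nontrivial_iff_subsingleton] at h
    exact hNtop (QuotientGroup.subgroup_eq_top_of_subsingleton N h)
  have hsurj := QuotientGroup.mk'_surjective N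
  have hexpN : ∀ x : G ⧸ N, x ^ (2 * m) = 1 := by
    intro x
    obtain ⟨z, rfl⟩ := hsurj x
    rw [← map_pow, hexp, map_one]
  have hlift : ∀ x : G ⧸ N, x ^ m = 1 → ∃ z : G, QuotientGroup.mk' N z = x ∧ z ^ m = 1 := by
    intro x hx
    obtain ⟨z, rfl⟩ := hsurj x
    obtain ⟨j, hj⟩ := hm
    refine ⟨z ^ (m + 1), ?_, ?_⟩
    · rw [map_pow, pow_succ, hx, one_mul]
    · have h1 : (m + 1) * m = (2 * m) * (j + 1) := by rw [hj]; ring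
      rw [← pow_mul, h1, pow_mul, hexp, one_pow]
  have hlift2 : ∀ x : G ⧸ N, x ^ 2 = 1 → ∃ z : G, QuotientGroup.mk' N z = x ∧ z ^ 2 = 1 := by
    intro x hx
    obtain ⟨z, rfl⟩ := hsurj x
    obtain ⟨j, hj⟩ := hm
    refine ⟨z ^ m, ?_, ?_⟩
    · rw [map_pow, hj, pow_succ, pow_mul, hx, one_pow, one_mul]
    · rw [← pow_mul, mul_comm]; exact hexp z
  -- lift of an inverted element
  have hlift3 : ∀ t x : G ⧸ N, t ^ 2 = 1 → t * x * t = x⁻¹ → x ^ m = 1 →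
      ∃ t' x' : G, t' ^ 2 = 1 ∧ t' * x' * t' = x'⁻¹ ∧ x' ^ m = 1 ∧ QuotientGroup.mk' N x' = x := by
    intro t x ht htx hx
    have htt : t * t = 1 := by rw [← pow_two, ht]
    have hr : (t * x) ^ 2 = 1 := by
      rw [pow_two]
      calc t * x * (t * x) = (t * x * t) * x := by group
        _ = 1 := by rw [htx, inv_mul_cancel]
    obtain ⟨t', ht', ht'2⟩ := hlift2 t ht
    obtain ⟨r', hr', hr'2⟩ := hlift2 (t * x) hr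
    have ht'1 : t' * t' = 1 := by rw [← pow_two, ht'2]
    have ht'i : t'⁻¹ = t' := inv_eq_of_mul_eq_one_right ht'1
    have hr'i : r'⁻¹ = r' := inv_eq_of_mul_eq_one_right (by rw [← pow_two, hr'2])
    have hinv : t' * (t' * r') * t' = (t' * r')⁻¹ := by
      rw [mul_inv_rev, ht'i, hr'i, ← mul_assoc, ht'1, one_mul]
    refine ⟨t', (t' * r') ^ (m + 1), ht'2, ?_, ?_, ?_⟩
    · have h1 : t' * (t' * r') ^ (m + 1) * t' = (t' * (t' * r') * t'⁻¹) ^ (m + 1) := by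
        rw [conj_pow, ht'i]
      rw [h1, ht'i, hinv, inv_pow]
    · obtain ⟨j, hj⟩ := hm
      have h1 : (m + 1) * m = (2 * m) * (j + 1) := by rw [hj]; ring
      rw [← pow_mul, h1, pow_mul, hexp, one_pow]
    · rw [map_pow, map_mul, ht', hr', ← mul_assoc, htt, one_mul, pow_succ, hx, one_mul]
  apply exists_normal_twice hm hexpN
  · intro F hF
    exact hsol F (fun x => Subtype.ext (by simpa using hexpN x))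
  · intro t x y ht htx hx hy
    obtain ⟨t', x', ht', htx', hx', rfl⟩ := hlift3 t x ht htx hx
    obtain ⟨y', rfl, hy'⟩ := hlift y hy
    have h1 := hfin t' x' y' ht' htx' hx' hy'
    have h2 : Finite ((closure {x', y'}).map (QuotientGroup.mk' N)) :=
      Finite.of_surjective _ ((QuotientGroup.mk' N).subgroupMap_surjective (closure {x', y'}))
    rwa [map_closure_pair] at h2
  · intro K hK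
    exact LF_of_exponent hL K hK

end main

end Pool.Agent.Lib.MP_544bd1_al
end

section

/-!
# Table of levels
-/

set_option maxRecDepth 100000

namespace Pool.Agent.Lib.MP_544bd1_al.E5

/-- level (0, 0) -/
noncomputable def tC0_0 : Level where
  words := [[]]
  pos := []
  rowsX := []
  rowsY := []
  rels := []
  certX := []
  certY := []

/-- level (0, 1) -/
noncomputable def tC0_1 : Level where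
  words := []
  pos := []
  rowsX := []
  rowsY := [[[]]]
  rels := [.outer]
  certX := []
  certY := [[[1]]]

/-- level (0, 2) -/
noncomputable def tC0_2 : Level where
  words := []
  pos := []
  rowsX := []
  rowsY := [[],[]]
  rels := []
  certX := []
  certY := [[],[]]

/-- level (0, 3) -/
noncomputable def tC0_3 : Level where
  words := []
  pos := []
  rowsX := []
  rowsY := [[],[],[]]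
  rels := []
  certX := []
  certY := [[],[],[]]

/-- level (0, 4) -/
noncomputable def tC0_4 : Level where
  words := []
  pos := []
  rowsX := []
  rowsY := [[],[],[],[]]
  rels := []
  certX := []
  certY := [[],[],[],[]]

/-- level (0, 5) -/
noncomputable def tC0_5 : Level where
  words := []
  pos := []
  rowsX := []
  rowsY := [[],[],[],[],[]]
  rels := []
  certX := []
  certY := [[],[],[],[],[]]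

/-- level (0, 6) -/
noncomputable def tC0_6 : Level where
  words := []
  pos := []
  rowsX := []
  rowsY := [[],[],[],[],[],[]]
  rels := []
  certX := []
  certY := [[],[],[],[],[],[]]

/-- level (1, 0) -/
noncomputable def tC1_0 : Level where
  words := [[0]]
  pos := [(0,0)]
  rowsX := [[1]]
  rowsY := []
  rels := []
  certX := [[]]
  certY := []

/-- level (1, 1) -/
noncomputable def tC1_1 : Level where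
  words := [[0,1]]
  pos := [(1,0)]
  rowsX := []
  rowsY := [[[1]]]
  rels := []
  certX := []
  certY := [[[]]]

/-- level (1, 2) -/
noncomputable def tC1_2 : Level where
  words := [[0,1,2]]
  pos := [(2,0)]
  rowsX := []
  rowsY := [[[1]],[[1]]]
  rels := [.comm 0 0 1]
  certX := []
  certY := [[[4]],[[]]]

/-- level (1, 3) -/
noncomputable def tC1_3 : Level where
  words := []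
  pos := []
  rowsX := []
  rowsY := [[[]],[[]],[[]]]
  rels := [.comm 0 0 1,.comm 0 0 2,.s4 0 0 [] (.y 0) (.y 1) (.y 2) .X]
  certX := []
  certY := [[[3,3,1]],[[4,3,1]],[[3,4,1]]]

/-- level (1, 4) -/
noncomputable def tC1_4 : Level where
  words := []
  pos := []
  rowsX := []
  rowsY := [[],[],[],[]]
  rels := []
  certX := []
  certY := [[],[],[],[]]

/-- level (1, 5) -/
noncomputable def tC1_5 : Level where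
  words := []
  pos := []
  rowsX := []
  rowsY := [[],[],[],[],[]]
  rels := []
  certX := []
  certY := [[],[],[],[],[]]

/-- level (1, 6) -/
noncomputable def tC1_6 : Level where
  words := []
  pos := []
  rowsX := []
  rowsY := [[],[],[],[],[],[]]
  rels := []
  certX := []
  certY := [[],[],[],[],[],[]]

/-- level (2, 0) -/
noncomputable def tC2_0 : Level where
  words := [[0,0]]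
  pos := [(0,0)]
  rowsX := [[1]]
  rowsY := []
  rels := []
  certX := [[]]
  certY := []

/-- level (2, 1) -/
noncomputable def tC2_1 : Level where
  words := [[0,0,1],[0,1,0]]
  pos := [(1,0),(0,0)]
  rowsX := [[0,1]]
  rowsY := [[[1]]]
  rels := []
  certX := [[]]
  certY := [[[]]]

/-- level (2, 2) -/
noncomputable def tC2_2 : Level where
  words := [[0,0,1,2],[0,1,0,2],[0,2,0,1]]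
  pos := [(2,0),(2,1),(1,1)]
  rowsX := [[4,2,2]]
  rowsY := [[[1],[0,0,1]],[[1],[0,1]]]
  rels := [.comm 0 0 1,.s4 0 0 [] (.y 0) (.y 1) .X .X]
  certX := [[3,4]]
  certY := [[[4],[]],[[],[]]]

/-- level (2, 3) -/
noncomputable def tC2_3 : Level where
  words := [[0,0,1,2,3],[0,1,0,2,3],[0,2,0,1,3],[0,3,0,1,2]]
  pos := [(3,0),(3,1),(3,2),(2,2)]
  rowsX := []
  rowsY := [[[1],[0,0,1],[0,0,0,1]],[[1],[0,1],[0,0,0,1]],[[1],[0,1],[0,0,1]]]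
  rels := [.comm 0 0 1,.comm 1 0 1,.comm 0 0 2,.comm 1 0 2,.comm 1 1 2]
  certX := []
  certY := [[[0,0,4],[0,0,0,4],[0,4]],[[1,0,4],[0,0,0,0,4],[]],[[],[],[]]]

/-- level (2, 4) -/
noncomputable def tC2_4 : Level where
  words := []
  pos := []
  rowsX := []
  rowsY := [[[],[],[],[]],[[],[],[],[]],[[],[],[],[]],[[],[],[],[]]]
  rels := [.comm 0 0 1,.comm 1 0 1,.comm 2 0 1,.comm 0 0 2,.comm 1 0 2,.comm 2 0 2,.comm 0 0 3,.comm 1 0 3,.comm 2 0 3,.comm 1 1 2,.comm 1 1 3,.s4 0 1 [3] (.y 0) (.y 1) (.y 2) .X,.s4 0 1 [2] (.y 0) (.y 1) (.y 3) .X,.s4 0 1 [1] (.y 0) (.y 2) (.y 3) .X,.s4 0 1 [0] (.y 1) (.y 2) (.y 3) .X,.s4 0 0 [] (.y 0) (.y 1) (.b .X (.y 2)) (.b .X (.y 3))]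
  certX := []
  certY := [[[1,0,0,1,0,0,1,0,0,0,0,1,1,1,1],[0,1,1,1,4,1,1,4,1,0,0,2,2,0,1,4],[3,2,3,3,3,4,1,0,0,3,0,2,1,1,1,4],[3,3,2,1,0,0,3,3,4,0,3,1,2,1,1,4]],[[2,0,0,1,0,0,1,0,0,0,0,1,1,1,1],[3,3,3,1,0,1,1,0,1,4,4,2,2,1,0,4],[3,3,3,3,3,4,1,0,0,3,0,2,1,1,1,4],[3,3,3,1,0,0,3,3,4,0,3,1,2,1,1,4]],[[1,0,0,2,0,0,1,0,0,0,0,1,1,1,1],[3,3,3,1,0,1,1,0,1,0,4,2,2,1,0,4],[0,1,1,1,0,1,1,4,1,0,0,2,2,0,1,4],[3,3,2,1,0,1,3,3,4,0,3,1,2,1,1,4]],[[1,0,0,1,0,0,2,0,0,0,0,1,1,1,1],[3,3,3,1,0,1,1,0,1,4,0,2,2,1,0,4],[0,1,1,1,4,1,1,0,1,0,0,2,2,0,1,4],[3,2,3,3,3,4,1,0,1,3,0,2,1,1,1,4]]]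

/-- level (2, 5) -/
noncomputable def tC2_5 : Level where
  words := []
  pos := []
  rowsX := []
  rowsY := [[],[],[],[],[]]
  rels := []
  certX := []
  certY := [[],[],[],[],[]]

/-- level (2, 6) -/
noncomputable def tC2_6 : Level where
  words := []
  pos := []
  rowsX := []
  rowsY := [[],[],[],[],[],[]]
  rels := []
  certX := []
  certY := [[],[],[],[],[],[]]

/-- level (3, 0) -/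
noncomputable def tC3_0 : Level where
  words := [[0,0,0]]
  pos := [(0,0)]
  rowsX := [[1]]
  rowsY := []
  rels := []
  certX := [[]]
  certY := []

/-- level (3, 1) -/
noncomputable def tC3_1 : Level where
  words := [[0,0,0,1],[0,0,1,0]]
  pos := [(1,0),(0,0)]
  rowsX := [[0,1],[4,4]]
  rowsY := [[[1]]]
  rels := [.s4 0 0 [] (.y 0) .X .X .X]
  certX := [[],[1]]
  certY := [[[]]]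

/-- level (3, 2) -/
noncomputable def tC3_2 : Level where
  words := [[0,0,0,1,2],[0,0,1,0,2],[0,0,2,0,1],[0,0,1,2,0],[0,1,0,2,0],[0,2,0,1,0]]
  pos := [(2,0),(2,1),(1,1),(0,0),(0,1),(0,2)]
  rowsX := [[0,0,0,1],[0,0,0,0,1],[0,0,0,0,0,1]]
  rowsY := [[[1],[0,0,1]],[[1],[0,1]]]
  rels := [.comm 0 0 1]
  certX := [[],[],[]]
  certY := [[[4],[]],[[],[]]]

/-- level (3, 3) -/
noncomputable def tC3_3 : Level where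
  words := [[0,0,0,1,2,3],[0,0,1,0,2,3],[0,0,2,0,1,3],[0,0,3,0,1,2],[0,0,1,2,0,3],[0,0,1,3,0,2],[0,0,2,3,0,1],[0,1,0,2,0,3],[0,1,0,3,0,2],[0,2,0,1,0,3],[0,1,0,2,3,0]]
  pos := [(3,0),(3,1),(3,2),(2,2),(3,3),(2,3),(1,3),(3,4),(2,4),(3,5),(0,1)]
  rowsX := [[4,3,3,3,3,3,3],[0,0,0,0,0,0,0,0,0,0,1],[2,3,1,0,1,4,4,3,2,1,1],[0,2,1,2,2,4,4,0,1,4,1]]
  rowsY := [[[1],[0,0,1],[0,0,0,1],[0,0,0,0,0,0,1],[3,3,3,0,4,1,1,3,4,3],[2,0,3,1,0,3,1,3,2,2]],[[1],[0,1],[0,0,0,1],[0,0,0,0,0,1],[0,0,0,0,0,0,0,0,1],[3,4,1,1,3,3,0,3,3,4]],[[1],[0,1],[0,0,1],[0,0,0,0,1],[0,0,0,0,0,0,0,1],[0,0,0,0,0,0,0,0,0,1]]]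
  rels := [.comm 0 0 1,.comm 1 0 1,.comm 0 0 2,.comm 1 0 2,.comm 1 1 2,.s4 0 1 [2] (.y 0) (.y 1) .X .X,.s4 0 1 [1] (.y 0) (.y 2) .X .X,.s4 0 1 [0] (.y 1) (.y 2) .X .X,.s4 0 0 [] (.y 0) .X (.b .X (.y 1)) (.b .X (.y 2)),.s4 0 0 [] (.y 1) .X (.b .X (.y 0)) (.b .X (.y 2)),.s4 0 0 [] (.y 2) .X (.b .X (.y 0)) (.b .X (.y 1))]
  certX := [[3,1,4,1,1,2,2,2],[],[0,2,4,1,3,0,3,0,2,3,4],[1,0,0,1,2,0,2,3,0,3,2]]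
  certY := [[[0,0,4],[0,0,0,4],[0,4],[],[2,0,1,3,3,0,1,1,0,0,1],[4,0,0,2,3,2,1,0,4,3,2]],[[1,0,4],[0,0,0,0,4],[],[],[],[0,4,2,4,3,2,2,3,3,4,4]],[[],[],[],[],[],[]]]

/-- level (3, 4) -/
noncomputable def tC3_4 : Level where
  words := [[0,0,1,2,0,3,4]]
  pos := [(4,4)]
  rowsX := []
  rowsY := [[[],[],[],[],[1],[1],[1],[1],[1],[1],[4]],[[],[],[],[],[1],[1],[1],[1],[1],[1],[4]],[[],[],[],[],[1],[1],[1],[1],[1],[1],[4]],[[],[],[],[],[1],[1],[1],[1],[1],[1],[4]]]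
  rels := [.comm 0 0 1,.comm 1 0 1,.comm 2 0 1,.comm 3 0 1,.comm 4 0 1,.comm 5 0 1,.comm 0 0 2,.comm 1 0 2,.comm 2 0 2,.comm 3 0 2,.comm 4 0 2,.comm 5 0 2,.comm 0 0 3,.comm 1 0 3,.comm 2 0 3,.comm 3 0 3,.comm 4 0 3,.comm 5 0 3,.comm 1 1 2,.comm 3 1 2,.comm 4 1 2,.comm 5 1 2,.comm 1 1 3,.comm 3 1 3,.comm 4 1 3,.comm 5 1 3,.comm 3 2 3,.comm 4 2 3,.comm 5 2 3,.s4 0 1 [2,3] (.y 0) (.y 1) .X .X,.s4 0 1 [1,3] (.y 0) (.y 2) .X .X,.s4 0 1 [1,2] (.y 0) (.y 3) .X .X,.s4 0 1 [0,3] (.y 1) (.y 2) .X .X,.s4 0 1 [0,2] (.y 1) (.y 3) .X .X,.s4 0 1 [0,1] (.y 2) (.y 3) .X .X,.s4 0 2 [3] (.y 0) (.y 1) (.y 2) .X,.s4 0 2 [2] (.y 0) (.y 1) (.y 3) .X,.s4 0 2 [1] (.y 0) (.y 2) (.y 3) .X,.s4 0 2 [0] (.y 1) (.y 2) (.y 3) .X,.s4 0 0 [] (.y 0) (.b .X (.y 1)) (.b .X (.y 2)) (.b .X (.y 3)),.s4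 0 0 [] (.y 1) (.b .X (.y 0)) (.b .X (.y 2)) (.b .X (.y 3)),.s4 0 0 [] (.y 2) (.b .X (.y 0)) (.b .X (.y 1)) (.b .X (.y 3)),.s4 0 0 [] (.y 3) (.b .X (.y 0)) (.b .X (.y 1)) (.b .X (.y 2))]
  certX := []
  certY := [[[1,0,0,0,0,0,1,0,0,0,0,0,1,0,0,0,0,0,0,0,0,0,0,0,0,0,0,0,0,0,0,0,0,0,0,1,1,1,1],[4,1,1,4,2,2,2,3,2,0,0,0,2,3,2,0,0,0,2,1,3,3,2,1,3,3,0,0,0,4,0,0,4,4,0,2,2,2,2,4,0,4,4],[2,3,2,0,0,0,4,1,1,4,2,2,2,2,3,0,0,0,1,4,2,2,2,0,0,0,1,3,3,0,4,0,4,0,4,2,2,2,2,4,4,0,4],[2,2,3,0,0,0,2,2,3,0,0,0,4,1,1,4,2,2,2,0,0,0,1,4,2,2,4,2,2,0,0,4,0,4,4,2,2,2,2,4,4,4],[0,1,0,0,4,3,4,3,3,0,3,1,0,0,1,2,4,3,2,0,4,3,4,0,1,4,2,2,1,1,0,0,4,0,0,0,1,0,4,2,0,3],[0,0,1,0,3,4,0,0,1,2,4,3,4,3,3,0,3,1,4,0,1,4,2,0,4,3,2,3,4,1,0,0,0,4,0,1,0,0,4,2,0,0,3],[1,3,3,2,0,0,4,2,4,0,2,2,4,2,4,0,2,2,2,0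,2,2,2,0,2,2,2,0,0,1,0,0,0,0,4,1,1,4,4,2,2,3,3],[0,1,2,2,4,4,3,3,3,4,2,3,3,0,1,0,1,3,2,1,2,1,2,3,0,4,3,0,2,0,0,0,3,4,0,0,1,0,4,1,0,2,4],[0,2,1,2,4,4,3,0,1,0,1,3,3,3,3,4,2,3,2,3,0,4,2,1,2,1,1,0,3,0,0,0,4,3,0,1,0,0,4,1,0,4,2],[4,1,0,4,3,0,4,3,0,2,3,2,3,0,1,0,4,0,4,4,1,0,2,1,4,0,0,1,1,1,4,0,3,0,4,0,1,0,4,1,4,3,4],[0,2,2,4,2,2,0,2,3,3,3,4,0,2,3,3,3,4,0,0,4,0,0,0,4,0,3,0,0,1,4,4,2,2,3,3,3,3,3,4,0,3,3]],[[2,0,0,0,0,0,1,0,0,0,0,0,1,0,0,0,0,0,0,0,0,0,0,0,0,0,0,0,0,0,0,0,0,0,0,1,1,1,1],[2,2,2,1,3,3,2,2,2,1,3,3,2,2,2,1,3,3,3,0,0,0,3,0,0,0,0,0,0,4,4,4,0,0,0,2,2,2,2,0,4,4,4],[2,4,2,0,0,0,4,1,1,4,2,2,2,2,3,0,0,0,1,4,2,2,2,0,0,0,1,3,3,0,4,0,4,0,4,2,2,2,2,4,4,0,4],[2,2,4,0,0,0,2,2,3,0,0,0,4,1,1,4,2,2,2,0,0,0,1,4,2,2,4,2,2,0,0,4,0,4,4,2,2,2,2,4,4,4],[1,3,2,0,1,2,4,2,3,0,4,3,0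,4,1,0,1,4,3,0,3,1,0,2,4,3,2,1,2,1,4,0,0,0,0,0,1,4,0,0,2,3],[1,2,3,0,2,1,0,4,1,0,1,4,4,2,3,0,4,3,0,2,4,3,3,0,3,1,2,4,3,1,0,4,0,0,0,1,0,4,0,0,2,0,3],[1,3,3,3,0,0,4,2,4,0,2,2,4,2,4,0,2,2,2,0,2,2,2,0,2,2,2,0,0,1,0,0,0,0,4,1,1,4,4,2,2,3,3],[4,3,0,3,1,1,3,2,3,1,2,1,3,2,1,3,0,4,3,4,2,3,0,0,1,3,3,2,0,0,3,4,0,0,0,0,1,4,0,0,1,2,4],[4,0,3,3,1,1,3,2,1,3,0,4,3,2,3,1,2,1,0,0,1,3,3,4,2,3,1,3,0,0,4,3,0,0,0,1,0,4,0,0,1,4,2],[4,3,0,1,2,0,4,4,0,4,1,0,3,2,1,1,4,0,3,2,3,2,0,0,4,0,0,1,1,1,3,0,4,0,4,0,1,4,0,4,1,3,4],[0,0,0,1,3,3,0,0,3,0,4,0,0,0,3,0,4,0,2,3,3,4,2,3,3,4,3,0,0,1,2,2,4,4,3,3,3,3,3,0,4,3,3]],[[1,0,0,0,0,0,2,0,0,0,0,0,1,0,0,0,0,0,0,0,0,0,0,0,0,0,0,0,0,0,0,0,0,0,0,1,1,1,1],[2,2,2,1,3,3,2,2,2,1,3,3,2,2,2,1,3,3,4,0,0,0,3,0,0,0,0,0,0,4,4,4,0,0,0,2,2,2,2,0,4,4,4],[4,1,1,4,2,2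,2,4,2,0,0,0,2,3,2,0,0,0,2,1,3,3,2,1,3,3,0,0,0,4,0,0,4,4,0,2,2,2,2,4,0,4,4],[2,2,3,0,0,0,2,2,4,0,0,0,4,1,1,4,2,2,2,0,0,0,1,4,2,2,4,2,2,0,0,4,0,4,4,2,2,2,2,4,4,4],[0,0,0,0,0,0,0,0,0,0,0,0,0,0,0,0,0,0,0,0,0,0,0,0,0,0,4],[1,2,3,0,2,1,0,4,1,0,1,4,4,2,3,0,4,3,0,3,4,3,3,0,3,1,2,4,3,1,0,4,0,0,0,1,0,4,0,0,2,0,3],[0,0,1,0,3,4,0,0,1,3,4,3,4,3,3,0,3,1,4,0,1,4,2,0,4,3,2,3,4,1,0,0,0,4,0,1,0,0,4,2,0,0,3],[4,0,0,1,3,3,3,0,3,3,0,4,3,0,3,3,0,4,0,1,1,3,0,1,1,3,2,2,0,4,4,4,0,0,0,0,0,0,0,0,4,4,4],[4,0,3,3,1,1,3,2,1,3,0,4,3,2,3,1,2,1,0,0,2,3,3,4,2,3,1,3,0,0,4,3,0,0,0,1,0,4,0,0,1,4,2],[0,2,2,4,2,2,3,0,3,1,1,3,3,0,3,1,1,3,0,3,0,4,0,3,0,4,2,0,2,4,0,0,4,4,0,0,0,0,0,4,0,4,4],[4,2,1,0,3,3,1,3,2,1,4,0,0,4,4,0,4,0,3,2,4,0,2,0,1,2,1,2,2,1,2,2,4,3,4,3,2,4,3,0,1,1,3]],[[1,0,0,0,0,0,1,0,0,0,0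,0,2,0,0,0,0,0,0,0,0,0,0,0,0,0,0,0,0,0,0,0,0,0,0,1,1,1,1],[2,2,2,1,3,3,2,2,2,1,3,3,2,2,2,1,3,3,3,0,0,0,4,0,0,0,0,0,0,4,4,4,0,0,0,2,2,2,2,0,4,4,4],[4,1,1,4,2,2,2,3,2,0,0,0,2,4,2,0,0,0,2,1,3,3,2,1,3,3,0,0,0,4,0,0,4,4,0,2,2,2,2,4,0,4,4],[2,3,2,0,0,0,4,1,1,4,2,2,2,2,4,0,0,0,1,4,2,2,2,0,0,0,1,3,3,0,4,0,4,0,4,2,2,2,2,4,4,0,4],[],[1,3,2,0,1,2,4,2,3,0,4,3,0,4,1,0,1,4,3,0,3,1,0,3,4,3,2,1,2,1,4,0,0,0,0,0,1,4,0,0,2,3],[0,1,0,0,4,3,4,3,3,0,3,1,0,0,1,3,4,3,2,0,4,3,4,0,1,4,2,2,1,1,0,0,4,0,0,0,1,0,4,2,0,3],[4,0,0,1,3,3,3,0,3,3,0,4,3,0,3,3,0,4,0,1,1,3,0,1,1,3,2,3,0,4,4,4,0,0,0,0,0,0,0,0,4,4,4],[4,3,0,3,1,1,3,2,3,1,2,1,3,2,1,3,0,4,3,4,2,3,0,0,2,3,3,2,0,0,3,4,0,0,0,0,1,4,0,0,1,2,4],[0,2,2,4,2,2,3,0,3,1,1,3,3,0,3,1,1,3,0,3,0,4,0,3,0,4,2,0,3,4,0,0,4,4,0,0,0,0,0,4,0,4,4],[4,1,2,0,3,3,0,4,4,0,4,0,1,3,2,1,4,0,2,0,1,2,3,2,4,0,0,3,3,1,2,2,3,4,4,2,3,4,3,0,1,3,1]]]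

/-- level (3, 5) -/
noncomputable def tC3_5 : Level where
  words := [[0,0,1,2,0,3,4,5]]
  pos := [(5,0)]
  rowsX := []
  rowsY := [[[1]],[[1]],[[1]],[[1]],[[1]]]
  rels := [.comm 4 0 1,.comm 4 0 2,.comm 4 0 3,.comm 4 0 4]
  certX := []
  certY := [[[0,0,0,4]],[[1,0,0,4]],[[0,1,0,4]],[[0,0,1,4]],[[]]]

/-- level (3, 6) -/
noncomputable def tC3_6 : Level where
  words := []
  pos := []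
  rowsX := []
  rowsY := [[[]],[[]],[[]],[[]],[[]],[[]]]
  rels := [.comm 0 0 1,.comm 0 0 2,.comm 0 0 3,.comm 0 0 4,.comm 0 0 5,.s4 0 2 [3,4,5] (.y 0) (.y 1) (.y 2) .X]
  certX := []
  certY := [[[3,3,0,0,0,4]],[[4,3,0,0,0,4]],[[3,4,0,0,0,4]],[[3,3,1,0,0,4]],[[3,3,0,1,0,4]],[[3,3,0,0,1,4]]]

/-- level (4, 0) -/
noncomputable def tC4_0 : Level where
  words := []
  pos := []
  rowsX := [[]]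
  rowsY := []
  rels := [.s4 0 0 [] .X .X .X .X]
  certX := [[4]]
  certY := []

/-- level (4, 1) -/
noncomputable def tC4_1 : Level where
  words := [[0,0,0,1,0],[0,0,1,0,0]]
  pos := [(0,0),(0,1)]
  rowsX := [[1],[0,1]]
  rowsY := [[]]
  rels := []
  certX := [[],[]]
  certY := [[]]

/-- level (4, 2) -/
noncomputable def tC4_2 : Level where
  words := [[0,0,0,1,0,2],[0,0,0,2,0,1],[0,0,0,1,2,0],[0,0,1,0,0,2],[0,0,2,0,0,1],[0,0,1,0,2,0],[0,0,2,0,1,0]]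
  pos := [(2,0),(1,0),(0,0),(2,1),(1,1),(0,1),(0,2)]
  rowsX := [[0,0,1],[0,0,0,0,0,1],[0,0,0,0,0,0,1],[2,2,4,2,2,2,2],[4,3,3,3,2,4,3],[3,4,3,2,3,3,4]]
  rowsY := [[[0,1],[0,0,0,0,1]],[[1],[0,0,0,1]]]
  rels := [.s4 0 1 [1] (.y 0) .X .X .X,.s4 0 1 [0] (.y 1) .X .X .X,.s4 0 0 [] .X .X (.b .X (.y 0)) (.b .X (.y 1))]
  certX := [[],[],[],[2,2],[2,3,2],[3,2,2]]
  certY := [[[],[]],[[],[]]]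

/-- level (4, 3) -/
noncomputable def tC4_3 : Level where
  words := [[0,0,0,1,0,2,3],[0,0,0,2,0,1,3],[0,0,0,3,0,1,2],[0,0,0,1,2,0,3],[0,0,0,1,3,0,2],[0,0,0,2,3,0,1],[0,0,1,0,0,2,3],[0,0,2,0,0,1,3],[0,0,3,0,0,1,2],[0,0,1,0,2,0,3],[0,0,1,0,3,0,2],[0,0,2,0,1,0,3],[0,0,2,0,3,0,1],[0,0,3,0,1,0,2],[0,0,3,0,2,0,1],[0,0,1,0,2,3,0]]
  pos := [(3,0),(3,1),(2,1),(3,2),(2,2),(1,2),(3,3),(3,4),(2,4),(3,5),(2,5),(3,6),(1,5),(2,6),(1,6),(0,1)]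
  rowsX := [[3,3,3,3,3,3],[0,0,0,0,0,0,0,0,0,0,0,0,0,0,0,1],[3,2,0,0,1,4,1,4,0,3,2,2,3,4,1,1],[3,0,2,1,0,4,1,0,4,2,3,4,1,2,3,1],[0,0,1,2,4,4,2,2,4,1,0,1],[0,1,0,4,2,4,2,4,2,0,1,0,0,1],[1,0,0,4,4,2,4,2,2,0,0,0,1,0,1],[3,1,4,1,3,3,2,2,4,4,1,3,0,4,0,1],[3,4,1,3,1,3,2,4,2,1,4,4,0,3,0,1],[4,0,4,1,4,2,3,1,4,1,2,1,4,4,0,1],[2,4,4,0,0,0,1,1,1,1,1]]
  rowsY := [[[0,1],[0,0,1],[0,0,0,0,0,1],[0,0,0,0,0,0,0,1],[0,0,0,0,0,0,0,0,1],[0,0,0,0,0,0,0,0,0,0,0,0,1],[0,0,0,0,0,0,0,0,0,0,0,0,0,0,1]],[[1],[0,0,1],[0,0,0,0,1],[0,0,0,0,0,0,1],[0,0,0,0,0,0,0,0,1],[0,0,0,0,0,0,0,0,0,0,1],[0,0,0,0,0,0,0,0,0,0,0,0,0,1]],[[1],[0,1],[0,0,0,1],[0,0,0,0,0,0,1],[0,0,0,0,0,0,0,1],[0,0,0,0,0,0,0,0,0,1],[0,0,0,0,0,0,0,0,0,0,0,1]]]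
  rels := [.comm 0 0 1,.comm 1 0 1,.comm 0 0 2,.comm 1 0 2,.comm 0 1 2,.comm 1 1 2,.s4 0 1 [1,2] (.y 0) .X .X .X,.s4 0 1 [0,2] (.y 1) .X .X .X,.s4 0 1 [0,1] (.y 2) .X .X .X,.s4 0 2 [2] (.y 0) (.y 1) .X .X,.s4 0 2 [1] (.y 0) (.y 2) .X .X,.s4 0 2 [0] (.y 1) (.y 2) .X .X,.s4 0 0 [] .X (.b .X (.y 0)) (.b .X (.y 1)) (.b .X (.y 2)),.s4 0 0 [] (.y 0) .X (.b .X (.y 1)) (.b .X (.b .X (.y 2))),.s4 0 0 [] (.y 1) .X (.b .X (.y 0)) (.b .X (.b .X (.y 2))),.s4 0 0 [] (.y 2) .X (.b .X (.y 0)) (.b .X (.b .X (.y 1)))]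
  certX := [[1,0,1,0,1,0,0,0,0,2,2,2],[],[2,1,1,2,1,0,1,4,2,0,2,3,4,1,4,3],[0,1,1,0,1,4,3,2,4,2,0,3,3,4,3,4],[2,3,4,2,4,2,4,4,3,4,3,3,2,3,3],[1,4,4,0,1,1,0,3,4,3,4,3,4,2,0,3],[4,4,4,4,2,3,3,0,0,3,3,4,1,0,2,2],[3,4,0,0,4,2,3,2,0,3,3,2,0,3,2,2],[2,2,0,1,3,1,4,0,2,3,3,2,2,2,2,2],[0,3,2,1,3,2,3,2,1,3,4,1,2,3,2,1],[1,2,1,2,4,2,4,1,1,4,4,0,4,0,3,3]]
  certY := [[[0,0,4],[4],[],[0,0,0,4],[0,4],[],[]],[[0,0,0,0,4],[],[],[0,0,0,0,0,4],[],[],[]],[[],[],[],[],[],[],[]]]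

/-- level (4, 4) -/
noncomputable def tC4_4 : Level where
  words := [[0,0,0,1,0,2,3,4],[0,0,0,2,0,1,3,4],[0,0,0,3,0,1,2,4],[0,0,0,4,0,1,2,3],[0,0,0,1,2,0,3,4],[0,0,1,0,0,2,3,4],[0,0,2,0,0,1,3,4],[0,0,3,0,0,1,2,4],[0,0,4,0,0,1,2,3],[0,0,1,0,2,0,3,4],[0,0,1,0,3,0,2,4],[0,0,2,0,3,0,1,4]]
  pos := [(4,0),(4,1),(4,2),(3,2),(4,3),(4,6),(4,7),(4,8),(3,8),(4,9),(4,10),(4,12)]
  rowsX := [[2,2,2,2]]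
  rowsY := [[[0,1],[0,0,1],[0,0,0,1],[2,0,3,0,1],[2,0,0,3,1],[2,2,3,3,1],[0,0,0,0,0,0,1],[0,0,0,0,0,0,0,1],[0,0,0,0,0,0,0,0,1],[0,0,0,0,0,0,0,0,0,0,0,1],[0,2,2,2,2,1,4,1,1,1,0,4],[4,0,2,1,4,1,1,1,1,0,0,4],[1,1,1,1,3,0,0,3,0,0,1,1],[4,3,4,0,2,0,2,0,0,4,0,1],[3,3,1,1,1,1,1,3,1,0,4,4],[0,4,4,4,4,2,2,2,2,2]],[[1],[0,0,1],[0,0,0,1],[0,2,3,0,1],[0,2,0,3,1],[2,2,3,3,1],[0,0,0,0,0,1],[0,0,0,0,0,0,0,1],[0,0,0,0,0,0,0,0,1],[0,0,0,0,0,0,0,0,0,0,1],[2,0,3,3,1,0,2,2,2,4,4],[0,4,2,1,4,1,1,1,1,0,4],[1,1,1,1,3,0,0,3,0,0,1,1],[3,4,3,4,3,1,4,4,4,1,1],[3,3,1,1,1,1,1,3,1,0,4,4],[4,0,1,1,2,4,4,4,4,3]],[[1],[0,1],[0,0,0,1],[0,0,0,0,1],[0,2,0,3,1],[2,0,0,3,1],[0,0,0,0,0,1],[0,0,0,0,0,0,1],[0,0,0,0,0,0,0,0,1],[0,0,0,0,0,0,0,0,0,1],[2,0,3,3,1,0,2,2,2,4,4],[0,0,1,1,4,1,1,1,1,4],[0,2,2,2,2,1,4,1,1,1,0,4],[3,4,3,4,3,1,4,4,4,1,1],[4,3,4,0,2,0,2,0,0,4,0,1],[4,0,1,1,2,4,4,4,4,0,3]],[[1],[0,1],[0,0,1],[0,0,0,0,1],[0,2,3,0,1],[2,0,3,0,1],[0,0,0,0,0,1],[0,0,0,0,0,0,1],[0,0,0,0,0,0,0,1],[0,0,0,0,0,0,0,0,0,1],[0,0,0,0,0,0,0,0,0,0,1],[0,0,1,1,4,1,1,1,1,4],[0,0,0,0,0,0,0,0,0,0,0,1],[0,4,2,1,4,1,1,1,1,0,4],[4,0,2,1,4,1,1,1,1,0,0,4],[0,0,0,0,0,4,0,0,0,2,2]]]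
  rels := [.comm 0 0 1,.comm 1 0 1,.comm 2 0 1,.comm 3 0 1,.comm 4 0 1,.comm 5 0 1,.comm 6 0 1,.comm 0 0 2,.comm 1 0 2,.comm 2 0 2,.comm 3 0 2,.comm 4 0 2,.comm 5 0 2,.comm 6 0 2,.comm 0 0 3,.comm 1 0 3,.comm 2 0 3,.comm 3 0 3,.comm 4 0 3,.comm 5 0 3,.comm 6 0 3,.comm 0 1 2,.comm 2 1 2,.comm 3 1 2,.comm 5 1 2,.comm 6 1 2,.comm 0 1 3,.comm 2 1 3,.comm 3 1 3,.comm 5 1 3,.comm 6 1 3,.comm 2 2 3,.comm 5 2 3,.comm 6 2 3,.s4 0 2 [2,3] (.y 0) (.y 1) .X .X,.s4 1 2 [2,3] (.y 0) (.y 1) .X .X,.s4 0 2 [1,3] (.y 0) (.y 2) .X .X,.s4 1 2 [1,3] (.y 0) (.y 2) .X .X,.s4 0 2 [1,2] (.y 0) (.y 3) .X .X,.s4 0 2 [0,3] (.y 1) (.y 2) .X .X,.s4 1 2 [0,3] (.y 1) (.y 2) .X .X,.s4 0 2 [0,2] (.y 1) (.y 3) .X .X,.s4 0 2 [0,1] (.y 2) (.y 3) .X .X,.s4 0 1 [3] (.y 0) .X (.b .X (.y 1)) (.b .X (.y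 2)),.s4 0 1 [3] (.y 1) .X (.b .X (.y 0)) (.b .X (.y 2)),.s4 0 1 [3] (.y 2) .X (.b .X (.y 0)) (.b .X (.y 1)),.s4 0 1 [2] (.y 0) .X (.b .X (.y 1)) (.b .X (.y 3)),.s4 0 1 [2] (.y 1) .X (.b .X (.y 0)) (.b .X (.y 3)),.s4 0 1 [2] (.y 3) .X (.b .X (.y 0)) (.b .X (.y 1)),.s4 0 1 [1] (.y 0) .X (.b .X (.y 2)) (.b .X (.y 3)),.s4 0 1 [1] (.y 2) .X (.b .X (.y 0)) (.b .X (.y 3)),.s4 0 1 [0] (.y 1) .X (.b .X (.y 2)) (.b .X (.y 3)),.s4 0 0 [] (.b .X (.y 0)) (.b .X (.y 1)) (.b .X (.y 2)) (.b .X (.y 3))]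
  certX := [[0,2,1,1,3,3,4,3,1,2,4,4,3,1,4,3,2,2,1,2,2,1,4,2,4,4,4,2,2,1,3,1,4,3,3,0,3,0,3,3,0,3,3,3,3,1,3,2,2,1,1,2]]
  certY := [[[0,0,0,0,0,0,0,0,0,0,0,0,0,0,4],[0,0,0,0,0,0,0,0,0,0,0,0,0,0,0,4],[0,0,0,0,0,0,0,0,4],[2,0,0,3,0,2,1,1,3,2,1,4,0,0,0,4,2,0,2,4,3,1,0,0,2,1,1,0,3,2,3,2,2,1,2,2,0,0,0,3,3,0,0,4,0,1,0,0,0,1,4],[2,0,0,2,1,2,1,3,0,4,3,4,3,4,3,2,0,3,2,1,4,4,3,3,4,2,3,2,0,0,2,2,0,3,0,0,0,0,0,3,3,0,0,0,4,1,4,1,0,1,4],[4,0,2,0,0,0,0,1,0,2,0,0,0,0,3,2,0,0,0,0,0,1,2,0,0,0,3,0,0,0,0,4,0,0,2,2,3,3,0,3,3],[0,0,0,0,0,0,0,0,0,0,0,0,0,0,0,0,0,4],[0,0,0,0,0,0,0,0,0,0,0,0,0,0,0,0,0,0,4],[0,0,0,0,0,0,0,0,0,0,0,4],[0,0,0,0,0,0,0,0,0,0,0,0,0,0,0,0,0,0,0,4],[1,2,1,3,0,1,2,1,2,3,4,1,1,3,3,2,0,3,3,1,4,0,2,1,3,1,1,2,0,0,0,3,1,3,0,3,1,2,4,4,2,2,1,2,2,3,2,1,4,0,1,3,4],[1,4,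3,3,2,1,0,4,2,2,2,4,0,1,0,4,2,0,1,2,4,4,1,2,0,4,0,3,4,0,4,4,4,3,2,0,4,2,0,2,0,2,2,2,0,0,0,2,4,2,4,2,3],[3,2,2,1,0,3,3,4,1,2,1,0,3,1,1,0,3,1,4,3,0,0,1,2,0,2,1,3,1,1,2,0,1,4,3,1,2,2,4,2,2,4,0,0,0,0,1,4,0,4,2,1,1],[1,1,2,1,1,0,3,1,0,4,0,2,4,2,4,2,2,0,4,0,1,4,2,4,4,2,4,3,1,3,0,0,2,3,0,0,1,0,3,3,3,0,1,3,4,2,0,0,0,2,3,4,4],[1,3,1,4,1,3,1,1,4,0,2,3,2,0,4,1,4,0,0,4,4,4,2,0,3,3,4,4,0,3,0,1,1,0,2,4,0,3,3,0,3,3,2,0,0,1,4,3,4,0,1,1,2],[0,0,0,0,2,1,2,1,2,1,1,0,0,0,2,0,0,2,2,4,1,2,2,0,0,2,4,4,3,2,1,0,3,3,0,1,0,4,1,3,4,4,2,1,2,2,1,1,3,1,1,4,3]],[[0,0,0,0,0,0,0,0,0,0,0,0,0,0,0,0,0,0,0,0,0,0,0,0,0,0,4],[1,0,0,0,0,0,0,0,0,0,0,0,0,0,0,4],[0,1,0,0,0,0,0,0,4],[1,2,3,2,1,2,1,4,3,2,3,4,3,4,1,4,0,3,2,1,4,3,0,3,4,2,0,2,0,0,2,2,0,3,2,2,3,3,0,0,0,0,0,0,4,1,4,1,0,1,4],[3,0,3,3,0,2,1,2,0,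0,1,4,0,0,3,2,2,0,2,4,3,0,2,0,2,1,3,0,3,2,3,2,2,1,0,0,3,3,0,0,0,0,0,4,0,1,0,0,0,1,4],[4,0,3,0,0,0,0,1,0,2,0,0,0,0,3,2,0,0,0,0,0,1,2,0,0,0,3,0,0,0,0,4,0,0,2,2,3,3,0,3,3],[0,0,0,0,0,0,0,0,0,0,0,0,0,0,0,0,0,0,0,0,0,0,0,0,0,0,0,0,4],[0,0,0,1,0,0,0,0,0,0,0,0,0,0,0,0,0,0,4],[0,0,0,0,1,0,0,0,0,0,0,4],[0,0,0,0,0,0,0,0,0,0,0,0,0,0,0,0,0,0,0,0,0,0,0,0,0,0,0,0,0,4],[1,0,3,0,1,1,4,0,4,1,3,2,0,4,1,1,0,0,3,2,2,3,0,3,2,3,3,3,3,4,0,1,0,4,0,1,3,4,4,0,4,1,1,2,2,0,2,4,3,1,3,2,2],[2,4,0,3,4,3,2,2,2,3,0,4,1,2,0,4,3,4,1,4,0,1,0,4,4,3,0,2,0,3,3,4,2,0,2,0,2,0,2,4,2,0,2,0,2,0,1,1,4,3,4,1,3],[3,2,2,1,0,4,3,4,1,2,1,0,3,1,1,0,3,1,4,3,0,0,1,2,0,2,1,3,1,1,2,0,1,4,3,1,2,2,4,2,2,4,0,0,0,0,1,4,0,4,2,1,1],[0,0,2,1,0,2,3,2,3,0,0,1,3,2,4,3,0,1,4,0,4,1,0,3,2,4,4,4,0,3,4,2,0,0,0,2,4,1,3,2,3,1,1,4,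3,0,3,4,1,2,1,4,1],[1,3,1,4,1,3,2,1,4,0,2,3,2,0,4,1,4,0,0,4,4,4,2,0,3,3,4,4,0,3,0,1,1,0,2,4,0,3,3,0,3,3,2,0,0,1,4,3,4,0,1,1,2],[0,1,1,2,2,2,2,0,1,2,2,2,0,1,4,3,0,3,2,0,1,2,3,1,1,2,2,1,2,1,2,1,1,0,0,2,1,3,3,3,3,0,2,2,1,1,2,1,1,1,0,4,4]],[[0,0,0,0,0,0,0,0,0,0,0,0,0,0,0,0,0,0,0,0,0,1,0,0,0,0,4],[0,0,0,0,0,0,0,1,0,0,0,0,0,0,4],[],[0,0,0,0,0,0,0,0,0,0,0,0,0,0,0,0,0,0,0,0,0,0,0,0,0,0,0,0,0,0,0,4],[3,0,3,3,0,2,1,2,0,0,1,4,0,0,3,2,2,0,2,4,3,0,3,0,2,1,3,0,3,2,3,2,2,1,0,0,3,3,0,0,0,0,0,4,0,1,0,0,0,1,4],[2,0,0,2,1,2,1,3,0,0,3,4,3,4,3,2,0,3,2,1,4,4,3,3,4,2,3,2,0,0,2,2,0,3,0,0,0,0,0,3,3,0,0,0,4,1,4,1,0,1,4],[0,0,0,0,0,0,0,0,0,0,0,0,0,0,0,0,0,0,0,0,0,0,0,1,0,0,0,0,4],[0,0,0,0,0,0,0,0,0,0,1,0,0,0,0,0,0,4],[],[0,0,0,0,0,0,0,0,0,0,0,0,0,0,0,0,0,0,0,0,0,0,0,0,0,0,0,0,0,0,0,0,4]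,[1,0,3,0,1,1,4,0,4,1,3,2,0,4,1,1,0,0,3,2,2,3,0,3,3,3,3,3,3,4,0,1,0,4,0,1,3,4,4,0,4,1,1,2,2,0,2,4,3,1,3,2,2],[1,4,2,3,2,1,3,3,2,1,0,1,3,1,0,4,3,0,0,1,3,4,0,1,0,2,0,3,0,4,0,3,1,3,0,3,4,2,2,4,2,2,0,0,0,2,0,3,4,4,2,1,3],[1,2,1,3,0,1,2,1,2,3,4,1,2,3,3,2,0,3,3,1,4,0,2,1,3,1,1,2,0,0,0,3,1,3,0,3,1,2,4,4,2,2,1,2,2,3,2,1,4,0,1,3,4],[0,0,2,1,0,2,3,2,3,0,0,1,3,2,4,3,0,1,4,0,4,1,0,3,2,0,4,4,0,3,4,2,0,0,0,2,4,1,3,2,3,1,1,4,3,0,3,4,1,2,1,4,1],[1,1,2,1,1,0,3,1,0,4,0,2,4,3,4,2,2,0,4,0,1,4,2,4,4,2,4,3,1,3,0,0,2,3,0,0,1,0,3,3,3,0,1,3,4,2,0,0,0,2,3,4,4],[2,3,1,1,0,2,1,3,4,2,3,4,0,2,3,4,0,1,4,1,0,4,2,0,4,0,2,0,2,4,2,2,3,0,0,2,1,3,3,3,3,2,0,2,0,2,3,2,1,0,4,4,4]],[[],[],[],[],[1,2,3,2,1,2,1,4,3,2,3,4,3,4,1,4,0,3,2,1,4,3,0,3,4,2,0,3,0,0,2,2,0,3,2,2,3,3,0,0,0,0,0,0,4,1,4,1,0,1,4],[2,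0,0,3,0,2,1,1,3,2,1,4,0,0,0,4,3,0,2,4,3,1,0,0,2,1,1,0,3,2,3,2,2,1,2,2,0,0,0,3,3,0,0,4,0,1,0,0,0,1,4],[],[],[],[],[],[1,4,2,3,2,1,3,3,2,1,0,1,3,1,0,4,3,0,0,1,3,4,0,1,0,2,0,3,0,4,0,3,1,4,0,3,4,2,2,4,2,2,0,0,0,2,0,3,4,4,2,1,3],[],[2,4,0,3,4,3,2,2,2,3,0,4,1,2,0,4,3,4,1,4,0,1,0,4,4,3,0,2,0,3,4,4,2,0,2,0,2,0,2,4,2,0,2,0,2,0,1,1,4,3,4,1,3],[1,4,3,3,2,1,0,4,2,2,2,4,0,1,0,4,2,0,1,2,0,4,1,2,0,4,0,3,4,0,4,4,4,3,2,0,4,2,0,2,0,2,2,2,0,0,0,2,4,2,4,2,3],[2,1,0,2,2,0,3,2,1,0,2,2,0,3,2,2,0,1,1,2,2,1,0,0,0,0,3,1,0,4,1,1,4,1,0,0,0,0,0,0,0,3,3,4,2,2,3,3,0,3,3]]]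

/-- level (4, 5) -/
noncomputable def tC4_5 : Level where
  words := [[0,0,0,1,2,0,3,4,5]]
  pos := [(5,4)]
  rowsX := [[4]]
  rowsY := [[[],[],[],[],[1],[],[],[],[],[2],[2],[2]],[[],[],[],[],[1],[],[],[],[],[2],[2],[2]],[[],[],[],[],[1],[],[],[],[],[2],[2],[2]],[[],[],[],[],[1],[],[],[],[],[2],[2],[2]],[[],[],[],[],[1],[],[],[],[],[2],[2],[2]]]
  rels := [.comm 0 0 1,.comm 1 0 1,.comm 2 0 1,.comm 3 0 1,.comm 6 0 1,.comm 7 0 1,.comm 8 0 1,.comm 9 0 1,.comm 10 0 1,.comm 11 0 1,.comm 12 0 1,.comm 0 0 2,.comm 1 0 2,.comm 2 0 2,.comm 3 0 2,.comm 6 0 2,.comm 7 0 2,.comm 8 0 2,.comm 9 0 2,.comm 10 0 2,.comm 11 0 2,.comm 12 0 2,.comm 0 0 3,.comm 1 0 3,.comm 2 0 3,.comm 3 0 3,.comm 6 0 3,.comm 7 0 3,.comm 8 0 3,.comm 9 0 3,.comm 10 0 3,.comm 11 0 3,.comm 12 0 3,.comm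 0 0 4,.comm 1 0 4,.comm 2 0 4,.comm 3 0 4,.comm 6 0 4,.comm 7 0 4,.comm 8 0 4,.comm 9 0 4,.comm 10 0 4,.comm 11 0 4,.comm 12 0 4,.comm 0 1 2,.comm 6 1 2,.comm 9 1 2,.comm 10 1 2,.comm 0 1 3,.comm 6 1 3,.comm 9 1 3,.comm 0 1 4,.comm 6 1 4,.s4 0 2 [2,3,4] (.y 0) (.y 1) .X .X,.s4 1 2 [2,3,4] (.y 0) (.y 1) .X .X,.s4 2 2 [2,3,4] (.y 0) (.y 1) .X .X,.s4 3 2 [2,3,4] (.y 0) (.y 1) .X .X,.s4 0 2 [1,3,4] (.y 0) (.y 2) .X .X,.s4 0 2 [0,3,4] (.y 1) (.y 2) .X .X,.s4 0 3 [3,4] (.y 0) (.y 1) (.y 2) .X]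
  certX := [[2,3,2,2,1,3,3,3,0,3,0,0,1,2,3,3,0,0,2,0,2,0,0,0,4,1,4,4,4,1,0,1,0,0,2,4,2,4,4,4,1,0,1,0,1,3,0,0,4,4,0,2,4,4,3,3,3,4,4,2]]
  certY := [[[3,3,0,4,1,0,0,0,0,0,0,0,0,3,1,4,1,1,3,3,0,0,0,0,3,2,3,3,3,2,0,2,0,0,0,3,2,3,3,3,2,0,2,0,3,0,3,3,3,3,0,3,3,0,4,3,3,4,1,4],[0,0,4,1,2,1,1,1,0,1,0,3,3,4,4,3,0,0,2,3,4,0,0,0,3,2,3,3,3,2,0,2,0,0,0,3,2,3,3,3,2,0,2,0,4,3,3,3,3,3,0,3,3,3,4,3,3,1,1,4],[4,2,4,1,2,2,1,3,4,3,4,0,1,0,1,3,3,4,0,1,1,2,3,1,2,0,4,3,4,4,0,1,2,0,0,3,2,3,3,3,2,0,2,0,4,3,4,1,4,4,3,3,3,3,2,0,3,1,1,4],[3,2,0,1,0,2,3,1,1,1,1,2,3,3,1,1,1,0,1,2,2,3,2,4,1,2,4,0,4,3,0,1,3,0,0,0,0,0,0,0,0,0,0,0,2,1,4,2,4,4,2,0,0,3,2,3,0,1,1,4],[0,0,0,0,2,0,0,0,0,0,0,4,4,3,4,4,2,2,2,0,2,0,0,0,0,0,0,0,0,0,0,0,0,0,3,0,4,0,0,0,0,0,0,0,3,2,0,0,0,0,0,2,0,4,0,0,0,0,1],[0,2,3,0,0,2,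2,1,0,1,0,0,2,0,4,4,4,4,4,3,1,0,0,0,4,1,4,4,4,1,0,1,0,0,0,4,1,4,4,4,1,0,1,0,3,3,3,3,4,4,0,4,4,0,2,1,1,4,2,3],[3,0,3,4,3,0,0,1,0,1,0,2,4,0,0,1,1,1,4,3,1,0,0,0,4,1,4,4,4,1,0,1,0,0,0,4,1,4,4,4,1,0,1,0,3,1,3,3,4,4,0,4,4,2,2,1,1,2,2,3],[4,3,3,4,3,4,0,4,1,4,1,0,1,3,4,0,2,1,2,0,0,3,2,4,1,2,4,0,4,3,0,1,3,0,0,4,1,4,4,4,1,0,1,0,2,0,2,0,4,4,2,4,4,2,4,4,1,2,2,3],[0,3,2,4,0,4,3,1,4,1,4,3,4,0,4,2,4,0,1,4,4,2,3,1,1,1,3,2,3,0,0,2,2,0,0,3,2,3,3,3,2,0,2,0,4,2,2,4,3,3,3,3,3,2,4,1,4,2,2,3],[4,0,3,1,0,0,0,2,2,0,0,2,4,1,1,4,1,1,1,2,4,0,0,0,4,1,4,4,4,1,0,1,0,0,1,4,4,4,4,4,1,0,1,0,4,4,2,2,4,4,0,3,4,3,3,0,0,2,2],[4,4,3,1,0,4,0,3,1,0,3,0,1,3,1,2,1,0,0,4,4,3,2,4,2,1,0,1,0,2,0,0,3,0,1,4,4,4,4,4,1,0,1,0,2,2,1,4,0,0,2,3,4,3,1,2,0,2,2],[3,2,2,3,0,1,0,2,1,0,4,1,3,4,4,2,4,0,1,4,4,2,2,4,2,1,0,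1,0,2,0,0,3,0,1,4,4,4,4,4,1,0,1,0,2,2,2,4,0,0,2,3,4,3,1,2,0,2,2]],[[0,0,4,1,3,1,1,1,0,1,0,0,0,3,1,0,1,1,3,3,0,0,0,0,3,2,3,3,3,2,0,2,0,0,0,3,2,3,3,3,2,0,2,0,3,4,3,3,3,3,0,3,3,0,4,3,3,1,4,4],[1,0,4,1,2,1,1,1,0,1,0,3,3,4,4,3,0,0,2,3,4,0,0,0,3,2,3,3,3,2,0,2,0,0,0,3,2,3,3,3,2,0,2,0,4,3,3,3,3,3,0,3,3,3,4,3,3,1,1,4],[4,3,4,1,2,2,1,3,4,3,4,0,1,0,1,3,3,4,0,1,1,2,3,1,2,0,4,3,4,4,0,1,2,0,0,3,2,3,3,3,2,0,2,0,4,3,4,1,4,4,3,3,3,3,2,0,3,1,1,4],[3,2,1,1,0,2,3,1,1,1,1,2,3,3,1,1,1,0,1,2,2,3,2,4,1,2,4,0,4,3,0,1,3,0,0,0,0,0,0,0,0,0,0,0,2,1,4,2,4,4,2,0,0,3,2,3,0,1,1,4],[1,3,2,2,3,3,3,3,0,3,0,4,4,3,4,2,2,2,2,0,2,0,0,0,0,0,0,0,0,0,0,0,0,0,3,0,4,0,0,0,0,0,0,0,3,4,0,0,0,0,0,2,0,4,0,0,0,1],[3,0,3,4,2,0,0,1,0,1,0,0,2,0,4,3,4,4,4,3,1,0,0,0,4,1,4,4,4,1,0,1,0,0,0,4,1,4,4,4,1,0,1,0,3,4,3,3,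4,4,0,4,4,0,2,1,1,2,4,3],[3,0,3,4,4,0,0,1,0,1,0,2,4,0,0,1,1,1,4,3,1,0,0,0,4,1,4,4,4,1,0,1,0,0,0,4,1,4,4,4,1,0,1,0,3,1,3,3,4,4,0,4,4,2,2,1,1,2,2,3],[4,3,3,4,3,0,0,4,1,4,1,0,1,3,4,0,2,1,2,0,0,3,2,4,1,2,4,0,4,3,0,1,3,0,0,4,1,4,4,4,1,0,1,0,2,0,2,0,4,4,2,4,4,2,4,4,1,2,2,3],[0,3,2,4,0,4,4,1,4,1,4,3,4,0,4,2,4,0,1,4,4,2,3,1,1,1,3,2,3,0,0,2,2,0,0,3,2,3,3,3,2,0,2,0,4,2,2,4,3,3,3,3,3,2,4,1,4,2,2,3],[2,4,2,3,2,0,0,2,3,4,0,2,4,1,1,4,1,1,1,2,4,0,0,0,4,1,4,4,4,1,0,1,0,0,1,4,4,4,4,4,1,0,1,0,4,4,2,2,4,4,0,3,4,3,3,0,0,2,2],[3,2,2,3,0,1,0,2,1,0,4,0,1,3,1,2,1,0,0,4,4,3,2,4,2,1,0,1,0,2,0,0,3,0,1,4,4,4,4,4,1,0,1,0,2,2,1,4,0,0,2,3,4,3,1,2,0,2,2],[3,2,2,3,0,1,0,3,1,0,4,1,3,4,4,2,4,0,1,4,4,2,2,4,2,1,0,1,0,2,0,0,3,0,1,4,4,4,4,4,1,0,1,0,2,2,2,4,0,0,2,3,4,3,1,2,0,2,2]],[[0,0,4,1,3,1,1,1,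0,1,0,0,0,3,1,0,1,1,3,3,0,0,0,0,3,2,3,3,3,2,0,2,0,0,0,3,2,3,3,3,2,0,2,0,4,4,3,3,3,3,0,3,3,0,4,3,3,1,4,4],[3,3,0,4,1,0,0,0,0,0,0,1,0,3,1,4,1,1,3,3,0,0,0,0,3,2,3,3,3,2,0,2,0,0,0,3,2,3,3,3,2,0,2,0,3,0,3,3,3,3,0,3,3,0,4,3,3,4,1,4],[4,2,4,1,2,2,1,3,4,3,4,0,2,0,1,3,3,4,0,1,1,2,3,1,2,0,4,3,4,4,0,1,2,0,0,3,2,3,3,3,2,0,2,0,4,3,4,1,4,4,3,3,3,3,2,0,3,1,1,4],[3,2,0,1,0,2,3,1,1,1,1,2,3,4,1,1,1,0,1,2,2,3,2,4,1,2,4,0,4,3,0,1,3,0,0,0,0,0,0,0,0,0,0,0,2,1,4,2,4,4,2,0,0,3,2,3,0,1,1,4],[0,0,0,0,0,0,0,0,0,0,0,0,2,0,1,0,0,0,0,0,0,0,0,0,0,0,0,0,0,0,0,0,0,0,3,0,4,0,0,0,0,0,0,0,3,0,0,0,0,0,0,2],[3,0,3,4,2,0,0,1,0,1,0,0,2,0,4,3,4,4,4,3,1,0,0,0,4,1,4,4,4,1,0,1,0,0,0,4,1,4,4,4,1,0,1,0,3,0,3,3,4,4,0,4,4,0,2,1,1,2,4,3],[0,2,3,0,0,2,2,1,0,1,0,0,2,0,4,0,4,4,4,3,1,0,0,0,4,1,4,4,4,1,0,1,0,0,0,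4,1,4,4,4,1,0,1,0,3,3,3,3,4,4,0,4,4,0,2,1,1,4,2,3],[4,3,3,4,3,4,0,4,1,4,1,0,1,3,4,0,3,1,2,0,0,3,2,4,1,2,4,0,4,3,0,1,3,0,0,4,1,4,4,4,1,0,1,0,2,0,2,0,4,4,2,4,4,2,4,4,1,2,2,3],[0,3,2,4,0,4,3,1,4,1,4,3,4,0,4,2,4,1,1,4,4,2,3,1,1,1,3,2,3,0,0,2,2,0,0,3,2,3,3,3,2,0,2,0,4,2,2,4,3,3,3,3,3,2,4,1,4,2,2,3],[0,2,2,3,1,4,4,4,3,1,0,4,1,1,1,0,2,2,4,2,2,0,0,0,4,1,4,4,4,1,0,1,0,0,1,4,4,4,4,4,1,0,1,0,1,4,1,1,4,4,0,3,4,0,3,0,0,0,2],[3,2,2,3,0,1,0,2,1,0,4,0,1,3,1,2,1,0,0,4,4,3,2,4,2,1,0,1,0,2,0,0,3,0,1,4,4,4,4,4,1,0,1,0,2,2,2,4,0,0,2,3,4,3,1,2,0,2,2],[4,4,3,1,0,4,0,3,1,0,3,0,1,3,1,2,1,0,1,4,4,3,2,4,2,1,0,1,0,2,0,0,3,0,1,4,4,4,4,4,1,0,1,0,2,2,1,4,0,0,2,3,4,3,1,2,0,2,2]],[[0,0,4,1,3,1,1,1,0,1,0,0,0,3,1,0,1,1,3,3,0,0,0,0,3,2,3,3,3,2,0,2,0,0,0,3,2,3,3,3,2,0,2,0,3,4,3,3,4,3,0,3,3,0,4,3,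3,1,4,4],[3,3,0,4,1,0,0,0,0,0,0,0,0,3,1,4,1,1,3,3,0,0,1,0,3,2,3,3,3,2,0,2,0,0,0,3,2,3,3,3,2,0,2,0,3,0,3,3,3,3,0,3,3,0,4,3,3,4,1,4],[0,0,4,1,2,1,1,1,0,1,0,3,3,4,4,3,0,0,2,3,4,0,0,1,3,2,3,3,3,2,0,2,0,0,0,3,2,3,3,3,2,0,2,0,4,3,3,3,3,3,0,3,3,3,4,3,3,1,1,4],[3,2,0,1,0,2,3,1,1,1,1,2,3,3,1,1,1,0,1,2,2,3,2,4,2,2,4,0,4,3,0,1,3,0,0,0,0,0,0,0,0,0,0,0,2,1,4,2,4,4,2,0,0,3,2,3,0,1,1,4],[0,0,0,0,0,0,0,0,0,0,0,0,0,0,0,0,0,0,0,0,0,0,0,2,0,1,0,0,0,0,0,0,0,0,3,0,4,0,0,0,0,0,0,0,0,0,0,0,3,0,0,2],[3,0,3,4,2,0,0,1,0,1,0,0,2,0,4,3,4,4,4,3,1,0,0,0,4,1,4,4,4,1,0,1,0,0,0,4,1,4,4,4,1,0,1,0,3,4,3,3,4,0,0,4,4,0,2,1,1,2,4,3],[0,2,3,0,0,2,2,1,0,1,0,0,2,0,4,4,4,4,4,3,1,0,0,0,4,1,0,4,4,1,0,1,0,0,0,4,1,4,4,4,1,0,1,0,3,3,3,3,4,4,0,4,4,0,2,1,1,4,2,3],[3,0,3,4,3,0,0,1,0,1,0,2,4,0,0,1,1,1,4,3,1,0,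0,0,4,1,4,0,4,1,0,1,0,0,0,4,1,4,4,4,1,0,1,0,3,1,3,3,4,4,0,4,4,2,2,1,1,2,2,3],[0,3,2,4,0,4,3,1,4,1,4,3,4,0,4,2,4,0,1,4,4,2,3,1,1,1,3,2,4,0,0,2,2,0,0,3,2,3,3,3,2,0,2,0,4,2,2,4,3,3,3,3,3,2,4,1,4,2,2,3],[4,0,2,3,1,1,4,0,3,3,1,0,3,1,1,0,0,2,3,2,0,4,4,1,4,1,1,2,4,2,1,0,4,0,1,4,4,4,4,4,1,0,1,0,3,1,3,2,4,4,1,3,4,0,3,0,0,0,2],[2,4,2,3,2,0,0,2,3,4,0,2,4,1,1,4,1,1,1,2,4,0,0,0,4,1,4,4,4,1,0,1,0,0,1,4,4,4,4,4,1,0,1,0,4,4,2,2,4,4,1,3,4,3,3,0,0,2,2],[4,0,3,1,0,0,0,2,2,0,0,2,4,1,1,4,1,1,1,2,4,0,0,0,4,1,4,4,4,2,0,1,0,0,1,4,4,4,4,4,1,0,1,0,4,4,2,2,4,4,0,3,4,3,3,0,0,2,2]],[[0,0,4,1,3,1,1,1,0,1,0,0,0,3,1,0,1,1,3,3,0,0,0,0,3,2,3,3,3,2,0,2,0,0,0,3,2,3,3,3,2,0,2,0,3,4,3,3,3,3,0,4,3,0,4,3,3,1,4,4],[3,3,0,4,1,0,0,0,0,0,0,0,0,3,1,4,1,1,3,3,0,0,0,0,3,2,3,3,3,2,0,2,0,1,0,3,2,3,3,3,2,0,2,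0,3,0,3,3,3,3,0,3,3,0,4,3,3,4,1,4],[0,0,4,1,2,1,1,1,0,1,0,3,3,4,4,3,0,0,2,3,4,0,0,0,3,2,3,3,3,2,0,2,0,0,1,3,2,3,3,3,2,0,2,0,4,3,3,3,3,3,0,3,3,3,4,3,3,1,1,4],[4,2,4,1,2,2,1,3,4,3,4,0,1,0,1,3,3,4,0,1,1,2,3,1,2,0,4,3,4,4,0,1,2,0,0,4,2,3,3,3,2,0,2,0,4,3,4,1,4,4,3,3,3,3,2,0,3,1,1,4],[],[3,0,3,4,2,0,0,1,0,1,0,0,2,0,4,3,4,4,4,3,1,0,0,0,4,1,4,4,4,1,0,1,0,0,0,4,1,4,4,4,1,0,1,0,3,4,3,3,4,4,0,4,0,0,2,1,1,2,4,3],[0,2,3,0,0,2,2,1,0,1,0,0,2,0,4,4,4,4,4,3,1,0,0,0,4,1,4,4,4,1,0,1,0,0,0,4,1,0,4,4,1,0,1,0,3,3,3,3,4,4,0,4,4,0,2,1,1,4,2,3],[3,0,3,4,3,0,0,1,0,1,0,2,4,0,0,1,1,1,4,3,1,0,0,0,4,1,4,4,4,1,0,1,0,0,0,4,1,4,0,4,1,0,1,0,3,1,3,3,4,4,0,4,4,2,2,1,1,2,2,3],[4,3,3,4,3,4,0,4,1,4,1,0,1,3,4,0,2,1,2,0,0,3,2,4,1,2,4,0,4,3,0,1,3,0,0,4,1,4,4,0,1,0,1,0,2,0,2,0,4,4,2,4,4,2,4,4,1,2,2,3],[4,3,4,3,2,1,3,2,4,2,4,4,2,2,1,1,1,4,0,4,2,1,4,3,0,1,1,3,1,3,0,4,1,3,0,0,4,3,1,1,4,1,3,0,4,2,3,4,1,1,4,0,1,0,3,0,0,0,2],[3,2,3,3,3,2,2,2,0,2,0,0,3,3,1,0,0,0,0,3,2,0,4,3,0,1,1,3,1,3,0,4,1,4,4,0,4,1,3,1,3,0,4,1,0,0,3,3,1,1,4,0,1,3,3,0,0,2,2],[4,0,3,1,0,0,0,2,2,0,0,2,4,1,1,4,1,1,1,2,4,0,0,0,4,1,4,4,4,1,0,1,0,0,1,4,4,4,4,4,2,0,1,0,4,4,2,2,4,4,0,3,4,3,3,0,0,2,2]]]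

/-- level (4, 6) -/
noncomputable def tC4_6 : Level where
  words := []
  pos := []
  rowsX := []
  rowsY := [[[]],[[]],[[]],[[]],[[]],[[]]]
  rels := [.comm 4 0 1,.comm 4 0 2,.comm 4 0 3,.comm 4 0 4,.comm 4 0 5,.s4 0 3 [3,4,5] (.y 0) (.y 1) (.y 2) .X]
  certX := []
  certY := [[[3,3,0,0,0,4]],[[4,3,0,0,0,4]],[[3,4,0,0,0,4]],[[3,3,1,0,0,4]],[[3,3,0,1,0,4]],[[3,3,0,0,1,4]]]

/-- level (5, 0) -/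
noncomputable def tC5_0 : Level where
  words := []
  pos := []
  rowsX := []
  rowsY := []
  rels := []
  certX := []
  certY := []

/-- level (5, 1) -/
noncomputable def tC5_1 : Level where
  words := [[0,0,0,1,0,0]]
  pos := [(0,0)]
  rowsX := [[1],[4]]
  rowsY := [[]]
  rels := [.s4 0 1 [0] .X .X .X .X]
  certX := [[],[1]]
  certY := [[]]

/-- level (5, 2) -/
noncomputable def tC5_2 : Level where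
  words := [[0,0,0,1,0,0,2],[0,0,0,2,0,0,1],[0,0,0,1,0,2,0],[0,0,0,2,0,1,0],[0,0,1,0,0,2,0]]
  pos := [(2,0),(1,0),(0,0),(0,1),(0,3)]
  rowsX := [[0,0,1],[0,0,0,1],[2,2,2,2],[0,0,0,0,1],[4,1,4,1,1],[3,4,2,4,1],[3,4,3,3,1]]
  rowsY := [[[0,1]],[[1]]]
  rels := [.s4 0 1 [0,1] .X .X .X .X,.s4 0 2 [1] (.y 0) .X .X .X,.s4 0 2 [0] (.y 1) .X .X .X,.s4 0 0 [] .X .X (.b .X (.y 0)) (.b .X (.b .X (.y 1)))]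
  certX := [[],[],[0,2,2],[],[1,0,0,3],[2,3,4,3],[1,4,3]]
  certY := [[[]],[[]]]

/-- level (5, 3) -/
noncomputable def tC5_3 : Level where
  words := [[0,0,0,1,0,0,2,3],[0,0,0,2,0,0,1,3],[0,0,0,3,0,0,1,2],[0,0,0,1,0,2,0,3],[0,0,0,1,0,3,0,2],[0,0,0,2,0,1,0,3],[0,0,0,2,0,3,0,1],[0,0,0,3,0,1,0,2],[0,0,0,1,0,2,3,0],[0,0,0,2,0,1,3,0],[0,0,0,3,0,1,2,0],[0,0,0,1,2,0,3,0],[0,0,1,0,0,2,0,3],[0,0,1,0,0,2,3,0],[0,0,1,0,2,0,3,0],[0,0,1,0,3,0,2,0],[0,0,2,0,3,0,1,0]]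
  pos := [(3,0),(3,1),(2,1),(3,2),(2,2),(3,3),(1,2),(2,3),(0,0),(0,1),(0,2),(0,3),(3,4),(0,6),(0,9),(0,10),(0,12)]
  rowsX := [[0,0,0,0,0,0,0,0,1],[0,0,0,0,0,0,0,0,0,1],[0,0,0,0,0,0,0,0,0,0,1],[0,0,0,0,0,0,0,0,0,0,0,1],[0,4,1,1,4,4,0,1,0,2,3,1],[4,0,1,0,4,0,0,1,2,0,3,1],[0,0,0,0,0,0,0,0,0,0,0,0,0,1],[0,0,0,1,2,4,3,0,1,4,0,0,0,1],[0,0,0,0,3,2,3,2,1,0,4,0,0,1],[0,0,0,0,0,0,0,0,0,0,0,0,0,0,1],[0,0,0,0,0,0,0,0,0,0,0,0,0,0,0,1],[0,4,2,1,1,4,0,2,4,0,0,2,4,4,4],[0,0,0,0,0,0,0,0,0,0,0,0,0,0,0,0,1],[0,0,1,0,2,0,0,1,4,4,1,2,4,4,0,4],[1,4,1,1,2,4,0,1,3,0,1,2,4,4,0,0,4],[3,3,3,1,2,3,0,3,0,0,0,0,3,4,2,2]]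
  rowsY := [[[0,1],[0,0,1],[0,0,0,0,0,0,1],[0,0,0,1,4,4,1,1],[4,1,0,4,0,4,2,0,0,0,0,0,1]],[[1],[0,0,1],[0,0,0,0,1],[0,0,0,0,0,0,0,1],[0,0,0,3,2,0,0,0,0,0,0,0,1]],[[1],[0,1],[0,0,0,1],[0,0,0,0,0,1],[0,0,0,0,0,0,0,0,0,0,0,0,1]]]
  rels := [.comm 0 0 1,.comm 0 0 2,.comm 0 1 2,.s4 0 2 [1,2] (.y 0) .X .X .X,.s4 1 2 [1,2] (.y 0) .X .X .X,.s4 0 2 [0,2] (.y 1) .X .X .X,.s4 1 2 [0,2] (.y 1) .X .X .X,.s4 0 2 [0,1] (.y 2) .X .X .X,.s4 1 2 [0,1] (.y 2) .X .X .X,.s4 0 1 [2] .X .X (.b .X (.y 0)) (.b .X (.y 1)),.s4 0 1 [1] .X .X (.b .X (.y 0)) (.b .X (.y 2)),.s4 0 1 [0] .X .X (.b .X (.y 1)) (.b .X (.y 2)),.s4 0 0 [] .X (.b .X (.y 0)) (.b .X (.y 1)) (.b .X (.b .X (.y 2))),.s4 0 0 [] .X (.b .X (.y 0)) (.b .X (.y 2)) (.b .X (.b .X (.y 1)))]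
  certX := [[],[],[],[],[0,0,1,0,0,2,2,3,3],[0,0,1,0,0,2,2],[],[1,1,4,2,1,3,4,0,0,3,0,1,1,2],[4,3,4,4,3,1,1,2,3,0,3,1,2,1],[],[],[2,2,0,4,0,0,0,0,3,0,0,2,4,4],[],[1,3,1,1,2,2,4,3,4,3,2,2,1,2],[3,4,0,3,1,0,0,3,4,4,1,0,3,1],[4,1,0,2,2,0,2,4,3,3,2,0,2,3]]
  certY := [[[0,4],[4],[],[1,4,1,3,3,2,2,3,3],[4,1,4,2,3,3,3,4,3,1,4,2,1,3]],[[0,0,4],[],[],[],[1,4,1,3,3,2,3,3,2,2,3,0,3,2]],[[],[],[],[],[]]]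

/-- level (5, 4) -/
noncomputable def tC5_4 : Level where
  words := [[0,0,0,1,0,2,0,3,4]]
  pos := [(4,3)]
  rowsX := [[4],[4],[4],[4],[4],[3],[3],[3],[3],[3],[3],[3]]
  rowsY := [[[],[],[],[1],[1],[1],[1],[1],[],[],[],[3],[2],[],[1],[1],[1]],[[],[],[],[1],[1],[1],[1],[1],[],[],[],[3],[2],[],[1],[1],[1]],[[],[],[],[1],[1],[1],[1],[1],[],[],[],[3],[2],[],[1],[1],[1]],[[],[],[],[1],[1],[1],[1],[1],[],[],[],[3],[2],[],[1],[1],[1]]]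
  rels := [.comm 0 0 1,.comm 1 0 1,.comm 2 0 1,.comm 3 0 1,.comm 4 0 1,.comm 0 0 2,.comm 1 0 2,.comm 2 0 2,.comm 3 0 2,.comm 4 0 2,.comm 0 0 3,.comm 1 0 3,.comm 2 0 3,.comm 3 0 3,.comm 4 0 3,.comm 0 1 2,.comm 2 1 2,.comm 3 1 2,.comm 0 1 3,.comm 2 1 3,.comm 3 1 3,.comm 2 2 3,.s4 0 2 [1,2,3] (.y 0) .X .X .X,.s4 1 2 [1,2,3] (.y 0) .X .X .X,.s4 2 2 [1,2,3] (.y 0) .X .X .X,.s4 3 2 [1,2,3] (.y 0) .X .X .X,.s4 0 2 [0,2,3] (.y 1) .X .X .X,.s4 1 2 [0,2,3] (.y 1) .X .X .X,.s4 2 2 [0,2,3] (.y 1) .X .X .X,.s4 3 2 [0,2,3] (.y 1) .X .X .X,.s4 0 2 [0,1,3] (.y 2) .X .X .X,.s4 1 2 [0,1,3] (.y 2) .X .X .X,.s4 2 2 [0,1,3] (.y 2) .X .X .X,.s4 3 2 [0,1,3] (.y 2) .X .X .X,.s4 0 2 [0,1,2] (.y 3) .X .X .X,.s4 1 2 [0,1,2] (.y 3) .X .X .X,.s4 2 2 [0,1,2] (.y 3) .X .X .X,.s4 3 2 [0,1,2]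 (.y 3) .X .X .X,.s4 0 3 [2,3] (.y 0) (.y 1) .X .X,.s4 1 3 [2,3] (.y 0) (.y 1) .X .X,.s4 2 3 [2,3] (.y 0) (.y 1) .X .X,.s4 0 3 [1,3] (.y 0) (.y 2) .X .X,.s4 1 3 [1,3] (.y 0) (.y 2) .X .X,.s4 2 3 [1,3] (.y 0) (.y 2) .X .X,.s4 0 3 [1,2] (.y 0) (.y 3) .X .X,.s4 1 3 [1,2] (.y 0) (.y 3) .X .X,.s4 2 3 [1,2] (.y 0) (.y 3) .X .X,.s4 0 3 [0,3] (.y 1) (.y 2) .X .X,.s4 1 3 [0,3] (.y 1) (.y 2) .X .X,.s4 2 3 [0,3] (.y 1) (.y 2) .X .X,.s4 0 3 [0,2] (.y 1) (.y 3) .X .X,.s4 1 3 [0,2] (.y 1) (.y 3) .X .X,.s4 0 3 [0,1] (.y 2) (.y 3) .X .X,.s4 1 3 [0,1] (.y 2) (.y 3) .X .X,.s4 0 1 [2,3] .X .X (.b .X (.y 0)) (.b .X (.y 1)),.s4 0 1 [1,3] .X .X (.b .X (.y 0)) (.b .X (.y 2)),.s4 0 1 [1,2] .X .X (.b .X (.y 0)) (.b .X (.y 3)),.s4 0 1 [0,3] .X .X (.b .X (.y 1)) (.b .X (.y 2)),.s4 0 1 [0,2]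 .X .X (.b .X (.y 1)) (.b .X (.y 3)),.s4 0 1 [0,1] .X .X (.b .X (.y 2)) (.b .X (.y 3)),.s4 0 2 [3] (.y 0) .X (.b .X (.y 1)) (.b .X (.y 2)),.s4 0 2 [3] (.y 1) .X (.b .X (.y 0)) (.b .X (.y 2)),.s4 0 2 [3] (.y 2) .X (.b .X (.y 0)) (.b .X (.y 1)),.s4 0 2 [2] (.y 0) .X (.b .X (.y 1)) (.b .X (.y 3)),.s4 0 2 [2] (.y 1) .X (.b .X (.y 0)) (.b .X (.y 3)),.s4 0 2 [2] (.y 3) .X (.b .X (.y 0)) (.b .X (.y 1)),.s4 0 2 [1] (.y 0) .X (.b .X (.y 2)) (.b .X (.y 3)),.s4 0 2 [1] (.y 2) .X (.b .X (.y 0)) (.b .X (.y 3)),.s4 0 2 [1] (.y 3) .X (.b .X (.y 0)) (.b .X (.y 2)),.s4 0 2 [0] (.y 1) .X (.b .X (.y 2)) (.b .X (.y 3)),.s4 0 1 [3] .X (.b .X (.y 0)) (.b .X (.y 1)) (.b .X (.y 2)),.s4 0 1 [3] (.y 0) .X (.b .X (.y 1)) (.b .X (.b .X (.y 2))),.s4 0 1 [3] (.y 1) .X (.b .X (.y 0)) (.b .X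 (.b .X (.y 2))),.s4 0 1 [3] (.y 2) .X (.b .X (.y 0)) (.b .X (.b .X (.y 1))),.s4 0 1 [2] (.y 0) .X (.b .X (.y 1)) (.b .X (.b .X (.y 3))),.s4 0 1 [2] (.y 1) .X (.b .X (.y 0)) (.b .X (.b .X (.y 3))),.s4 0 1 [2] (.y 3) .X (.b .X (.y 0)) (.b .X (.b .X (.y 1))),.s4 0 1 [1] (.y 0) .X (.b .X (.y 2)) (.b .X (.b .X (.y 3))),.s4 0 0 [] (.y 0) (.b .X (.y 1)) (.b .X (.b .X (.y 2))) (.b .X (.b .X (.y 3)))]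
  certX := [[4,2,4,4,3,4,3,2,2,1,3,3,0,2,2,3,2,1,3,1,2,3,0,3,1,4,2,1,1,4,0,2,4,3,1,1,3,4,4,0,3,1,2,0,4,4,4,0,0,1,3,2,4,2,3,2,2,1,1,3,1,0,0,1,0,0,4,4,4,0,3,3,0,3,3,0,3,0,2],[2,1,1,2,0,3,1,4,4,2,4,1,4,3,0,3,2,0,4,3,4,3,0,0,0,2,2,3,4,0,3,3,0,0,1,3,4,3,0,1,0,1,0,4,1,3,3,3,4,0,1,3,0,0,1,3,3,0,0,3,0,4,2,0,4,2,3,2,2,0,4,2,1,4,2,1,4,0,2],[0,0,3,2,3,2,2,2,4,3,2,4,4,1,2,1,1,1,3,1,0,2,3,2,1,0,0,2,4,3,0,4,2,2,1,3,2,3,0,0,4,4,3,0,3,3,1,1,4,0,2,0,1,3,2,1,4,4,2,0,1,2,3,1,3,2,1,4,2,0,0,4,2,4,3,1,3,4,2],[3,3,0,4,1,1,4,4,0,0,0,2,2,4,3,3,1,0,0,0,2,4,1,1,2,1,3,2,2,2,1,3,3,2,2,4,4,3,0,2,4,3,2,2,4,4,2,0,4,0,1,4,3,4,2,4,1,2,4,3,1,3,2,1,2,3,1,2,4,0,1,3,1,3,4,2,4,1,2],[1,4,3,3,4,2,0,4,4,2,3,0,4,3,0,1,4,1,2,0,0,3,4,3,2,4,0,1,3,4,0,4,4,4,3,4,3,2,3,0,4,2,2,2,2,0,1,2,3,0,0,2,0,2,1,3,3,0,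0,2,4,3,4,4,3,4,3,4,4,4,4,4,4,1,4,4,1,0,1],[1,3,4,1,0,4,2,4,2,1,0,2,0,4,2,2,3,0,0,4,4,1,0,4,3,0,4,0,4,3,1,3,0,0,2,1,0,1,3,2,0,0,1,3,1,4,3,4,0,2,4,1,1,4,2,0,0,4,4,0,2,0,3,2,0,3,1,2,2,1,3,4,0,0,4,0,0,0,2],[2,3,3,0,4,3,1,3,4,0,1,1,3,1,4,2,4,0,0,2,2,1,2,3,0,1,2,4,4,2,3,3,2,4,2,3,4,3,4,0,2,3,3,3,3,2,0,1,2,0,0,4,2,4,4,0,0,4,4,0,3,1,1,3,1,1,2,4,4,1,2,0,4,4,0,4,4,0,2],[3,2,1,2,0,0,2,0,2,0,3,3,4,2,2,3,3,1,1,4,1,2,4,1,4,3,1,0,4,0,4,2,0,1,2,3,2,2,0,2,3,4,4,2,1,1,3,3,2,0,2,1,3,2,4,1,4,0,3,2,2,3,0,2,2,1,4,2,4,1,1,3,3,4,4,4,0,1,2],[0,4,2,2,2,0,3,4,2,2,1,2,0,3,2,2,0,0,3,3,1,0,1,2,3,2,3,0,2,0,0,3,0,1,4,2,4,2,0,4,4,1,0,1,4,0,1,2,1,0,0,3,1,1,4,4,1,3,0,4,2,2,1,2,3,0,4,4,2,1,0,4,4,0,3,3,4,4,2],[3,1,1,3,1,4,1,3,2,2,3,1,0,4,0,2,3,3,0,2,4,1,3,2,2,0,2,1,1,1,2,0,0,4,0,1,3,2,1,0,4,3,0,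4,0,2,2,4,3,4,0,3,2,3,1,4,4,3,3,1,2,1,0,2,1,0,4,0,0,0,4,1,1,2,1,1,2,0,3],[0,0,0,2,3,0,4,3,0,0,0,1,1,4,4,2,2,4,3,3,1,4,0,1,2,0,3,1,2,0,1,0,3,0,0,1,1,0,4,4,0,1,0,3,4,4,1,0,3,4,0,4,1,2,1,2,1,2,4,3,4,1,3,0,3,0,4,0,0,0,3,4,3,2,0,1,0,1,3],[0,3,2,2,4,0,1,0,0,3,1,0,0,3,4,4,2,1,3,0,1,4,0,1,2,4,3,4,3,2,2,3,4,3,0,2,1,4,3,3,4,1,2,0,3,1,2,1,2,3,2,3,0,0,2,2,4,2,1,3,3,1,4,4,3,1,1,4,4,0,0,0,2,1,3,3,0,1,3]]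
  certY := [[[0,2,3,3,4,3,4,2,3,1,3,4,3,1,4,2,0,4,4,0,4,0,0,2,2,2,0,1,4,2,2,3,2,2,0,1,3,0,1,3,2,4,1,2,0,1,3,4,4,2,1,1,1,0,0,1,1,4,4,2,0,1,1,0,1,1,1,0,0,0,4,2,2,3,2,2,3,0,3],[3,4,4,3,2,2,2,1,3,2,4,4,2,0,1,2,4,2,3,4,0,3,3,2,0,0,1,4,0,0,1,0,3,4,0,1,0,1,2,4,2,1,2,2,2,0,2,2,4,2,3,2,1,4,0,0,2,3,0,0,1,2,4,4,3,1,1,4,0,0,0,4,3,3,3,2,2,4,3],[4,4,2,4,0,4,4,1,0,4,4,2,2,2,2,2,0,4,2,2,4,2,1,1,4,3,4,4,2,0,0,3,4,0,3,3,2,0,2,0,3,1,2,1,2,0,1,2,3,2,1,2,3,0,0,2,0,0,3,3,4,3,1,1,2,4,1,0,4,0,1,3,2,2,4,3,3,1,3],[2,2,3,2,2,1,3,2,3,2,4,0,1,0,4,0,3,3,1,3,4,3,4,1,3,4,2,1,3,4,2,0,3,1,0,0,2,4,3,3,0,4,1,0,3,3,0,0,0,0,0,0,0,3,3,2,3,3,3,4,3,3,4,2,3,4,1,1,1,3,1,1,1,2,2,2,3,1],[3,0,0,1,4,1,0,1,0,4,2,3,2,4,4,2,4,3,0,3,3,1,1,2,4,1,4,1,1,4,3,0,0,3,2,0,2,2,3,1,0,3,2,3,4,2,4,0,0,0,2,1,3,2,3,3,2,3,3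,1,2,3,4,3,3,4,1,1,1,3,0,2,2,3,1,1,2,4],[4,3,3,3,0,0,2,2,2,1,0,2,4,1,0,2,4,1,3,4,2,3,3,0,3,3,1,4,1,1,3,2,1,4,0,0,1,4,3,3,0,3,2,0,4,3,4,4,0,0,0,1,1,2,4,3,1,0,2,2,1,0,4,2,2,3,3,0,2,3,4,2,4,2,0,2,0,3],[2,0,1,3,3,1,0,0,3,3,4,3,3,4,3,2,0,1,3,1,0,2,2,1,1,2,2,4,1,1,0,2,4,1,2,0,4,1,1,2,1,1,0,2,3,2,0,1,0,0,0,0,4,3,2,2,4,1,3,4,4,0,0,1,2,4,1,4,1,3,2,1,4,3,3,1,0,2],[1,3,4,0,1,2,2,4,0,3,2,2,2,1,4,2,3,3,1,3,2,1,4,3,0,0,2,4,3,3,2,0,4,4,0,2,4,4,3,2,0,4,3,2,3,2,3,3,0,0,2,4,0,4,4,1,3,2,0,3,2,2,3,1,0,4,3,2,0,3,1,0,2,0,2,4,2,2],[0,3,3,2,4,0,2,1,4,2,4,2,2,3,2,4,4,3,0,3,4,0,1,1,3,1,4,0,0,2,3,2,1,2,3,0,3,2,0,0,0,0,2,4,1,4,1,1,0,2,0,3,2,2,2,2,2,2,2,2,3,0,0,3,0,0,0,2,2,1,0,1,1,2,1,1,2],[0,3,2,0,3,3,3,4,2,1,1,3,0,4,3,4,2,4,2,4,2,0,3,1,1,2,3,0,0,1,4,2,2,3,3,0,2,2,1,1,1,3,2,3,2,4,0,0,0,2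,0,2,3,3,4,2,0,2,2,4,1,3,4,4,3,2,1,2,0,1,4,4,4,2,0,1,4,1],[1,1,0,3,0,2,3,4,2,2,0,3,0,0,4,0,4,2,2,3,3,0,0,2,0,1,0,0,4,0,0,2,0,0,0,0,1,0,1,4,1,1,0,3,4,1,2,0,1,2,2,2,1,2,4,0,2,2,2,1,4,3,2,1,3,4,1,0,2,1,3,0,1,4,4,4,2,4],[4,4,2,3,0,1,0,2,1,0,1,0,3,1,0,4,4,4,4,2,4,4,0,2,4,0,2,2,1,2,3,3,4,0,1,3,4,4,1,1,3,0,2,1,4,1,3,1,4,1,2,0,2,0,1,1,4,0,4,1,0,4,2,4,2,2,0,4,1,2,4,1,1,3,0,3,0,4,4],[0,4,0,3,3,2,1,1,0,3,0,0,3,4,0,4,1,2,1,3,2,1,4,2,3,4,0,4,2,3,3,0,0,1,2,2,0,0,2,2,0,0,4,0,2,4,2,3,4,3,2,0,4,4,3,2,4,3,3,0,2,2,0,0,2,0,2,2,2,3,1,2,4,3,4,1,0,2,3],[0,4,3,3,1,2,4,3,1,0,3,4,1,4,2,4,2,1,1,3,0,0,4,0,2,4,3,3,3,3,0,1,3,2,2,0,0,4,1,1,2,2,1,4,0,4,1,1,1,1,0,1,1,1,2,4,4,0,0,0,1,4,0,1,4,0,2,4,4,4,1,4,2,0,4,2,0,0,3],[1,4,2,0,2,3,2,0,0,2,3,3,2,4,4,4,3,4,4,0,4,1,4,1,0,0,4,3,1,0,0,4,0,4,4,4,2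,2,3,2,0,1,0,2,2,3,0,4,0,4,4,0,3,3,1,3,0,2,0,2,4,1,1,3,2,0,2,0,3,0,4,0,0,4,0,0,1,4],[1,0,3,3,0,3,3,0,1,4,0,2,2,2,0,1,1,3,1,1,1,3,2,0,4,3,2,3,4,4,1,3,0,3,0,0,0,3,3,4,0,0,0,3,3,3,2,1,4,4,0,0,0,4,1,0,3,0,2,0,3,2,0,4,1,1,2,3,0,0,0,0,0,1,0,0,4,1],[0,0,3,1,2,2,0,4,0,2,1,3,3,2,4,2,0,1,4,1,3,2,4,0,3,3,0,3,0,3,3,3,3,4,0,0,3,1,0,4,4,4,4,4,2,4,2,2,4,4,1,2,3,2,3,1,0,4,3,2,0,1,4,1,2,1,3,4,0,0,4,3,4,4,0,0,2,1]],[[4,3,0,4,2,1,0,1,4,0,2,0,2,1,1,1,4,2,4,0,1,0,2,2,4,1,3,3,2,1,4,4,1,3,0,2,1,4,4,3,1,0,2,3,1,0,3,1,0,2,1,1,4,4,2,1,1,4,4,2,3,2,2,3,2,2,2,4,4,1,3,3,1,2,3,1,2,0,3],[4,4,4,3,2,2,2,1,3,2,4,4,2,0,1,2,4,2,3,4,0,3,3,2,0,0,1,4,0,0,1,0,3,4,0,1,0,1,2,4,2,1,2,2,2,0,2,2,4,2,3,2,1,4,0,0,2,3,0,0,1,2,4,4,3,1,1,4,0,0,0,4,3,3,3,2,2,4,3],[4,0,2,4,0,4,4,1,0,4,4,2,2,2,2,2,0,4,2,2,4,2,1,1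,4,3,4,4,2,0,0,3,4,0,3,3,2,0,2,0,3,1,2,1,2,0,1,2,3,2,1,2,3,0,0,2,0,0,3,3,4,3,1,1,2,4,1,0,4,0,1,3,2,2,4,3,3,1,3],[2,1,1,4,1,1,4,4,1,0,3,1,2,0,3,0,1,4,1,4,4,3,2,0,2,2,4,0,2,0,1,0,1,0,0,0,3,4,3,1,1,4,2,4,3,0,2,2,0,0,3,3,0,2,2,4,4,1,2,4,4,0,1,3,0,1,3,4,4,0,4,3,4,0,4,0,1,1],[0,2,1,0,3,3,1,2,2,2,4,4,4,0,3,0,3,0,2,3,2,1,4,1,3,4,1,0,0,0,2,0,3,2,2,0,3,2,3,4,1,3,3,2,4,4,1,2,0,0,0,4,3,1,2,4,4,2,1,1,3,0,1,4,0,1,3,4,4,0,3,4,0,1,3,4,0,4],[3,4,3,0,1,0,0,3,0,2,4,0,1,2,3,1,0,4,1,3,4,3,1,0,1,0,3,3,0,3,1,4,1,1,0,3,1,3,4,4,2,2,0,4,0,2,3,3,4,4,4,2,2,0,2,1,3,2,0,2,1,3,1,2,0,0,3,3,0,2,0,1,0,3,4,3,1,3],[2,0,2,3,3,1,0,0,3,3,4,3,3,4,3,2,0,1,3,1,0,2,2,1,1,2,2,4,1,1,0,2,4,1,2,0,4,1,1,2,1,1,0,2,3,2,0,1,0,0,0,0,4,3,2,2,4,1,3,4,4,0,0,1,2,4,1,4,1,3,2,1,4,3,3,1,0,2],[2,2,1,0,2,4,0,4,2,4,4,0,0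,3,2,4,0,2,1,1,3,1,2,3,3,2,4,3,2,0,0,2,4,1,0,0,4,3,4,3,2,3,1,1,4,1,2,2,4,4,1,0,1,2,2,3,1,0,2,3,2,0,0,1,3,1,3,0,3,2,2,4,3,1,1,0,3,2],[0,0,4,3,0,1,1,2,4,3,4,1,3,4,0,1,0,4,1,3,1,0,4,4,1,2,1,0,2,3,1,2,1,1,3,0,4,3,2,0,1,4,3,3,0,2,1,4,2,2,0,1,4,3,0,2,2,2,2,2,3,1,4,3,1,4,0,3,3,4,1,1,1,3,1,1,3],[3,0,4,4,2,2,2,4,0,3,2,3,1,2,2,4,4,0,1,4,0,0,3,3,0,0,3,0,2,0,1,4,0,1,3,3,3,4,0,2,0,3,2,2,4,3,4,3,3,4,2,0,2,3,1,2,2,2,0,4,1,1,1,3,2,4,3,0,3,3,3,4,4,2,1,0,2,1],[1,1,4,0,4,3,3,4,2,3,4,2,1,1,4,2,4,0,4,0,4,0,0,4,3,0,0,0,0,0,2,2,0,4,0,0,0,1,0,4,1,2,4,1,0,1,2,0,2,4,2,2,0,2,1,2,2,0,2,1,3,2,4,1,1,1,3,3,0,3,2,1,0,2,4,4,2,4],[2,1,4,1,2,2,1,1,1,0,3,4,1,4,4,4,4,0,3,1,1,4,3,4,4,2,4,0,3,3,1,3,3,1,1,4,3,0,4,1,1,4,3,0,0,4,3,1,2,4,1,0,0,3,4,4,3,2,0,1,3,3,0,4,4,0,2,1,3,1,0,0,2,2,2,1,3,4,4],[2,0,3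,3,2,0,1,3,2,1,2,0,0,0,4,2,4,4,4,3,1,1,2,1,2,3,2,4,3,0,2,3,2,3,2,1,4,3,1,1,2,0,4,4,4,4,3,1,4,2,4,4,3,0,2,2,2,3,0,0,1,3,0,4,3,0,0,2,2,0,4,4,2,1,1,4,3,2,3],[3,1,1,1,1,2,0,4,0,0,2,0,3,2,2,3,0,3,1,0,3,0,0,4,0,0,2,1,4,1,0,2,1,3,2,4,0,0,2,2,3,0,0,1,4,0,0,2,1,3,0,4,2,3,2,2,2,2,2,0,2,4,4,2,4,4,4,0,0,0,1,3,3,0,3,3,0,0,3],[4,3,0,1,2,3,3,3,2,4,3,2,2,3,4,4,4,4,0,0,0,1,4,2,4,0,4,3,4,2,4,2,1,3,4,4,4,0,2,3,1,1,0,4,3,2,4,0,4,1,4,0,2,0,0,3,1,2,4,2,4,3,4,4,3,3,1,2,0,2,2,2,3,0,2,3,1,4],[3,0,2,3,0,2,2,4,3,3,1,3,1,1,3,4,0,0,4,3,0,3,2,1,2,4,2,3,2,1,0,0,2,0,0,1,1,3,2,2,4,0,1,2,4,1,4,1,3,1,1,0,4,1,0,1,3,4,2,0,4,3,3,4,3,4,1,0,2,2,3,2,3,1,2,3,0,1],[1,4,1,1,3,0,0,1,4,0,0,0,4,3,4,3,4,0,3,0,2,2,0,2,4,1,4,4,0,1,4,4,1,2,0,0,4,0,2,2,2,4,2,0,4,0,4,0,3,0,2,3,0,3,4,0,4,0,4,2,3,4,3,4,0,0,2,0,1,4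,1,1,1,3,2,3,2,1]],[[4,3,0,4,2,1,0,1,4,0,2,0,2,1,1,2,4,2,4,0,1,0,2,2,4,1,3,3,2,1,4,4,1,3,0,2,1,4,4,3,1,0,2,3,1,0,3,1,0,2,1,1,4,4,2,1,1,4,4,2,3,2,2,3,2,2,2,4,4,1,3,3,1,2,3,1,2,0,3],[0,2,3,3,4,4,4,2,3,1,3,4,3,1,4,2,0,4,4,0,4,0,0,2,2,2,0,1,4,2,2,3,2,2,0,1,3,0,1,3,2,4,1,2,0,1,3,4,4,2,1,1,1,0,0,1,1,4,4,2,0,1,1,0,1,1,1,0,0,0,4,2,2,3,2,2,3,0,3],[4,4,2,4,0,4,0,1,0,4,4,2,2,2,2,2,0,4,2,2,4,2,1,1,4,3,4,4,2,0,0,3,4,0,3,3,2,0,2,0,3,1,2,1,2,0,1,2,3,2,1,2,3,0,0,2,0,0,3,3,4,3,1,1,2,4,1,0,4,0,1,3,2,2,4,3,3,1,3],[0,0,0,0,0,0,0,0,0,0,0,0,0,0,0,0,0,0,0,0,0,4],[0,2,1,0,3,3,1,2,2,2,4,4,4,0,3,0,4,0,2,3,2,1,4,1,3,4,1,0,0,0,2,0,3,2,2,0,3,2,3,4,1,3,3,2,4,4,1,2,0,0,0,4,3,1,2,4,4,2,1,1,3,0,1,4,0,1,3,4,4,0,3,4,0,1,3,4,0,4],[4,2,1,1,2,0,2,0,4,3,0,2,1,1,4,4,2,3,3,3,2,4,0,1,4,4,0,0,0,1,4,2,2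,3,0,3,4,4,1,3,1,4,2,0,1,2,2,2,4,4,1,3,1,4,4,1,1,4,4,0,4,1,0,4,1,0,3,0,0,2,3,2,3,3,2,3,3],[3,0,0,1,4,1,0,2,0,4,2,3,2,4,4,2,4,3,0,3,3,1,1,2,4,1,4,1,1,4,3,0,0,3,2,0,2,2,3,1,0,3,2,3,4,2,4,0,0,0,2,1,3,2,3,3,2,3,3,1,2,3,4,3,3,4,1,1,1,3,0,2,2,3,1,1,2,4],[2,2,1,0,2,4,0,4,2,4,4,0,0,3,2,4,0,3,1,1,3,1,2,3,3,2,4,3,2,0,0,2,4,1,0,0,4,3,4,3,2,3,1,1,4,1,2,2,4,4,1,0,1,2,2,3,1,0,2,3,2,0,0,1,3,1,3,0,3,2,2,4,3,1,1,0,3,2],[1,0,4,1,2,3,0,0,0,0,0,0,4,3,0,1,1,3,1,3,1,0,1,2,4,0,1,4,2,1,1,3,1,3,3,0,2,0,4,4,0,2,4,4,0,2,1,4,2,2,3,3,1,1,3,4,2,4,1,3,3,3,2,0,0,1,3,4,1,4,0,4,1,3,0,1,3,1],[3,2,3,4,2,4,2,4,2,1,3,1,1,4,0,1,0,1,2,2,4,0,1,4,4,1,1,3,4,2,3,1,1,4,3,3,1,3,0,1,2,0,1,0,2,0,4,0,3,4,0,3,2,0,0,4,1,4,2,3,0,1,2,3,2,1,4,4,1,3,4,1,4,1,1,0,3,1],[1,4,0,4,3,1,4,1,2,3,0,1,0,2,4,2,3,0,4,2,4,3,2,4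,4,3,2,1,4,3,0,1,1,1,0,0,1,0,1,3,4,1,0,3,0,1,2,0,2,4,2,2,0,2,1,2,2,2,2,1,3,3,3,1,1,4,3,3,2,3,1,4,4,3,4,4,2,4],[4,1,1,4,1,2,4,0,1,1,0,0,2,2,0,4,3,3,0,1,4,0,1,0,4,2,0,4,1,2,0,4,1,2,1,4,3,4,1,3,3,1,2,3,1,1,0,0,2,4,1,3,1,0,3,2,1,3,2,1,1,3,2,0,4,0,3,4,3,1,1,2,3,4,0,1,0,1,4],[4,3,2,1,4,2,3,4,4,2,1,3,1,0,3,3,1,2,2,0,3,3,3,1,3,4,4,4,4,0,0,3,0,3,2,1,3,0,0,4,0,2,0,1,3,4,4,2,4,2,3,3,3,1,3,4,4,1,1,2,3,3,3,3,3,3,4,4,4,0,1,3,4,1,3,4,1,0,3],[2,3,2,1,2,3,4,0,1,1,0,1,0,2,0,4,1,4,2,3,2,0,0,0,0,4,4,3,3,3,3,0,0,1,2,4,3,4,2,2,3,2,3,1,2,0,2,4,1,3,4,0,1,2,3,2,1,1,3,0,1,4,0,2,4,0,0,4,4,0,1,3,2,0,3,3,1,0,3],[1,2,1,4,1,0,3,0,3,1,1,2,2,2,0,2,4,2,2,0,3,2,0,2,4,2,3,3,0,3,0,2,1,2,4,4,1,2,0,3,1,2,1,4,4,3,2,4,4,1,1,3,1,2,1,4,4,1,4,4,2,4,0,2,0,0,0,3,3,2,4,1,0,1,3,3,3,3],[0,2,3,2,2,4,1,0,0,1,4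,1,4,1,0,2,2,2,3,1,1,2,3,1,4,4,4,1,4,0,3,2,2,1,0,1,1,1,1,2,4,4,3,2,1,0,3,4,3,1,1,4,1,2,0,0,4,1,3,3,0,4,1,3,2,2,1,2,4,2,0,1,0,0,0,3,4,3],[4,2,1,0,3,3,0,2,3,3,4,1,4,3,4,2,0,0,3,0,2,2,4,4,4,2,3,1,2,1,0,2,4,2,0,0,3,1,0,2,2,1,2,0,4,1,3,0,3,0,2,1,0,0,2,2,4,4,3,3,3,0,2,0,4,3,1,1,3,4,4,2,4,0,0,3,2,3]],[[4,3,0,4,2,1,0,1,4,0,2,0,2,1,1,1,4,2,0,0,1,0,2,2,4,1,3,3,2,1,4,4,1,3,0,2,1,4,4,3,1,0,2,3,1,0,3,1,0,2,1,1,4,4,2,1,1,4,4,2,3,2,2,3,2,2,2,4,4,1,3,3,1,2,3,1,2,0,3],[0,2,3,3,4,3,4,2,3,1,4,4,3,1,4,2,0,4,4,0,4,0,0,2,2,2,0,1,4,2,2,3,2,2,0,1,3,0,1,3,2,4,1,2,0,1,3,4,4,2,1,1,1,0,0,1,1,4,4,2,0,1,1,0,1,1,1,0,0,0,4,2,2,3,2,2,3,0,3],[3,4,4,3,2,2,2,1,3,2,4,0,2,0,1,2,4,2,3,4,0,3,3,2,0,0,1,4,0,0,1,0,3,4,0,1,0,1,2,4,2,1,2,2,2,0,2,2,4,2,3,2,1,4,0,0,2,3,0,0,1,2,4,4,3,1,1,4,0,0,0,4,3,3,3,2,2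,4,3],[],[2,1,1,4,1,1,4,4,1,0,3,1,2,0,3,0,1,4,1,0,4,3,2,0,2,2,4,0,2,0,1,0,1,0,0,0,3,4,3,1,1,4,2,4,3,0,2,2,0,0,3,3,0,2,2,4,4,1,2,4,4,0,1,3,0,1,3,4,4,0,4,3,4,0,4,0,1,1],[4,2,2,0,2,0,2,4,0,3,0,2,2,0,4,4,3,2,3,2,3,0,0,1,4,4,0,0,0,1,4,2,2,3,0,3,4,4,1,3,1,4,2,0,1,2,2,2,4,4,1,3,1,4,4,1,1,4,4,0,4,1,0,4,1,0,3,0,0,2,3,2,3,3,2,3,3],[2,2,3,2,2,1,3,2,3,2,4,0,2,0,4,0,3,3,1,3,4,3,4,1,3,4,2,1,3,4,2,0,3,1,0,0,2,4,3,3,0,4,1,0,3,3,0,0,0,0,0,0,0,3,3,2,3,3,3,4,3,3,4,2,3,4,1,1,1,3,1,1,1,2,2,2,3,1],[3,4,3,0,1,0,0,3,0,2,4,0,1,2,3,1,0,4,1,3,0,3,1,0,1,0,3,3,0,3,1,4,1,1,0,3,1,3,4,4,2,2,0,4,0,2,3,3,4,4,4,2,2,0,2,1,3,2,0,2,1,3,1,2,0,0,3,3,0,2,0,1,0,3,4,3,1,3],[3,2,3,3,4,2,0,3,0,2,4,0,1,4,0,0,4,0,3,1,3,0,3,3,0,2,3,4,0,1,3,2,4,1,4,1,1,2,4,2,0,4,1,3,3,0,4,1,1,2,3,0,4,0,3,2,4,1,4,0,0,0,1,3,3,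2,3,1,4,4,4,0,1,3,4,1,3,4],[2,2,0,3,4,0,1,4,3,4,0,2,1,4,4,4,3,3,0,0,1,0,3,0,1,2,3,3,3,1,0,2,2,1,4,2,2,1,0,0,1,0,4,0,2,2,1,1,4,4,1,3,0,4,0,1,4,2,4,0,3,2,1,0,1,2,4,1,4,3,3,1,0,3,1,4,1,4],[3,3,3,0,1,2,1,3,2,0,1,4,3,1,0,3,0,1,2,4,4,2,0,3,1,3,0,1,4,0,3,4,2,2,4,2,3,4,1,1,3,3,4,3,3,2,0,0,4,4,0,4,2,3,1,2,2,2,2,4,1,1,4,3,3,3,3,2,3,3,2,4,4,2,4,4,3,1],[0,4,3,3,3,4,0,0,4,0,1,4,2,0,3,4,4,1,1,1,0,2,3,1,1,3,2,4,0,1,4,3,2,3,0,0,4,3,1,4,0,4,1,4,3,2,1,3,2,4,0,4,4,4,3,1,2,2,3,3,0,4,0,1,3,2,3,3,4,1,0,0,1,0,2,3,4,4,4],[4,3,3,0,4,3,3,0,0,1,0,3,0,4,4,2,2,1,3,4,4,0,3,1,3,4,4,4,4,0,0,3,0,3,2,1,3,0,0,4,0,2,0,1,3,4,4,2,4,2,3,3,3,1,3,4,4,1,1,2,3,3,3,3,3,3,4,4,4,0,1,3,4,1,3,4,1,0,3],[4,1,0,3,2,0,1,1,0,3,3,4,4,3,3,4,3,2,2,1,4,0,0,0,4,0,4,3,1,0,0,2,4,2,0,2,4,3,2,2,3,3,0,3,1,3,0,1,2,3,2,4,1,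2,3,1,2,3,1,0,2,4,0,1,4,0,0,4,4,0,1,3,3,1,3,2,0,0,3],[2,3,4,4,2,1,2,4,4,3,4,3,3,4,4,3,2,1,4,0,1,2,1,0,0,0,4,3,4,3,1,0,3,2,2,1,0,2,0,3,0,1,2,4,0,2,3,2,3,1,4,2,0,4,1,4,4,4,1,0,2,0,0,2,4,0,0,3,3,2,1,3,3,3,1,0,1,2],[0,4,2,1,3,0,1,1,2,1,2,1,3,2,1,0,4,3,3,2,2,2,4,4,4,3,0,1,2,1,0,2,2,4,2,1,2,3,1,0,0,3,2,4,2,1,2,0,3,1,1,2,0,4,0,4,0,3,1,4,3,2,2,0,4,1,1,4,2,2,2,0,3,4,1,0,0,2],[2,1,3,1,4,1,1,4,2,2,0,0,2,2,1,2,4,3,1,4,1,2,0,2,4,1,4,1,3,4,2,0,1,1,2,2,2,2,0,4,4,4,1,1,1,2,3,0,0,0,3,2,4,2,2,4,2,3,4,4,0,4,3,3,0,2,1,3,1,4,1,0,3,2,2,4,0,2]]]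

/-- level (5, 5) -/
noncomputable def tC5_5 : Level where
  words := [[0,0,0,1,0,2,0,3,4,5]]
  pos := [(5,0)]
  rowsX := [[4]]
  rowsY := [[[1]],[[1]],[[1]],[[1]],[[1]]]
  rels := [.comm 3 0 1,.comm 3 0 2,.comm 3 0 3,.comm 3 0 4,.s4 0 3 [2,3,4] (.y 0) (.y 1) .X .X]
  certX := [[2,0,0,1,1]]
  certY := [[[0,0,0,4]],[[1,0,0,4]],[[0,1,0,4]],[[0,0,1,4]],[[]]]

/-- level (5, 6) -/
noncomputable def tC5_6 : Level where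
  words := []
  pos := []
  rowsX := []
  rowsY := [[[]],[[]],[[]],[[]],[[]],[[]]]
  rels := [.comm 0 0 1,.comm 0 0 2,.comm 0 0 3,.comm 0 0 4,.comm 0 0 5,.s4 0 3 [2,3,4,5] (.y 0) (.y 1) .X .X]
  certX := []
  certY := [[[2,0,0,0,0,3]],[[3,0,0,0,0,3]],[[2,1,0,0,0,3]],[[2,0,1,0,0,3]],[[2,0,0,1,0,3]],[[2,0,0,0,1,3]]]

/-- level (6, 0) -/
noncomputable def tC6_0 : Level where
  words := []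
  pos := []
  rowsX := []
  rowsY := []
  rels := []
  certX := []
  certY := []

/-- level (6, 1) -/
noncomputable def tC6_1 : Level where
  words := []
  pos := []
  rowsX := [[]]
  rowsY := [[]]
  rels := [.s4 0 2 [0] .X .X .X .X]
  certX := [[1]]
  certY := [[]]

/-- level (6, 2) -/
noncomputable def tC6_2 : Level where
  words := [[0,0,0,1,0,0,2,0],[0,0,0,2,0,0,1,0],[0,0,0,1,0,2,0,0]]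
  pos := [(0,0),(0,1),(0,2)]
  rowsX := [[1],[0,1],[0,0,1],[1,4,1],[2,0,2]]
  rowsY := [[],[]]
  rels := [.s4 0 2 [0,1] .X .X .X .X,.s4 1 2 [0,1] .X .X .X .X]
  certX := [[],[],[],[2,2],[4,1]]
  certY := [[],[]]

/-- level (6, 3) -/
noncomputable def tC6_3 : Level where
  words := [[0,0,0,1,0,0,2,3,0],[0,0,0,2,0,0,1,3,0],[0,0,0,3,0,0,1,2,0],[0,0,0,1,0,2,0,0,3]]
  pos := [(0,0),(0,1),(0,2),(3,2)]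
  rowsX := [[1],[0,1],[0,0,1],[0,3,1],[0,1,3],[3,0,1],[1,0,3],[3,1],[4,2,4,4],[2,4,4,4],[2,2,1,4],[0,0,3,4],[4,1,2],[2,4,3,3],[3,0,1,3],[3,2,4,3],[2,3,4,3]]
  rowsY := [[[],[],[2,0,3,1]],[[],[],[0,2,3,1]],[[],[],[0,0,0,1]]]
  rels := [.s4 0 2 [0,1,2] .X .X .X .X,.s4 1 2 [0,1,2] .X .X .X .X,.s4 2 2 [0,1,2] .X .X .X .X,.s4 3 2 [0,1,2] .X .X .X .X,.s4 0 3 [1,2] (.y 0) .X .X .X,.s4 1 3 [1,2] (.y 0) .X .X .X,.s4 2 3 [1,2] (.y 0) .X .X .X,.s4 0 3 [0,2] (.y 1) .X .X .X,.s4 1 3 [0,2] (.y 1) .X .X .X,.s4 2 3 [0,2] (.y 1) .X .X .X,.s4 0 3 [0,1] (.y 2) .X .X .X,.s4 1 3 [0,1] (.y 2) .X .X .X,.s4 2 3 [0,1] (.y 2) .X .X .X,.s4 0 2 [2] .X .X (.b .X (.y 0)) (.b .X (.y 1)),.s4 0 2 [1] .X .X (.b .X (.y 0)) (.b .X (.y 2)),.s4 0 2 [0] .X .X (.b .X (.y 1)) (.b .X (.y 2)),.s4 0 1 [2]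 .X .X (.b .X (.y 0)) (.b .X (.b .X (.y 1))),.s4 0 1 [1] .X .X (.b .X (.y 0)) (.b .X (.b .X (.y 2))),.s4 0 1 [0] .X .X (.b .X (.y 1)) (.b .X (.b .X (.y 2))),.s4 0 0 [] .X (.b .X (.y 0)) (.b .X (.b .X (.y 1))) (.b .X (.b .X (.y 2))),.s4 0 0 [] .X .X (.b .X (.b .X (.y 0))) (.b (.b .X (.y 1)) (.b .X (.y 2))),.s4 0 0 [] .X .X (.b .X (.b .X (.y 1))) (.b (.b .X (.y 0)) (.b .X (.y 2)))]
  certX := [[],[],[],[1,4,4,4,2,4,1,4,2,2,0,2,0,4,1,3,2,1,1,3,2,4],[0,0,0,0,2,1,4,0,2,0,4,2,2,1,4,3,0,3,3,3,4,4],[4,1,1,1,4,2,2,2,4,1,0,0,2,4,3,1,1,0,2,3,4,2],[1,4,4,4,0,2,0,2,1,4,4,2,2,1,3,4,3,2,4,3,4,4],[0,0,0,0,4,2,2,0,0,2,2,4,1,3,4,1,2,4,0,3,4,2],[3,2,4,3,1,3,1,0,3,1,2,2,2,0,0,1,1,4,1,3,2,4],[2,1,2,4,0,3,4,1,3,3,2,0,4,0,4,2,3,1,4,3,3,3],[3,0,4,0,0,1,1,0,1,3,3,2,4,4,0,2,2,2,2,3,2,3],[2,2,1,4,1,3,3,1,3,0,2,2,4,3,2,4,3,0,4,0,4],[1,4,4,4,0,4,3,2,2,4,4,2,0,1,0,2,1,2,3,1,3],[4,1,1,4,3,3,4,1,3,2,0,1,4,2,2,2,2,3,2,0,4,3],[3,0,0,1,4,2,4,2,1,0,3,2,3,0,2,4,3,2,4,0,2,4],[2,1,4,4,4,3,3,4,4,1,1,4,2,2,0,4,2,3,1,0,0,4],[3,0,3,3,4,4,2,4,3,2,1,3,3,2,0,4,0,3,1,0,2,2]]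
  certY := [[[3,3,2,3,1,2,0,2,2,4,2,0,4,3,1,2,4,2,0,4,2],[3,3,3,2,1,0,2,2,0,4,2,2,4,1,3,2,2,4,0,4,3],[4,4,2,2,2,4,3,0,3,0,3,1,4,0,2,3,2,1,4,0,1,1]],[[0,0,1,1,2,2,4,1,2,0,2,4,0,3,2,1,0,2,0,4,0,2],[3,3,3,2,2,0,4,1,0,2,2,4,2,1,2,3,2,2,2,4,0,3],[4,1,0,2,0,3,2,2,4,1,3,1,4,0,0,0,2,3,2,0,2]],[[4,1,2,2,2,4,2,2,4,0,1,2,0,2,3,1,4,3,2,4,3,2],[1,0,4,0,2,4,0,2,4,2,1,0,2,2,1,3,0,4,1,4,2,3],[]]]

/-- level (6, 4) -/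
noncomputable def tC6_4 : Level where
  words := [[0,0,0,1,0,2,0,0,3,4]]
  pos := [(4,3)]
  rowsX := [[2]]
  rowsY := [[[],[],[],[1]],[[],[],[],[1]],[[],[],[],[1]],[[],[],[],[1]]]
  rels := [.comm 2 0 1,.comm 2 0 2,.comm 2 0 3,.comm 2 1 2,.comm 2 1 3,.comm 2 2 3,.s4 0 3 [1,2,3] (.y 0) .X .X .X,.s4 1 3 [1,2,3] (.y 0) .X .X .X,.s4 2 3 [1,2,3] (.y 0) .X .X .X,.s4 3 3 [1,2,3] (.y 0) .X .X .X,.s4 0 3 [0,2,3] (.y 1) .X .X .X,.s4 1 3 [0,2,3] (.y 1) .X .X .X,.s4 2 3 [0,2,3] (.y 1) .X .X .X,.s4 0 3 [0,1,3] (.y 2) .X .X .X,.s4 1 3 [0,1,3] (.y 2) .X .X .X,.s4 0 3 [0,1,2] (.y 3) .X .X .X]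
  certX := [[2,0,0,2,0,3,2,3,2,2,0,4,1,1,1]]
  certY := [[[0,0,0,0,0,0,2,4],[0,0,0,0,0,0,2,0,4],[0,0,0,0,0,0,2,0,0,4],[1,0,0,1,0,4,2,0,2,0,0,2,3,3,3]],[[0,0,0,0,0,0,0,0,0,0,2,4],[0,0,0,0,0,0,0,0,0,0,2,0,4],[4,0,0,0,0,0,4,1,4,4,3,4,1],[0,0,0,1,0,4,0,0,0,0,2,2,0,3,3]],[[0,0,0,0,0,0,0,0,0,0,0,0,0,2,4],[3,2,0,3,0,0,0,4,1,0,0,1,4,2,4],[2,2,0,2,0,0,4,0,0,4,0,4,1,3],[0,0,0,0,0,4]],[[1,0,0,3,2,2,1,4,1,1,4,1,3,4,4,3],[3,0,2,3,0,2,0,4,0,1,0,1,4,4,4,3],[3,0,2,0,2,0,0,4,0,1,4,0,4,0,0,3],[]]]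

/-- level (6, 5) -/
noncomputable def tC6_5 : Level where
  words := [[0,0,0,1,0,2,0,0,3,4,5]]
  pos := [(5,0)]
  rowsX := [[2]]
  rowsY := [[[1]],[[1]],[[1]],[[1]],[[1]]]
  rels := [.comm 3 0 1,.comm 3 0 2,.comm 3 0 3,.comm 3 0 4,.s4 0 3 [1,2,3,4] (.y 0) .X .X .X]
  certX := [[0,0,0,3,2]]
  certY := [[[0,0,0,4]],[[1,0,0,4]],[[0,1,0,4]],[[0,0,1,4]],[[]]]

/-- level (6, 6) -/
noncomputable def tC6_6 : Level where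
  words := []
  pos := []
  rowsX := []
  rowsY := [[[]],[[]],[[]],[[]],[[]],[[]]]
  rels := [.comm 0 0 1,.comm 0 0 2,.comm 0 0 3,.comm 0 0 4,.comm 0 0 5,.s4 0 3 [1,2,3,4,5] (.y 0) .X .X .X]
  certX := []
  certY := [[[0,0,0,0,0,3]],[[1,0,0,0,0,3]],[[0,1,0,0,0,3]],[[0,0,1,0,0,3]],[[0,0,0,1,0,3]],[[0,0,0,0,1,3]]]

/-- level (7, 0) -/
noncomputable def tC7_0 : Level where
  words := []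
  pos := []
  rowsX := []
  rowsY := []
  rels := []
  certX := []
  certY := []

/-- level (7, 1) -/
noncomputable def tC7_1 : Level where
  words := []
  pos := []
  rowsX := []
  rowsY := [[]]
  rels := []
  certX := []
  certY := [[]]

/-- level (7, 2) -/
noncomputable def tC7_2 : Level where
  words := []
  pos := []
  rowsX := [[],[],[]]
  rowsY := [[],[]]
  rels := [.s4 0 3 [0,1] .X .X .X .X,.s4 1 3 [0,1] .X .X .X .X,.s4 2 3 [0,1] .X .X .X .X]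
  certX := [[2,4],[2,0,4],[4,1]]
  certY := [[],[]]

/-- level (7, 3) -/
noncomputable def tC7_3 : Level where
  words := []
  pos := []
  rowsX := [[],[],[],[]]
  rowsY := [[],[],[]]
  rels := [.s4 0 3 [0,1,2] .X .X .X .X,.s4 1 3 [0,1,2] .X .X .X .X,.s4 2 3 [0,1,2] .X .X .X .X,.s4 3 3 [0,1,2] .X .X .X .X]
  certX := [[3,1],[3,0,1],[3,0,0,1],[4,4,4,1]]
  certY := [[],[],[]]

/-- level (7, 4) -/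
noncomputable def tC7_4 : Level where
  words := []
  pos := []
  rowsX := [[]]
  rowsY := [[],[],[],[]]
  rels := [.s4 0 3 [0,1,2,3] .X .X .X .X]
  certX := [[1]]
  certY := [[],[],[],[]]

/-- level (7, 5) -/
noncomputable def tC7_5 : Level where
  words := []
  pos := []
  rowsX := [[]]
  rowsY := [[],[],[],[],[]]
  rels := [.s4 0 3 [0,1,2,3,4] .X .X .X .X]
  certX := [[2]]
  certY := [[],[],[],[],[]]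

/-- level (7, 6) -/
noncomputable def tC7_6 : Level where
  words := []
  pos := []
  rowsX := []
  rowsY := [[],[],[],[],[],[]]
  rels := []
  certX := []
  certY := [[],[],[],[],[],[]]

/-- the table -/
noncomputable def tC : List (List Level) := [[tC0_0,tC0_1,tC0_2,tC0_3,tC0_4,tC0_5,tC0_6],[tC1_0,tC1_1,tC1_2,tC1_3,tC1_4,tC1_5,tC1_6],[tC2_0,tC2_1,tC2_2,tC2_3,tC2_4,tC2_5,tC2_6],[tC3_0,tC3_1,tC3_2,tC3_3,tC3_4,tC3_5,tC3_6],[tC4_0,tC4_1,tC4_2,tC4_3,tC4_4,tC4_5,tC4_6],[tC5_0,tC5_1,tC5_2,tC5_3,tC5_4,tC5_5,tC5_6],[tC6_0,tC6_1,tC6_2,tC6_3,tC6_4,tC6_5,tC6_6],[tC7_0,tC7_1,tC7_2,tC7_3,tC7_4,tC7_5,tC7_6]]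

end Pool.Agent.Lib.MP_544bd1_al.E5
end
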