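import Mathlib
import Pool.Agent.Lib.MP_544bd1_al.E5.Coind
import Pool.Agent.Lib.MP_544bd1_al.E5.Tab1
import Pool.Agent.Lib.MP_544bd1_al.EvM2

section

/-!
# Table of levels
-/

set_option maxRecDepth 100000

namespace Pool.Agent.Lib.MP_544bd1_al.E5

/-- level (0, 0) -/
noncomputable def tB0_0 : Level where
  words := [[]]
  pos := []
  rowsX := []
  rowsY := []
  rels := []
  certX := []
  certY := []

/-- level (0, 1) -/
noncomputable def tB0_1 : Level where
  words := []
  pos := []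
  rowsX := []
  rowsY := [[[]]]
  rels := [.outer]
  certX := []
  certY := [[[1]]]

/-- level (0, 2) -/
noncomputable def tB0_2 : Level where
  words := []
  pos := []
  rowsX := []
  rowsY := [[],[]]
  rels := []
  certX := []
  certY := [[],[]]

/-- level (0, 3) -/
noncomputable def tB0_3 : Level where
  words := []
  pos := []
  rowsX := []
  rowsY := [[],[],[]]
  rels := []
  certX := []
  certY := [[],[],[]]

/-- level (0, 4) -/
noncomputable def tB0_4 : Level where
  words := []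
  pos := []
  rowsX := []
  rowsY := [[],[],[],[]]
  rels := []
  certX := []
  certY := [[],[],[],[]]

/-- level (1, 0) -/
noncomputable def tB1_0 : Level where
  words := [[0]]
  pos := [(0,0)]
  rowsX := [[1]]
  rowsY := []
  rels := []
  certX := [[]]
  certY := []

/-- level (1, 1) -/
noncomputable def tB1_1 : Level where
  words := [[0,1]]
  pos := [(1,0)]
  rowsX := []
  rowsY := [[[1]]]
  rels := []
  certX := []
  certY := [[[]]]

/-- level (1, 2) -/
noncomputable def tB1_2 : Level where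
  words := [[0,1,2]]
  pos := [(2,0)]
  rowsX := []
  rowsY := [[[1]],[[1]]]
  rels := [.comm 0 0 1]
  certX := []
  certY := [[[4]],[[]]]

/-- level (1, 3) -/
noncomputable def tB1_3 : Level where
  words := []
  pos := []
  rowsX := []
  rowsY := [[[]],[[]],[[]]]
  rels := [.comm 0 0 1,.comm 0 0 2,.s4 0 0 [] (.y 0) (.y 1) (.y 2) .X]
  certX := []
  certY := [[[3,3,1]],[[4,3,1]],[[3,4,1]]]

/-- level (1, 4) -/
noncomputable def tB1_4 : Level where
  words := []
  pos := []
  rowsX := []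
  rowsY := [[],[],[],[]]
  rels := []
  certX := []
  certY := [[],[],[],[]]

/-- level (2, 0) -/
noncomputable def tB2_0 : Level where
  words := [[0,0]]
  pos := [(0,0)]
  rowsX := [[1]]
  rowsY := []
  rels := []
  certX := [[]]
  certY := []

/-- level (2, 1) -/
noncomputable def tB2_1 : Level where
  words := [[0,0,1],[0,1,0]]
  pos := [(1,0),(0,0)]
  rowsX := [[0,1]]
  rowsY := [[[1]]]
  rels := []
  certX := [[]]
  certY := [[[]]]

/-- level (2, 2) -/
noncomputable def tB2_2 : Level where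
  words := [[0,0,1,2],[0,1,0,2],[0,2,0,1]]
  pos := [(2,0),(2,1),(1,1)]
  rowsX := [[4,2,2]]
  rowsY := [[[1],[0,0,1]],[[1],[0,1]]]
  rels := [.comm 0 0 1,.s4 0 0 [] (.y 0) (.y 1) .X .X]
  certX := [[3,4]]
  certY := [[[4],[]],[[],[]]]

/-- level (2, 3) -/
noncomputable def tB2_3 : Level where
  words := [[0,1,0,2,3]]
  pos := [(3,1)]
  rowsX := []
  rowsY := [[[],[1],[1]],[[],[1],[1]],[[],[1],[1]]]
  rels := [.comm 0 0 1,.comm 1 0 1,.comm 0 0 2,.comm 1 0 2,.comm 1 1 2,.t4 0 0 [] (.y 0) (.y 1) (.y 2) .X .X,.t4 0 0 [] (.y 0) (.y 1) .X .X (.y 2),.t4 0 0 [] (.y 0) (.y 2) .X .X (.y 1)]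
  certX := []
  certY := [[[3,0,3,0,0,1],[1,3,0,1,3,4,2,4],[0,1,1,3,1,4,4,2]],[[4,0,3,0,0,1],[0,0,0,0,4],[0,2,1,3,1,4,4,2]],[[3,0,4,0,0,1],[],[1,3,0,2,3,4,2,4]]]

/-- level (2, 4) -/
noncomputable def tB2_4 : Level where
  words := []
  pos := []
  rowsX := []
  rowsY := [[[]],[[]],[[]],[[]]]
  rels := [.comm 1 0 1,.comm 1 0 2,.comm 1 0 3,.t4 0 1 [] (.y 0) (.y 1) (.y 2) (.y 3) .X]
  certX := []
  certY := [[[1,1,1,4]],[[2,1,1,4]],[[1,2,1,4]],[[1,1,2,4]]]

/-- level (3, 0) -/
noncomputable def tB3_0 : Level where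
  words := [[0,0,0]]
  pos := [(0,0)]
  rowsX := [[1]]
  rowsY := []
  rels := []
  certX := [[]]
  certY := []

/-- level (3, 1) -/
noncomputable def tB3_1 : Level where
  words := [[0,0,0,1],[0,0,1,0]]
  pos := [(1,0),(0,0)]
  rowsX := [[0,1],[4,4]]
  rowsY := [[[1]]]
  rels := [.s4 0 0 [] (.y 0) .X .X .X]
  certX := [[],[1]]
  certY := [[[]]]

/-- level (3, 2) -/
noncomputable def tB3_2 : Level where
  words := [[0,0,0,1,2],[0,0,1,0,2],[0,0,2,0,1],[0,1,0,2,0]]
  pos := [(2,0),(2,1),(1,1),(0,1)]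
  rowsX := [[4,2,2],[0,0,0,1],[0,4,1,1]]
  rowsY := [[[1],[0,0,1]],[[1],[0,1]]]
  rels := [.comm 0 0 1,.t4 0 0 [] (.y 0) (.y 1) .X .X .X,.t4 0 0 [] (.y 0) .X .X .X (.y 1)]
  certX := [[3,4],[],[4,3,2]]
  certY := [[[4],[]],[[],[]]]

/-- level (3, 3) -/
noncomputable def tB3_3 : Level where
  words := [[0,0,0,1,2,3],[0,0,1,0,2,3]]
  pos := [(3,0),(3,1)]
  rowsX := [[3,1]]
  rowsY := [[[1],[0,1],[0,1],[2]],[[1],[0,1],[0,1],[2]],[[1],[0,1],[0,1],[2]]]
  rels := [.comm 0 0 1,.comm 1 0 1,.comm 0 0 2,.comm 1 0 2,.comm 1 1 2,.t4 0 1 [] (.y 0) (.y 1) (.y 2) .X .X,.t4 0 1 [] (.y 0) (.y 1) .X .X (.y 2),.t4 0 1 [] (.y 0) (.y 2) .X .X (.y 1),.s4 0 0 [] (.y 0) .X (.b .X (.y 1)) (.b .X (.y 2)),.s4 0 0 [] (.y 1) .X (.b .X (.y 0)) (.b .X (.y 2)),.s4 0 0 [] (.y 2) .X (.b .X (.y 0)) (.b .X (.y 1))]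
  certX := [[3,1,0,1,2,3,4,4,2,1,1]]
  certY := [[[0,0,4],[1,2,0,3,1,3,4,3,1,4],[0,3,1,2,3,3,3,4,1,0,4],[1,4,3,0,4,0,3,2,0,0,1]],[[1,0,4],[0,0,0,0,4],[0,4,1,2,3,3,3,4,1,0,4],[1,1,3,4,0,1,1,3,0,0,1]],[[],[],[1,2,0,4,1,3,4,3,1,4],[0,4,4,1,0,1,3,1,0,1]]]

/-- level (3, 4) -/
noncomputable def tB3_4 : Level where
  words := []
  pos := []
  rowsX := []
  rowsY := [[[],[]],[[],[]],[[],[]],[[],[]]]
  rels := [.comm 0 0 1,.comm 1 0 1,.comm 0 0 2,.comm 1 0 2,.comm 0 0 3,.comm 1 0 3,.s4 0 1 [2,3] (.y 0) (.y 1) .X .X,.t4 0 1 [3] (.y 0) (.y 1) (.y 2) .X .X]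
  certX := []
  certY := [[[2,0,0,0,0,0,4],[0,3,0,3,0,0,0,4]],[[3,0,0,0,0,0,4],[0,4,0,3,0,0,0,4]],[[2,0,1,0,0,0,4],[0,3,0,4,0,0,0,4]],[[2,0,0,0,1,0,4],[0,3,0,3,0,1,0,4]]]

/-- level (4, 0) -/
noncomputable def tB4_0 : Level where
  words := []
  pos := []
  rowsX := [[]]
  rowsY := []
  rels := [.s4 0 0 [] .X .X .X .X]
  certX := [[4]]
  certY := []

/-- level (4, 1) -/
noncomputable def tB4_1 : Level where
  words := [[0,0,0,1,0]]
  pos := [(0,0)]
  rowsX := [[1],[4]]
  rowsY := [[]]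
  rels := [.t4 0 0 [] (.y 0) .X .X .X .X]
  certX := [[],[1]]
  certY := [[]]

/-- level (4, 2) -/
noncomputable def tB4_2 : Level where
  words := [[0,0,0,1,0,2],[0,0,0,2,0,1],[0,0,0,1,2,0]]
  pos := [(2,0),(1,0),(0,0)]
  rowsX := [[0,0,1],[4,3,2],[3,4,2],[1,0,2]]
  rowsY := [[[0,1]],[[1]]]
  rels := [.t4 0 1 [] (.y 0) (.y 1) .X .X .X,.t4 0 1 [] (.y 0) .X .X .X (.y 1),.s4 0 0 [] .X .X (.b .X (.y 0)) (.b .X (.y 1))]
  certX := [[],[0,4,3],[3,1,3],[4,4,3]]
  certY := [[[]],[[]]]

/-- level (4, 3) -/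
noncomputable def tB4_3 : Level where
  words := []
  pos := []
  rowsX := [[],[]]
  rowsY := [[[],[],[]],[[],[],[]],[[],[],[]]]
  rels := [.comm 0 0 1,.comm 0 0 2,.comm 0 1 2,.s4 0 1 [1,2] (.y 0) .X .X .X,.s4 0 1 [0,2] (.y 1) .X .X .X,.s4 0 1 [0,1] (.y 2) .X .X .X,.t4 0 1 [2] (.y 0) (.y 1) .X .X .X,.t4 0 1 [2] (.y 0) .X .X .X (.y 1),.t4 0 1 [1] (.y 0) (.y 2) .X .X .X,.t4 0 0 [] (.y 0) .X (.b .X (.y 1)) (.b .X (.y 2)) .X,.s4 0 0 [] .X (.b .X (.y 0)) (.b .X (.y 1)) (.b .X (.y 2))]
  certX := [[3,3,3,1,4,2,4,1,1,4],[1,1,0,2,1,1,4,0,4,4,4]]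
  certY := [[[0,0,4,2,3,2,1,2,2,1,4],[0,0,3,2,1,4,3,2,0,1,4],[2,2,1,3,4,0,4,2,3,0,1]],[[0,0,4,0,0,2,4,4,2,1,4],[1,0,3,2,1,4,3,2,0,1,4],[4,2,1,3,4,0,0,1,3,0,1]],[[0,0,0,0,0,2,4,4,2,1,4],[0,1,4,2,3,2,1,2,2,1,4],[2,4,0,3,2,2,1,1,2,0,1]]]

/-- level (4, 4) -/
noncomputable def tB4_4 : Level where
  words := []
  pos := []
  rowsX := []
  rowsY := [[],[],[],[]]
  rels := []
  certX := []
  certY := [[],[],[],[]]

/-- level (5, 0) -/
noncomputable def tB5_0 : Level where
  words := []
  pos := []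
  rowsX := []
  rowsY := []
  rels := []
  certX := []
  certY := []

/-- level (5, 1) -/
noncomputable def tB5_1 : Level where
  words := []
  pos := []
  rowsX := [[]]
  rowsY := [[]]
  rels := [.t4 0 1 [] (.y 0) .X .X .X .X]
  certX := [[1]]
  certY := [[]]

/-- level (5, 2) -/
noncomputable def tB5_2 : Level where
  words := []
  pos := []
  rowsX := [[],[],[]]
  rowsY := [[],[]]
  rels := [.s4 0 1 [0,1] .X .X .X .X,.t4 0 1 [1] (.y 0) .X .X .X .X,.t4 0 1 [0] (.y 1) .X .X .X .X]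
  certX := [[3,1],[3,0,1],[1,2,2]]
  certY := [[],[]]

/-- level (5, 3) -/
noncomputable def tB5_3 : Level where
  words := []
  pos := []
  rowsX := []
  rowsY := [[],[],[]]
  rels := []
  certX := []
  certY := [[],[],[]]

/-- level (5, 4) -/
noncomputable def tB5_4 : Level where
  words := []
  pos := []
  rowsX := []
  rowsY := [[],[],[],[]]
  rels := []
  certX := []
  certY := [[],[],[],[]]

/-- the table -/
noncomputable def tB : List (List Level) := [[tB0_0,tB0_1,tB0_2,tB0_3,tB0_4],[tB1_0,tB1_1,tB1_2,tB1_3,tB1_4],[tB2_0,tB2_1,tB2_2,tB2_3,tB2_4],[tB3_0,tB3_1,tB3_2,tB3_3,tB3_4],[tB4_0,tB4_1,tB4_2,tB4_3,tB4_4],[tB5_0,tB5_1,tB5_2,tB5_3,tB5_4]]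

end Pool.Agent.Lib.MP_544bd1_al.E5
end

section

/-!
# Checking the table for the Engel identity of degree four (more letters)
-/

namespace Pool.Agent.Lib.MP_544bd1_al.E5

theorem ckC4 : ∀ k < 8, checkAt [0, 1] tC k 4 = true := by decide +kernel

theorem ckC5 : ∀ k < 8, checkAt [0, 1] tC k 5 = true := by decide +kernel

theorem ckC6 : ∀ k < 8, checkAt [0, 1] tC k 6 = true := by decide +kernel

end Pool.Agent.Lib.MP_544bd1_al.E5
end

section

/-!
# The weighted series of a normal subgroup of a nilpotent group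
-/

namespace Pool.Agent.Lib.MP_544bd1_al.E5

open Subgroup
open scoped commutatorElement

variable {H : Type*} [Group H]

/-- `Wt N s k g`: `g` is a commutator of weight `s + 1` with `k` entries marked as entries from the
normal subgroup `N`. -/
inductive Wt (N : Subgroup H) : ℕ → ℕ → H → Prop
  | base (g : H) : Wt N 0 0 g
  | inN {g : H} : g ∈ N → Wt N 0 1 g
  | comm {s k s' k' : ℕ} {g h : H} : Wt N s k g → Wt N s' k' h → Wt N (s + s' + 1) (k + k') ⁅g, h⁆

theorem Wt.conj {N : Subgroup H} [N.Normal] {s k : ℕ} {g : H} (h : Wt N s k g) (x : H) :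
    Wt N s k (x * g * x⁻¹) := by
  induction h with
  | base g => exact Wt.base _
  | inN hg => exact Wt.inN (Normal.conj_mem inferInstance _ hg x)
  | @comm s k s' k' g h _ _ ih1 ih2 =>
    have e : x * ⁅g, h⁆ * x⁻¹ = ⁅x * g * x⁻¹, x * h * x⁻¹⁆ := by
      simp only [commutatorElement_def]; group
    rw [e]; exact Wt.comm ih1 ih2

theorem Wt.k_le {N : Subgroup H} {s k : ℕ} {g : H} (h : Wt N s k g) : k ≤ s + 1 := by
  induction h with
  | base g => omega
  | inN hg => omega
  | comm _ _ ih1 ih2 => omega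

theorem Wt.mem_lcs {N : Subgroup H} {s k : ℕ} {g : H} (h : Wt N s k g) :
    ∀ c : ℕ, 2 ^ c ≤ s + 1 → g ∈ (⊤ : Subgroup H).lowerCentralSeries c := by
  induction h with
  | base g =>
    intro c hc
    rcases c with _ | c
    · exact Subgroup.mem_top _
    · exfalso
      have : 2 ≤ 2 ^ (c + 1) := by
        rw [pow_succ]; have := Nat.one_le_two_pow (n := c); omega
      omega
  | inN hg =>
    intro c hc
    rcases c with _ | c
    · exact Subgroup.mem_top _
    · exfalso
      have : 2 ≤ 2 ^ (c + 1) := by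
        rw [pow_succ]; have := Nat.one_le_two_pow (n := c); omega
      omega
  | @comm s k s' k' g h _ _ ih1 ih2 =>
    intro c hc
    rcases c with _ | c
    · exact Subgroup.mem_top _
    · rw [pow_succ] at hc
      rw [Subgroup.lowerCentralSeries_succ]
      have hor : 2 ^ c ≤ s + 1 ∨ 2 ^ c ≤ s' + 1 := by omega
      rcases hor with h1 | h1
      · exact Subgroup.commutator_mem_commutator (ih1 c h1) (Subgroup.mem_top _)
      · rw [Subgroup.commutator_comm]
        exact Subgroup.commutator_mem_commutator (Subgroup.mem_top _) (ih2 c h1)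

/-- the subgroups of the weighted series -/
def wtF (N : Subgroup H) (C i : ℕ) : Subgroup H :=
  closure {g | ∃ s k, Wt N s k g ∧ i ≤ s + C * k}

theorem wtF_conj (N : Subgroup H) [N.Normal] (C i : ℕ) {g : H} (hg : g ∈ wtF N C i) (x : H) :
    x * g * x⁻¹ ∈ wtF N C i := by
  induction hg using closure_induction with
  | mem g hg =>
    obtain ⟨s, k, h, hi⟩ := hg
    exact subset_closure ⟨s, k, h.conj x, hi⟩
  | one => rw [mul_one, mul_inv_cancel]; exact one_mem _
  | mul a b _ _ ha hb =>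
    have e : x * (a * b) * x⁻¹ = (x * a * x⁻¹) * (x * b * x⁻¹) := by group
    rw [e]; exact mul_mem ha hb
  | inv a _ ha =>
    have e : x * a⁻¹ * x⁻¹ = (x * a * x⁻¹)⁻¹ := by group
    rw [e]; exact inv_mem ha

/-- the weighted series -/
def wtSer (N : Subgroup H) [N.Normal] (C : ℕ) : Ser H where
  F := wtF N C
  anti i := by
    rw [wtF, closure_le]
    rintro g ⟨s, k, h, hi⟩
    exact subset_closure ⟨s, k, h, by omega⟩
  comm i j := by
    rw [Subgroup.commutator_le]
    intro f hf c hc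
    induction hf using closure_induction with
    | mem f hf =>
      obtain ⟨s, k, hs, hi⟩ := hf
      induction hc using closure_induction with
      | mem c hc =>
        obtain ⟨s', k', hs', hj⟩ := hc
        refine subset_closure ⟨_, _, Wt.comm hs hs', ?_⟩
        rw [mul_add]; omega
      | one => rw [commutatorElement_one_right]; exact one_mem _
      | mul a b _ _ ha hb =>
        have h1 : ⁅f, a * b⁆ = ⁅f, a⁆ * (a * ⁅f, b⁆ * a⁻¹) := by
          simp only [commutatorElement_def]; group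
        rw [h1]; exact mul_mem ha (wtF_conj N C _ hb a)
      | inv a _ ha =>
        have h1 : ⁅f, a⁻¹⁆ = a⁻¹ * (⁅f, a⁆)⁻¹ * (a⁻¹)⁻¹ := by
          simp only [commutatorElement_def]; group
        rw [h1]; exact wtF_conj N C _ (inv_mem ha) _
    | one => rw [commutatorElement_one_left]; exact one_mem _
    | mul a b _ _ ha hb =>
      have h1 : ⁅a * b, c⁆ = (a * ⁅b, c⁆ * a⁻¹) * ⁅a, c⁆ := by
        simp only [commutatorElement_def]; group
      rw [h1]; exact mul_mem (wtF_conj N C _ hb a) ha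
    | inv a _ ha =>
      have h1 : ⁅a⁻¹, c⁆ = a⁻¹ * (⁅a, c⁆)⁻¹ * (a⁻¹)⁻¹ := by
        simp only [commutatorElement_def]; group
      rw [h1]; exact wtF_conj N C _ (inv_mem ha) _

theorem Wt.mem_F {N : Subgroup H} [N.Normal] {C s k : ℕ} {g : H} (h : Wt N s k g) :
    g ∈ (wtSer N C).F (s + C * k) :=
  subset_closure ⟨s, k, h, le_rfl⟩

section main

variable (x : H) (C : ℕ)

/-- the series for the normal closure of `x` -/
noncomputable abbrev xSer : Ser H := wtSer (normalClosure {x}) C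

/-- the operator of `x` -/
noncomputable abbrev xOp : (xSer x C).Rg := (xSer x C).ado C x

/-- the additive span of the words with at least `k` factors `X` -/
noncomputable def DD (k : ℕ) : AddSubgroup (xSer x C).Rg :=
  AddSubgroup.closure {r | ∃ k' m, k ≤ k' ∧ Wd (xSer x C).LL (xOp x C) k' m r}

theorem DD_mul {k l : ℕ} {r s : (xSer x C).Rg} (hr : r ∈ DD x C k) (hs : s ∈ DD x C l) :
    r * s ∈ DD x C (k + l) := by
  induction hr using AddSubgroup.closure_induction with
  | mem r hr =>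
    obtain ⟨k', m, hk, hw⟩ := hr
    induction hs using AddSubgroup.closure_induction with
    | mem s hs =>
      obtain ⟨l', m', hl, hw'⟩ := hs
      exact AddSubgroup.subset_closure ⟨_, _, by omega, hw.mul hw'⟩
    | zero => rw [mul_zero]; exact zero_mem _
    | add a b _ _ ha hb => rw [mul_add]; exact add_mem ha hb
    | neg a _ ha => rw [mul_neg]; exact neg_mem ha
  | zero => rw [zero_mul]; exact zero_mem _
  | add a b _ _ ha hb => rw [add_mul]; exact add_mem ha hb
  | neg a _ ha => rw [neg_mul]; exact neg_mem ha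

theorem x_mem_F : x ∈ (xSer x C).F C := by
  have h : Wt (normalClosure {x}) 0 1 x := Wt.inN (subset_normalClosure rfl)
  have := h.mem_F (C := C)
  rwa [zero_add, mul_one] at this

theorem conj_mem_F (h : H) : h * x * h⁻¹ ∈ (xSer x C).F C :=
  wtF_conj _ C C (x_mem_F x C) h

/-- operators of elements of the normal closure of `x` -/
theorem ado_N {g : H} (hg : g ∈ normalClosure {x}) :
    g ∈ (xSer x C).F C ∧ (xSer x C).ado C g ∈ DD x C 1 := by
  rw [normalClosure] at hg
  induction hg using closure_induction with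
  | mem g hg =>
    rw [Group.mem_conjugatesOfSet_iff] at hg
    obtain ⟨y, hy, hyg⟩ := hg
    rw [Set.mem_singleton_iff] at hy
    subst hy
    obtain ⟨h, rfl⟩ := isConj_iff.1 hyg
    refine ⟨conj_mem_F y C h, ?_⟩
    have h0 : h ∈ (xSer y C).F 0 := subset_closure ⟨0, 0, Wt.base h, by omega⟩
    rw [(xSer y C).ado_conj h0 (x_mem_F y C)]
    refine AddSubgroup.subset_closure ⟨1, 0, le_rfl, ?_⟩
    have := Wd.mulX (Wd.one (L := (xSer y C).LL) (X := xOp y C))
    rwa [one_mul] at this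
  | one => exact ⟨one_mem _, by rw [Ser.ado_one]; exact zero_mem _⟩
  | mul a b _ _ ha hb =>
    refine ⟨mul_mem ha.1 hb.1, ?_⟩
    rw [Ser.ado_mul _ ha.1 hb.1]; exact add_mem ha.2 hb.2
  | inv a _ ha =>
    refine ⟨inv_mem ha.1, ?_⟩
    rw [Ser.ado_inv _ ha.1]; exact neg_mem ha.2

theorem ado_Wt {s k : ℕ} {g : H} (h : Wt (normalClosure {x}) s k g) :
    (xSer x C).ado (s + C * k) g ∈ DD x C k := by
  induction h with
  | base g =>
    have h0 : g ∈ (xSer x C).F 0 := subset_closure ⟨0, 0, Wt.base g, by omega⟩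
    rw [mul_zero, add_zero]
    refine AddSubgroup.subset_closure ⟨0, 1, le_rfl, ?_⟩
    have := Wd.mulL ((xSer x C).ado_mem_LL h0) (Wd.one (L := (xSer x C).LL) (X := xOp x C))
    rwa [one_mul] at this
  | inN hg =>
    rw [zero_add, mul_one]
    exact (ado_N x C hg).2
  | @comm s k s' k' g h h1 h2 ih1 ih2 =>
    have e : s + s' + 1 + C * (k + k') = (s + C * k) + (s' + C * k') + 1 := by ring
    rw [e, Ser.ado_comm _ h1.mem_F h2.mem_F]
    have h3 := DD_mul x C ih2 ih1
    rw [add_comm k' k] at h3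
    exact sub_mem (DD_mul x C ih1 ih2) h3

/-- the additive span of the elements with at least `k` entries `x` -/
noncomputable def MM (k : ℕ) : AddSubgroup (xSer x C).M :=
  AddSubgroup.closure {m | (∃ g, ∃ r ∈ DD x C k, m = (xSer x C).act ((xSer x C).cls 0 g) r) ∨
    (∃ j, k ≤ j + 1 ∧ ∃ r ∈ DD x C j, m = (xSer x C).act ((xSer x C).cls C x) r)}

theorem MM_act {k l : ℕ} {m : (xSer x C).M} {r : (xSer x C).Rg} (hm : m ∈ MM x C k)
    (hr : r ∈ DD x C l) : (xSer x C).act m r ∈ MM x C (k + l) := by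
  induction hm using AddSubgroup.closure_induction with
  | mem m hm =>
    rcases hm with ⟨g, s, hs, rfl⟩ | ⟨j, hj, s, hs, rfl⟩
    · rw [← Ser.act_mul]
      exact AddSubgroup.subset_closure (Or.inl ⟨g, s * r, DD_mul x C hs hr, rfl⟩)
    · rw [← Ser.act_mul]
      exact AddSubgroup.subset_closure (Or.inr ⟨j + l, by omega, s * r, DD_mul x C hs hr, rfl⟩)
  | zero => rw [Ser.zero_act]; exact zero_mem _
  | add a b _ _ ha hb => rw [Ser.add_act]; exact add_mem ha hb
  | neg a _ ha => rw [Ser.neg_act]; exact neg_mem ha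

theorem one_mem_DD : (1 : (xSer x C).Rg) ∈ DD x C 0 :=
  AddSubgroup.subset_closure ⟨0, 0, le_rfl, Wd.one⟩

theorem cls_N {g : H} (hg : g ∈ normalClosure {x}) :
    g ∈ (xSer x C).F C ∧ (xSer x C).cls C g ∈ MM x C 1 := by
  rw [normalClosure] at hg
  induction hg using closure_induction with
  | mem g hg =>
    rw [Group.mem_conjugatesOfSet_iff] at hg
    obtain ⟨y, hy, hyg⟩ := hg
    rw [Set.mem_singleton_iff] at hy
    subst hy
    obtain ⟨h, rfl⟩ := isConj_iff.1 hyg
    refine ⟨conj_mem_F y C h, ?_⟩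
    have h0 : h ∈ (xSer y C).F 0 := subset_closure ⟨0, 0, Wt.base h, by omega⟩
    rw [(xSer y C).cls_conj h0 (x_mem_F y C)]
    exact AddSubgroup.subset_closure (Or.inr ⟨0, le_rfl, 1, one_mem_DD y C, rfl⟩)
  | one => exact ⟨one_mem _, by rw [Ser.cls_one]; exact zero_mem _⟩
  | mul a b _ _ ha hb =>
    refine ⟨mul_mem ha.1 hb.1, ?_⟩
    rw [Ser.cls_mul _ ha.1 hb.1]; exact add_mem ha.2 hb.2
  | inv a _ ha =>
    refine ⟨inv_mem ha.1, ?_⟩
    rw [Ser.cls_inv _ ha.1]; exact neg_mem ha.2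

theorem cls_Wt {s k : ℕ} {g : H} (h : Wt (normalClosure {x}) s k g) :
    (xSer x C).cls (s + C * k) g ∈ MM x C k := by
  induction h with
  | base g =>
    rw [mul_zero, add_zero]
    exact AddSubgroup.subset_closure (Or.inl ⟨g, 1, one_mem_DD x C, rfl⟩)
  | inN hg =>
    rw [zero_add, mul_one]
    exact (cls_N x C hg).2
  | @comm s k s' k' g h h1 h2 ih1 ih2 =>
    have e : s + s' + 1 + C * (k + k') = (s + C * k) + (s' + C * k') + 1 := by ring
    rw [e, ← Ser.act_cls _ h1.mem_F h2.mem_F]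
    exact MM_act x C ih1 (ado_Wt x C h2)

/-- If all words with at least `b` factors `X` vanish, the elements with more than `b` entries from
the normal closure of `x` vanish. -/
theorem F_eq_bot {b c : ℕ} (hc : (⊤ : Subgroup H).lowerCentralSeries c = ⊥) (hC : C = 2 ^ c)
    (hb : ∀ k m r, b ≤ k → Wd (xSer x C).LL (xOp x C) k m r → r = 0) :
    (xSer x C).F ((b + 1) * C) = ⊥ := by
  have hC1 : 1 ≤ C := by rw [hC]; exact Nat.one_le_two_pow
  have hDD : ∀ j, b ≤ j → ∀ r ∈ DD x C j, r = 0 := by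
    intro j hj r hr
    induction hr using AddSubgroup.closure_induction with
    | mem r hr => obtain ⟨k', m, hk, hw⟩ := hr; exact hb k' m r (by omega) hw
    | zero => rfl
    | add a b _ _ ha hb => rw [ha, hb, add_zero]
    | neg a _ ha => rw [ha, neg_zero]
  have hMM : ∀ k, b + 1 ≤ k → ∀ m ∈ MM x C k, m = 0 := by
    intro k hk m hm
    induction hm using AddSubgroup.closure_induction with
    | mem m hm =>
      rcases hm with ⟨g, s, hs, rfl⟩ | ⟨j, hj, s, hs, rfl⟩
      · rw [hDD k (by omega) s hs, Ser.act_zero]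
      · rw [hDD j (by omega) s hs, Ser.act_zero]
    | zero => rfl
    | add a b _ _ ha hb => rw [ha, hb, add_zero]
    | neg a _ ha => rw [ha, neg_zero]
  have htriv : ∀ s k g, Wt (normalClosure {x}) s k g → C ≤ s + 1 → g = 1 := by
    intro s k g h hs
    have := h.mem_lcs c (by rw [← hC]; exact hs)
    rw [hc] at this
    exact Subgroup.mem_bot.1 this
  have hstep : ∀ i, (b + 1) * C ≤ i → (xSer x C).F i ≤ (xSer x C).F (i + 1) := by
    intro i hi
    show Subgroup.closure _ ≤ _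
    rw [closure_le]
    rintro g ⟨s, k, h, hik⟩
    by_cases hs : C ≤ s + 1
    · rw [htriv s k g h hs]; exact one_mem _
    · have hk : b + 1 ≤ k := by
        by_contra hk
        have h1 : k + 1 ≤ b + 1 := by omega
        have h2 : (k + 1) * C ≤ (b + 1) * C := Nat.mul_le_mul_right C h1
        have h3 : (k + 1) * C = C * k + C := by ring
        omega
      have h1 := hMM k hk _ (cls_Wt x C h)
      have h2 := ((xSer x C).cls_eq_zero h.mem_F).1 h1
      exact (xSer x C).mono (by omega) h2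
  have hchain : ∀ n, (xSer x C).F ((b + 1) * C) ≤ (xSer x C).F ((b + 1) * C + n) := by
    intro n
    induction n with
    | zero => exact le_rfl
    | succ n ih => exact ih.trans (hstep _ (by omega))
  have hend : (xSer x C).F ((b + 1) * C + (C + C * C)) = ⊥ := by
    rw [eq_bot_iff]
    show Subgroup.closure _ ≤ _
    rw [closure_le]
    rintro g ⟨s, k, h, hik⟩
    have hk := h.k_le
    have hs : C ≤ s + 1 := by
      by_contra hs
      have h1 : s + 1 ≤ C := by omega
      have h2 : C * k ≤ C * (s + 1) := Nat.mul_le_mul_left C hk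
      have h3 : C * (s + 1) ≤ C * C := Nat.mul_le_mul_left C h1
      omega
    rw [htriv s k g h hs]; exact one_mem _
  exact eq_bot_iff.2 ((hchain _).trans hend.le)

theorem lcs_le_F (i : ℕ) :
    (normalClosure {x}).lowerCentralSeries i ≤ (xSer x C).F (i + C * (i + 1)) := by
  induction i with
  | zero =>
    intro g hg
    have := (ado_N x C (g := g) hg).1
    rw [zero_add, zero_add, mul_one]; exact this
  | succ i ih =>
    rw [Subgroup.lowerCentralSeries_succ]
    have h1 : normalClosure {x} ≤ (xSer x C).F C := fun g hg => (ado_N x C hg).1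
    refine (Subgroup.commutator_mono ih h1).trans (((xSer x C).comm _ _).trans
      ((xSer x C).mono ?_))
    have : C * (i + 1 + 1) = C * (i + 1) + C := by ring
    omega

/-- the lower central series of the normal closure of an element -/
theorem lcs_comm {b c i : ℕ} (hc : (⊤ : Subgroup H).lowerCentralSeries c = ⊥) (hC : C = 2 ^ c)
    (hb : ∀ k m r, b ≤ k → Wd (xSer x C).LL (xOp x C) k m r → r = 0) (hi : b + 1 ≤ 2 * (i + 1)) :
    ⁅(normalClosure {x}).lowerCentralSeries i, (normalClosure {x}).lowerCentralSeries i⁆ = ⊥ := by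
  rw [eq_bot_iff]
  refine (Subgroup.commutator_mono (lcs_le_F x C i) (lcs_le_F x C i)).trans ?_
  refine ((xSer x C).comm _ _).trans ?_
  rw [← F_eq_bot x C hc hC hb]
  apply (xSer x C).mono
  have h1 : (b + 1) * C ≤ 2 * (i + 1) * C := Nat.mul_le_mul_right C hi
  have h2 : 2 * (i + 1) * C = C * (i + 1) + C * (i + 1) := by ring
  omega

end main

end Pool.Agent.Lib.MP_544bd1_al.E5
end

section

/-!
# Table of levels
-/

set_option maxRecDepth 100000

namespace Pool.Agent.Lib.MP_544bd1_al.E5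

/-- level (0, 0) -/
noncomputable def tA0_0 : Level where
  words := [[]]
  pos := []
  rowsX := []
  rowsY := []
  rels := []
  certX := []
  certY := []

/-- level (0, 1) -/
noncomputable def tA0_1 : Level where
  words := []
  pos := []
  rowsX := []
  rowsY := [[[]]]
  rels := [.outer]
  certX := []
  certY := [[[1]]]

/-- level (0, 2) -/
noncomputable def tA0_2 : Level where
  words := []
  pos := []
  rowsX := []
  rowsY := [[],[]]
  rels := []
  certX := []
  certY := [[],[]]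

/-- level (0, 3) -/
noncomputable def tA0_3 : Level where
  words := []
  pos := []
  rowsX := []
  rowsY := [[],[],[]]
  rels := []
  certX := []
  certY := [[],[],[]]

/-- level (1, 0) -/
noncomputable def tA1_0 : Level where
  words := [[0]]
  pos := [(0,0)]
  rowsX := [[1]]
  rowsY := []
  rels := []
  certX := [[]]
  certY := []

/-- level (1, 1) -/
noncomputable def tA1_1 : Level where
  words := [[0,1]]
  pos := [(1,0)]
  rowsX := []
  rowsY := [[[1]]]
  rels := []
  certX := []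
  certY := [[[]]]

/-- level (1, 2) -/
noncomputable def tA1_2 : Level where
  words := []
  pos := []
  rowsX := []
  rowsY := [[[]],[[]]]
  rels := [.comm 0 0 1,.s3 0 0 [] (.y 0) (.y 1) .X]
  certX := []
  certY := [[[2,3]],[[3,3]]]

/-- level (1, 3) -/
noncomputable def tA1_3 : Level where
  words := []
  pos := []
  rowsX := []
  rowsY := [[],[],[]]
  rels := []
  certX := []
  certY := [[],[],[]]

/-- level (2, 0) -/
noncomputable def tA2_0 : Level where
  words := [[0,0]]
  pos := [(0,0)]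
  rowsX := [[1]]
  rowsY := []
  rels := []
  certX := [[]]
  certY := []

/-- level (2, 1) -/
noncomputable def tA2_1 : Level where
  words := [[0,0,1]]
  pos := [(1,0)]
  rowsX := [[4]]
  rowsY := [[[1]]]
  rels := [.s3 0 0 [] (.y 0) .X .X]
  certX := [[3]]
  certY := [[[]]]

/-- level (2, 2) -/
noncomputable def tA2_2 : Level where
  words := []
  pos := []
  rowsX := []
  rowsY := [[[]],[[]]]
  rels := [.comm 0 0 1,.t3 0 0 [] (.y 0) (.y 1) .X .X]
  certX := []
  certY := [[[2,3]],[[3,3]]]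

/-- level (2, 3) -/
noncomputable def tA2_3 : Level where
  words := []
  pos := []
  rowsX := []
  rowsY := [[],[],[]]
  rels := []
  certX := []
  certY := [[],[],[]]

/-- level (3, 0) -/
noncomputable def tA3_0 : Level where
  words := []
  pos := []
  rowsX := [[]]
  rowsY := []
  rels := [.s3 0 0 [] .X .X .X]
  certX := [[1]]
  certY := []

/-- level (3, 1) -/
noncomputable def tA3_1 : Level where
  words := []
  pos := []
  rowsX := [[]]
  rowsY := [[]]
  rels := [.t3 0 0 [] (.y 0) .X .X .X]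
  certX := [[3]]
  certY := [[]]

/-- level (3, 2) -/
noncomputable def tA3_2 : Level where
  words := []
  pos := []
  rowsX := []
  rowsY := [[],[]]
  rels := []
  certX := []
  certY := [[],[]]

/-- level (3, 3) -/
noncomputable def tA3_3 : Level where
  words := []
  pos := []
  rowsX := []
  rowsY := [[],[],[]]
  rels := []
  certX := []
  certY := [[],[],[]]

/-- the table -/
noncomputable def tA : List (List Level) := [[tA0_0,tA0_1,tA0_2,tA0_3],[tA1_0,tA1_1,tA1_2,tA1_3],[tA2_0,tA2_1,tA2_2,tA2_3],[tA3_0,tA3_1,tA3_2,tA3_3]]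

end Pool.Agent.Lib.MP_544bd1_al.E5
end
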