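import Mathlib
import Pool.Agent.Lib.MP_544bd1_al.E5.Tab1
import Pool.Agent.Lib.MP_544bd1_al.E5.Coind
import Pool.Agent.Lib.MP_544bd1_al.E5.ChkLev
import Pool.Agent.Lib.MP_544bd1_al.E5.Tab3
import Pool.Agent.Lib.MP_544bd1_al.EvD
import Pool.Agent.Lib.MP_544bd1_al.E5.OpL
import Pool.Agent.Lib.MP_544bd1_al.Defs
import Pool.Agent.Lib.MP_544bd1_al.GenDefs
import Pool.Agent.Lib.MP_544bd1_al.TwK1

section

/-!
# Checking the table for the Engel identity of degree four (few letters)
-/

namespace Pool.Agent.Lib.MP_544bd1_al.E5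

theorem ckC0 : ∀ k < 8, (k, 0) ≠ (0, 0) → checkAt [0, 1] tC k 0 = true := by decide +kernel

theorem ckC1 : ∀ k < 8, checkAt [0, 1] tC k 1 = true := by decide +kernel

theorem ckC2 : ∀ k < 8, checkAt [0, 1] tC k 2 = true := by decide +kernel

theorem ckC3 : ∀ k < 8, checkAt [0, 1] tC k 3 = true := by decide +kernel

end Pool.Agent.Lib.MP_544bd1_al.E5
end

section

/-!
# Nilpotency theorems in associative rings generated by Lie rings with identities
-/

namespace Pool.Agent.Lib.MP_544bd1_al.E5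

theorem ckA : ∀ k < 4, ∀ m < 4, (k, m) ≠ (0, 0) → checkAt [3, 4, 0] tA k m = true := by
  decide +kernel

theorem ckB : ∀ k < 6, ∀ m < 5, (k, m) ≠ (0, 0) → checkAt [1, 2, 0] tB k m = true := by
  decide +kernel

theorem ckC : ∀ k m, k ≤ 7 → m ≤ 6 → (k, m) ≠ (0, 0) → checkAt [0, 1] tC k m = true := by
  intro k m hk hm h0
  have hk' : k < 8 := by omega
  interval_cases m
  · exact ckC0 k hk' h0
  · exact ckC1 k hk'
  · exact ckC2 k hk'
  · exact ckC3 k hk'
  · exact ckC4 k hk'
  · exact ckC5 k hk'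
  · exact ckC6 k hk'

theorem smul_five {R : Type*} [Ring R] (h5 : (5 : R) = 0) (x : R) : 5 • x = 0 := by
  rw [nsmul_eq_mul, Nat.cast_ofNat, h5, zero_mul]

/-- Higman: in characteristic five the linearised Engel identity of degree four implies that all
products with at least seven equal factors vanish. -/
theorem ring7 {R : Type*} [Ring R] (h5 : (5 : R) = 0) (L : AddSubgroup R)
    (hL : ∀ a ∈ L, ∀ b ∈ L, a * b - b * a ∈ L)
    (hs4 : ∀ p ∈ L, ∀ q ∈ L, ∀ r ∈ L, ∀ t ∈ L, s4 p q r t = 0)
    {X : R} (hX : X ∈ L) {k m : ℕ} {r : R} (hk : 7 ≤ k) (h : Wd L X k m r) : r = 0 := by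
  refine table_nil (smul_five h5) tC [0, 1] 7 6 (by norm_num) hL hX (by decide +kernel) ?_
    (by decide +kernel) (by decide +kernel) ckC (by decide +kernel) (by decide +kernel) hk h
  intro n hn
  simp only [List.mem_cons, List.not_mem_nil, or_false] at hn
  rcases hn with rfl | rfl
  · trivial
  · exact hs4

/-- the second nilpotency theorem -/
theorem ring5 {R : Type*} [Ring R] (h5 : (5 : R) = 0) (L : AddSubgroup R)
    (hL : ∀ a ∈ L, ∀ b ∈ L, a * b - b * a ∈ L)
    (hs4 : ∀ p ∈ L, ∀ q ∈ L, ∀ r ∈ L, ∀ t ∈ L, s4 p q r t = 0)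
    (ht4 : ∀ a ∈ L, ∀ b ∈ L, ∀ c ∈ L, ∀ d ∈ L, ∀ q ∈ L, t4 a b c d q = 0)
    {X : R} (hX : X ∈ L) {k m : ℕ} {r : R} (hk : 5 ≤ k) (h : Wd L X k m r) : r = 0 := by
  refine table_nil (smul_five h5) tB [1, 2, 0] 5 4 (by norm_num) hL hX (by decide +kernel) ?_
    (by decide +kernel) (by decide +kernel) ?_ (by decide +kernel) (by decide +kernel) hk h
  · intro n hn
    simp only [List.mem_cons, List.not_mem_nil, or_false] at hn
    rcases hn with rfl | rfl | rfl
    · exact hs4
    · exact ht4
    · trivial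
  · exact fun k m hk hm h0 => ckB k (by omega) m (by omega) h0

/-- the third nilpotency theorem -/
theorem ring3 {R : Type*} [Ring R] (h5 : (5 : R) = 0) (L : AddSubgroup R)
    (hL : ∀ a ∈ L, ∀ b ∈ L, a * b - b * a ∈ L)
    (hs3 : ∀ p ∈ L, ∀ q ∈ L, ∀ r ∈ L, s3 p q r = 0)
    (ht3 : ∀ a ∈ L, ∀ b ∈ L, ∀ c ∈ L, ∀ q ∈ L, t3 a b c q = 0)
    {X : R} (hX : X ∈ L) {k m : ℕ} {r : R} (hk : 3 ≤ k) (h : Wd L X k m r) : r = 0 := by
  refine table_nil (smul_five h5) tA [3, 4, 0] 3 3 (by norm_num) hL hX (by decide +kernel) ?_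
    (by decide +kernel) (by decide +kernel) ?_ (by decide +kernel) (by decide +kernel) hk h
  · intro n hn
    simp only [List.mem_cons, List.not_mem_nil, or_false] at hn
    rcases hn with rfl | rfl | rfl
    · exact hs3
    · exact ht3
    · trivial
  · exact fun k m hk hm h0 => ckA k (by omega) m (by omega) h0

end Pool.Agent.Lib.MP_544bd1_al.E5
end

section

/-!
# Groups of exponent five with finite three-generator subgroups
-/

namespace Pool.Agent.Lib.MP_544bd1_al.E5

open Subgroup Pool.Agent.Lib.MP_544bd1_al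
open scoped commutatorElement

section nil

variable {H : Type*} [Group H] (hexp : ∀ g : H, g ^ 5 = 1)

include hexp

/-- the normal closure `N` of an element of a nilpotent group of exponent five satisfies
`[γ₄ N, γ₄ N] = 1` -/
theorem nil7 (hn : ∃ c, (⊤ : Subgroup H).lowerCentralSeries c = ⊥) (x : H) :
    ⁅(normalClosure {x}).lowerCentralSeries 3, (normalClosure {x}).lowerCentralSeries 3⁆ = ⊥ := by
  obtain ⟨c, hc⟩ := hn
  refine lcs_comm x (2 ^ c) (b := 7) hc rfl ?_ (by norm_num)
  intro k m r hk hw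
  exact ring7 ((xSer x (2 ^ c)).five_eq_zero hexp) _
    (fun a ha b hb => (xSer x (2 ^ c)).LL_comm ha hb) (s4_LL _ hexp)
    ((xSer x (2 ^ c)).ado_mem_LL (x_mem_F x _)) hk hw

theorem nil5 (hlaw : ∀ u v : H, ⁅⁅⁅⁅⁅v, u⁆, u⁆, u⁆, v⁆, u⁆ = 1)
    (hn : ∃ c, (⊤ : Subgroup H).lowerCentralSeries c = ⊥) (x : H) :
    ⁅(normalClosure {x}).lowerCentralSeries 2, (normalClosure {x}).lowerCentralSeries 2⁆ = ⊥ := by
  obtain ⟨c, hc⟩ := hn
  refine lcs_comm x (2 ^ c) (b := 5) hc rfl ?_ (by norm_num)
  intro k m r hk hw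
  exact ring5 ((xSer x (2 ^ c)).five_eq_zero hexp) _
    (fun a ha b hb => (xSer x (2 ^ c)).LL_comm ha hb) (s4_LL _ hexp) (t4_LL _ hexp hlaw)
    ((xSer x (2 ^ c)).ado_mem_LL (x_mem_F x _)) hk hw

theorem nil3 (hlaw' : ∀ u v : H, ⁅⁅⁅v, u⁆, u⁆, u⁆ = 1)
    (hlaw : ∀ u v : H, ⁅⁅⁅⁅v, u⁆, u⁆, v⁆, u⁆ = 1)
    (hn : ∃ c, (⊤ : Subgroup H).lowerCentralSeries c = ⊥) (x : H) :
    ⁅(normalClosure {x}).lowerCentralSeries 1, (normalClosure {x}).lowerCentralSeries 1⁆ = ⊥ := by
  obtain ⟨c, hc⟩ := hn
  refine lcs_comm x (2 ^ c) (b := 3) hc rfl ?_ (by norm_num)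
  intro k m r hk hw
  exact ring3 ((xSer x (2 ^ c)).five_eq_zero hexp) _
    (fun a ha b hb => (xSer x (2 ^ c)).LL_comm ha hb) (s3_LL _ hlaw') (t3_LL _ hexp hlaw' hlaw)
    ((xSer x (2 ^ c)).ado_mem_LL (x_mem_F x _)) hk hw

end nil

theorem nilpotent_of_finite {H : Type*} [Group H] [Finite H] (hexp : ∀ g : H, g ^ 5 = 1) :
    ∃ c, (⊤ : Subgroup H).lowerCentralSeries c = ⊥ := by
  have : Fact (Nat.Prime 5) := ⟨by norm_num⟩
  have h1 : IsPGroup 5 H := fun g => ⟨1, by rw [pow_one]; exact hexp g⟩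
  exact Subgroup.nilpotent_iff_lowerCentralSeries.1 h1.isNilpotent

section main

variable {G : Type*} [Group G]

theorem lcs_conj {K : Subgroup G} {x b w : G} (hb : b ∈ K) (i : ℕ)
    (hw : w ∈ (ncl K x).lowerCentralSeries i) : b * w * b⁻¹ ∈ (ncl K x).lowerCentralSeries i := by
  have h1 : ((ncl K x).lowerCentralSeries i).map (MulAut.conj b).toMonoidHom ≤
      (ncl K x).lowerCentralSeries i := by
    rw [Subgroup.map_lowerCentralSeries]
    apply Subgroup.lowerCentralSeries_mono
    rintro _ ⟨w, hw, rfl⟩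
    exact ncl_conj hb hw
  exact h1 ⟨w, hw, rfl⟩

theorem comm_of_conj {K : Type*} [Group K] {u : K}
    (h : ∀ p q : K, p * u * p⁻¹ * (q * u * q⁻¹) = q * u * q⁻¹ * (p * u * p⁻¹)) :
    ∀ a ∈ normalClosure {u}, ∀ b ∈ normalClosure {u}, a * b = b * a := by
  have hconj : ∀ a ∈ Group.conjugatesOfSet {u}, ∃ p : K, a = p * u * p⁻¹ := by
    intro a ha
    rw [Group.mem_conjugatesOfSet_iff] at ha
    obtain ⟨v, hv, ha⟩ := ha
    rw [Set.mem_singleton_iff] at hv
    subst hv
    obtain ⟨p, hp⟩ := isConj_iff.1 ha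
    exact ⟨p, hp.symm⟩
  have h1 : normalClosure {u} ≤ Subgroup.centralizer (Group.conjugatesOfSet {u}) := by
    rw [normalClosure, closure_le]
    intro a ha
    rw [SetLike.mem_coe, Subgroup.mem_centralizer_iff]
    intro b hb
    obtain ⟨p, rfl⟩ := hconj a ha
    obtain ⟨q, rfl⟩ := hconj b hb
    exact h q p
  intro a ha
  have h2 : normalClosure {u} ≤ Subgroup.centralizer {a} := by
    rw [normalClosure, closure_le]
    intro b hb
    rw [SetLike.mem_coe, Subgroup.mem_centralizer_iff]
    intro c hc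
    rw [Set.mem_singleton_iff] at hc
    subst hc
    have h3 := h1 ha
    rw [Subgroup.mem_centralizer_iff] at h3
    exact (h3 b hb).symm
  intro b hb
  have h3 := h2 hb
  rw [Subgroup.mem_centralizer_iff] at h3
  exact h3 a rfl

/-- `ncl` inside a bigger subgroup -/
theorem ncl_le_map {K K' : Subgroup G} (hKK : K ≤ K') (y : K') :
    ncl K (y : G) ≤ (normalClosure {y}).map K'.subtype := by
  rw [ncl, closure_le]
  intro z hz
  obtain ⟨h, hh, hz⟩ := hz
  have h1 : y ∈ normalClosure {y} := subset_normalClosure rfl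
  have hN : (normalClosure {y}).Normal := inferInstance
  have h2 := hN.conj_mem y h1 ⟨h, hKK hh⟩
  have h3 : (K'.subtype (⟨h, hKK hh⟩ * y * (⟨h, hKK hh⟩ : K')⁻¹)) = z := by
    rw [hz]; rfl
  exact ⟨_, h2, h3⟩

theorem lcs_le_map {K K' : Subgroup G} (hKK : K ≤ K') (y : K') (i : ℕ) :
    (ncl K (y : G)).lowerCentralSeries i ≤
      ((normalClosure {y}).lowerCentralSeries i).map K'.subtype := by
  rw [Subgroup.map_lowerCentralSeries]
  exact Subgroup.lowerCentralSeries_mono i (ncl_le_map hKK y)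

/-- the step: a commuting condition in three-generator subgroups kills a term of the lower central
series of `ncl` in two-generator subgroups -/
theorem stage (hexp : ∀ g : G, g ^ 5 = 1) (hG : ∀ K : Subgroup G, K.Normal → LF K → K = ⊥) (i : ℕ)
    (hS : ∀ x g h : G, ∀ y : closure {x, g, h}, (y : G) = x →
      ⁅(normalClosure {y}).lowerCentralSeries i, (normalClosure {y}).lowerCentralSeries i⁆ = ⊥)
    (x g : G) : (ncl (closure {x, g}) x).lowerCentralSeries i = ⊥ := by
  rw [eq_bot_iff]
  intro u hu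
  have hcomm : ∀ h : G, u * (h * u * h⁻¹) = (h * u * h⁻¹) * u := by
    intro h
    set K' := closure {x, g, h} with hK'
    have hle : closure {x, g} ≤ K' := by
      apply Subgroup.closure_mono
      intro t ht
      rcases ht with rfl | rfl
      · left; rfl
      · right; left; rfl
    have hx : x ∈ K' := subset_closure (by left; rfl)
    have hh : h ∈ K' := subset_closure (by right; right; rfl)
    obtain ⟨u', hu', e⟩ := lcs_le_map hle ⟨x, hx⟩ i hu
    have hu'' : (⟨h, hh⟩ : K') * u' * (⟨h, hh⟩ : K')⁻¹ ∈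
        (normalClosure {(⟨x, hx⟩ : K')}).lowerCentralSeries i :=
      Normal.conj_mem inferInstance _ hu' _
    have h1 := commutator_mem_commutator hu' hu''
    rw [hS x g h ⟨x, hx⟩ rfl, Subgroup.mem_bot, commutatorElement_eq_one_iff_mul_comm] at h1
    have h2 := congrArg (Subtype.val : K' → G) h1
    have e' : ((u' : K') : G) = u := e
    simpa [e'] using h2
  have hab : ∀ a ∈ normalClosure {u}, ∀ b ∈ normalClosure {u}, a * b = b * a := by
    apply comm_of_conj
    intro p q
    have := hcomm (p⁻¹ * q)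
    calc p * u * p⁻¹ * (q * u * q⁻¹) = p * (u * (p⁻¹ * q * u * (p⁻¹ * q)⁻¹)) * p⁻¹ := by group
      _ = p * ((p⁻¹ * q * u * (p⁻¹ * q)⁻¹) * u) * p⁻¹ := by rw [this]
      _ = _ := by group
  have hbot := hG (normalClosure {u}) inferInstance (LF_of_comm (by norm_num) hexp _ hab)
  have : u ∈ normalClosure {u} := subset_normalClosure rfl
  rw [hbot] at this
  exact this

theorem exp_sub (hexp : ∀ g : G, g ^ 5 = 1) (K : Subgroup G) : ∀ g : K, g ^ 5 = 1 := by
  intro g; ext; simp [hexp]

/-- a group of exponent five with finite three-generator subgroups and without nontrivial locally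
finite normal subgroups is trivial -/
theorem trivial_of (hexp : ∀ g : G, g ^ 5 = 1) (hG : ∀ K : Subgroup G, K.Normal → LF K → K = ⊥)
    (h3 : ∀ x g h : G, Finite (closure {x, g, h})) (x : G) : x = 1 := by
  have hnil : ∀ x g h : G,
      ∃ c, (⊤ : Subgroup (closure {x, g, h})).lowerCentralSeries c = ⊥ := by
    intro x g h
    have := h3 x g h
    exact nilpotent_of_finite (exp_sub hexp _)
  -- stage 1
  have s1 : ∀ x g : G, (ncl (closure {x, g}) x).lowerCentralSeries 3 = ⊥ :=
    stage hexp hG 3 fun x g h y _ => nil7 (exp_sub hexp _) (hnil x g h) y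
  have hcomm0 : ∀ u v : G, ⁅v, u⁆ ∈ ncl (closure {u, v}) u := by
    intro u v
    have hu : u ∈ ncl (closure {u, v}) u :=
      subset_closure ⟨1, one_mem _, by simp⟩
    have hv : v * u * v⁻¹ ∈ ncl (closure {u, v}) u :=
      subset_closure ⟨v, subset_closure (by right; rfl), rfl⟩
    rw [commutatorElement_def]
    exact mul_mem hv (inv_mem hu)
  have hself : ∀ u v : G, u ∈ ncl (closure {u, v}) u := fun u v =>
    subset_closure ⟨1, one_mem _, by simp⟩
  have hstepu : ∀ u v w : G, ∀ i, w ∈ (ncl (closure {u, v}) u).lowerCentralSeries i →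
      ⁅w, u⁆ ∈ (ncl (closure {u, v}) u).lowerCentralSeries (i + 1) := by
    intro u v w i hw
    rw [Subgroup.lowerCentralSeries_succ]
    exact commutator_mem_commutator hw (hself u v)
  have hstepv : ∀ u v w : G, ∀ i, w ∈ (ncl (closure {u, v}) u).lowerCentralSeries i →
      ⁅w, v⁆ ∈ (ncl (closure {u, v}) u).lowerCentralSeries i := by
    intro u v w i hw
    have h1 : ⁅w, v⁆ = w * (v * w * v⁻¹)⁻¹ := by rw [commutatorElement_def]; group
    rw [h1]
    exact mul_mem hw (inv_mem (lcs_conj (subset_closure (by right; rfl)) i hw))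
  have law6' : ∀ u v : G, ⁅⁅⁅⁅⁅v, u⁆, u⁆, u⁆, v⁆, u⁆ = 1 := by
    intro u v
    have h0 : ⁅v, u⁆ ∈ (ncl (closure {u, v}) u).lowerCentralSeries 0 := hcomm0 u v
    have h := hstepu u v _ _ (hstepv u v _ _ (hstepu u v _ _ (hstepu u v _ _ h0)))
    rw [s1] at h
    exact Subgroup.mem_bot.1 h
  -- stage 2
  have s2' : ∀ x g : G, (ncl (closure {x, g}) x).lowerCentralSeries 2 = ⊥ :=
    stage hexp hG 2 fun x g h y _ => nil5 (exp_sub hexp _) (fun u v => by
      apply Subtype.ext
      exact law6' u v) (hnil x g h) y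
  have law3' : ∀ u v : G, ⁅⁅⁅v, u⁆, u⁆, u⁆ = 1 := by
    intro u v
    have h0 : ⁅v, u⁆ ∈ (ncl (closure {u, v}) u).lowerCentralSeries 0 := hcomm0 u v
    have h := hstepu u v _ _ (hstepu u v _ _ h0)
    rw [s2'] at h
    exact Subgroup.mem_bot.1 h
  have law5' : ∀ u v : G, ⁅⁅⁅⁅v, u⁆, u⁆, v⁆, u⁆ = 1 := by
    intro u v
    have h0 : ⁅v, u⁆ ∈ (ncl (closure {u, v}) u).lowerCentralSeries 0 := hcomm0 u v
    have h := hstepu u v _ _ (hstepv u v _ _ (hstepu u v _ _ h0))
    rw [s2'] at h
    exact Subgroup.mem_bot.1 h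
  -- stage 3
  have s3' : ∀ x g : G, (ncl (closure {x, g}) x).lowerCentralSeries 1 = ⊥ :=
    stage hexp hG 1 fun x g h y _ => nil3 (exp_sub hexp _) (fun u v => by
      apply Subtype.ext
      exact law3' u v) (fun u v => by
      apply Subtype.ext
      exact law5' u v) (hnil x g h) y
  -- stage 4
  have s4' : ∀ x g : G, (ncl (closure {x, g}) x).lowerCentralSeries 0 = ⊥ := by
    apply stage hexp hG 0
    intro x g h y hy
    rw [eq_bot_iff, Subgroup.commutator_le]
    intro a ha b hb
    have key : ∀ p q : closure {x, g, h}, p * y * p⁻¹ * (q * y * q⁻¹) =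
        q * y * q⁻¹ * (p * y * p⁻¹) := by
      intro p q
      have h1 := s3' (y : G) (((p⁻¹ * q : closure {x, g, h}) : G))
      have h2 : ⁅(y : G), ((p⁻¹ * q : closure {x, g, h}) : G) * (y : G) *
          ((p⁻¹ * q : closure {x, g, h}) : G)⁻¹⁆ ∈
          (ncl (closure {(y : G), ((p⁻¹ * q : closure {x, g, h}) : G)}) (y : G)).lowerCentralSeries
            1 := by
        rw [Subgroup.lowerCentralSeries_succ, Subgroup.lowerCentralSeries_zero]
        exact commutator_mem_commutator (hself _ _)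
          (subset_closure ⟨_, subset_closure (by right; rfl), rfl⟩)
      rw [h1, Subgroup.mem_bot, commutatorElement_eq_one_iff_mul_comm] at h2
      have h3 : y * ((p⁻¹ * q) * y * (p⁻¹ * q)⁻¹) = ((p⁻¹ * q) * y * (p⁻¹ * q)⁻¹) * y := by
        apply Subtype.ext
        exact h2
      calc p * y * p⁻¹ * (q * y * q⁻¹) = p * (y * ((p⁻¹ * q) * y * (p⁻¹ * q)⁻¹)) * p⁻¹ := by group
        _ = p * (((p⁻¹ * q) * y * (p⁻¹ * q)⁻¹) * y) * p⁻¹ := by rw [h3]
        _ = _ := by group
    rw [Subgroup.mem_bot, commutatorElement_eq_one_iff_mul_comm]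
    exact comm_of_conj key a ha b hb
  have h : x ∈ (ncl (closure {x, 1}) x).lowerCentralSeries 0 := hself x 1
  rw [s4'] at h
  exact Subgroup.mem_bot.1 h

/-- a group of exponent five is locally finite if its three-generator subgroups are finite -/
theorem LF_of_three (hexp : ∀ g : G, g ^ 5 = 1) (h3 : ∀ x g h : G, Finite (closure {x, g, h})) :
    LF (⊤ : Subgroup G) := by
  obtain ⟨N, hNn, hN, hmax⟩ := exists_maximal_LF (G := G)
  have hq : ∀ x : G ⧸ N, x = 1 := by
    apply trivial_of
    · intro g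
      induction g using QuotientGroup.induction_on with
      | H g => rw [← QuotientGroup.mk_pow, hexp]; rfl
    · intro K hKn hK
      have h1 : LF (K.comap (QuotientGroup.mk' N)) := by
        apply LF.extension (QuotientGroup.mk' N)
        · rw [QuotientGroup.ker_mk']; exact hN
        · rw [Subgroup.map_comap_eq_self_of_surjective (QuotientGroup.mk'_surjective N)]
          exact hK
      have h2 : N ≤ K.comap (QuotientGroup.mk' N) := by
        intro x hx
        rw [Subgroup.mem_comap, QuotientGroup.mk'_apply, (QuotientGroup.eq_one_iff x).2 hx]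
        exact K.one_mem
      have h3 := hmax _ (hKn.comap _) h1 h2
      rw [← Subgroup.map_comap_eq_self_of_surjective (QuotientGroup.mk'_surjective N) K, h3,
        QuotientGroup.map_mk'_self]
    · intro x g h
      obtain ⟨x, rfl⟩ := QuotientGroup.mk'_surjective N x
      obtain ⟨g, rfl⟩ := QuotientGroup.mk'_surjective N g
      obtain ⟨h, rfl⟩ := QuotientGroup.mk'_surjective N h
      have := h3 x g h
      have e : closure {(QuotientGroup.mk' N) x, (QuotientGroup.mk' N) g,
          (QuotientGroup.mk' N) h} = (closure {x, g, h}).map (QuotientGroup.mk' N) := by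
        rw [MonoidHom.map_closure]
        congr 1
        rw [Set.image_insert_eq, Set.image_insert_eq, Set.image_singleton]
      rw [e]
      exact Finite.Set.finite_image _ _
  have hNtop : N = ⊤ := by
    rw [eq_top_iff]
    intro x _
    exact (QuotientGroup.eq_one_iff x).1 (hq x)
  rw [← hNtop]
  exact hN

end main

end Pool.Agent.Lib.MP_544bd1_al.E5
end

section

/-!
# Exponent five: final form
-/

namespace Pool.Agent.Lib.MP_544bd1_al.E5

open Pool.Agent.Lib.MP_544bd1_al Subgroup

theorem group_five {G : Type} [Group G] (hG : ∀ g : G, g ^ 5 = 1) :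
    IsLocFinite G ↔ ∀ x y z : G, Finite (closure {x, y, z}) := by
  constructor
  · intro h x y z
    refine h _ ⟨({x, y, z} : Set G).toFinite.toFinset, ?_⟩
    rw [Set.Finite.coe_toFinset]
  · intro h H hH
    exact LF_of_three hG h H le_top hH

theorem five_iff : 5 ∈ LocFinExponents ↔ Finite (FreeBurnside 3 5) := by
  constructor
  · intro h
    exact finite_burnside_of_mem h 3
  · intro h
    refine ⟨by norm_num, fun G _ hG => ?_⟩
    exact (group_five hG).2 fun x y z => finite_of_burnside h G hG x y z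

end Pool.Agent.Lib.MP_544bd1_al.E5
end

section

/-!
# Two-generator groups of exponent `m * n` contain three-generator groups of exponent `n`

If `m ≥ 2` and `B_{2,mn}` is finite, then `B_{3,n}` is finite: every three-generator group of exponent
`n` is a section of a two-generator subgroup of its wreath product with a cyclic group of order `m`.
-/

namespace Pool.Agent.Lib.MP_544bd1_al.E5

open Pool.Agent.Lib.MP_544bd1_al Subgroup

section wreath

variable {D Q : Type*} [Group D] [Group Q]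

theorem wr_left_pow_of_right {a : RegularWreathProduct D Q} (h : a.right = 1) (n : ℕ) :
    (a ^ n).left = a.left ^ n ∧ (a ^ n).right = 1 := by
  induction n with
  | zero => simp
  | succ n ih =>
    rw [pow_succ, RegularWreathProduct.mul_left, RegularWreathProduct.mul_right, ih.1, ih.2, h]
    constructor
    · funext x
      simp [pow_succ]
    · simp

theorem wr_right_pow (a : RegularWreathProduct D Q) (n : ℕ) : (a ^ n).right = a.right ^ n := by
  induction n with
  | zero => simp
  | succ n ih => rw [pow_succ, RegularWreathProduct.mul_right, ih, pow_succ]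

theorem wr_exponent {m n : ℕ} (hD : ∀ d : D, d ^ n = 1) (hQ : ∀ q : Q, q ^ m = 1)
    (a : RegularWreathProduct D Q) : a ^ (m * n) = 1 := by
  rw [pow_mul]
  have h1 : (a ^ m).right = 1 := by rw [wr_right_pow, hQ]
  obtain ⟨h2, h3⟩ := wr_left_pow_of_right h1 n
  apply RegularWreathProduct.ext
  · rw [h2]
    funext x
    simp [hD]
  · rw [h3]
    rfl

/-- evaluation at `1` of the elements of the base group -/
def wrEval : (RegularWreathProduct.rightHom : RegularWreathProduct D Q →* Q).ker →* D where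
  toFun a := a.1.left 1
  map_one' := rfl
  map_mul' a b := by
    have ha : a.1.right = 1 := a.2
    show (a.1 * b.1).left 1 = _
    rw [RegularWreathProduct.mul_left]
    simp [ha]

end wreath

/-- general form: `Q` is a group with `q ^ m = 1` and `σ` has order `m` -/
theorem wr_three {m n : ℕ} (hm : 2 ≤ m) (h : Finite (FreeBurnside 2 (m * n)))
    {D Q : Type} [Group D] [Group Q] (σ : Q) (hQ : ∀ q : Q, q ^ m = 1)
    (hσ : ∀ k : ℕ, 0 < k → k < m → σ ^ k ≠ 1) (hD : ∀ d : D, d ^ n = 1) (x y z : D) :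
    Finite (closure {x, y, z}) := by
  classical
  have hσ1 : σ ≠ 1 := by
    have := hσ 1 one_pos (by omega)
    rwa [pow_one] at this
  obtain ⟨f, hf1, hfσ⟩ : ∃ f : Q → D, f 1 = x ∧ f σ = y :=
    ⟨fun q => if q = 1 then x else y, by simp, by simp [hσ1]⟩
  obtain ⟨g, hg1, hg⟩ : ∃ g : Q → D, g 1 = z ∧ ∀ q, q ≠ 1 → g q = 1 :=
    ⟨fun q => if q = 1 then z else 1, by simp, by intro q hq; simp [hq]⟩
  obtain ⟨a, ha1, ha2⟩ : ∃ a : RegularWreathProduct D Q, a.left = f ∧ a.right = 1 :=
    ⟨⟨f, 1⟩, rfl, rfl⟩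
  obtain ⟨s, hs1, hs2⟩ : ∃ s : RegularWreathProduct D Q, s.left = g ∧ s.right = σ :=
    ⟨⟨g, σ⟩, rfl, rfl⟩
  have hexp : ∀ w : RegularWreathProduct D Q, w ^ (m * n) = 1 := wr_exponent hD hQ
  obtain ⟨ψ, hψ⟩ : ∃ ψ : FreeBurnside 2 (m * n) →* RegularWreathProduct D Q,
      ψ = burnsideLift 2 (m * n) hexp ![a, s] := ⟨_, rfl⟩
  have hfin : Finite ψ.range := Set.finite_range ψ
  have ha : a ∈ ψ.range := ⟨_, by rw [hψ]; exact burnsideLift_of 2 (m * n) hexp ![a, s] 0⟩
  have hs : s ∈ ψ.range := ⟨_, by rw [hψ]; exact burnsideLift_of 2 (m * n) hexp ![a, s] 1⟩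
  -- the elements of the base group
  have hb : s⁻¹ * a * s ∈ ψ.range := mul_mem (mul_mem (inv_mem hs) ha) hs
  have hc : s ^ m ∈ ψ.range := pow_mem hs m
  have hcr : (s ^ m).right = 1 := by rw [wr_right_pow, hQ]
  have hbr : (s⁻¹ * a * s).right = 1 := by
    rw [RegularWreathProduct.mul_right, RegularWreathProduct.mul_right,
      RegularWreathProduct.inv_right, ha2, mul_one, inv_mul_cancel]
  have hcl : (s ^ m).left 1 = z := by
    have key : ∀ k, 0 < k → k ≤ m → (s ^ k).left 1 = z := by
      intro k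
      induction k with
      | zero => intro h; omega
      | succ k ih =>
        intro _ hk
        rcases Nat.eq_zero_or_pos k with rfl | hk0
        · rw [zero_add, pow_one, hs1, hg1]
        · have h1 : (s ^ k).right⁻¹ * 1 ≠ 1 := by
            rw [wr_right_pow, mul_one, hs2]
            intro h1
            exact hσ k hk0 (by omega) (inv_eq_one.1 h1)
          rw [pow_succ, RegularWreathProduct.mul_left, Pi.mul_apply, ih hk0 (by omega), hs1]
          show z * g ((s ^ k).right⁻¹ * 1) = z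
          rw [hg _ h1, mul_one]
    exact key m (by omega) le_rfl
  have hbl : (s⁻¹ * a * s).left 1 = y := by
    have h1 : (s⁻¹ * a * s).left 1 =
        (s.left (s.right * 1))⁻¹ * a.left ((s.right⁻¹)⁻¹ * 1) *
          s.left ((s.right⁻¹ * a.right)⁻¹ * 1) := rfl
    rw [h1, hs1, hs2, ha1, ha2]
    simp only [mul_one, inv_inv]
    rw [hfσ, hg σ hσ1]
    simp
  -- the subgroup of the base group
  obtain ⟨B, hB⟩ : ∃ B : Subgroup (RegularWreathProduct.rightHom :
      RegularWreathProduct D Q →* Q).ker, B = ψ.range.comap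
        (RegularWreathProduct.rightHom : RegularWreathProduct D Q →* Q).ker.subtype := ⟨_, rfl⟩
  have hBfin : (B : Set (RegularWreathProduct.rightHom :
      RegularWreathProduct D Q →* Q).ker).Finite := by
    rw [hB, Subgroup.coe_comap]
    exact Set.Finite.preimage (Subtype.val_injective.injOn) (Set.toFinite _)
  have hMfin : Finite (B.map wrEval) := by
    have : (B.map wrEval : Set D).Finite := by
      rw [Subgroup.coe_map]
      exact hBfin.image _
    exact this.to_subtype
  have hle : closure {x, y, z} ≤ B.map wrEval := by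
    rw [closure_le]
    rintro w (rfl | rfl | rfl)
    · exact ⟨⟨a, ha2⟩, by rw [hB]; exact ha, by
        show a.left 1 = w
        rw [ha1, hf1]⟩
    · exact ⟨⟨s⁻¹ * a * s, hbr⟩, by rw [hB]; exact hb, hbl⟩
    · exact ⟨⟨s ^ m, hcr⟩, by rw [hB]; exact hc, hcl⟩
  exact Finite.of_injective _ (inclusion_injective hle)

/-- the free Burnside group of rank two and exponent `m * n` knows the three-generator groups of
exponent `n` -/
theorem finite_three_of_two {m n : ℕ} (hm : 2 ≤ m) (h : Finite (FreeBurnside 2 (m * n)))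
    (D : Type) [Group D] (hD : ∀ d : D, d ^ n = 1) (x y z : D) :
    Finite (closure {x, y, z}) := by
  refine wr_three hm h (Q := Multiplicative (ZMod m)) (Multiplicative.ofAdd 1) ?_ ?_ hD x y z
  · intro q
    have : m • (Multiplicative.toAdd q) = 0 := by simp
    exact this
  · intro k hk0 hkm h1
    have h2 : ((k : ℕ) : ZMod m) = 0 := by
      have : k • (1 : ZMod m) = 0 := h1
      simpa using this
    rw [ZMod.natCast_eq_zero_iff] at h2
    exact absurd (Nat.le_of_dvd hk0 h2) (by omega)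

/-- if `B_{2,5m}` is finite for some `m ≥ 2`, then all groups of exponent `5` are locally finite -/
theorem five_mem_of_two {m : ℕ} (hm : 2 ≤ m) (h : Finite (FreeBurnside 2 (m * 5))) :
    5 ∈ LocFinExponents := by
  refine ⟨by norm_num, fun G _ hG => ?_⟩
  exact (group_five hG).2 fun x y z => finite_three_of_two hm h G hG x y z

end Pool.Agent.Lib.MP_544bd1_al.E5
end

section

/-!
# Prime powers up to five impose no condition
-/

namespace Pool.Agent.Lib.MP_544bd1_al.E5

open Pool.Agent.Lib.MP_544bd1_al Subgroup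

theorem finite_burnside_of_dvd {r m n : ℕ} (hmn : m ∣ n) (h : Finite (FreeBurnside r n)) :
    Finite (FreeBurnside r m) := by
  have hexp : ∀ g : FreeBurnside r m, g ^ n = 1 := by
    obtain ⟨k, rfl⟩ := hmn
    intro g
    rw [pow_mul, burnside_pow, one_pow]
  let x : Fin r → FreeBurnside r m := fun i => QuotientGroup.mk (FreeGroup.of i)
  let φ := burnsideLift r n hexp x
  have hsurj : Function.Surjective φ := by
    rw [← MonoidHom.range_eq_top]
    have h1 : (⊤ : Subgroup (FreeBurnside r m)) =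
        (⊤ : Subgroup (FreeGroup (Fin r))).map (QuotientGroup.mk' _) := by
      rw [Subgroup.map_top_of_surjective _ (QuotientGroup.mk'_surjective _)]
    rw [eq_top_iff, h1, ← FreeGroup.closure_range_of, MonoidHom.map_closure, closure_le]
    rintro _ ⟨_, ⟨i, rfl⟩, rfl⟩
    exact ⟨_, burnsideLift_of r n hexp x i⟩
  exact Finite.of_surjective _ hsurj

theorem two_mem : 2 ∈ LocFinExponents := mem_of_dvd (by norm_num : 2 ∣ 4) four_mem

/-- prime powers up to five -/
theorem small_mem {n q : ℕ} (hn : n ≠ 5) (hn0 : 0 < n) (h : Finite (FreeBurnside 2 n))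
    (hq : q ∣ n) (hq1 : 1 < q) (hq5 : q ≤ 5) : q ∈ LocFinExponents := by
  have hq' : q = 2 ∨ q = 3 ∨ q = 4 ∨ q = 5 := by omega
  rcases hq' with rfl | rfl | rfl | rfl
  · exact two_mem
  · exact three_mem
  · exact four_mem
  · obtain ⟨m, rfl⟩ := hq
    have hm : 2 ≤ m := by
      rcases m with _ | _ | m
      · omega
      · omega
      · omega
    rw [mul_comm] at h
    exact five_mem_of_two hm h

end Pool.Agent.Lib.MP_544bd1_al.E5
end
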