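import Mathlib
import Pool.Agent.Lib.MP_544bd1_al.TwFinal
import Pool.Agent.Lib.MP_544bd1_al.E5.Small

/-!
# Composite exponents: the exponents two, three, four, five impose no condition
-/

namespace Pool.Agent.Lib.MP_544bd1_al.E5

open Pool.Agent.Lib.MP_544bd1_al Subgroup

/-- **Composite exponents.** -/
theorem comp_exponent {n : ℕ} (hn : 0 < n) (hn5 : n ≠ 5)
    (h1 : ∀ S : Finset ℕ, S.card = 4 → (∀ p ∈ S, p.Prime ∧ p ≠ 2 ∧ p ^ 3 ∣ n) →
      ∃ p ∈ S, ∃ q ∈ S, p ∣ q - 1)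
    (h2 : n.factorization 2 ≤ 2 ∨
      ∀ j ≤ n.factorization 2, (2 ^ j - 1).Prime → ¬ (2 ^ j - 1) ∣ n)
    (hsol : (∃ p q a b : ℕ, p.Prime ∧ q.Prime ∧ n = p ^ a * q ^ b) ∨
      (Finite (FreeBurnside 2 n) → Group.IsSolvable (FreeBurnside 2 n))) :
    n ∈ LocFinExponents ↔ Finite (FreeBurnside 2 n) ∧
      ∀ p : ℕ, p.Prime → p ∣ n → 5 < p ^ n.factorization p →
        p ^ n.factorization p ∈ LocFinExponents := by
  rw [tw_exponent' hn h1 h2 hsol]
  constructor
  · rintro ⟨hf, h⟩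
    exact ⟨hf, fun p hp hpn _ => h p hp hpn⟩
  · rintro ⟨hf, h⟩
    refine ⟨hf, fun p hp hpn => ?_⟩
    by_cases h5 : 5 < p ^ n.factorization p
    · exact h p hp hpn h5
    · refine small_mem hn5 hn hf (Nat.ordProj_dvd n p) ?_ (by omega)
      have h3 : 1 ≤ n.factorization p := (hp.dvd_iff_one_le_factorization hn.ne').1 hpn
      exact Nat.one_lt_pow (by omega) hp.one_lt

/-- **Exponents 10, 15, 20.** -/
theorem ten_fifteen_twenty {n : ℕ} (hn : n = 10 ∨ n = 15 ∨ n = 20) :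
    n ∈ LocFinExponents ↔ Finite (FreeBurnside 2 n) := by
  have h5 : Nat.Prime 5 := by norm_num
  have h3 : Nat.Prime 3 := by norm_num
  constructor
  · intro h
    exact finite_burnside_of_mem h 2
  · rcases hn with rfl | rfl | rfl
    · intro h
      have h1 := tw_even_exponent' (a := 1) (m := 5) (by decide) (Or.inl (by norm_num))
        (Or.inl ⟨5, 1, h5, by norm_num⟩)
      rw [show 2 ^ 1 * 5 = 10 by norm_num, show 2 ^ 1 = 2 by norm_num] at h1
      exact h1.2 ⟨h, two_mem, five_mem_of_two (m := 2) le_rfl h⟩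
    · intro h
      have h1 := tw_biprimary (a := 1) (b := 1) h3 h5 (by norm_num) (Or.inl (by
        rw [show 3 ^ 1 * 5 ^ 1 = 15 by norm_num,
          Nat.factorization_eq_zero_of_not_dvd (by norm_num)]
        norm_num))
      rw [show 3 ^ 1 * 5 ^ 1 = 15 by norm_num, pow_one, pow_one] at h1
      exact h1.2 ⟨three_mem, five_mem_of_two (m := 3) (by norm_num) h, h⟩
    · intro h
      have h1 := tw_even_exponent' (a := 2) (m := 5) (by decide) (Or.inl (by norm_num))
        (Or.inl ⟨5, 1, h5, by norm_num⟩)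
      rw [show 2 ^ 2 * 5 = 20 by norm_num, show 2 ^ 2 = 4 by norm_num] at h1
      exact h1.2 ⟨h, four_mem, five_mem_of_two (m := 4) (by norm_num) h⟩

end Pool.Agent.Lib.MP_544bd1_al.E5
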